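import Pool.Agent.Work.MP_ab49bb_gt.RDefs

/-!
# AbT (M): traces of products of nearly rank one matrices

Let `O` be orthogonal of size `d+1`, `ω = O 0 last`, and consider `X = ∏_{r=1}^{s} O diag(β_r) Oᵀ diag(α_r)` with `β_r last = 1`, `|β_r j| ≤ ρ` for `j ≠ last`, `α_r 0 = 1`, `|α_r i| ≤ ρ` for `i ≠ 0`, `0 ≤ ρ ≤ 1`.
Claim: `|tr X - (ω²)^s| ≤ C (ρ (1 - ω²) + ρ²)` with `C = C(d, s)`.

Proof by expansion over closed paths: `tr X = ∑_{i,j} ∏_r O (i r) (j r) β_r (j r) O (i (r+1)) (j r) α_r (i (r+1))` (indices `r` modulo `s`, `i, j : Fin s → Fin (d+1)`). The path `i = 0, j = last` gives `(ω²)^s`. A path with exactly one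
deviation `j_r = j ≠ last`: the term is `O(0,j)² β_r(j) ω^(2s-2)`; its absolute value is at most `ρ O(0,j)²`, and `∑_{j ≠ last} O(0,j)² = 1 - ω²` (rows of `O` are unit vectors: `O Oᵀ = 1`). Exactly one deviation `i_r = i ≠ 0`: at most `ρ O(i,last)²`,
sum `ρ (1 - ω²)` (columns). Paths with at least two deviations: at most `ρ²` each (all entries of `O` have absolute value `≤ 1`), at most `(d+1)^(2s)` paths. So `C = 2s + (d+1)^(2s)` works.
A variant that avoids cyclic paths: induct on the list with VECTORS. Let `e = e_0`, `g = O e_last` (column). For the factors `X_r = B_r A_r`, `B_r = g gᵀ + B_r'`, `A_r = e eᵀ + A_r'`, all operator norms `≤ 1` (`Matrix` L2 operator norm, or entrywise bounds: every entry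
of a product of `l` matrices with entries `≤ 1` is `≤ (d+1)^(l-1)`), `‖B_r'‖, ‖A_r'‖ ≤ ρ`; telescope `∏ X - ∏ P = ∑_i P..R_i P..P + ∑_{i<j} P..R_i P..R_j X..X`; the traces of the first sums are `ω^(2s-2) eᵀ B_r' e` and `ω^(2s-2) gᵀ A_r' g`, bounded by `ρ (1 - ω²)`;
the others are bounded by `const ρ²`. Any constant is fine.
-/

set_option autoImplicit false

open Matrix

namespace Pool.Agent.KT

private def Good {d : ℕ} (C ε ρ ω' : ℝ) (g e : Fin (d + 1) → ℝ)
    (Y : Matrix (Fin (d + 1)) (Fin (d + 1)) ℝ) : Prop :=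
  ∃ (w : ℝ) (γ δ : Fin (d + 1) → ℝ) (R : Fin (d + 1) → Fin (d + 1) → ℝ),
    (∀ i j, Y i j = w * g i * e j + g i * γ j + δ i * e j + R i j) ∧ |w - ω'| ≤ C * ε ∧
    (∀ i, |γ i| ≤ C * ρ) ∧ (∀ i, |δ i| ≤ C * ρ) ∧ |∑ k, γ k * g k| ≤ C * ε ∧
    |∑ k, e k * δ k| ≤ C * ε ∧ ∀ i j, |R i j| ≤ C * ρ ^ 2

private theorem good_mul {d : ℕ} {C C' ε ρ ω ω1 ω2 : ℝ} {g e : Fin (d + 1) → ℝ}
    {Y Y' : Matrix (Fin (d + 1)) (Fin (d + 1)) ℝ} (hC : 1 ≤ C) (hC' : 1 ≤ C')
    (hρ0 : 0 ≤ ρ) (hρ1 : ρ ≤ 1) (hε : ρ ^ 2 ≤ ε) (hε2 : ε ≤ 2) (hω : ω = ∑ k, e k * g k)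
    (hωa : |ω| ≤ 1) (hω1 : |ω1| ≤ 1) (hω2 : |ω2| ≤ 1) (hg : ∀ i, |g i| ≤ 1)
    (he : ∀ i, |e i| ≤ 1) (h : Good C ε ρ ω1 g e Y) (h' : Good C' ε ρ ω2 g e Y') :
    Good ((10 + 12 * ((d : ℝ) + 1)) * C * C') ε ρ (ω1 * ω * ω2) g e (Y * Y') := by
  obtain ⟨w, γ, δ, R, hY, hw, hγ, hδ, hγg, hδe, hR⟩ := h
  obtain ⟨w', γ', δ', R', hY', hw', hγ', hδ', hγg', hδe', hR'⟩ := h'
  have hε0 : 0 ≤ ε := le_trans (sq_nonneg _) hε
  have hC0 : 0 < C := by linarith
  have hC'0 : 0 < C' := by linarith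
  have hCC : 1 ≤ C * C' := by nlinarith
  have hn : (0 : ℝ) ≤ (d : ℝ) := Nat.cast_nonneg d
  have hwa : |w| ≤ 3 * C := by
    have : |w| ≤ |w - ω1| + |ω1| := by
      have := abs_add_le (w - ω1) ω1
      simpa using this
    nlinarith
  have hwa' : |w'| ≤ 3 * C' := by
    have : |w'| ≤ |w' - ω2| + |ω2| := by
      have := abs_add_le (w' - ω2) ω2
      simpa using this
    nlinarith
  have hρρ : ρ ^ 2 ≤ ρ := by nlinarith
  have hρ3 : ρ ^ 2 * ρ ≤ ρ ^ 2 := by nlinarith [sq_nonneg ρ]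
  refine ⟨w * ω * w' + w * (∑ k, e k * δ' k) + (∑ k, γ k * g k) * w' + ∑ k, γ k * δ' k,
    fun j => (w * ω + ∑ k, γ k * g k) * γ' j, fun i => (ω * w' + ∑ k, e k * δ' k) * δ i,
    fun i j => ∑ k, (w * g i * e k * R' k j + g i * γ k * R' k j + δ i * e k * R' k j +
      R i k * (w' * g k * e j + g k * γ' j + δ' k * e j + R' k j) + δ i * e k * g k * γ' j),
    ?_, ?_, ?_, ?_, ?_, ?_, ?_⟩
  · intro i j
    rw [Matrix.mul_apply]
    simp only [hY, hY', hω]
    simp only [Finset.mul_sum, Finset.sum_mul, add_mul, mul_add, ← Finset.sum_add_distrib]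
    refine Finset.sum_congr rfl fun k _ => ?_
    ring
  · have h1 : |∑ k, γ k * δ' k| ≤ ((d : ℝ) + 1) * (C * C' * ρ ^ 2) := by
      refine le_trans (Finset.abs_sum_le_sum_abs _ _) ?_
      refine le_trans (Finset.sum_le_card_nsmul _ _ (C * C' * ρ ^ 2) ?_) ?_
      · intro k _
        rw [abs_mul]
        have := mul_le_mul (hγ k) (hδ' k) (abs_nonneg _) (by positivity)
        nlinarith
      · simp
    have h2 : w * ω * w' + w * (∑ k, e k * δ' k) + (∑ k, γ k * g k) * w' + ∑ k, γ k * δ' k -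
        ω1 * ω * ω2 = (w - ω1) * ω * w' + ω1 * ω * (w' - ω2) + w * (∑ k, e k * δ' k) +
        (∑ k, γ k * g k) * w' + ∑ k, γ k * δ' k := by ring
    rw [h2]
    have a1 : |(w - ω1) * ω * w'| ≤ 3 * (C * C' * ε) := by
      rw [abs_mul, abs_mul]
      have : |w - ω1| * |ω| ≤ C * ε * 1 := mul_le_mul hw hωa (abs_nonneg _) (by positivity)
      have := mul_le_mul this hwa' (abs_nonneg _) (by positivity)
      nlinarith
    have a2 : |ω1 * ω * (w' - ω2)| ≤ C * C' * ε := by
      rw [abs_mul, abs_mul]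
      have : |ω1| * |ω| ≤ 1 * 1 := mul_le_mul hω1 hωa (abs_nonneg _) (by positivity)
      have := mul_le_mul this hw' (abs_nonneg _) (by positivity)
      have : C' * ε ≤ C * C' * ε := by nlinarith [mul_nonneg hC'0.le hε0]
      nlinarith
    have a3 : |w * (∑ k, e k * δ' k)| ≤ 3 * (C * C' * ε) := by
      rw [abs_mul]
      have := mul_le_mul hwa hδe' (abs_nonneg _) (by positivity)
      nlinarith
    have a4 : |(∑ k, γ k * g k) * w'| ≤ 3 * (C * C' * ε) := by
      rw [abs_mul]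
      have := mul_le_mul hγg hwa' (abs_nonneg _) (by positivity)
      nlinarith
    have a5 : ((d : ℝ) + 1) * (C * C' * ρ ^ 2) ≤ ((d : ℝ) + 1) * (C * C' * ε) := by gcongr
    have := abs_add_le ((w - ω1) * ω * w' + ω1 * ω * (w' - ω2) + w * (∑ k, e k * δ' k) +
        (∑ k, γ k * g k) * w') (∑ k, γ k * δ' k)
    have := abs_add_le ((w - ω1) * ω * w' + ω1 * ω * (w' - ω2) + w * (∑ k, e k * δ' k))
        ((∑ k, γ k * g k) * w')
    have := abs_add_le ((w - ω1) * ω * w' + ω1 * ω * (w' - ω2)) (w * (∑ k, e k * δ' k))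
    have := abs_add_le ((w - ω1) * ω * w') (ω1 * ω * (w' - ω2))
    have hp : 0 ≤ ((d : ℝ) + 1) * (C * C' * ε) := by positivity
    have hfin : (10 + 12 * ((d : ℝ) + 1)) * C * C' * ε =
        10 * (C * C' * ε) + 12 * (((d : ℝ) + 1) * (C * C' * ε)) := by ring
    rw [hfin]
    linarith
  all_goals
    have b1 : |w * ω + ∑ k, γ k * g k| ≤ 5 * C := by
      refine le_trans (abs_add_le _ _) ?_
      rw [abs_mul]
      have : |w| * |ω| ≤ 3 * C * 1 := mul_le_mul hwa hωa (abs_nonneg _) (by positivity)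
      nlinarith
    have b2 : |ω * w' + ∑ k, e k * δ' k| ≤ 5 * C' := by
      refine le_trans (abs_add_le _ _) ?_
      rw [abs_mul]
      have : |ω| * |w'| ≤ 1 * (3 * C') := mul_le_mul hωa hwa' (abs_nonneg _) (by positivity)
      nlinarith
    have hK : 5 ≤ 10 + 12 * ((d : ℝ) + 1) := by linarith
  · intro j
    rw [abs_mul]
    have := mul_le_mul b1 (hγ' j) (abs_nonneg _) (by positivity)
    have h2 : 5 * (C * C' * ρ) ≤ (10 + 12 * ((d : ℝ) + 1)) * (C * C' * ρ) := by gcongr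
    nlinarith
  · intro i
    rw [abs_mul]
    have := mul_le_mul b2 (hδ i) (abs_nonneg _) (by positivity)
    have h2 : 5 * (C * C' * ρ) ≤ (10 + 12 * ((d : ℝ) + 1)) * (C * C' * ρ) := by gcongr
    nlinarith
  · have : ∑ k, (w * ω + ∑ k, γ k * g k) * γ' k * g k =
        (w * ω + ∑ k, γ k * g k) * ∑ k, γ' k * g k := by
      rw [Finset.mul_sum]
      exact Finset.sum_congr rfl fun k _ => by ring
    rw [this, abs_mul]
    have := mul_le_mul b1 hγg' (abs_nonneg _) (by positivity)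
    have h2 : 5 * (C * C' * ε) ≤ (10 + 12 * ((d : ℝ) + 1)) * (C * C' * ε) := by gcongr
    nlinarith
  · have : ∑ k, e k * ((ω * w' + ∑ k, e k * δ' k) * δ k) =
        (ω * w' + ∑ k, e k * δ' k) * ∑ k, e k * δ k := by
      rw [Finset.mul_sum]
      exact Finset.sum_congr rfl fun k _ => by ring
    rw [this, abs_mul]
    have := mul_le_mul b2 hδe (abs_nonneg _) (by positivity)
    have h2 : 5 * (C * C' * ε) ≤ (10 + 12 * ((d : ℝ) + 1)) * (C * C' * ε) := by gcongr
    nlinarith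
  · intro i j
    refine le_trans (Finset.abs_sum_le_sum_abs _ _) ?_
    refine le_trans (Finset.sum_le_card_nsmul _ _ (12 * (C * C' * ρ ^ 2)) ?_) ?_
    · intro k _
      have c1 : |w * g i * e k * R' k j| ≤ 3 * (C * C' * ρ ^ 2) := by
        rw [abs_mul, abs_mul, abs_mul]
        have : |w| * |g i| ≤ 3 * C * 1 := mul_le_mul hwa (hg i) (abs_nonneg _) (by positivity)
        have := mul_le_mul this (he k) (abs_nonneg _) (by positivity)
        have := mul_le_mul this (hR' k j) (abs_nonneg _) (by positivity)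
        nlinarith
      have c2 : |g i * γ k * R' k j| ≤ C * C' * ρ ^ 2 := by
        rw [abs_mul, abs_mul]
        have : |g i| * |γ k| ≤ 1 * (C * 1) :=
          mul_le_mul (hg i) (le_trans (hγ k) (by gcongr)) (abs_nonneg _) (by positivity)
        have := mul_le_mul this (hR' k j) (abs_nonneg _) (by positivity)
        nlinarith
      have c3 : |δ i * e k * R' k j| ≤ C * C' * ρ ^ 2 := by
        rw [abs_mul, abs_mul]
        have : |δ i| * |e k| ≤ (C * 1) * 1 :=
          mul_le_mul (le_trans (hδ i) (by gcongr)) (he k) (abs_nonneg _) (by positivity)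
        have := mul_le_mul this (hR' k j) (abs_nonneg _) (by positivity)
        nlinarith
      have c4 : |w' * g k * e j + g k * γ' j + δ' k * e j + R' k j| ≤ 6 * C' := by
        have q1 : |w' * g k * e j| ≤ 3 * C' := by
          rw [abs_mul, abs_mul]
          have : |w'| * |g k| ≤ 3 * C' * 1 :=
            mul_le_mul hwa' (hg k) (abs_nonneg _) (by positivity)
          have := mul_le_mul this (he j) (abs_nonneg _) (by positivity)
          linarith
        have q2 : |g k * γ' j| ≤ C' := by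
          rw [abs_mul]
          have : |g k| * |γ' j| ≤ 1 * (C' * 1) :=
            mul_le_mul (hg k) (le_trans (hγ' j) (by gcongr)) (abs_nonneg _) (by positivity)
          linarith
        have q3 : |δ' k * e j| ≤ C' := by
          rw [abs_mul]
          have : |δ' k| * |e j| ≤ (C' * 1) * 1 :=
            mul_le_mul (le_trans (hδ' k) (by gcongr)) (he j) (abs_nonneg _) (by positivity)
          linarith
        have q4 : |R' k j| ≤ C' := by
          refine le_trans (hR' k j) ?_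
          have : ρ ^ 2 ≤ 1 := by nlinarith
          nlinarith
        have := abs_add_le (w' * g k * e j + g k * γ' j + δ' k * e j) (R' k j)
        have := abs_add_le (w' * g k * e j + g k * γ' j) (δ' k * e j)
        have := abs_add_le (w' * g k * e j) (g k * γ' j)
        linarith
      have c5 : |R i k * (w' * g k * e j + g k * γ' j + δ' k * e j + R' k j)| ≤
          6 * (C * C' * ρ ^ 2) := by
        rw [abs_mul]
        have := mul_le_mul (hR i k) c4 (abs_nonneg _) (by positivity)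
        nlinarith
      have c6 : |δ i * e k * g k * γ' j| ≤ C * C' * ρ ^ 2 := by
        rw [abs_mul, abs_mul, abs_mul]
        have : |δ i| * |e k| ≤ (C * ρ) * 1 :=
          mul_le_mul (hδ i) (he k) (abs_nonneg _) (by positivity)
        have := mul_le_mul this (hg k) (abs_nonneg _) (by positivity)
        have := mul_le_mul this (hγ' j) (abs_nonneg _) (by positivity)
        nlinarith
      have := abs_add_le (w * g i * e k * R' k j + g i * γ k * R' k j + δ i * e k * R' k j +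
        R i k * (w' * g k * e j + g k * γ' j + δ' k * e j + R' k j)) (δ i * e k * g k * γ' j)
      have := abs_add_le (w * g i * e k * R' k j + g i * γ k * R' k j + δ i * e k * R' k j)
        (R i k * (w' * g k * e j + g k * γ' j + δ' k * e j + R' k j))
      have := abs_add_le (w * g i * e k * R' k j + g i * γ k * R' k j) (δ i * e k * R' k j)
      have := abs_add_le (w * g i * e k * R' k j) (g i * γ k * R' k j)
      linarith
    · simp only [Finset.card_univ, Fintype.card_fin, nsmul_eq_mul, Nat.cast_add, Nat.cast_one]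
      have : 0 ≤ C * C' * ρ ^ 2 := by positivity
      nlinarith

private theorem entry {d : ℕ} {O : Matrix (Fin (d + 1)) (Fin (d + 1)) ℝ} (hO : Oᵀ * O = 1)
    (i j : Fin (d + 1)) : |O i j| ≤ 1 := by
  have h : ∑ k, O k j ^ 2 = 1 := by
    have := congrFun (congrFun hO j) j
    rw [Matrix.mul_apply] at this
    simpa [pow_two] using this
  have h2 : O i j ^ 2 ≤ 1 := by
    rw [← h]
    exact Finset.single_le_sum (f := fun k => O k j ^ 2) (fun k _ => sq_nonneg _)
      (Finset.mem_univ _)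
  exact (sq_le_one_iff_abs_le_one _).1 h2

private theorem good_one {d : ℕ} {O : Matrix (Fin (d + 1)) (Fin (d + 1)) ℝ} {ρ : ℝ}
    {x : (Fin (d + 1) → ℝ) × (Fin (d + 1) → ℝ)} (hO : Oᵀ * O = 1) (hO' : O * Oᵀ = 1)
    (hρ0 : 0 ≤ ρ)
    (h1 : x.1 (Fin.last d) = 1 ∧ ∀ j, j ≠ Fin.last d → |x.1 j| ≤ ρ)
    (h2 : x.2 0 = 1 ∧ ∀ i, i ≠ 0 → |x.2 i| ≤ ρ) (hb : ∀ i j, |O i j| ≤ 1) :
    Good ((d : ℝ) + 1) (ρ * (1 - O 0 (Fin.last d) ^ 2) + ρ ^ 2) ρ (O 0 (Fin.last d))
      (fun i => O i (Fin.last d)) (fun k => if k = 0 then 1 else 0)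
      (O * diagonal x.1 * Oᵀ * diagonal x.2) := by
  have hn : (0 : ℝ) ≤ (d : ℝ) := Nat.cast_nonneg d
  have hcol : ∑ k, O k (Fin.last d) ^ 2 = 1 := by
    have := congrFun (congrFun hO (Fin.last d)) (Fin.last d)
    rw [Matrix.mul_apply] at this
    simpa [pow_two] using this
  have hrow : ∑ k, O 0 k ^ 2 = 1 := by
    have := congrFun (congrFun hO' 0) 0
    rw [Matrix.mul_apply] at this
    simpa [pow_two] using this
  have hω1 : O 0 (Fin.last d) ^ 2 ≤ 1 := by
    rw [← hrow]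
    exact Finset.single_le_sum (f := fun k => O 0 k ^ 2) (fun k _ => sq_nonneg _)
      (Finset.mem_univ _)
  have hε : 0 ≤ ρ * (1 - O 0 (Fin.last d) ^ 2) := mul_nonneg hρ0 (by linarith)
  set b : Fin (d + 1) → ℝ := fun j => if j = Fin.last d then 0 else x.1 j with hbdef
  set a : Fin (d + 1) → ℝ := fun j => if j = 0 then 0 else x.2 j with hadef
  have hba : ∀ j, |b j| ≤ ρ := by
    intro j
    by_cases hj : j = Fin.last d
    · simp [hbdef, hj, hρ0]
    · simpa [hbdef, hj] using h1.2 j hj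
  have haa : ∀ j, |a j| ≤ ρ := by
    intro j
    by_cases hj : j = 0
    · simp [hadef, hj, hρ0]
    · simpa [hadef, hj] using h2.2 j hj
  have hB : ∀ i k, |∑ j, O i j * b j * O k j| ≤ ((d : ℝ) + 1) * ρ := by
    intro i k
    refine le_trans (Finset.abs_sum_le_sum_abs _ _) ?_
    refine le_trans (Finset.sum_le_card_nsmul _ _ ρ ?_) ?_
    · intro j _
      rw [abs_mul, abs_mul]
      have : |O i j| * |b j| ≤ 1 * ρ := mul_le_mul (hb i j) (hba j) (abs_nonneg _) (by positivity)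
      have := mul_le_mul this (hb k j) (abs_nonneg _) (by positivity)
      linarith
    · simp
  refine ⟨O 0 (Fin.last d), fun k => a k * O k (Fin.last d),
    fun i => ∑ j, O i j * b j * O 0 j, fun i k => (∑ j, O i j * b j * O k j) * a k,
    ?_, ?_, ?_, ?_, ?_, ?_, ?_⟩
  · intro i k
    have e1 : (O * diagonal x.1 * Oᵀ * diagonal x.2) i k =
        (∑ j, O i j * x.1 j * O k j) * x.2 k := by
      rw [Matrix.mul_diagonal, Matrix.mul_apply]
      simp only [Matrix.mul_diagonal, Matrix.transpose_apply]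
    have e2 : ∑ j, O i j * x.1 j * O k j =
        O i (Fin.last d) * O k (Fin.last d) + ∑ j, O i j * b j * O k j := by
      have : ∀ j, O i j * x.1 j * O k j = (if j = Fin.last d then
          O i (Fin.last d) * O k (Fin.last d) else 0) + O i j * b j * O k j := by
        intro j
        by_cases hj : j = Fin.last d
        · subst hj
          simp [hbdef, h1.1]
        · simp [hbdef, hj]
      rw [Finset.sum_congr rfl fun j _ => this j, Finset.sum_add_distrib]
      simp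
    rw [e1, e2]
    by_cases hk : k = 0
    · subst hk
      simp only [hadef, if_true, h2.1]
      ring
    · simp only [hadef, if_neg hk]
      ring
  · simp only [sub_self, abs_zero]
    positivity
  · intro k
    rw [abs_mul]
    have := mul_le_mul (haa k) (hb k (Fin.last d)) (abs_nonneg _) hρ0
    nlinarith
  · intro i
    exact hB i 0
  · have e0 : |∑ k, a k * O k (Fin.last d) * O k (Fin.last d)| ≤
        ρ * (1 - O 0 (Fin.last d) ^ 2) := by
      refine le_trans (Finset.abs_sum_le_sum_abs _ _) ?_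
      have : 1 - O 0 (Fin.last d) ^ 2 =
          ∑ k, (if k = 0 then 0 else O k (Fin.last d) ^ 2) := by
        rw [← hcol]
        have : ∀ k, O k (Fin.last d) ^ 2 = (if k = 0 then O 0 (Fin.last d) ^ 2 else 0) +
            (if k = 0 then 0 else O k (Fin.last d) ^ 2) := by
          intro k
          by_cases hk : k = 0
          · subst hk; simp
          · simp [hk]
        rw [Finset.sum_congr rfl fun j _ => this j, Finset.sum_add_distrib]
        simp
      rw [this, Finset.mul_sum]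
      refine Finset.sum_le_sum fun k _ => ?_
      by_cases hk : k = 0
      · simp [hadef, hk]
      · rw [if_neg hk, mul_assoc, abs_mul, ← pow_two, abs_of_nonneg (sq_nonneg (O k (Fin.last d)))]
        exact mul_le_mul_of_nonneg_right (haa k) (sq_nonneg _)
    have : 0 ≤ ρ ^ 2 := sq_nonneg _
    nlinarith
  · have e0 : |∑ j, O 0 j * b j * O 0 j| ≤ ρ * (1 - O 0 (Fin.last d) ^ 2) := by
      refine le_trans (Finset.abs_sum_le_sum_abs _ _) ?_
      have : 1 - O 0 (Fin.last d) ^ 2 =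
          ∑ k, (if k = Fin.last d then 0 else O 0 k ^ 2) := by
        rw [← hrow]
        have : ∀ k, O 0 k ^ 2 = (if k = Fin.last d then O 0 (Fin.last d) ^ 2 else 0) +
            (if k = Fin.last d then 0 else O 0 k ^ 2) := by
          intro k
          by_cases hk : k = Fin.last d
          · subst hk; simp
          · simp [hk]
        rw [Finset.sum_congr rfl fun j _ => this j, Finset.sum_add_distrib]
        simp
      rw [this, Finset.mul_sum]
      refine Finset.sum_le_sum fun k _ => ?_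
      by_cases hk : k = Fin.last d
      · simp [hbdef, hk]
      · have e3 : O 0 k * b k * O 0 k = b k * O 0 k ^ 2 := by ring
        rw [if_neg hk, e3, abs_mul, abs_of_nonneg (sq_nonneg (O 0 k))]
        exact mul_le_mul_of_nonneg_right (hba k) (sq_nonneg _)
    have e4 : ∑ k, (if k = 0 then (1 : ℝ) else 0) * ∑ j, O k j * b j * O 0 j =
        ∑ j, O 0 j * b j * O 0 j := by simp
    rw [e4]
    have : 0 ≤ ρ ^ 2 := sq_nonneg _
    nlinarith
  · intro i k
    rw [abs_mul]
    have := mul_le_mul (hB i k) (haa k) (abs_nonneg _) (by positivity)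
    nlinarith

theorem trace_bound (d s : ℕ) (hs : 0 < s) : ∃ C : ℝ, 0 ≤ C ∧
    ∀ (O : Matrix (Fin (d + 1)) (Fin (d + 1)) ℝ) (ρ : ℝ)
      (L : List ((Fin (d + 1) → ℝ) × (Fin (d + 1) → ℝ))), Oᵀ * O = 1 → 0 ≤ ρ → ρ ≤ 1 →
      L.length = s →
      (∀ x ∈ L, x.1 (Fin.last d) = 1 ∧ ∀ j, j ≠ Fin.last d → |x.1 j| ≤ ρ) →
      (∀ x ∈ L, x.2 0 = 1 ∧ ∀ i, i ≠ 0 → |x.2 i| ≤ ρ) →
      |(L.map fun x : (Fin (d + 1) → ℝ) × (Fin (d + 1) → ℝ) =>
          O * diagonal x.1 * Oᵀ * diagonal x.2).prod.trace -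
        (O 0 (Fin.last d) ^ 2) ^ s| ≤ C * (ρ * (1 - O 0 (Fin.last d) ^ 2) + ρ ^ 2) := by
  -- the constants
  obtain ⟨C, hC1, hCs⟩ : ∃ C : ℝ, 1 ≤ C ∧
      ∀ (O : Matrix (Fin (d + 1)) (Fin (d + 1)) ℝ) (ρ : ℝ)
      (L : List ((Fin (d + 1) → ℝ) × (Fin (d + 1) → ℝ))), Oᵀ * O = 1 → 0 ≤ ρ → ρ ≤ 1 →
      L.length = s →
      (∀ x ∈ L, x.1 (Fin.last d) = 1 ∧ ∀ j, j ≠ Fin.last d → |x.1 j| ≤ ρ) →
      (∀ x ∈ L, x.2 0 = 1 ∧ ∀ i, i ≠ 0 → |x.2 i| ≤ ρ) →
      Good C (ρ * (1 - O 0 (Fin.last d) ^ 2) + ρ ^ 2) ρ (O 0 (Fin.last d) ^ (2 * s - 1))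
        (fun i => O i (Fin.last d)) (fun k => if k = 0 then 1 else 0)
        (L.map fun x : (Fin (d + 1) → ℝ) × (Fin (d + 1) → ℝ) =>
          O * diagonal x.1 * Oᵀ * diagonal x.2).prod := by
    have hn : (0 : ℝ) ≤ (d : ℝ) := Nat.cast_nonneg d
    obtain ⟨m, rfl⟩ : ∃ m, s = m + 1 := ⟨s - 1, by omega⟩
    clear hs
    induction m with
    | zero =>
      refine ⟨(d : ℝ) + 1, by linarith, ?_⟩
      intro O ρ L hO hρ0 hρ1 hL h1 h2
      obtain ⟨x, rfl⟩ := List.length_eq_one_iff.1 hL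
      have hO' : O * Oᵀ = 1 := mul_eq_one_comm.1 hO
      have := good_one (x := x) hO hO' hρ0 (h1 x (by simp)) (h2 x (by simp)) (entry hO)
      simpa using this
    | succ m ih =>
      obtain ⟨C, hC1, hC⟩ := ih
      refine ⟨(10 + 12 * ((d : ℝ) + 1)) * ((d : ℝ) + 1) * C, by nlinarith [mul_nonneg hn hn], ?_⟩
      intro O ρ L hO hρ0 hρ1 hL h1 h2
      obtain ⟨x, L', rfl⟩ : ∃ x L', L = x :: L' := by
        cases L with
        | nil => simp at hL
        | cons x L' => exact ⟨x, L', rfl⟩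
      have hL' : L'.length = m + 1 := by simpa using hL
      have hO' : O * Oᵀ = 1 := mul_eq_one_comm.1 hO
      have g1 := good_one (x := x) hO hO' hρ0 (h1 x (by simp)) (h2 x (by simp)) (entry hO)
      have g2 := hC O ρ L' hO hρ0 hρ1 hL' (fun y hy => h1 y (by simp [hy]))
        (fun y hy => h2 y (by simp [hy]))
      have hb := entry hO
      have hωa : |O 0 (Fin.last d)| ≤ 1 := hb _ _
      have hω2 : O 0 (Fin.last d) ^ 2 ≤ 1 := by
        rw [← sq_abs]
        nlinarith [abs_nonneg (O 0 (Fin.last d))]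
      have hρρ : ρ ^ 2 ≤ 1 := by nlinarith
      have := good_mul (ω := O 0 (Fin.last d)) (by linarith : (1 : ℝ) ≤ (d : ℝ) + 1) hC1 hρ0 hρ1
        (by nlinarith [mul_nonneg hρ0 (sub_nonneg.2 hω2)])
        (by nlinarith [sq_nonneg (O 0 (Fin.last d))]) (by simp) hωa hωa
        (by rw [abs_pow]; exact pow_le_one₀ (abs_nonneg _) hωa) (fun i => hb i _)
        (fun k => by by_cases hk : k = 0 <;> simp [hk]) g1 g2
      rw [List.map_cons, List.prod_cons]
      convert this using 1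
      rw [← pow_two, ← pow_add]
      congr 1
      omega
  have hn : (0 : ℝ) ≤ (d : ℝ) := Nat.cast_nonneg d
  refine ⟨(4 + ((d : ℝ) + 1)) * C, by positivity, ?_⟩
  intro O ρ L hO hρ0 hρ1 hL h1 h2
  obtain ⟨w, γ, δ, R, hY, hw, hγ, hδ, hγg, hδe, hR⟩ := hCs O ρ L hO hρ0 hρ1 hL h1 h2
  have hb := entry hO
  have hωa : |O 0 (Fin.last d)| ≤ 1 := hb _ _
  have hω2 : O 0 (Fin.last d) ^ 2 ≤ 1 := by
    rw [← sq_abs]
    nlinarith [abs_nonneg (O 0 (Fin.last d))]
  have hε1 : 0 ≤ ρ * (1 - O 0 (Fin.last d) ^ 2) := mul_nonneg hρ0 (sub_nonneg.2 hω2)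
  set ε := ρ * (1 - O 0 (Fin.last d) ^ 2) + ρ ^ 2 with hεdef
  have hε : ρ ^ 2 ≤ ε := by linarith
  have e1 : (L.map fun x : (Fin (d + 1) → ℝ) × (Fin (d + 1) → ℝ) =>
          O * diagonal x.1 * Oᵀ * diagonal x.2).prod.trace =
      w * O 0 (Fin.last d) + (∑ k, γ k * O k (Fin.last d)) +
        (∑ k, (if k = 0 then (1 : ℝ) else 0) * δ k) + ∑ k, R k k := by
    rw [Matrix.trace]
    simp only [Matrix.diag_apply, hY, Finset.sum_add_distrib]
    congr 1
    congr 1
    · congr 1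
      · simp
      · exact Finset.sum_congr rfl fun k _ => by ring
    · exact Finset.sum_congr rfl fun k _ => by ring
  have e2 : (O 0 (Fin.last d) ^ 2) ^ s = O 0 (Fin.last d) ^ (2 * s - 1) * O 0 (Fin.last d) := by
    rw [← pow_mul, ← pow_succ]
    congr 1
    omega
  have e3 : w * O 0 (Fin.last d) + (∑ k, γ k * O k (Fin.last d)) +
        (∑ k, (if k = 0 then (1 : ℝ) else 0) * δ k) + ∑ k, R k k -
      O 0 (Fin.last d) ^ (2 * s - 1) * O 0 (Fin.last d) =
      (w - O 0 (Fin.last d) ^ (2 * s - 1)) * O 0 (Fin.last d) + (∑ k, γ k * O k (Fin.last d)) +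
        (∑ k, (if k = 0 then (1 : ℝ) else 0) * δ k) + ∑ k, R k k := by ring
  rw [e1, e2, e3]
  have f1 : |(w - O 0 (Fin.last d) ^ (2 * s - 1)) * O 0 (Fin.last d)| ≤ C * ε := by
    rw [abs_mul]
    have := mul_le_mul hw hωa (abs_nonneg _) (by nlinarith)
    linarith
  have f2 : |∑ k, R k k| ≤ ((d : ℝ) + 1) * (C * ε) := by
    refine le_trans (Finset.abs_sum_le_sum_abs _ _) ?_
    refine le_trans (Finset.sum_le_card_nsmul _ _ (C * ρ ^ 2) fun k _ => hR k k) ?_
    simp only [Finset.card_univ, Fintype.card_fin, nsmul_eq_mul, Nat.cast_add, Nat.cast_one]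
    gcongr
  have := abs_add_le ((w - O 0 (Fin.last d) ^ (2 * s - 1)) * O 0 (Fin.last d) +
    (∑ k, γ k * O k (Fin.last d)) + (∑ k, (if k = 0 then (1 : ℝ) else 0) * δ k)) (∑ k, R k k)
  have := abs_add_le ((w - O 0 (Fin.last d) ^ (2 * s - 1)) * O 0 (Fin.last d) +
    (∑ k, γ k * O k (Fin.last d))) (∑ k, (if k = 0 then (1 : ℝ) else 0) * δ k)
  have := abs_add_le ((w - O 0 (Fin.last d) ^ (2 * s - 1)) * O 0 (Fin.last d))
    (∑ k, γ k * O k (Fin.last d))
  have hp : 0 ≤ C * ε := mul_nonneg (by linarith) (le_trans (sq_nonneg ρ) hε)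
  nlinarith

end Pool.Agent.KT
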