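import Pool.Agent.Work.MP_ab49bb_gt.Qn

/-!
# Det (S-M): the braiding is invertible over every ring

Let `P` be the permutation matrix of the flip (or use `Matrix.submatrix`/`reindex` of the rows by `Equiv.prodComm`): `S x y = R (x.2, x.1) y` with
`R x y = if x.1 + x.2 = y.1 + y.2 ∧ x.1 ≤ y.1 then rc y.1 y.2 (y.1 - x.1) else 0`. `R` is block triangular for `x ↦ x.1` with diagonal entries
`rc i j 0 = pw v ((a-2i)(a-2j))` (units) and inside a block `x.1 = y.1` only `x = y` is nonzero. So `det R = ∏ pw v (..)` is a unit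
(`Matrix.BlockTriangular.det`, or with the lexicographic order; or: `R = D (1 + N)`, `D` diagonal invertible, `N` strictly lowers the first
coordinate, so it is nilpotent and `1 + N` is a unit: `IsNilpotent.isUnit_one_add`). `S = P R`.
`l1`, `l2` are ring homomorphisms: `l1_mul`: `∑_y (if x.2.2 = y.2.2 then X .. ..) (if y.2.2 = z.2.2 then Y .. ..)`.
-/

set_option autoImplicit false

open Matrix

namespace Pool.Agent.KT

section Ring

variable {A : Type*} [CommRing A] (v : Aˣ)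

private theorem det_gb0 (n : ℕ) : gb v n 0 = 1 := by
  cases n <;> rfl

/-- the braiding with the rows exchanged -/
private def dR (a : ℕ) : Matrix (Fin (a + 1) × Fin (a + 1)) (Fin (a + 1) × Fin (a + 1)) A :=
  (S v a).submatrix (Equiv.prodComm (Fin (a + 1)) (Fin (a + 1))) id

private theorem dR_apply (a : ℕ) (x y : Fin (a + 1) × Fin (a + 1)) :
    dR v a x y = if (x.2 : ℕ) + x.1 = y.1 + y.2 ∧ (x.1 : ℕ) ≤ y.1 then
      rc v a y.1 y.2 (y.1 - x.1) else 0 := rfl

private theorem dR_tri (a : ℕ) :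
    (dR v a).BlockTriangular (Prod.fst : Fin (a + 1) × Fin (a + 1) → Fin (a + 1)) := by
  intro x y h
  rw [dR_apply, if_neg]
  rintro ⟨-, h1⟩
  exact absurd (Fin.lt_def.1 h) (not_lt.2 h1)

private theorem dR_diag (a : ℕ) (x : Fin (a + 1) × Fin (a + 1)) : IsUnit (dR v a x x) := by
  rw [dR_apply, if_pos ⟨Nat.add_comm _ _, le_rfl⟩, Nat.sub_self]
  unfold rc
  rw [det_gb0, Finset.prod_range_zero, mul_one, mul_one]
  exact pw_isUnit v _

private theorem dR_unit (a : ℕ) : IsUnit (dR v a).det := by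
  rw [(dR_tri v a).det]
  refine (Finset.prod_induction _ IsUnit (fun x y hx hy => hx.mul hy) isUnit_one ?_)
  intro k _
  have h1 : (dR v a).toSquareBlock Prod.fst k =
      diagonal fun x : {x : Fin (a + 1) × Fin (a + 1) // x.1 = k} => dR v a x.1 x.1 := by
    ext x y
    rw [diagonal_apply]
    show dR v a x.1 y.1 = _
    by_cases h : x = y
    · rw [if_pos h, h]
    · rw [if_neg h, dR_apply, if_neg]
      rintro ⟨h2, -⟩
      apply h
      have h3 : x.1.1 = y.1.1 := x.2.trans y.2.symm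
      apply Subtype.ext
      refine Prod.ext h3 (Fin.ext ?_)
      rw [h3] at h2
      omega
  rw [h1, det_diagonal]
  exact Finset.prod_induction _ IsUnit (fun x y hx hy => hx.mul hy) isUnit_one
    fun x _ => dR_diag v a x.1

theorem isUnit_S (a : ℕ) : IsUnit (S v a) := by
  rw [Matrix.isUnit_iff_isUnit_det]
  have h := dR_unit v a
  unfold dR at h
  rw [det_permute] at h
  exact (IsUnit.mul_iff.1 h).2

theorem s1_eq (a : ℕ) : s1 v a = l1 (S v a) := rfl

theorem s2_eq (a : ℕ) : s2 v a = l2 (S v a) := rfl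

variable {a : ℕ} (X Y : Matrix (Fin (a + 1) × Fin (a + 1)) (Fin (a + 1) × Fin (a + 1)) A)

theorem l1_one : l1 (1 : Matrix (Fin (a + 1) × Fin (a + 1)) (Fin (a + 1) × Fin (a + 1)) A) = 1 := by
  ext x y
  unfold l1
  rw [one_apply, one_apply]
  by_cases h1 : x.1 = y.1 <;> by_cases h2 : x.2.1 = y.2.1 <;> by_cases h3 : x.2.2 = y.2.2 <;>
    simp [Prod.ext_iff, h1, h2, h3]

theorem l2_one : l2 (1 : Matrix (Fin (a + 1) × Fin (a + 1)) (Fin (a + 1) × Fin (a + 1)) A) = 1 := by
  ext x y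
  unfold l2
  rw [one_apply, one_apply]
  by_cases h1 : x.1 = y.1 <;> by_cases h2 : x.2.1 = y.2.1 <;> by_cases h3 : x.2.2 = y.2.2 <;>
    simp [Prod.ext_iff, h1, h2, h3]

theorem l1_mul : l1 (X * Y) = l1 X * l1 Y := by
  ext x y
  rw [mul_apply]
  show (if x.2.2 = y.2.2 then (X * Y) (x.1, x.2.1) (y.1, y.2.1) else 0) =
    ∑ z : Ix a, (if x.2.2 = z.2.2 then X (x.1, x.2.1) (z.1, z.2.1) else 0) *
      (if z.2.2 = y.2.2 then Y (z.1, z.2.1) (y.1, y.2.1) else 0)
  rw [mul_apply, Fintype.sum_prod_type, Fintype.sum_prod_type]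
  have h1 : ∀ p q : Fin (a + 1), ∑ r : Fin (a + 1),
      (if x.2.2 = r then X (x.1, x.2.1) (p, q) else 0) *
        (if r = y.2.2 then Y (p, q) (y.1, y.2.1) else 0) =
      X (x.1, x.2.1) (p, q) * (if x.2.2 = y.2.2 then Y (p, q) (y.1, y.2.1) else 0) := by
    intro p q
    rw [Finset.sum_eq_single x.2.2]
    · rw [if_pos rfl]
    · intro r _ hr
      rw [if_neg (fun h => hr h.symm), zero_mul]
    · intro h
      exact absurd (Finset.mem_univ _) h
  have h2 : ∀ p : Fin (a + 1), ∑ z : Fin (a + 1) × Fin (a + 1),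
      (if x.2.2 = z.2 then X (x.1, x.2.1) (p, z.1) else 0) *
        (if z.2 = y.2.2 then Y (p, z.1) (y.1, y.2.1) else 0) =
      ∑ q : Fin (a + 1), X (x.1, x.2.1) (p, q) *
        (if x.2.2 = y.2.2 then Y (p, q) (y.1, y.2.1) else 0) := by
    intro p
    rw [Fintype.sum_prod_type]
    exact Finset.sum_congr rfl fun q _ => h1 p q
  rw [Finset.sum_congr rfl fun p _ => h2 p]
  by_cases h : x.2.2 = y.2.2
  · simp only [if_pos h]
  · simp only [if_neg h, mul_zero, Finset.sum_const_zero]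

theorem l2_mul : l2 (X * Y) = l2 X * l2 Y := by
  ext x y
  rw [mul_apply]
  show (if x.1 = y.1 then (X * Y) (x.2.1, x.2.2) (y.2.1, y.2.2) else 0) =
    ∑ z : Ix a, (if x.1 = z.1 then X (x.2.1, x.2.2) (z.2.1, z.2.2) else 0) *
      (if z.1 = y.1 then Y (z.2.1, z.2.2) (y.2.1, y.2.2) else 0)
  rw [mul_apply, Fintype.sum_prod_type (f := fun z : Ix a =>
    (if x.1 = z.1 then X (x.2.1, x.2.2) (z.2.1, z.2.2) else 0) *
      (if z.1 = y.1 then Y (z.2.1, z.2.2) (y.2.1, y.2.2) else 0)), Finset.sum_eq_single x.1]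
  · by_cases h : x.1 = y.1
    · simp only [if_pos h, if_true]
    · simp only [if_neg h, mul_zero, Finset.sum_const_zero]
  · intro r _ hr
    refine Finset.sum_eq_zero fun z _ => ?_
    rw [if_neg (fun h => hr h.symm), zero_mul]
  · intro h
    exact absurd (Finset.mem_univ _) h

theorem l1_add : l1 (X + Y) = l1 X + l1 Y := by
  ext x y
  rw [Matrix.add_apply]
  unfold l1
  split_ifs
  · rfl
  · rw [add_zero]

theorem l2_add : l2 (X + Y) = l2 X + l2 Y := by
  ext x y
  rw [Matrix.add_apply]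
  unfold l2
  split_ifs
  · rfl
  · rw [add_zero]

theorem l1_smul (c : A) : l1 (c • X) = c • l1 X := by
  ext x y
  rw [Matrix.smul_apply]
  unfold l1
  split_ifs
  · rfl
  · rw [smul_zero]

theorem l2_smul (c : A) : l2 (c • X) = c • l2 X := by
  ext x y
  rw [Matrix.smul_apply]
  unfold l2
  split_ifs
  · rfl
  · rw [smul_zero]

private theorem l1_mul_inv (h : IsUnit X) : l1 X * l1 X⁻¹ = 1 := by
  rw [← l1_mul, mul_nonsing_inv X ((Matrix.isUnit_iff_isUnit_det X).1 h), l1_one]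

private theorem l2_mul_inv (h : IsUnit X) : l2 X * l2 X⁻¹ = 1 := by
  rw [← l2_mul, mul_nonsing_inv X ((Matrix.isUnit_iff_isUnit_det X).1 h), l2_one]

theorem l1_inv (h : IsUnit X) : (l1 X)⁻¹ = l1 X⁻¹ := inv_eq_right_inv (l1_mul_inv X h)

theorem l2_inv (h : IsUnit X) : (l2 X)⁻¹ = l2 X⁻¹ := inv_eq_right_inv (l2_mul_inv X h)

theorem isUnit_s1 (a : ℕ) : IsUnit (s1 v a) := by
  rw [Matrix.isUnit_iff_isUnit_det]
  exact isUnit_det_of_right_inverse (l1_mul_inv (S v a) (isUnit_S v a))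

theorem isUnit_s2 (a : ℕ) : IsUnit (s2 v a) := by
  rw [Matrix.isUnit_iff_isUnit_det]
  exact isUnit_det_of_right_inverse (l2_mul_inv (S v a) (isUnit_S v a))

end Ring

end Pool.Agent.KT
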