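import Pool.Agent.Work.MP_ab49bb_gt.Gd

/-!
# Gt (M): the trace on highest weight vectors

Let `w ≥ 0` and `f` be an orthonormal basis of the highest weight vectors of weight `w`. Then
`tr_{U_w} X - tr_{U_(w+2)} X = ∑_i ip (f i) (X f i)`.

Proof. Let `P : Matrix ι ι ℝ`, `P i j = ∑_l f l i * nm j * f l j` (so `P x = ∑_l ip (f l) x • f l`), and for every basis vector `e_j` of
weight `w` choose (`decomp`) `e_j = y_j + F z_j`; let `G` be the matrix with columns `z_j` for `wt j = w` and `0` otherwise. Facts: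
(1) for `z'` of weight `w+2`: `ip (f l) (F z') = v^.. ip (E f l) z' = 0` (`ip_E`), so `P F z' = 0`; `y_j` is HW, so `P y_j = y_j` (`span`);
hence `P e_j = y_j` and `e_j = P e_j + F G e_j` for `wt j = w`; so `x = P x + F G x` for all `x` of weight `w`.
(2) `G F z' = z'` for `z'` of weight `w+2`: `F z' = P F z' + F G F z' = F G F z'` and `F` is injective on weight `w + 2 > 0` (`F_inj`;
`G F z' - z'` has weight `w + 2`).
(3) `tr_w X = ∑_{wt j = w} (X e_j)_j = ∑_j (X P e_j)_j + ∑_j (X F G e_j)_j`. With `1_w` the diagonal projection to weight `w`: the first sum is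
`trace (X P 1_w) = trace (X P) = ∑_l ip (f l) (X f l)` (`P` has only entries with both weights `w`). The second sum is
`trace (X F G 1_w) = trace (F X G 1_w) = trace (X G 1_w F)`, and `1_w F = F 1_(w+2)`, so it is `trace (X G F 1_(w+2)) = trace (X 1_(w+2)) = tr_(w+2) X`.
-/

set_option autoImplicit false

open Matrix

namespace Pool.Agent.KT

namespace QM

variable {u : ℝˣ} {ι : Type} [Fintype ι] [DecidableEq ι] (M : QM u ι)

private theorem Pmul {d : ℕ} {f : Fin d → ι → ℝ} (P : Matrix ι ι ℝ)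
    (hP : ∀ i j, P i j = ∑ l, f l i * (M.nm j * f l j)) (x : ι → ℝ) :
    P *ᵥ x = ∑ l, M.ip (f l) x • f l := by
  funext i
  rw [Matrix.mulVec, dotProduct, Finset.sum_apply]
  simp only [hP, Pi.smul_apply, smul_eq_mul, ip, Finset.sum_mul]
  rw [Finset.sum_comm]
  exact Finset.sum_congr rfl fun l _ => Finset.sum_congr rfl fun j _ => by ring

private theorem trw_eq (X : Matrix ι ι ℝ) (w : ℤ) :
    M.trw X w = (X * diagonal fun i => if M.wt i = w then (1 : ℝ) else 0).trace := by
  rw [trw, Matrix.trace]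
  refine Finset.sum_congr rfl fun i _ => ?_
  rw [Matrix.diag_apply, Matrix.mul_diagonal]
  split_ifs
  · rw [mul_one]
  · rw [mul_zero]

private theorem ip_f_F {w : ℤ} {d : ℕ} {f : Fin d → ι → ℝ} (hu : 1 < (u : ℝ)) (hf : M.ONB w f) (l : Fin d)
    {z : ι → ℝ} (hz : M.Wt (w + 2) z) : M.ip (f l) (M.F *ᵥ z) = 0 := by
  have h1 := M.ip_E (f l) hz
  rw [(hf.hw l).E] at h1
  have h2 : M.ip 0 z = 0 := by simp [ip]
  rw [h2] at h1
  rcases mul_eq_zero.1 h1.symm with h3 | h3
  · exact absurd h3 (pw_pos hu _).ne'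
  · exact h3

theorem trw_sub (hu : 1 < (u : ℝ)) {w : ℤ} (hw : 0 ≤ w) {d : ℕ} {f : Fin d → ι → ℝ}
    (hf : M.ONB w f) {X : Matrix ι ι ℝ} (hX : M.Com X) :
    M.trw X w - M.trw X (w + 2) = ∑ i, M.ip (f i) (X *ᵥ f i) := by
  classical
  have hsing : ∀ j, M.Wt (M.wt j) (Pi.single j (1 : ℝ)) := by
    intro j i hi
    rw [Pi.single_apply, if_neg]
    rintro rfl
    exact hi rfl
  have hdec : ∀ j, ∃ y z, M.wt j = w → (M.HW w y ∧ M.Wt (w + 2) z ∧
      (Pi.single j (1 : ℝ) : ι → ℝ) = y + M.F *ᵥ z) := by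
    intro j
    by_cases hj : M.wt j = w
    · obtain ⟨y, z, h1, h2, h3⟩ := M.decomp (hj ▸ hsing j : M.Wt w (Pi.single j (1 : ℝ)))
      exact ⟨y, z, fun _ => ⟨h1, h2, h3⟩⟩
    · exact ⟨0, 0, fun h => absurd h hj⟩
  choose Y Z hYZ using hdec
  set E1 : Matrix ι ι ℝ := diagonal fun i => if M.wt i = w then (1 : ℝ) else 0 with hE1
  set E2 : Matrix ι ι ℝ := diagonal fun i => if M.wt i = w + 2 then (1 : ℝ) else 0 with hE2
  obtain ⟨P, hP⟩ : ∃ P : Matrix ι ι ℝ, ∀ i j, P i j = ∑ l, f l i * (M.nm j * f l j) :=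
    ⟨fun i j => ∑ l, f l i * (M.nm j * f l j), fun _ _ => rfl⟩
  obtain ⟨G, hG⟩ : ∃ G : Matrix ι ι ℝ, ∀ i j, G i j = if M.wt j = w then Z j i else 0 :=
    ⟨fun i j => if M.wt j = w then Z j i else 0, fun _ _ => rfl⟩
  have hPx := M.Pmul P hP
  have hGcol : ∀ j, G *ᵥ Pi.single j 1 = if M.wt j = w then Z j else 0 := by
    intro j
    funext i
    rw [Matrix.mulVec_single_one, Matrix.col_apply, hG]
    split_ifs <;> rfl
  have hE1col : ∀ j, E1 *ᵥ Pi.single j (1 : ℝ) = if M.wt j = w then Pi.single j 1 else 0 := by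
    intro j
    rw [hE1, Matrix.diagonal_mulVec_single, mul_one]
    split_ifs
    · rfl
    · exact Pi.single_zero j
  have hE2col : ∀ j, E2 *ᵥ Pi.single j (1 : ℝ) = if M.wt j = w + 2 then Pi.single j 1 else 0 := by
    intro j
    rw [hE2, Matrix.diagonal_mulVec_single, mul_one]
    split_ifs
    · rfl
    · exact Pi.single_zero j
  -- `E1 = P + F G`
  have hdecE : E1 = P + M.F * G := by
    refine Matrix.ext_of_mulVec_single fun j => ?_
    rw [hE1col, Matrix.add_mulVec, ← Matrix.mulVec_mulVec, hGcol, hPx]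
    by_cases hj : M.wt j = w
    · rw [if_pos hj, if_pos hj]
      obtain ⟨h1, h2, h3⟩ := hYZ j hj
      rw [h3]
      congr 1
      rw [hf.span _ h1]
      refine Finset.sum_congr rfl fun l _ => ?_
      rw [M.ip_add_right, M.ip_f_F hu hf l h2, add_zero, ← hf.span _ h1]
    · rw [if_neg hj, if_neg hj, Matrix.mulVec_zero, add_zero]
      symm
      refine Finset.sum_eq_zero fun l _ => ?_
      rw [M.ip_of_wt_ne (fun h => hj h.symm) (hf.hw l).wt (hsing j), zero_smul]
  have hE1F : E1 * M.F = M.F * E2 := by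
    ext i j
    rw [hE1, hE2, Matrix.diagonal_mul, Matrix.mul_diagonal]
    by_cases h : M.F i j = 0
    · rw [h, mul_zero, zero_mul]
    · have h1 := M.hF i j h
      by_cases h2 : M.wt i = w
      · rw [if_pos h2, if_pos (by omega), one_mul, mul_one]
      · rw [if_neg h2, if_neg (by omega), zero_mul, mul_zero]
  have hGE1 : G * E1 = G := by
    ext i j
    rw [hE1, Matrix.mul_diagonal, hG]
    split_ifs
    · rw [mul_one]
    · rw [mul_zero]
  have hGw : ∀ x : ι → ℝ, M.Wt (w + 2) (G *ᵥ x) := by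
    intro x i hi
    rw [Matrix.mulVec, dotProduct]
    refine Finset.sum_eq_zero fun j _ => ?_
    rw [hG]
    split_ifs with h
    · rw [(hYZ j h).2.1 i hi, zero_mul]
    · rw [zero_mul]
  have hGF : G * M.F = E2 := by
    have h1 : G * M.F = G * M.F * E2 := by
      rw [Matrix.mul_assoc, ← hE1F, ← Matrix.mul_assoc, hGE1]
    rw [h1]
    refine Matrix.ext_of_mulVec_single fun j => ?_
    rw [← Matrix.mulVec_mulVec, hE2col]
    by_cases hj : M.wt j = w + 2
    · rw [if_pos hj]
      have hwj : M.Wt (w + 2) (Pi.single j (1 : ℝ)) := hj ▸ hsing j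
      have h2 : (G * M.F) *ᵥ Pi.single j 1 - Pi.single j 1 = 0 := by
        refine M.F_inj hu (t := w + 2) (by omega) ?_ ?_
        · intro i hi
          rw [Pi.sub_apply, hwj i hi, sub_zero, ← Matrix.mulVec_mulVec]
          exact hGw _ i hi
        · rw [Matrix.mulVec_sub, Matrix.mulVec_mulVec, ← Matrix.mul_assoc]
          have h3 : M.F * G = E1 - P := by rw [hdecE]; abel
          rw [h3, Matrix.sub_mul, hE1F, Matrix.sub_mulVec, ← Matrix.mulVec_mulVec, hE2col, if_pos hj,
            ← Matrix.mulVec_mulVec, hPx]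
          have h4 : ∑ l, M.ip (f l) (M.F *ᵥ Pi.single j 1) • f l = 0 :=
            Finset.sum_eq_zero fun l _ => by rw [M.ip_f_F hu hf l hwj, zero_smul]
          rw [h4, sub_zero, sub_self]
      exact sub_eq_zero.1 h2
    · rw [if_neg hj, Matrix.mulVec_zero]
  rw [M.trw_eq X w, M.trw_eq X (w + 2), ← hE1, ← hE2]
  have h5 : X * E1 = X * P + X * (M.F * G) := by rw [hdecE, Matrix.mul_add]
  have h6 : (X * (M.F * G)).trace = (X * E2).trace := by
    rw [← Matrix.mul_assoc, hX.F, Matrix.mul_assoc, Matrix.trace_mul_comm, Matrix.mul_assoc, hGF]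
  rw [h5, Matrix.trace_add, h6, add_sub_cancel_right, Matrix.trace]
  simp only [Matrix.diag_apply, Matrix.mul_apply, hP, ip, Matrix.mulVec, dotProduct, Finset.mul_sum]
  rw [Finset.sum_congr rfl fun x _ => Finset.sum_comm, Finset.sum_comm]
  exact Finset.sum_congr rfl fun l _ => Finset.sum_congr rfl fun x _ => Finset.sum_congr rfl fun y _ => by ring

end QM

end Pool.Agent.KT
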