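import Pool.Agent.Work.MP_ab49bb_gt.Tws
import Pool.Agent.Work.MP_ab49bb_gt.Gt
import Pool.Agent.Work.MP_ab49bb_gt.Det

/-!
# Al (M): the trace on highest weight vectors as a trace of small matrices

`A = diagonal (la u a k)`, `B = om * diagonal (la u a k) * omᵀ`, `om i j = ip (fN i) (gN j)`; `2k ≤ 3a`.
`om_tr`: `gN j = ∑_l om l j • fN l` (`onb_f.span`) and `fN i = ∑_j om i j • gN j` (`onb_g.span`, `ip_comm`), so `∑_l om l j om l j' = ip (gN j) (gN j') = δ`; and `om omᵀ = 1` similarly.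
`wm_fN`: induction on the word (from the left: `wm (l :: w) = lm l * wm w`, `ev A B (l :: w) = (letter) * ev A B w`): it suffices that each letter acts on the `fN i` by its matrix:
`s1 fN_i = la i fN_i`; `s1⁻¹ fN_i = (la i)⁻¹ fN_i` and `A⁻¹ = diagonal (la⁻¹)`; `s2 fN_i = ∑_j om i j la j gN_j = ∑_l (∑_j om l j la j om i j) fN_l = ∑_l B l i fN_l`;
`s2⁻¹ fN_i = ∑_l (om diagonal(la⁻¹) omᵀ) l i fN_l` and `B⁻¹ = om * diagonal (la⁻¹) * omᵀ` (`Matrix.inv_eq_right_inv`, `om_tr`). (`isUnit_s1`, `isUnit_s2`.)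
`tr_ev`: `QM.trw_sub` with the orthonormal basis `fN` and `X = wm w` (`com_wm`), `0 ≤ 3a - 2k`: the right side is `∑_i ip (fN i) (wm w fN i) = ∑_i (ev A B w) i i`.
`ev_twist`: `wm_fN` for the word `σ1σ2σ1σ2σ1σ2` and `twist_hw`, with the linear independence of the `fN` (take the form with `fN l`).
-/

set_option autoImplicit false

open Matrix

namespace Pool.Agent.KT

variable {u : ℝˣ}

/-- the matrix of `σ_1`. Do not change. -/
noncomputable def eA (u : ℝˣ) (a k : ℕ) : Matrix (Fin (dd a k + 1)) (Fin (dd a k + 1)) ℝ :=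
  diagonal (la u a k)

/-- the matrix of `σ_2`. Do not change. -/
noncomputable def eB (u : ℝˣ) (a k : ℕ) : Matrix (Fin (dd a k + 1)) (Fin (dd a k + 1)) ℝ :=
  om u a k * diagonal (la u a k) * (om u a k)ᵀ

theorem om_tr (hu : 1 < (u : ℝ)) {a k : ℕ} (h : 2 * k ≤ 3 * a) :
    (om u a k)ᵀ * om u a k = 1 := by
  have hg := onb_g hu h
  have hf := onb_f hu h
  ext j j'
  rw [Matrix.mul_apply, Matrix.one_apply]
  have h1 := hg.on j j'
  rw [← h1]
  conv_rhs => rw [hf.span _ (hg.hw j')]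
  rw [QM.ip_sum_right]
  apply Finset.sum_congr rfl
  intro l _
  rw [QM.ip_smul_right, Matrix.transpose_apply, QM.ip_comm _ (gN u a k j)]
  exact mul_comm _ _

theorem om_tr' (hu : 1 < (u : ℝ)) {a k : ℕ} (h : 2 * k ≤ 3 * a) :
    om u a k * (om u a k)ᵀ = 1 :=
  mul_eq_one_comm.mp (om_tr hu h)

private theorem f_g (hu : 1 < (u : ℝ)) {a k : ℕ} (h : 2 * k ≤ 3 * a) (l : Fin (dd a k + 1)) :
    fN u a k l = ∑ j : Fin (dd a k + 1), om u a k l j • gN u a k j := by
  have hg := onb_g hu h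
  have hf := onb_f hu h
  conv_lhs => rw [hg.span _ (hf.hw l)]
  apply Finset.sum_congr rfl
  intro j _
  rw [QM.ip_comm]
  rfl

private theorem g_f (hu : 1 < (u : ℝ)) {a k : ℕ} (h : 2 * k ≤ 3 * a) (j : Fin (dd a k + 1)) :
    gN u a k j = ∑ l : Fin (dd a k + 1), om u a k l j • fN u a k l := by
  have hg := onb_g hu h
  have hf := onb_f hu h
  conv_lhs => rw [hf.span _ (hg.hw j)]
  rfl

private theorem act_g (hu : 1 < (u : ℝ)) {a k : ℕ} (h : 2 * k ≤ 3 * a)
    (X : Matrix (Ix a) (Ix a) ℝ) (c : Fin (dd a k + 1) → ℝ)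
    (hX : ∀ j : Fin (dd a k + 1), X *ᵥ gN u a k j = c j • gN u a k j) (l : Fin (dd a k + 1)) :
    X *ᵥ fN u a k l = ∑ r : Fin (dd a k + 1),
      (om u a k * diagonal c * (om u a k)ᵀ) r l • fN u a k r := by
  rw [f_g hu h l, Matrix.mulVec_sum]
  have h1 : ∀ j : Fin (dd a k + 1), X *ᵥ (om u a k l j • gN u a k j) =
      ∑ r : Fin (dd a k + 1), (om u a k r j * c j * om u a k l j) • fN u a k r := by
    intro j
    rw [Matrix.mulVec_smul, hX j, smul_smul]
    conv_lhs => rw [g_f hu h j]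
    rw [Finset.smul_sum]
    apply Finset.sum_congr rfl
    intro r _
    rw [smul_smul]
    congr 1
    ring
  rw [Finset.sum_congr rfl fun j _ => h1 j, Finset.sum_comm]
  apply Finset.sum_congr rfl
  intro r _
  rw [← Finset.sum_smul]
  congr 1
  rw [Matrix.mul_apply]
  apply Finset.sum_congr rfl
  intro j _
  rw [Matrix.mul_diagonal, Matrix.transpose_apply]

private theorem act_f {a k : ℕ} (X : Matrix (Ix a) (Ix a) ℝ) (c : Fin (dd a k + 1) → ℝ)
    (hX : ∀ j : Fin (dd a k + 1), X *ᵥ fN u a k j = c j • fN u a k j) (l : Fin (dd a k + 1)) :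
    X *ᵥ fN u a k l = ∑ r : Fin (dd a k + 1), (diagonal c : Matrix _ _ ℝ) r l • fN u a k r := by
  rw [hX l, Finset.sum_eq_single l]
  · rw [Matrix.diagonal_apply_eq]
  · intro r _ hr
    rw [Matrix.diagonal_apply_ne _ hr, zero_smul]
  · intro h
    exact absurd (Finset.mem_univ l) h

private theorem inv_act {ι : Type} [Fintype ι] [DecidableEq ι] {X : Matrix ι ι ℝ} (hX : IsUnit X)
    {c : ℝ} (hc : c ≠ 0) {x : ι → ℝ} (h : X *ᵥ x = c • x) : X⁻¹ *ᵥ x = c⁻¹ • x := by
  have h1 : X⁻¹ *ᵥ (X *ᵥ x) = x := by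
    rw [Matrix.mulVec_mulVec, Matrix.nonsing_inv_mul _ ((Matrix.isUnit_iff_isUnit_det X).mp hX),
      Matrix.one_mulVec]
  rw [h, Matrix.mulVec_smul] at h1
  calc X⁻¹ *ᵥ x = c⁻¹ • (c • (X⁻¹ *ᵥ x)) := by rw [smul_smul, inv_mul_cancel₀ hc, one_smul]
    _ = c⁻¹ • x := by rw [h1]

private theorem la_ne (hu : 1 < (u : ℝ)) (a k : ℕ) (i : Fin (dd a k + 1)) : la u a k i ≠ 0 :=
  lam_ne hu _ _

private theorem eA_inv (hu : 1 < (u : ℝ)) (a k : ℕ) :
    eA u a k * diagonal (fun i => (la u a k i)⁻¹) = 1 := by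
  unfold eA
  rw [Matrix.diagonal_mul_diagonal]
  have : (fun i => la u a k i * (la u a k i)⁻¹) = fun _ => (1 : ℝ) := by
    funext i
    exact mul_inv_cancel₀ (la_ne hu a k i)
  rw [this, Matrix.diagonal_one]

private theorem eB_inv (hu : 1 < (u : ℝ)) {a k : ℕ} (h : 2 * k ≤ 3 * a) :
    eB u a k * (om u a k * diagonal (fun i => (la u a k i)⁻¹) * (om u a k)ᵀ) = 1 := by
  unfold eB
  calc om u a k * diagonal (la u a k) * (om u a k)ᵀ *
        (om u a k * diagonal (fun i => (la u a k i)⁻¹) * (om u a k)ᵀ)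
      = om u a k * (diagonal (la u a k) * (((om u a k)ᵀ * om u a k) *
          diagonal (fun i => (la u a k i)⁻¹))) * (om u a k)ᵀ := by
        simp only [Matrix.mul_assoc]
    _ = 1 := by
        rw [om_tr hu h, Matrix.one_mul, Matrix.diagonal_mul_diagonal]
        have : (fun i => la u a k i * (la u a k i)⁻¹) = fun _ => (1 : ℝ) := by
          funext i
          exact mul_inv_cancel₀ (la_ne hu a k i)
        rw [this, Matrix.diagonal_one, Matrix.mul_one, om_tr' hu h]

theorem eA_isUnit (hu : 1 < (u : ℝ)) (a k : ℕ) : IsUnit (eA u a k) := by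
  rw [Matrix.isUnit_iff_isUnit_det]
  exact Matrix.isUnit_det_of_right_inverse (eA_inv hu a k)

theorem eB_isUnit (hu : 1 < (u : ℝ)) {a k : ℕ} (h : 2 * k ≤ 3 * a) : IsUnit (eB u a k) := by
  rw [Matrix.isUnit_iff_isUnit_det]
  exact Matrix.isUnit_det_of_right_inverse (eB_inv hu h)

private theorem letter (hu : 1 < (u : ℝ)) {a k : ℕ} (h : 2 * k ≤ 3 * a) (x : Letter)
    (l : Fin (dd a k + 1)) :
    lm u a x *ᵥ fN u a k l = ∑ r : Fin (dd a k + 1),
      (if x.2 then (if x.1 = 0 then eA u a k else eB u a k)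
        else (if x.1 = 0 then (eA u a k)⁻¹ else (eB u a k)⁻¹)) r l • fN u a k r := by
  unfold lm
  by_cases h2 : x.2 = true
  · rw [if_pos h2, if_pos h2]
    by_cases h1 : x.1 = 0
    · rw [if_pos h1, if_pos h1]
      exact act_f _ _ (fun j => s1_fN hu h j) l
    · rw [if_neg h1, if_neg h1]
      exact act_g hu h _ _ (fun j => s2_gN hu h j) l
  · rw [if_neg h2, if_neg h2]
    by_cases h1 : x.1 = 0
    · rw [if_pos h1, if_pos h1, Matrix.inv_eq_right_inv (eA_inv hu a k)]
      exact act_f _ _ (fun j => inv_act (isUnit_s1 u a) (la_ne hu a k j) (s1_fN hu h j)) l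
    · rw [if_neg h1, if_neg h1, Matrix.inv_eq_right_inv (eB_inv hu h)]
      exact act_g hu h _ _ (fun j => inv_act (isUnit_s2 u a) (la_ne hu a k j) (s2_gN hu h j)) l

theorem wm_fN (hu : 1 < (u : ℝ)) {a k : ℕ} (h : 2 * k ≤ 3 * a) (w : List Letter)
    (i : Fin (dd a k + 1)) :
    wm u a w *ᵥ fN u a k i = ∑ l : Fin (dd a k + 1), ev (eA u a k) (eB u a k) w l i • fN u a k l := by
  induction w generalizing i with
  | nil =>
    simp only [wm, ev, List.map_nil, List.prod_nil, Matrix.one_mulVec]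
    rw [Finset.sum_eq_single i]
    · rw [Matrix.one_apply_eq, one_smul]
    · intro r _ hr
      rw [Matrix.one_apply_ne hr, zero_smul]
    · intro h
      exact absurd (Finset.mem_univ i) h
  | cons x w ih =>
    have e1 : wm u a (x :: w) = lm u a x * wm u a w := by
      simp [wm]
    have e2 : ev (eA u a k) (eB u a k) (x :: w) =
        (if x.2 then (if x.1 = 0 then eA u a k else eB u a k)
        else (if x.1 = 0 then (eA u a k)⁻¹ else (eB u a k)⁻¹)) * ev (eA u a k) (eB u a k) w := by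
      simp [ev]
    rw [e1, e2, ← Matrix.mulVec_mulVec, ih, Matrix.mulVec_sum]
    have h1 : ∀ l : Fin (dd a k + 1),
        lm u a x *ᵥ (ev (eA u a k) (eB u a k) w l i • fN u a k l) =
        ∑ r : Fin (dd a k + 1), ((if x.2 then (if x.1 = 0 then eA u a k else eB u a k)
        else (if x.1 = 0 then (eA u a k)⁻¹ else (eB u a k)⁻¹)) r l *
          ev (eA u a k) (eB u a k) w l i) • fN u a k r := by
      intro l
      rw [Matrix.mulVec_smul, letter hu h x l, Finset.smul_sum]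
      apply Finset.sum_congr rfl
      intro r _
      rw [smul_smul, mul_comm]
    rw [Finset.sum_congr rfl fun l _ => h1 l, Finset.sum_comm]
    apply Finset.sum_congr rfl
    intro r _
    rw [← Finset.sum_smul, Matrix.mul_apply]

theorem tr_ev (hu : 1 < (u : ℝ)) {a k : ℕ} (h : 2 * k ≤ 3 * a) (w : List Letter) :
    (UQ u hu a).trw (wm u a w) (3 * (a : ℤ) - 2 * k) -
      (UQ u hu a).trw (wm u a w) (3 * (a : ℤ) - 2 * k + 2) =
      (ev (eA u a k) (eB u a k) w).trace := by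
  have hf := onb_f hu h
  rw [QM.trw_sub _ hu (by omega) hf (com_wm hu a w)]
  unfold Matrix.trace
  apply Finset.sum_congr rfl
  intro i _
  rw [wm_fN hu h w i, QM.ip_sum_right, Finset.sum_eq_single i]
  · rw [QM.ip_smul_right, hf.on i i, if_pos rfl, mul_one, Matrix.diag_apply]
  · intro l _ hl
    rw [QM.ip_smul_right, hf.on i l, if_neg (Ne.symm hl), mul_zero]
  · intro h
    exact absurd (Finset.mem_univ i) h

theorem ev_twist (hu : 1 < (u : ℝ)) {a k : ℕ} (h : 2 * k ≤ 3 * a) :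
    (eA u a k * eB u a k) ^ 3 = eta u a k • (1 : Matrix (Fin (dd a k + 1)) (Fin (dd a k + 1)) ℝ) := by
  have hf := onb_f hu h
  have e1 : ev (eA u a k) (eB u a k) (ft true) = (eA u a k * eB u a k) ^ 3 := by
    simp [ev, ft, pow_succ, mul_assoc]
  have e2 : wm u a (ft true) = (s1 u a * s2 u a) ^ 3 := by
    simp [wm, ft, lm, pow_succ, mul_assoc]
  rw [← e1]
  ext r i
  have h1 := wm_fN hu h (ft true) i
  rw [e2, twist_hw hu h (hf.hw i)] at h1
  have h2 : (UQ u hu a).ip (fN u a k r) (eta u a k • fN u a k i) =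
      (UQ u hu a).ip (fN u a k r) (∑ l : Fin (dd a k + 1),
        ev (eA u a k) (eB u a k) (ft true) l i • fN u a k l) := by rw [h1]
  rw [QM.ip_smul_right, hf.on r i, QM.ip_sum_right, Finset.sum_eq_single r] at h2
  · rw [QM.ip_smul_right, hf.on r r, if_pos rfl, mul_one] at h2
    rw [← h2, Matrix.smul_apply, Matrix.one_apply, smul_eq_mul]
  · intro l _ hl
    rw [QM.ip_smul_right, hf.on r l, if_neg (Ne.symm hl), mul_zero]
  · intro h
    exact absurd (Finset.mem_univ r) h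

end Pool.Agent.KT
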