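import Pool.Agent.Work.MP_ab49bb_gt.Vb

/-!
# As1 (S-M): asymptotics for `v → ∞`

`Asy f k` means `f(v) v^(-k) → 1`. All statements are for `v → ∞`, so `v > 1` may be assumed (`Filter.eventually_gt_atTop 1`).
`Asy.mul`, `Asy.inv`, `Asy.pow`: multiply the limits, `zpow_add₀`. `Asy.add_lt`: `(f+g) v^(-k) = f v^(-k) + g v^(-l) v^(l-k)`, `v^(l-k) → 0` (`tendsto_zpow_atTop_zero`).
`Asy_pw`: `pw (ru v) m = v^m` for `v ≠ 0`. `Asy_qn` (`m > 0`): `[m] = (v^(2m) - v^(-2m)) / (v^2 - v^(-2))`, numerator `Asy 2m`, denominator `Asy 2` (or use `qn_x`: `v^(2m-2) (1-v^(-4m))/(1-v^(-4))`).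
`Asy_gb`: induction on `k ≤ n` with `gb_step`: `gb (k+1) = gb k {n-k}/{k+1}`, exponent `2k(n-k) + 2(n-k) - 2(k+1) = 2(k+1)(n-k-1)`. `Asy_vN`: `-2i(b-i+1) + 2i(b-i) = -2i`.
`Asy_hc`: `(-1)^(i+1) hc (i+1) = (-1)^i hc i v^(-2(b'-2m+2i+2)) [b'-m+i+1]/[b-i]`, for `i < b`, `m ≤ b'`; exponent of the step
`-2(b'-2m+2i+2) + 2(b'-m+i) - 2(b-i-1) = -2(b-m+1)`. `Asy_lam`: exact.
-/

set_option autoImplicit false

namespace Pool.Agent.KT

theorem ru_val {v : ℝ} (h : 1 < v) : ((ru v : ℝˣ) : ℝ) = v := by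
  rw [ru, dif_pos (by linarith : v ≠ 0)]
  rfl

theorem ru_gt {v : ℝ} (h : 1 < v) : 1 < ((ru v : ℝˣ) : ℝ) := by
  rwa [ru_val h]

theorem pw_ru {v : ℝ} (h : 1 < v) (m : ℤ) : pw (ru v) m = v ^ m := by
  rw [pw_real, ru_val h]

private theorem ev1 : ∀ᶠ v : ℝ in Filter.atTop, 1 < v := Filter.eventually_gt_atTop 1

theorem Asy.congr {f g : ℝ → ℝ} {k : ℤ} (h : Asy f k) (he : ∀ v, 1 < v → f v = g v) : Asy g k := by
  refine Filter.Tendsto.congr' ?_ h
  filter_upwards [ev1] with v hv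
  rw [he v hv]

theorem Asy_one : Asy (fun _ => 1) 0 := by
  have e : (fun v : ℝ => (1 : ℝ) * v ^ (-(0 : ℤ))) = fun _ => 1 := by
    funext v
    simp
  rw [Asy, e]
  exact tendsto_const_nhds

theorem Asy.mul {f g : ℝ → ℝ} {k l : ℤ} (hf : Asy f k) (hg : Asy g l) :
    Asy (fun v => f v * g v) (k + l) := by
  have h := Filter.Tendsto.mul hf hg
  rw [one_mul] at h
  refine Filter.Tendsto.congr' ?_ h
  filter_upwards [ev1] with v hv
  have hv0 : v ≠ 0 := by linarith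
  rw [neg_add, zpow_add₀ hv0]
  ring

theorem Asy.inv {f : ℝ → ℝ} {k : ℤ} (hf : Asy f k) : Asy (fun v => (f v)⁻¹) (-k) := by
  have h := Filter.Tendsto.inv₀ hf one_ne_zero
  rw [inv_one] at h
  refine Filter.Tendsto.congr' ?_ h
  filter_upwards [ev1] with v hv
  rw [mul_inv, ← zpow_neg]

theorem Asy.div {f g : ℝ → ℝ} {k l : ℤ} (hf : Asy f k) (hg : Asy g l) :
    Asy (fun v => f v / g v) (k - l) := by
  have h := hf.mul hg.inv
  rw [← sub_eq_add_neg] at h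
  exact h

theorem Asy.pow {f : ℝ → ℝ} {k : ℤ} (hf : Asy f k) (n : ℕ) : Asy (fun v => f v ^ n) (n * k) := by
  have h := Filter.Tendsto.pow hf n
  rw [one_pow] at h
  refine Filter.Tendsto.congr' ?_ h
  filter_upwards [ev1] with v hv
  rw [mul_pow, ← zpow_natCast (v ^ (-k)), ← zpow_mul]
  congr 2
  ring

private theorem small {g : ℝ → ℝ} {k l : ℤ} (hg : Asy g l) (h : l < k) :
    Filter.Tendsto (fun v => g v * v ^ (-k)) Filter.atTop (nhds 0) := by
  have h1 : Filter.Tendsto (fun v : ℝ => v ^ (l - k)) Filter.atTop (nhds 0) :=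
    tendsto_zpow_atTop_zero (by omega)
  have h2 := Filter.Tendsto.mul hg h1
  rw [mul_zero] at h2
  refine Filter.Tendsto.congr' ?_ h2
  filter_upwards [ev1] with v hv
  have hv0 : v ≠ 0 := by linarith
  rw [mul_assoc, ← zpow_add₀ hv0]
  congr 2
  ring

theorem Asy.add_lt {f g : ℝ → ℝ} {k l : ℤ} (hf : Asy f k) (hg : Asy g l) (h : l < k) :
    Asy (fun v => f v + g v) k := by
  have h1 := Filter.Tendsto.add hf (small hg h)
  rw [add_zero] at h1
  refine Filter.Tendsto.congr ?_ h1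
  intro v
  ring

theorem Asy.sub_lt {f g : ℝ → ℝ} {k l : ℤ} (hf : Asy f k) (hg : Asy g l) (h : l < k) :
    Asy (fun v => f v - g v) k := by
  have h1 := Filter.Tendsto.sub hf (small hg h)
  rw [sub_zero] at h1
  refine Filter.Tendsto.congr ?_ h1
  intro v
  ring

/-- A finite sum with one dominating term. -/
theorem Asy_sum {α : Type} [DecidableEq α] (s : Finset α) (f : α → ℝ → ℝ) (e : α → ℤ) (i : α)
    (hi : i ∈ s) (hf : ∀ j ∈ s, Asy (f j) (e j)) (he : ∀ j ∈ s, j ≠ i → e j < e i) :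
    Asy (fun v => ∑ j ∈ s, f j v) (e i) := by
  have h1 : Filter.Tendsto (fun v => ∑ j ∈ s, f j v * v ^ (-e i)) Filter.atTop
      (nhds (∑ j ∈ s, if j = i then 1 else 0)) := by
    refine tendsto_finsetSum s fun j hj => ?_
    by_cases hji : j = i
    · subst hji
      rw [if_pos rfl]
      exact hf j hj
    · rw [if_neg hji]
      exact small (hf j hj) (he j hj hji)
  rw [Finset.sum_ite_eq' s i, if_pos hi] at h1
  refine Filter.Tendsto.congr ?_ h1
  intro v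
  rw [Finset.sum_mul]

theorem Asy.tendsto {f : ℝ → ℝ} (hf : Asy f 0) : Filter.Tendsto f Filter.atTop (nhds 1) := by
  refine Filter.Tendsto.congr ?_ hf
  intro v
  simp

theorem Asy.pos {f : ℝ → ℝ} {k : ℤ} (hf : Asy f k) : ∀ᶠ v in Filter.atTop, 0 < f v := by
  filter_upwards [ev1, Filter.Tendsto.eventually hf (lt_mem_nhds one_pos)] with v hv h
  have h1 : (0 : ℝ) < v ^ (-k) := zpow_pos (by linarith) _
  exact (pos_iff_pos_of_mul_pos h).2 h1

theorem Asy_pw (m : ℤ) : Asy (fun v => pw (ru v) m) m := by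
  refine Filter.Tendsto.congr' ?_ (tendsto_const_nhds (x := (1 : ℝ)))
  filter_upwards [ev1] with v hv
  have hv0 : v ≠ 0 := by linarith
  rw [pw_ru hv, ← zpow_add₀ hv0, add_neg_cancel, zpow_zero]

private theorem Asy_br {m : ℤ} (h : 0 < m) : Asy (fun v => br (ru v) m) (2 * m) :=
  (Asy_pw (2 * m)).sub_lt (Asy_pw (-(2 * m))) (by omega)

theorem Asy_qn {m : ℤ} (h : 0 < m) : Asy (fun v => qn (ru v) m) (2 * m - 2) := by
  have h1 := (Asy_br h).div (Asy_br one_pos)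
  rw [mul_one] at h1
  exact h1

theorem Asy_gb {n k : ℕ} (h : k ≤ n) : Asy (fun v => gb (ru v) n k) (2 * k * ((n : ℤ) - k)) := by
  induction k with
  | zero =>
    have e : (2 * ((0 : ℕ) : ℤ) * ((n : ℤ) - ((0 : ℕ) : ℤ))) = 0 := by simp
    rw [e]
    refine Asy_one.congr fun v _ => ?_
    rw [gb_zero_right]
  | succ k ih =>
    have h1 := ((ih (by omega)).mul (Asy_br (m := (n : ℤ) - k) (by omega))).div
      (Asy_br (m := (k : ℤ) + 1) (by positivity))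
    have e : 2 * (k : ℤ) * ((n : ℤ) - k) + 2 * ((n : ℤ) - k) - 2 * ((k : ℤ) + 1) =
        2 * ((k + 1 : ℕ) : ℤ) * ((n : ℤ) - ((k + 1 : ℕ) : ℤ)) := by
      push_cast
      ring
    rw [e] at h1
    refine h1.congr fun v hv => ?_
    have h2 : br (ru v) ((k : ℤ) + 1) ≠ 0 := (br_pos (ru_gt hv) (by positivity)).ne'
    rw [div_eq_iff h2]
    exact (gb_step (ru v) n k).symm

theorem Asy_vN {b i : ℕ} (h : i ≤ b) : Asy (fun v => vN (ru v) b i) (-(2 * i)) := by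
  have h1 := (Asy_pw (-(2 * (i : ℤ) * ((b : ℤ) - i + 1)))).mul (Asy_gb h)
  have e : -(2 * (i : ℤ) * ((b : ℤ) - i + 1)) + 2 * i * ((b : ℤ) - i) = -(2 * i) := by ring
  rw [e] at h1
  exact h1

theorem Asy_hc {b b' m : ℕ} {i : ℕ} (hm : m ≤ b') (hi : i ≤ b) :
    Asy (fun v => (-1) ^ i * hc (ru v) b b' m i) (-(2 * i * ((b : ℤ) - m + 1))) := by
  induction i with
  | zero =>
    have e : (-(2 * ((0 : ℕ) : ℤ) * ((b : ℤ) - m + 1))) = 0 := by simp
    rw [e]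
    refine Asy_one.congr fun v _ => ?_
    simp [hc]
  | succ i ih =>
    have h1 := (((ih (by omega)).mul (Asy_pw (-(2 * ((b' : ℤ) - 2 * m + 2 * i + 2))))).mul
      (Asy_qn (m := (b' : ℤ) - m + i + 1) (by omega))).div
      (Asy_qn (m := (b : ℤ) - i) (by omega))
    have e : -(2 * (i : ℤ) * ((b : ℤ) - m + 1)) + -(2 * ((b' : ℤ) - 2 * m + 2 * i + 2)) +
        (2 * ((b' : ℤ) - m + i + 1) - 2) - (2 * ((b : ℤ) - i) - 2) =
        -(2 * ((i + 1 : ℕ) : ℤ) * ((b : ℤ) - m + 1)) := by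
      push_cast
      ring
    rw [e] at h1
    refine h1.congr fun v _ => ?_
    rw [hc, pow_succ]
    ring

theorem Asy_lam (a m : ℕ) :
    Asy (fun v => (-1) ^ m * lam (ru v) a m) ((a : ℤ) ^ 2 - 4 * a * m + 2 * (m : ℤ) ^ 2 - 2 * m) := by
  refine (Asy_pw _).congr fun v _ => ?_
  rw [lam, ← mul_assoc, ← mul_pow, neg_one_mul, neg_neg, one_pow, one_mul]

end Pool.Agent.KT
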