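import Pool.Agent.Work.MP_ab49bb_gt.Qn

/-!
# Cm (S-M): endomorphisms of modules

Proofs. `Com.mul`: weights: `(X*Y) i j = ∑ X i l * Y l j ≠ 0` gives a nonzero summand. `Com.inv`: for invertible `X`
(otherwise `X⁻¹ = 0` by `Matrix.nonsing_inv` conventions, `Com` of `0`): multiply `X E = E X` by `X⁻¹` on both sides. Weights:
let `D = diagonal (fun i => (wt i : ℝ))`; `X` preserves weights iff `X D = D X` (entry: `X i j (wt j - wt i) = 0`), so `X⁻¹ D = D X⁻¹`.
`Com.of_sa` (`X` self-adjoint, weight preserving, commutes with `E`, then it commutes with `F`): `adj` gives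
`F j i = nm i * E i j * pw (-(2 wt i)) / nm j`. Then `(X F) i j = ∑_x X i x F x j = ∑_x X i x nm j E j x pw(-2 wt j)/nm x` and
`X i x / nm x = X x i / nm i` (self-adjoint), so `(X F) i j = nm j pw(-2 wt j)/nm i * ∑_x E j x X x i = nm j pw(-2 wt j)/nm i (E X) j i`;
`(F X) i j = ∑_x F i x X x j = ∑_x nm x E x i pw(-2 wt x)/nm i * X x j`, for `X x j ≠ 0` one has `wt x = wt j`, and
`nm x X x j = nm j X j x`, so `(F X) i j = nm j pw(-2 wt j)/nm i (X E) j i`. Equal.
`trw_mul_comm`: `∑_{wt i = w} (X Y) i i = ∑_{wt i = w} ∑_j X i j Y j i`, only `wt j = wt i` contribute (if `X` and `Y` preserve weights).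
`ip_mulVec`: for `X` with `nm x X x y = nm y X y x`: `ip (X x) y = ip x (X y)`.
-/

set_option autoImplicit false

open Matrix

namespace Pool.Agent.KT

namespace QM

variable {u : ℝˣ} {ι : Type} [Fintype ι] [DecidableEq ι] {M : QM u ι}

theorem Com.one : M.Com 1 := by
  refine ⟨?_, by rw [one_mul, mul_one], by rw [one_mul, mul_one]⟩
  intro i j h
  by_cases hij : i = j
  · rw [hij]
  · exact absurd (Matrix.one_apply_ne hij) h

theorem Com.zero : M.Com 0 := by
  refine ⟨?_, by rw [zero_mul, mul_zero], by rw [zero_mul, mul_zero]⟩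
  intro i j h
  exact absurd rfl h

theorem Com.mul {X Y : Matrix ι ι ℝ} (hX : M.Com X) (hY : M.Com Y) : M.Com (X * Y) := by
  refine ⟨?_, ?_, ?_⟩
  · intro i j h
    rw [Matrix.mul_apply] at h
    obtain ⟨l, -, hl⟩ := Finset.exists_ne_zero_of_sum_ne_zero h
    exact (hX.wt i l (left_ne_zero_of_mul hl)).trans (hY.wt l j (right_ne_zero_of_mul hl))
  · rw [mul_assoc, hY.E, ← mul_assoc, hX.E, mul_assoc]
  · rw [mul_assoc, hY.F, ← mul_assoc, hX.F, mul_assoc]

theorem Com.add {X Y : Matrix ι ι ℝ} (hX : M.Com X) (hY : M.Com Y) : M.Com (X + Y) := by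
  refine ⟨?_, by rw [add_mul, mul_add, hX.E, hY.E], by rw [add_mul, mul_add, hX.F, hY.F]⟩
  intro i j h
  rw [Matrix.add_apply] at h
  by_cases hx : X i j = 0
  · apply hY.wt
    intro hy
    rw [hx, hy, add_zero] at h
    exact h rfl
  · exact hX.wt i j hx

theorem Com.smul {X : Matrix ι ι ℝ} (hX : M.Com X) (c : ℝ) : M.Com (c • X) := by
  refine ⟨?_, by rw [smul_mul_assoc, mul_smul_comm, hX.E],
    by rw [smul_mul_assoc, mul_smul_comm, hX.F]⟩
  intro i j h
  rw [Matrix.smul_apply, smul_eq_mul] at h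
  exact hX.wt i j (right_ne_zero_of_mul h)

theorem Com.sub {X Y : Matrix ι ι ℝ} (hX : M.Com X) (hY : M.Com Y) : M.Com (X - Y) := by
  have h := hX.add (hY.smul (-1))
  rwa [neg_one_smul, ← sub_eq_add_neg] at h

theorem Com.pow {X : Matrix ι ι ℝ} (hX : M.Com X) (n : ℕ) : M.Com (X ^ n) := by
  induction n with
  | zero => rw [pow_zero]; exact Com.one
  | succ n ih => rw [pow_succ]; exact ih.mul hX

private theorem inv_comm' {X Y : Matrix ι ι ℝ} (hX : IsUnit X.det) (h : X * Y = Y * X) :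
    X⁻¹ * Y = Y * X⁻¹ := by
  calc X⁻¹ * Y = X⁻¹ * (Y * (X * X⁻¹)) := by rw [Matrix.mul_nonsing_inv X hX, mul_one]
    _ = X⁻¹ * (Y * X) * X⁻¹ := by simp only [mul_assoc]
    _ = X⁻¹ * (X * Y) * X⁻¹ := by rw [h]
    _ = Y * X⁻¹ := by rw [← mul_assoc, Matrix.nonsing_inv_mul X hX, one_mul]

theorem Com.inv {X : Matrix ι ι ℝ} (hX : M.Com X) : M.Com X⁻¹ := by
  by_cases hu : IsUnit X.det
  · refine ⟨?_, inv_comm' hu hX.E, inv_comm' hu hX.F⟩
    intro i j h
    have h1 : X * Matrix.diagonal (fun i => (M.wt i : ℝ)) =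
        Matrix.diagonal (fun i => (M.wt i : ℝ)) * X := by
      ext k l
      rw [Matrix.mul_diagonal, Matrix.diagonal_mul]
      by_cases hkl : X k l = 0
      · rw [hkl, zero_mul, mul_zero]
      · rw [hX.wt k l hkl, mul_comm]
    have h2 := inv_comm' hu h1
    have h3 := congrFun (congrFun h2 i) j
    rw [Matrix.mul_diagonal, Matrix.diagonal_mul, mul_comm (M.wt i : ℝ)] at h3
    have h4 := mul_left_cancel₀ h h3
    exact_mod_cast h4.symm
  · rw [Matrix.nonsing_inv_apply_not_isUnit X hu]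
    exact Com.zero

theorem Com.aeval {X : Matrix ι ι ℝ} (hX : M.Com X) (p : Polynomial ℝ) :
    M.Com (Polynomial.aeval X p) := by
  induction p using Polynomial.induction_on' with
  | add p q hp hq => rw [map_add]; exact hp.add hq
  | monomial n a =>
    rw [Polynomial.aeval_monomial, ← Algebra.smul_def]
    exact (hX.pow n).smul a

theorem Com.of_sa {X : Matrix ι ι ℝ} (hw : ∀ i j, X i j ≠ 0 → M.wt i = M.wt j)
    (hE : X * M.E = M.E * X) (hs : ∀ x y, M.nm x * X x y = M.nm y * X y x) : M.Com X := by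
  refine ⟨hw, hE, ?_⟩
  have hpw : ∀ m : ℤ, pw u m ≠ 0 := fun m => (pw_isUnit u m).ne_zero
  have hpn : ∀ m : ℤ, pw u (-m) * pw u m = 1 := fun m => pw_neg_mul u m
  have hF : ∀ i j, M.F j i = M.nm i * M.E i j * pw u (-(2 * M.wt i)) / M.nm j := by
    intro i j
    have h1 := M.adj i j
    have h2 := hpn (2 * M.wt i)
    rw [eq_div_iff (M.pos j).ne', h1]
    linear_combination (-(M.nm j * M.F j i)) * h2
  ext i j
  have hij := congrFun (congrFun hE j) i
  rw [Matrix.mul_apply, Matrix.mul_apply] at hij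
  rw [Matrix.mul_apply, Matrix.mul_apply]
  have h3 : ∑ x, X i x * M.F x j = M.nm j * pw u (-(2 * M.wt j)) / M.nm i *
      ∑ x, M.E j x * X x i := by
    rw [Finset.mul_sum]
    refine Finset.sum_congr rfl fun x _ => ?_
    rw [hF j x]
    have h4 := hs i x
    have h5 := (M.pos i).ne'
    have h6 := (M.pos x).ne'
    field_simp
    linear_combination (M.nm j * M.E j x * pw u (-(2 * M.wt j))) * h4
  have h7 : ∑ x, M.F i x * X x j = M.nm j * pw u (-(2 * M.wt j)) / M.nm i *
      ∑ x, X j x * M.E x i := by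
    rw [Finset.mul_sum]
    refine Finset.sum_congr rfl fun x _ => ?_
    rw [hF x i]
    by_cases hx : X x j = 0
    · have h4 := hs x j
      rw [hx, mul_zero] at h4
      have h5 : X j x = 0 := (mul_eq_zero.1 h4.symm).resolve_left (M.pos j).ne'
      rw [hx, h5, mul_zero, zero_mul, mul_zero]
    · rw [hw x j hx]
      have h4 := hs x j
      have h5 := (M.pos i).ne'
      field_simp
      linear_combination (M.E x i * pw u (-(2 * M.wt j))) * h4
  rw [h3, h7, hij]

theorem Wt.com {X : Matrix ι ι ℝ} (hX : M.Com X) {t : ℤ} {x : ι → ℝ} (hx : M.Wt t x) :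
    M.Wt t (X *ᵥ x) := by
  intro i hi
  rw [Matrix.mulVec, dotProduct]
  refine Finset.sum_eq_zero fun j _ => ?_
  by_cases h : X i j = 0
  · rw [h, zero_mul]
  · rw [hx j (by rw [← hX.wt i j h]; exact hi), mul_zero]

theorem HW.com {X : Matrix ι ι ℝ} (hX : M.Com X) {t : ℤ} {x : ι → ℝ} (hx : M.HW t x) :
    M.HW t (X *ᵥ x) := by
  refine ⟨hx.wt.com hX, ?_⟩
  rw [Matrix.mulVec_mulVec, ← hX.E, ← Matrix.mulVec_mulVec, hx.E, Matrix.mulVec_zero]

theorem HW.add {t : ℤ} {x y : ι → ℝ} (hx : M.HW t x) (hy : M.HW t y) : M.HW t (x + y) := by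
  refine ⟨fun i hi => ?_, ?_⟩
  · rw [Pi.add_apply, hx.wt i hi, hy.wt i hi, add_zero]
  · rw [Matrix.mulVec_add, hx.E, hy.E, add_zero]

theorem HW.smul {t : ℤ} {x : ι → ℝ} (hx : M.HW t x) (c : ℝ) : M.HW t (c • x) := by
  refine ⟨fun i hi => ?_, ?_⟩
  · rw [Pi.smul_apply, hx.wt i hi, smul_zero]
  · rw [Matrix.mulVec_smul, hx.E, smul_zero]

theorem HW.sum {t : ℤ} {α : Type} (s : Finset α) (f : α → ι → ℝ) (h : ∀ i ∈ s, M.HW t (f i)) :
    M.HW t (∑ i ∈ s, f i) := by
  classical
  induction s using Finset.induction_on with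
  | empty =>
    rw [Finset.sum_empty]
    exact ⟨fun i _ => rfl, Matrix.mulVec_zero _⟩
  | insert a s ha ih =>
    rw [Finset.sum_insert ha]
    exact (h a (Finset.mem_insert_self a s)).add
      (ih fun i hi => h i (Finset.mem_insert_of_mem hi))

theorem trw_mul_comm {X Y : Matrix ι ι ℝ} (hX : M.Com X) (hY : M.Com Y) (w : ℤ) :
    M.trw (X * Y) w = M.trw (Y * X) w := by
  have h1 : ∀ (A B : Matrix ι ι ℝ), M.trw (A * B) w =
      ∑ i, ∑ j, if M.wt i = w then A i j * B j i else 0 := by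
    intro A B
    rw [trw]
    refine Finset.sum_congr rfl fun i _ => ?_
    by_cases h : M.wt i = w
    · simp only [if_pos h]
      rw [Matrix.mul_apply]
    · simp only [if_neg h, Finset.sum_const_zero]
  rw [h1, h1, Finset.sum_comm]
  refine Finset.sum_congr rfl fun i _ => Finset.sum_congr rfl fun j _ => ?_
  by_cases h : X j i = 0
  · simp only [h, zero_mul, mul_zero, ite_self]
  · rw [hX.wt j i h, mul_comm (X j i)]

theorem ip_mulVec {X : Matrix ι ι ℝ} (hs : ∀ x y, M.nm x * X x y = M.nm y * X y x) (x y : ι → ℝ) :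
    M.ip (X *ᵥ x) y = M.ip x (X *ᵥ y) := by
  simp only [ip, Matrix.mulVec, dotProduct]
  have h1 : ∀ i, M.nm i * (∑ j, X i j * x j) * y i = ∑ j, M.nm i * X i j * (x j * y i) := by
    intro i
    rw [Finset.mul_sum, Finset.sum_mul]
    exact Finset.sum_congr rfl fun j _ => by ring
  have h2 : ∀ i, M.nm i * x i * (∑ j, X i j * y j) = ∑ j, M.nm i * X i j * (x i * y j) := by
    intro i
    rw [Finset.mul_sum]
    exact Finset.sum_congr rfl fun j _ => by ring
  simp only [h1, h2]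
  rw [Finset.sum_comm]
  refine Finset.sum_congr rfl fun i _ => Finset.sum_congr rfl fun j _ => ?_
  rw [hs]

end QM

end Pool.Agent.KT
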