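import Pool.Agent.Work.MP_ab49bb_gt.Gb

/-!
# Vb (S-M): the irreducible module `V_b` with its contravariant form

Proofs. `vN_pos`: `pw_pos`, `gb_pos`. `vN_succ`: `gb_step` divided by `br u 1` gives `gb (i+1) [i+1] = gb i [b-i]`, and the exponents:
`-2(i+1)(b-i) = -2i(b-i+1) - 2(b-2i)`. `vComm`: both sides are diagonal; `(E F)_jj = [b-j][j+1]` for `j < b` and `0 = [0][b+1]` for
`j = b`; `(F E)_jj = [j][b-j+1]` for `j > 0` and `0` for `j = 0`; `[b-j][j+1] - [j][b-j+1] = [b-2j]` is `qn_id` with `b := b-j+1`, `j := j`,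
`l := 1` (sign!). Off the diagonal all entries vanish. `vAdj`: both sides vanish unless `i + 1 = j`; then it is `vN_succ`:
`vN i [b-i] = vN (i+1) [i+1] v^(2(b-2i))`.
-/

set_option autoImplicit false

open Matrix

namespace Pool.Agent.KT

variable {u : ℝˣ}

theorem vN_pos (hu : 1 < (u : ℝ)) {b i : ℕ} (h : i ≤ b) : 0 < vN u b i :=
  mul_pos (pw_pos hu _) (gb_pos hu h)

theorem vN_zero (b : ℕ) : vN u b 0 = 1 := by
  rw [vN, gb_zero_right, Nat.cast_zero, mul_zero, zero_mul, neg_zero, pw_zero, mul_one]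

theorem vN_succ (hu : 1 < (u : ℝ)) (b i : ℕ) :
    vN u b (i + 1) * qn u (i + 1) = vN u b i * qn u (b - i) * pw u (-(2 * ((b : ℤ) - 2 * i))) := by
  have h1 := gb_step u b i
  have hb : br u 1 ≠ 0 := (br_pos hu one_pos).ne'
  have h2 : pw u (-(2 * ((i + 1 : ℕ) : ℤ) * ((b : ℤ) - ((i + 1 : ℕ) : ℤ) + 1))) =
      pw u (-(2 * (i : ℤ) * ((b : ℤ) - i + 1))) * pw u (-(2 * ((b : ℤ) - 2 * i))) := by
    rw [← pw_add]
    congr 1
    push_cast
    ring
  rw [vN, vN, qn, qn, h2]
  field_simp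
  linear_combination pw u (-(2 * (i : ℤ) * ((b : ℤ) - i + 1))) * pw u (-(2 * ((b : ℤ) - 2 * i))) * h1

theorem vhE (b : ℕ) (i j : Fin (b + 1)) (h : vE u b i j ≠ 0) : vw b i = vw b j + 2 := by
  have h1 : (i : ℕ) + 1 = j := by
    by_contra hc
    exact h (if_neg hc)
  rw [vw, vw, ← h1]
  push_cast
  ring

theorem vhF (b : ℕ) (i j : Fin (b + 1)) (h : vF u b i j ≠ 0) : vw b i = vw b j - 2 := by
  have h1 : (j : ℕ) + 1 = i := by
    by_contra hc
    exact h (if_neg hc)
  rw [vw, vw, ← h1]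
  push_cast
  ring

private theorem mulEF (b : ℕ) (i j : Fin (b + 1)) : (vE u b * vF u b) i j =
    if i = j then qn u ((b : ℤ) - (i : ℕ)) * qn u ((i : ℕ) + 1) else 0 := by
  rw [Matrix.mul_apply]
  by_cases h : (i : ℕ) < b
  · rw [Finset.sum_eq_single (⟨i + 1, by omega⟩ : Fin (b + 1))]
    · rw [vE, vF, if_pos rfl]
      by_cases hij : i = j
      · subst hij
        rw [if_pos rfl, if_pos rfl]
      · rw [if_neg, if_neg hij, mul_zero]
        intro hc
        apply hij
        apply Fin.ext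
        have : (j : ℕ) + 1 = i + 1 := hc
        omega
    · intro k _ hk
      rw [vE, if_neg, zero_mul]
      intro hc
      apply hk
      apply Fin.ext
      exact hc.symm
    · intro hc
      exact absurd (Finset.mem_univ _) hc
  · have hi : (i : ℕ) = b := by omega
    rw [Finset.sum_eq_zero]
    · rw [hi, sub_self, qn_zero, zero_mul, ite_self]
    · intro k _
      rw [vE, if_neg (by omega), zero_mul]

private theorem mulFE (b : ℕ) (i j : Fin (b + 1)) : (vF u b * vE u b) i j =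
    if i = j then qn u (i : ℕ) * qn u ((b : ℤ) - (i : ℕ) + 1) else 0 := by
  rw [Matrix.mul_apply]
  by_cases h : 0 < (i : ℕ)
  · rw [Finset.sum_eq_single (⟨i - 1, by omega⟩ : Fin (b + 1))]
    · have e : ((i : ℕ) - 1 : ℕ) + 1 = (i : ℕ) := by omega
      have e2 : ((((i : ℕ) - 1 : ℕ) : ℤ) + 1) = ((i : ℕ) : ℤ) := by exact_mod_cast e
      rw [vF, vE, if_pos e, e2]
      by_cases hij : i = j
      · subst hij
        rw [if_pos rfl, if_pos e]
        congr 2
        linarith
      · rw [if_neg hij, if_neg, mul_zero]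
        intro hc
        apply hij
        apply Fin.ext
        have : ((i : ℕ) - 1 : ℕ) + 1 = (j : ℕ) := hc
        omega
    · intro k _ hk
      rw [vF, if_neg, zero_mul]
      intro hc
      apply hk
      apply Fin.ext
      show (k : ℕ) = (i : ℕ) - 1
      omega
    · intro hc
      exact absurd (Finset.mem_univ _) hc
  · have hi : (i : ℕ) = 0 := by omega
    rw [Finset.sum_eq_zero]
    · rw [hi, Nat.cast_zero, qn_zero, zero_mul, ite_self]
    · intro k _
      rw [vF, if_neg (by omega), zero_mul]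

theorem vComm (hu : 1 < (u : ℝ)) (b : ℕ) :
    vE u b * vF u b - vF u b * vE u b = diagonal fun i => qn u (vw b i) := by
  ext i j
  rw [Matrix.sub_apply, mulEF, mulFE]
  by_cases hij : i = j
  · subst hij
    rw [if_pos rfl, if_pos rfl, diagonal_apply_eq]
    have h1 := qn_id (u := u) ((b : ℤ) - (i : ℕ) + 1) (i : ℕ) 1
    have e1 : (b : ℤ) - (i : ℕ) + 1 - 1 = b - (i : ℕ) := by ring
    have e2 : (b : ℤ) - (i : ℕ) + 1 - (i : ℕ) - 1 = vw b i := by
      rw [vw]
      ring
    rw [e1, e2, qn_one hu] at h1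
    linear_combination -h1
  · rw [if_neg hij, if_neg hij, diagonal_apply_ne _ hij, sub_zero]

theorem vAdj (hu : 1 < (u : ℝ)) (b : ℕ) (i j : Fin (b + 1)) :
    vN u b i * vE u b i j = vN u b j * vF u b j i * pw u (2 * vw b i) := by
  rw [vE, vF]
  by_cases h : (i : ℕ) + 1 = j
  · rw [if_pos h, if_pos h, ← h, vN_succ hu b i, vw]
    have h1 := pw_neg_mul u (2 * ((b : ℤ) - 2 * (i : ℕ)))
    linear_combination -(vN u b i * qn u (b - (i : ℕ))) * h1
  · rw [if_neg h, if_neg h, mul_zero, mul_zero, zero_mul]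

/-- The module `V_b`. Do not change. -/
noncomputable def VQ (u : ℝˣ) (hu : 1 < (u : ℝ)) (b : ℕ) : QM u (Fin (b + 1)) where
  wt := vw b
  E := vE u b
  F := vF u b
  nm := fun i => vN u b i
  pos := fun i => vN_pos hu (Nat.lt_succ_iff.mp i.2)
  hE := vhE b
  hF := vhF b
  comm := vComm hu b
  adj := vAdj hu b

end Pool.Agent.KT
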