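import Pool.Agent.Work.MP_ab49bb_gt.Ga
import Pool.Agent.Work.MP_ab49bb_gt.Vb
import Pool.Agent.Work.MP_ab49bb_gt.Cm

/-!
# Fd (S-M): divided powers of `F` on a highest weight vector

`fd u F i y = F^i y / [i]!`; `y` HW of weight `c`, `c : ℕ`. `F_fd`: `F fd i = [i+1] fd (i+1)` (definition, `qf (i+1) = qf i [i+1]`, `pow_succ'`, `qf_pos`).
`fd_wt`: weight `c - 2 i`. `E_fd`: `E fd (i+1) = [c-i] fd i`: induction: `[i+1] E fd(i+1) = E F fd i = F E fd i + [c-2i] fd i` (`comm_wt`)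
`= [c-i+1] F fd (i-1) + [c-2i] fd i = ([c-i+1][i] + [c-2i]) fd i = [i+1][c-i] fd i` (`qn_id` with `b = c-i+1`, `j = i`, `l = 1`, `qn_one`).
`fd_norm`: `[i+1] ip fd(i+1) fd(i+1) = ip fd(i+1) (F fd i) = v^(-2(c-2i)) ip (E fd(i+1)) fd i = v^(-2(c-2i)) [c-i] ip fd i fd i` (`ip_E`), compare `vN_succ`.
`fd_last`: `fd (c+1)` has weight `-c-2 < 0` and `E fd(c+1) = [0] fd c = 0`, so it is `0` (`hw_nonneg`).
-/

set_option autoImplicit false

open Matrix

namespace Pool.Agent.KT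

variable {u : ℝˣ} {ι : Type} [Fintype ι] [DecidableEq ι]

theorem qf_pos (hu : 1 < (u : ℝ)) (i : ℕ) : 0 < qf u i :=
  Finset.prod_pos fun s _ => qn_pos hu (by positivity)

private theorem qf_succ (i : ℕ) : qf u (i + 1) = qf u i * qn u (i + 1) := by
  rw [qf, qf, Finset.prod_range_succ]

theorem fd_zero (F : Matrix ι ι ℝ) (y : ι → ℝ) : fd u F 0 y = y := by
  simp [fd, qf]

theorem F_fd (hu : 1 < (u : ℝ)) (F : Matrix ι ι ℝ) (i : ℕ) (y : ι → ℝ) :
    F *ᵥ fd u F i y = qn u (i + 1) • fd u F (i + 1) y := by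
  have h1 : qf u i ≠ 0 := (qf_pos hu i).ne'
  have h2 : qn u (i + 1) ≠ 0 := (qn_pos hu (by positivity)).ne'
  rw [fd, fd, mulVec_smul, mulVec_mulVec, ← pow_succ', smul_smul, qf_succ]
  congr 1
  field_simp

omit [Fintype ι] [DecidableEq ι] in
private theorem smul_cancel {a : ℝ} (ha : a ≠ 0) {x y : ι → ℝ} (h : a • x = a • y) : x = y :=
  smul_right_injective _ ha h

theorem fd_smul (F : Matrix ι ι ℝ) (i : ℕ) (c : ℝ) (y : ι → ℝ) :
    fd u F i (c • y) = c • fd u F i y := by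
  rw [fd, fd, mulVec_smul, smul_comm]

variable (M : QM u ι) {c : ℕ} {y : ι → ℝ}

theorem fd_wt (hy : M.Wt c y) (i : ℕ) : M.Wt ((c : ℤ) - 2 * i) (fd u M.F i y) := by
  have h1 : M.Wt ((c : ℤ) - 2 * i) (M.F ^ i *ᵥ y) := by
    induction i with
    | zero => simpa using hy
    | succ i ih =>
      have h2 := M.wt_F ih
      rw [mulVec_mulVec, ← pow_succ'] at h2
      have e : (c : ℤ) - 2 * i - 2 = (c : ℤ) - 2 * ((i + 1 : ℕ) : ℤ) := by
        push_cast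
        ring
      rwa [e] at h2
  intro k hk
  rw [fd, Pi.smul_apply, h1 k hk, smul_zero]

theorem fd_com {X : Matrix ι ι ℝ} (hX : M.Com X) (i : ℕ) (y : ι → ℝ) :
    X *ᵥ fd u M.F i y = fd u M.F i (X *ᵥ y) := by
  have h : Commute X M.F := hX.F
  rw [fd, fd, mulVec_smul, mulVec_mulVec, mulVec_mulVec, (h.pow_right i).eq]

theorem E_fd (hu : 1 < (u : ℝ)) (hy : M.HW c y) (i : ℕ) :
    M.E *ᵥ fd u M.F (i + 1) y = qn u ((c : ℤ) - i) • fd u M.F i y := by
  induction i with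
  | zero =>
    have h1 := M.comm_wt hy.wt
    have h2 := F_fd hu M.F 0 y
    have e : (((0 : ℕ) : ℤ) + 1) = 1 := by norm_num
    rw [fd_zero, e, qn_one hu, one_smul] at h2
    rw [hy.E, mulVec_zero, sub_zero, h2] at h1
    rw [fd_zero, Nat.cast_zero, sub_zero]
    exact h1
  | succ i ih =>
    have h1 := M.comm_wt (fd_wt M hy.wt (i + 1))
    have h2 := F_fd hu M.F (i + 1) y
    have h3 := F_fd hu M.F i y
    rw [ih, mulVec_smul, h3, h2, mulVec_smul, smul_smul, sub_eq_iff_eq_add, ← add_smul] at h1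
    have h4 := qn_id (u := u) ((c : ℤ) - i) ((i : ℤ) + 1) 1
    rw [qn_one hu, mul_one] at h4
    have e1 : (c : ℤ) - i - 1 = (c : ℤ) - ((i + 1 : ℕ) : ℤ) := by
      push_cast
      ring
    have e2 : (i : ℤ) + 1 + 1 = ((i + 1 : ℕ) : ℤ) + 1 := by
      push_cast
      ring
    have e3 : (c : ℤ) - i - ((i : ℤ) + 1) - 1 = (c : ℤ) - 2 * ((i + 1 : ℕ) : ℤ) := by
      push_cast
      ring
    rw [e3, e1, e2] at h4
    have h5 : qn u (((i + 1 : ℕ) : ℤ) + 1) ≠ 0 := (qn_pos hu (by positivity)).ne'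
    refine smul_cancel h5 ?_
    rw [h1, smul_smul]
    congr 1
    linear_combination h4

theorem fd_norm (hu : 1 < (u : ℝ)) (hy : M.HW c y) (i : ℕ) :
    M.ip (fd u M.F i y) (fd u M.F i y) = vN u c i * M.ip y y := by
  induction i with
  | zero => rw [fd_zero, vN_zero, one_mul]
  | succ i ih =>
    have h1 := M.ip_E (fd u M.F (i + 1) y) (fd_wt M hy.wt i)
    rw [E_fd M hu hy i, M.ip_smul_left, F_fd hu M.F i y, M.ip_smul_right, ih] at h1
    have h2 := vN_succ hu c i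
    have h3 := pw_neg_mul u (2 * ((c : ℤ) - 2 * i))
    have h5 : qn u ((i : ℤ) + 1) ≠ 0 := (qn_pos hu (by positivity)).ne'
    apply mul_left_cancel₀ h5
    linear_combination (-pw u (-(2 * ((c : ℤ) - 2 * i)))) * h1 -
      (M.ip y y) * h2 - (qn u ((i : ℤ) + 1) * M.ip (fd u M.F (i + 1) y) (fd u M.F (i + 1) y)) * h3

theorem fd_last (hu : 1 < (u : ℝ)) (hy : M.HW c y) {i : ℕ} (hi : c < i) : fd u M.F i y = 0 := by
  obtain ⟨k, rfl⟩ : ∃ k, i = c + 1 + k := ⟨i - (c + 1), by omega⟩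
  clear hi
  induction k with
  | zero =>
    have h1 := fd_wt M hy.wt (c + 1)
    have h2 := E_fd M hu hy c
    rw [sub_self, qn_zero, zero_smul] at h2
    refine M.hw_nonneg hu (t := (c : ℤ) - 2 * ((c + 1 : ℕ) : ℤ)) ?_ ⟨h1, h2⟩
    push_cast
    linarith [Int.natCast_nonneg c]
  | succ k ih =>
    have h1 := F_fd hu M.F (c + 1 + k) y
    rw [ih, mulVec_zero] at h1
    have h5 : qn u (((c + 1 + k : ℕ) : ℤ) + 1) ≠ 0 := (qn_pos hu (by positivity)).ne'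
    exact (smul_eq_zero.1 h1.symm).resolve_left h5

theorem fd_ne (hu : 1 < (u : ℝ)) (hy : M.HW c y) (h0 : y ≠ 0) {i : ℕ} (hi : i ≤ c) :
    fd u M.F i y ≠ 0 := by
  intro h
  have h1 := fd_norm M hu hy i
  rw [h, (M.ip_self_eq_zero 0).2 rfl] at h1
  rcases mul_eq_zero.1 h1.symm with h2 | h2
  · exact (vN_pos hu hi).ne' h2
  · exact h0 ((M.ip_self_eq_zero y).1 h2)

end Pool.Agent.KT
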