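import Pool.Agent.Work.MP_ab49bb_gt.Hv
import Pool.Agent.Work.MP_ab49bb_gt.Fd

/-!
# CL (M-L): the highest weight vectors of `(V ⊗ V) ⊗ V` in the channel `m`

Notation: for `x : Ix a → ℝ` the slice `x_q = fun y => x (y.1, y.2, q)` in `V ⊗ V`, `q : Fin (a+1)`. `s1` acts slicewise by `S`. By `UQ_E'`
`(E x)_q = v^(2(a-2q)) E x_q + [a-q] x_(q+1)` (for `q < a`; without the last summand for `q = a`).
`C = 2a - 2m`, `k = m + j`. `fL m j` has the slices `x_q = hc C a j (j-q) • fd (j-q) um` for `q ≤ j`, `0` for `q > j` (here `vvF u a` is the `F` of `VVQ`, by `rfl`).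
`fL_hw` (`m ≤ a`, `j ≤ a`, `j ≤ C`): weights clear (`fd_wt`). `E`: for `q = j`: `E um = 0`. For `q < j`, `i = j - q ≥ 1`: `E fd i um = [C-i+1] fd (i-1) um`
(`E_fd`), so the claim is `hc i v^(2(a-2q)) [C-i+1] + [a-q] hc (i-1) = 0`, `a - q = a - j + i`, which is the definition of `hc` (`[C-i+1] ≠ 0` since `i ≤ j ≤ C`).
`s1_fL`: slicewise `S fd i um = fd i (S um) = lam m fd i um` (`fd_com`, `S_um`). `fL_ne`: the slice `q = j` is `um ≠ 0`.
`fL_uniq`: let `x` be HW of weight `3a - 2k` with `s1 x = lam m x`, `m ≤ a`, `x ≠ 0`. Let `q` be the largest index with `x_q ≠ 0`. Then `E x_q = 0` and `x_q` has weight `2a - 2(k-q)`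
(`k - q` may be negative as an integer), `S x_q = lam m x_q`. By `hw_none`, `hw_uniq`: `k - q = m' ∈ [0, a]`, `x_q = c um m'` with `c ≠ 0`, and `S_um` gives `lam m' = lam m`, so
`m' = m` (`lam_inj`). So the top slice of EVERY such nonzero vector is at `q = k - m =: j` (in particular `m ≤ k`, `j ≤ a`) and is a multiple of `um m`.
Then `j ≤ C`: otherwise `j > C`. From `(E x)_q = 0`: `E x_q = - v^(-2(a-2q)) [a-q] x_(q+1)` for `q < a`, so `E^i x_(j-i) = (nonzero) um` for `i ≤ j` (all `[a-q] ≠ 0`). Take `i = C + 1 ≤ j` and the form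
with `um`: moving `E` to the other side (`ip_E` repeatedly) gives `0 ≠ (nonzero) ip um um = (power of v) ip x_(j-i) (F^i um) = 0` by `fd_last`. Contradiction.
Finally `x - c • fL m j` (`c = x (0, m, j)`) is HW, an eigenvector with the same `lam m`, and its slice `j` vanishes, so it is `0` by the statement on top slices.
-/

set_option autoImplicit false

open Matrix

namespace Pool.Agent.KT

variable {u : ℝˣ}

open QM

private theorem um_ne (u : ℝˣ) {a m : ℕ} (hm : m ≤ a) : um u a m ≠ 0 := by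
  intro h
  have h1 := um_zero (u := u) a m (by omega)
  rw [h] at h1
  simp at h1

private theorem ip_shift (hu : 1 < (u : ℝ)) {a : ℕ}
    (X : ℕ → Fin (a + 1) × Fin (a + 1) → ℝ) (c : ℕ → ℝ) (hc : ∀ q < a, c q ≠ 0)
    (hE : ∀ q < a, (VVQ u hu a).E *ᵥ X q = c q • X (q + 1)) (i : ℕ) :
    ∀ q : ℕ, i ≤ q → q ≤ a → ∀ (t : ℤ) (y : Fin (a + 1) × Fin (a + 1) → ℝ),
      (VVQ u hu a).Wt t y → ∃ r : ℝ, (VVQ u hu a).ip (X q) y =
        r * (VVQ u hu a).ip (X (q - i)) ((VVQ u hu a).F ^ i *ᵥ y) := by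
  induction i with
  | zero =>
    intro q _ _ t y _
    exact ⟨1, by rw [pow_zero, Matrix.one_mulVec, one_mul, Nat.sub_zero]⟩
  | succ i ih =>
    intro q hiq hqa t y hy
    obtain ⟨q', rfl⟩ : ∃ q', q = q' + 1 := ⟨q - 1, by omega⟩
    have hq' : q' < a := by omega
    obtain ⟨r, hr⟩ := ih q' (by omega) (by omega) (t - 2) _ (wt_F (VVQ u hu a) hy)
    have h1 : X (q' + 1) = (c q')⁻¹ • ((VVQ u hu a).E *ᵥ X q') := by
      rw [hE q' hq', smul_smul, inv_mul_cancel₀ (hc q' hq'), one_smul]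
    refine ⟨(c q')⁻¹ * (pw u (2 * t) * r), ?_⟩
    rw [h1, ip_smul_left, ip_E (VVQ u hu a) _ hy, hr]
    have h2 : q' + 1 - (i + 1) = q' - i := by omega
    rw [h2, pow_succ, ← Matrix.mulVec_mulVec]
    ring

private theorem top_slice (hu : 1 < (u : ℝ)) {a m k : ℕ} (hm : m ≤ a)
    (X : ℕ → Fin (a + 1) × Fin (a + 1) → ℝ) (c : ℕ → ℝ) (hc : ∀ q < a, c q ≠ 0)
    (hE : ∀ q < a, (VVQ u hu a).E *ᵥ X q = c q • X (q + 1))
    (hEa : (VVQ u hu a).E *ᵥ X a = 0)
    (hw : ∀ q ≤ a, (VVQ u hu a).Wt (2 * (a : ℤ) - 2 * ((k : ℤ) - q)) (X q))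
    (hS : ∀ q ≤ a, S u a *ᵥ X q = lam u a m • X q)
    (h0 : ∃ q ≤ a, X q ≠ 0) :
    m ≤ k ∧ k - m ≤ a ∧ k - m + 2 * m ≤ 2 * a ∧
      ∃ d : ℝ, d ≠ 0 ∧ X (k - m) = d • um u a m := by
  classical
  obtain ⟨q, ⟨hqa, hq0⟩, hmax⟩ : ∃ q, (q ≤ a ∧ X q ≠ 0) ∧ ∀ q', q < q' → q' ≤ a → X q' = 0 := by
    obtain ⟨q0, h1, h2⟩ := h0
    refine ⟨Nat.findGreatest (fun q => q ≤ a ∧ X q ≠ 0) a,
      Nat.findGreatest_spec (P := fun q => q ≤ a ∧ X q ≠ 0) h1 ⟨h1, h2⟩, ?_⟩
    intro q' hlt hle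
    by_contra hne
    exact absurd (Nat.le_findGreatest (P := fun q => q ≤ a ∧ X q ≠ 0) hle ⟨hle, hne⟩)
      (by omega)
  have hEq : (VVQ u hu a).E *ᵥ X q = 0 := by
    rcases Nat.lt_or_ge q a with h | h
    · rw [hE q h, hmax (q + 1) (by omega) (by omega), smul_zero]
    · have : q = a := by omega
      rw [this]
      exact hEa
  have hHW : (VVQ u hu a).HW (2 * (a : ℤ) - 2 * ((k : ℤ) - q)) (X q) := ⟨hw q hqa, hEq⟩
  obtain ⟨m', hm', he⟩ : ∃ m' ≤ a, 2 * (a : ℤ) - 2 * ((k : ℤ) - q) = 2 * (a : ℤ) - 2 * m' := by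
    by_contra hcon
    push Not at hcon
    exact hq0 (hw_none hu hcon hHW)
  have hkq : (k : ℤ) = q + m' := by linarith
  have hkq' : k = q + m' := by exact_mod_cast hkq
  rw [he] at hHW
  have hX := hw_uniq hu (by omega : m' < a + 1) hHW
  set d := X q (0, ⟨m', by omega⟩) with hd
  have hd0 : d ≠ 0 := by
    intro h
    rw [h, zero_smul] at hX
    exact hq0 hX
  have hmm : m' = m := by
    apply lam_inj hu hm' hm
    have h1 := hS q hqa
    rw [hX, Matrix.mulVec_smul, S_um hu hm', smul_smul, smul_smul] at h1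
    have h2 := congrFun h1 (0, ⟨m', by omega⟩)
    rw [Pi.smul_apply, Pi.smul_apply, um_zero a m' (by omega)] at h2
    simp only [smul_eq_mul, mul_one] at h2
    have h3 : d * lam u a m' = d * lam u a m := by rw [h2]; ring
    exact mul_left_cancel₀ hd0 h3
  subst hmm
  have hq' : k - m' = q := by omega
  refine ⟨by omega, by omega, ?_, d, hd0, by rw [hq']; exact hX⟩
  by_contra hcon
  have hcon' : 2 * a - 2 * m' < q := by omega
  have humH := um_hw hu hm'
  have hC : (2 * (a : ℤ) - 2 * m') = ((2 * a - 2 * m' : ℕ) : ℤ) := by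
    push_cast [Nat.cast_sub (by omega : 2 * m' ≤ 2 * a)]
    ring
  rw [hC] at humH
  obtain ⟨r, hr⟩ := ip_shift hu X c hc hE (2 * a - 2 * m' + 1) q (by omega) hqa _ (um u a m')
    humH.wt
  have h1 := fd_last (VVQ u hu a) hu humH (i := 2 * a - 2 * m' + 1) (by omega)
  rw [fd, smul_eq_zero] at h1
  have h2 : (VVQ u hu a).F ^ (2 * a - 2 * m' + 1) *ᵥ um u a m' = 0 := by
    rcases h1 with h1 | h1
    · exact absurd h1 (inv_ne_zero (qf_pos hu _).ne')
    · exact h1
  rw [h2] at hr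
  have h3 : (VVQ u hu a).ip (X (q - (2 * a - 2 * m' + 1))) 0 = 0 := by
    have := ip_smul_right (VVQ u hu a) 0 (X (q - (2 * a - 2 * m' + 1))) 0
    rw [zero_smul, zero_mul] at this
    exact this
  rw [h3, mul_zero, hX, ip_smul_left] at hr
  have h4 : (VVQ u hu a).ip (um u a m') (um u a m') = 0 := by
    rcases mul_eq_zero.mp hr with h | h
    · exact absurd h hd0
    · exact h
  rw [ip_self_eq_zero] at h4
  exact um_ne u hm' h4

private theorem sum_ix {a : ℕ} (f : Ix a → ℝ) :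
    ∑ w, f w = ∑ z : Fin (a + 1) × Fin (a + 1), ∑ r : Fin (a + 1), f (z.1, z.2, r) := by
  simp only [Fintype.sum_prod_type]

/-- `E` on slices. -/
theorem E_slice (hu : 1 < (u : ℝ)) (a : ℕ) (x : Ix a → ℝ) (y : Fin (a + 1) × Fin (a + 1))
    (q : ℕ) (hq : q < a + 1) :
    ((UQ u hu a).E *ᵥ x) (y.1, y.2, ⟨q, hq⟩) =
      pw u (2 * ((a : ℤ) - 2 * q)) *
        ((VVQ u hu a).E *ᵥ fun z => x (z.1, z.2, ⟨q, hq⟩)) y +
      if h : q + 1 < a + 1 then qn u ((a : ℤ) - q) * x (y.1, y.2, ⟨q + 1, h⟩) else 0 := by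
  rw [Matrix.mulVec, dotProduct, sum_ix]
  have h1 : ∀ (z : Fin (a + 1) × Fin (a + 1)) (r : Fin (a + 1)),
      (UQ u hu a).E (y.1, y.2, ⟨q, hq⟩) (z.1, z.2, r) * x (z.1, z.2, r) =
      (if (⟨q, hq⟩ : Fin (a + 1)) = r then
        (VVQ u hu a).E y z * pw u (2 * vw a r) * x (z.1, z.2, r) else 0) +
      (if y = z then vE u a ⟨q, hq⟩ r * x (z.1, z.2, r) else 0) := by
    intro z r
    rw [UQ_E', add_mul, ite_mul, ite_mul, zero_mul]
  simp only [h1, Finset.sum_add_distrib]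
  congr 1
  · rw [Matrix.mulVec, dotProduct, Finset.mul_sum]
    refine Finset.sum_congr rfl fun z _ => ?_
    rw [Finset.sum_ite_eq, if_pos (Finset.mem_univ _)]
    have : vw a ⟨q, hq⟩ = (a : ℤ) - 2 * q := rfl
    rw [this]
    ring
  · have h2 : ∀ z : Fin (a + 1) × Fin (a + 1),
        (∑ r : Fin (a + 1), if y = z then vE u a ⟨q, hq⟩ r * x (z.1, z.2, r) else 0) =
        if y = z then ∑ r : Fin (a + 1), vE u a ⟨q, hq⟩ r * x (z.1, z.2, r) else 0 := by
      intro z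
      split_ifs with h
      · rfl
      · exact Finset.sum_const_zero
    simp only [h2]
    rw [Finset.sum_ite_eq, if_pos (Finset.mem_univ _)]
    split_ifs with h
    · rw [Finset.sum_eq_single (⟨q + 1, h⟩ : Fin (a + 1))]
      · have : vE u a ⟨q, hq⟩ ⟨q + 1, h⟩ = qn u ((a : ℤ) - q) := by
          rw [vE, if_pos rfl]
        rw [this]
      · intro r _ hr
        have : vE u a ⟨q, hq⟩ r = 0 := by
          rw [vE, if_neg]
          intro hh
          exact hr (Fin.ext hh.symm)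
        rw [this, zero_mul]
      · intro hh
        exact absurd (Finset.mem_univ _) hh
    · refine Finset.sum_eq_zero fun r _ => ?_
      have : vE u a ⟨q, hq⟩ r = 0 := by
        rw [vE, if_neg]
        intro hh
        have := r.2
        simp only at hh
        omega
      rw [this, zero_mul]

private theorem s1_slice (a : ℕ) (x : Ix a → ℝ) (y : Fin (a + 1) × Fin (a + 1))
    (q : Fin (a + 1)) :
    (s1 u a *ᵥ x) (y.1, y.2, q) = (S u a *ᵥ fun z => x (z.1, z.2, q)) y := by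
  rw [Matrix.mulVec, dotProduct, sum_ix, Matrix.mulVec, dotProduct]
  refine Finset.sum_congr rfl fun z _ => ?_
  have h1 : ∀ r : Fin (a + 1), s1 u a (y.1, y.2, q) (z.1, z.2, r) * x (z.1, z.2, r) =
      if q = r then S u a y z * x (z.1, z.2, r) else 0 := by
    intro r
    rw [s1, ite_mul, zero_mul]
  simp only [h1]
  rw [Finset.sum_ite_eq, if_pos (Finset.mem_univ _)]

private theorem UQ_wt (hu : 1 < (u : ℝ)) (a : ℕ) (x : Ix a) :
    (UQ u hu a).wt x = (VVQ u hu a).wt (x.1, x.2.1) + ((a : ℤ) - 2 * (x.2.2 : ℕ)) := by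
  show vw a x.1 + (vw a x.2.1 + vw a x.2.2) = vw a x.1 + vw a x.2.1 + vw a x.2.2
  ring

private theorem fL_slice (a m j : ℕ) (z : Fin (a + 1) × Fin (a + 1)) (q : ℕ) (hq : q < a + 1) :
    fL u a m j (z.1, z.2, ⟨q, hq⟩) = if q ≤ j then hc u (2 * a - 2 * m) a j (j - q) *
      fd u (vvF u a) (j - q) (um u a m) z else 0 := rfl

private theorem um_HWC (hu : 1 < (u : ℝ)) {a m : ℕ} (hm : m ≤ a) :
    (VVQ u hu a).HW ((2 * a - 2 * m : ℕ) : ℤ) (um u a m) := by
  have h := um_hw hu hm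
  have hC : (2 * (a : ℤ) - 2 * m) = ((2 * a - 2 * m : ℕ) : ℤ) := by
    push_cast [Nat.cast_sub (by omega : 2 * m ≤ 2 * a)]
    ring
  rwa [hC] at h

theorem fL_hw (hu : 1 < (u : ℝ)) {a m j : ℕ} (hm : m ≤ a) (hj : j ≤ a) (hj' : j + 2 * m ≤ 2 * a) :
    (UQ u hu a).HW (3 * (a : ℤ) - 2 * (m + j : ℕ)) (fL u a m j) := by
  have hum := um_HWC hu hm
  have hC : (((2 * a - 2 * m : ℕ) : ℤ)) = 2 * (a : ℤ) - 2 * m := by
    push_cast [Nat.cast_sub (by omega : 2 * m ≤ 2 * a)]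
    ring
  constructor
  · rintro ⟨x1, x2, x3⟩ hx
    rw [UQ_wt] at hx
    have h1 := fL_slice (u := u) a m j (x1, x2) x3 x3.2
    have h2 : fL u a m j (x1, x2, x3) = fL u a m j ((x1, x2).1, (x1, x2).2, ⟨x3, x3.2⟩) := rfl
    rw [h2, h1]
    split_ifs with h
    · have h3 := fd_wt (VVQ u hu a) hum.wt (j - (x3 : ℕ)) (x1, x2) (by
        intro he
        apply hx
        simp only
        rw [he, hC]
        push_cast [Nat.cast_sub h]
        ring)
      have h4 : fd u (vvF u a) (j - (x3 : ℕ)) (um u a m) (x1, x2) = 0 := h3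
      rw [h4, mul_zero]
    · rfl
  · funext w
    obtain ⟨w1, w2, w3⟩ := w
    obtain ⟨q, hq⟩ := w3
    have h0 := E_slice hu a (fL u a m j) (w1, w2) q hq
    rw [Pi.zero_apply]
    refine h0.trans ?_
    rcases Nat.lt_trichotomy q j with h | h | h
    · -- q < j
      obtain ⟨i, hi⟩ : ∃ i, j - q = i + 1 := ⟨j - q - 1, by omega⟩
      have hlt : q + 1 < a + 1 := by omega
      rw [dif_pos hlt]
      have e1 : (fun z : Fin (a + 1) × Fin (a + 1) => fL u a m j (z.1, z.2, ⟨q, hq⟩)) =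
          hc u (2 * a - 2 * m) a j (i + 1) • fd u (VVQ u hu a).F (i + 1) (um u a m) := by
        funext z
        rw [fL_slice, if_pos h.le, hi]
        rfl
      have e2 : fL u a m j ((w1, w2).1, (w1, w2).2, ⟨q + 1, hlt⟩) =
          hc u (2 * a - 2 * m) a j i * fd u (VVQ u hu a).F i (um u a m) (w1, w2) := by
        rw [fL_slice, if_pos (by omega)]
        have : j - (q + 1) = i := by omega
        rw [this]
        rfl
      rw [e1, Matrix.mulVec_smul, E_fd (VVQ u hu a) hu hum i, e2]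
      simp only [Pi.smul_apply, smul_eq_mul]
      have hqn : qn u (2 * (a : ℤ) - 2 * m - i) ≠ 0 := qn_ne hu (by omega)
      have e3 : hc u (2 * a - 2 * m) a j (i + 1) = -(hc u (2 * a - 2 * m) a j i *
          pw u (-(2 * ((a : ℤ) - 2 * j + 2 * i + 2))) * qn u ((a : ℤ) - j + i + 1) /
          qn u (2 * (a : ℤ) - 2 * m - i)) := rfl
      have e4 : (a : ℤ) - 2 * q = (a : ℤ) - 2 * j + 2 * i + 2 := by
        have : (j : ℤ) - q = i + 1 := by omega
        linarith
      have e5 : (a : ℤ) - q = (a : ℤ) - j + i + 1 := by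
        have : (j : ℤ) - q = i + 1 := by omega
        linarith
      have e6 : pw u (2 * ((a : ℤ) - 2 * j + 2 * i + 2)) *
          pw u (-(2 * ((a : ℤ) - 2 * j + 2 * i + 2))) = 1 := by
        rw [mul_comm]
        exact pw_neg_mul u _
      rw [e3, hC, e4, e5]
      have key : ∀ (P P' H Q R Y : ℝ), R ≠ 0 → P * P' = 1 →
          P * (-(H * P' * Q / R) * (R * Y)) + Q * (H * Y) = 0 := by
        intro P P' H Q R Y hR hP
        have : P * (-(H * P' * Q / R) * (R * Y)) = -((P * P') * (H * Q * Y)) := by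
          field_simp
        rw [this, hP]
        ring
      exact key _ _ _ _ _ _ hqn e6
    · -- q = j
      subst h
      have e1 : (fun z : Fin (a + 1) × Fin (a + 1) => fL u a m q (z.1, z.2, ⟨q, hq⟩)) =
          um u a m := by
        funext z
        rw [fL_slice, if_pos le_rfl, Nat.sub_self, fd_zero]
        exact one_mul _
      rw [e1, hum.E, Pi.zero_apply, mul_zero, zero_add]
      split_ifs with h
      · have := fL_slice (u := u) a m q (w1, w2) (q + 1) h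
        rw [if_neg (by omega)] at this
        simp only at this ⊢
        rw [this, mul_zero]
      · rfl
    · have e1 : (fun z : Fin (a + 1) × Fin (a + 1) => fL u a m j (z.1, z.2, ⟨q, hq⟩)) = 0 := by
        funext z
        rw [fL_slice, if_neg (by omega)]
        rfl
      rw [e1, Matrix.mulVec_zero, Pi.zero_apply, mul_zero, zero_add]
      split_ifs with h
      · have := fL_slice (u := u) a m j (w1, w2) (q + 1) h
        rw [if_neg (by omega)] at this
        simp only at this ⊢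
        rw [this, mul_zero]
      · rfl

theorem s1_fL (hu : 1 < (u : ℝ)) {a m : ℕ} (hm : m ≤ a) (j : ℕ) :
    s1 u a *ᵥ fL u a m j = lam u a m • fL u a m j := by
  funext w
  obtain ⟨w1, w2, w3⟩ := w
  obtain ⟨q, hq⟩ := w3
  have h0 := s1_slice (u := u) a (fL u a m j) (w1, w2) ⟨q, hq⟩
  refine h0.trans ?_
  have h2 : (lam u a m • fL u a m j) (w1, w2, ⟨q, hq⟩) =
      lam u a m * fL u a m j ((w1, w2).1, (w1, w2).2, ⟨q, hq⟩) := rfl
  rw [h2, fL_slice]
  by_cases h : q ≤ j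
  · have e1 : (fun z : Fin (a + 1) × Fin (a + 1) => fL u a m j (z.1, z.2, ⟨q, hq⟩)) =
        hc u (2 * a - 2 * m) a j (j - q) • fd u (VVQ u hu a).F (j - q) (um u a m) := by
      funext z
      rw [fL_slice, if_pos h]
      rfl
    rw [e1, Matrix.mulVec_smul, fd_com (VVQ u hu a) (com_S hu a), S_um hu hm, fd_smul,
      if_pos h]
    simp only [Pi.smul_apply, smul_eq_mul]
    have e2 : fd u (VVQ u hu a).F (j - q) (um u a m) = fd u (vvF u a) (j - q) (um u a m) := rfl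
    rw [e2]
    ring
  · have e1 : (fun z : Fin (a + 1) × Fin (a + 1) => fL u a m j (z.1, z.2, ⟨q, hq⟩)) = 0 := by
      funext z
      rw [fL_slice, if_neg h]
      rfl
    rw [e1, Matrix.mulVec_zero, if_neg h, mul_zero]
    rfl

private theorem fL_top (a m j : ℕ) (z : Fin (a + 1) × Fin (a + 1)) (hj : j < a + 1) :
    fL u a m j (z.1, z.2, ⟨j, hj⟩) = um u a m z := by
  rw [fL_slice, if_pos le_rfl, Nat.sub_self, fd_zero]
  exact one_mul _

theorem fL_ne {a m j : ℕ} (hm : m ≤ a) (hj : j ≤ a) : fL u a m j ≠ 0 := by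
  intro h
  have h1 := fL_top (u := u) a m j (0, ⟨m, by omega⟩) (by omega)
  rw [h, um_zero a m (by omega)] at h1
  simp at h1

private theorem uniq_aux (hu : 1 < (u : ℝ)) {a m k : ℕ} (hm : m ≤ a) {x : Ix a → ℝ} (h0 : x ≠ 0)
    (hx : (UQ u hu a).HW (3 * (a : ℤ) - 2 * k) x) (hs : s1 u a *ᵥ x = lam u a m • x) :
    m ≤ k ∧ k - m ≤ a ∧ k - m + 2 * m ≤ 2 * a ∧ ∃ d : ℝ, d ≠ 0 ∧
      ∀ (h : k - m < a + 1) (z : Fin (a + 1) × Fin (a + 1)),
        x (z.1, z.2, ⟨k - m, h⟩) = d * um u a m z := by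
  classical
  set X : ℕ → Fin (a + 1) × Fin (a + 1) → ℝ := fun q z =>
    if h : q < a + 1 then x (z.1, z.2, ⟨q, h⟩) else 0 with hX
  have hXq : ∀ (q : ℕ) (h : q < a + 1), X q = fun z => x (z.1, z.2, ⟨q, h⟩) := by
    intro q h
    funext z
    rw [hX]
    simp only [dif_pos h]
  have hsl : ∀ (q : ℕ) (hq : q < a + 1) (y : Fin (a + 1) × Fin (a + 1)),
      pw u (2 * ((a : ℤ) - 2 * q)) * ((VVQ u hu a).E *ᵥ X q) y +
      (if h : q + 1 < a + 1 then qn u ((a : ℤ) - q) * x (y.1, y.2, ⟨q + 1, h⟩) else 0) = 0 := by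
    intro q hq y
    have h1 := E_slice hu a x y q hq
    rw [hx.E, Pi.zero_apply] at h1
    rw [hXq q hq]
    exact h1.symm
  have hpw : ∀ t : ℤ, pw u t ≠ 0 := fun t => (pw_pos hu t).ne'
  have hts := top_slice hu hm (k := k) X
    (fun q => -((pw u (2 * ((a : ℤ) - 2 * q)))⁻¹ * qn u ((a : ℤ) - q))) ?_ ?_ ?_ ?_ ?_ ?_
  · obtain ⟨r1, r2, r3, d, hd0, hd⟩ := hts
    refine ⟨r1, r2, r3, d, hd0, fun h z => ?_⟩
    rw [hXq _ h] at hd
    exact congrFun hd z
  · intro q hq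
    exact neg_ne_zero.mpr (mul_ne_zero (inv_ne_zero (hpw _)) (qn_ne hu (by omega)))
  · intro q hq
    funext y
    have h1 := hsl q (by omega) y
    rw [dif_pos (by omega : q + 1 < a + 1)] at h1
    rw [Pi.smul_apply, smul_eq_mul, hXq (q + 1) (by omega)]
    have h2 : pw u (2 * ((a : ℤ) - 2 * q)) * ((VVQ u hu a).E *ᵥ X q) y =
        -(qn u ((a : ℤ) - q) * x (y.1, y.2, ⟨q + 1, by omega⟩)) := by linarith
    have h3 : ((VVQ u hu a).E *ᵥ X q) y = (pw u (2 * ((a : ℤ) - 2 * q)))⁻¹ *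
        (pw u (2 * ((a : ℤ) - 2 * q)) * ((VVQ u hu a).E *ᵥ X q) y) := by
      rw [← mul_assoc, inv_mul_cancel₀ (hpw _), one_mul]
    rw [h3, h2]
    ring
  · funext y
    have h1 := hsl a (by omega) y
    rw [dif_neg (by omega), add_zero] at h1
    rcases mul_eq_zero.mp h1 with h | h
    · exact absurd h (hpw _)
    · exact h
  · intro q hq z hz
    rw [hXq q (by omega)]
    refine hx.wt _ ?_
    rw [UQ_wt]
    intro he
    apply hz
    simp only at he
    have : (VVQ u hu a).wt z = (VVQ u hu a).wt (z.1, z.2) := rfl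
    rw [this]
    linarith
  · intro q hq
    funext y
    have h1 := s1_slice (u := u) a x y ⟨q, by omega⟩
    rw [hs] at h1
    rw [hXq q (by omega), ← h1]
    rfl
  · by_contra hcon
    push Not at hcon
    apply h0
    funext w
    obtain ⟨w1, w2, w3⟩ := w
    have h1 := hcon w3 (by have := w3.2; omega)
    rw [hXq _ w3.2] at h1
    exact congrFun h1 (w1, w2)

theorem fL_uniq (hu : 1 < (u : ℝ)) {a m k : ℕ} (hm : m ≤ a) {x : Ix a → ℝ} (h0 : x ≠ 0)
    (hx : (UQ u hu a).HW (3 * (a : ℤ) - 2 * k) x) (hs : s1 u a *ᵥ x = lam u a m • x) :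
    m ≤ k ∧ k - m ≤ a ∧ k - m + 2 * m ≤ 2 * a ∧ ∃ c : ℝ, x = c • fL u a m (k - m) := by
  obtain ⟨r1, r2, r3, d, hd0, hd⟩ := uniq_aux hu hm h0 hx hs
  refine ⟨r1, r2, r3, d, ?_⟩
  by_contra hcon
  have hne : x + (-d) • fL u a m (k - m) ≠ 0 := by
    intro h
    apply hcon
    have : x = (x + (-d) • fL u a m (k - m)) + d • fL u a m (k - m) := by
      rw [neg_smul]
      abel
    rw [this, h, zero_add]
  have hfw := fL_hw hu hm r2 r3
  have hmk : m + (k - m) = k := by omega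
  rw [hmk] at hfw
  obtain ⟨-, -, -, d', hd0', hd'⟩ := uniq_aux hu hm (k := k) hne (hx.add (hfw.smul (-d))) (by
    rw [Matrix.mulVec_add, Matrix.mulVec_smul, hs, s1_fL hu hm, smul_add, smul_comm])
  have h1 := hd' (by omega) (0, ⟨m, by omega⟩)
  have h2 := hd (by omega) (0, ⟨m, by omega⟩)
  rw [Pi.add_apply, Pi.smul_apply, h2, fL_top, um_zero a m (by omega)] at h1
  simp only [smul_eq_mul, mul_one] at h1
  apply hd0'
  linarith

end Pool.Agent.KT
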