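import Pool.Agent.Work.MP_ab49bb_gt.Hv
import Pool.Agent.Work.MP_ab49bb_gt.Fd

/-!
# CR (M-L): the highest weight vectors of `V ⊗ (V ⊗ V)` in the channel `m` (mirror image of CL)

Notation: the slice `x_p = fun y => x (p, y.1, y.2)` in `V ⊗ V`, `p : Fin (a+1)`. `s2` acts slicewise by `S`. By definition of `UQ = tn V (V⊗V)`:
`(E x)_p (y) = (E x_p)(y) + [a-p] v^(2 wt y) x_(p+1)(y)` (for `p < a`; without the last summand for `p = a`), `wt y` the weight of `y` in `V ⊗ V`.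
`C = 2a - 2m`, `k = m + j`. `gR m j` has the slices `x_p = hc a C j p • fd (j-p) um` for `p ≤ j`, `0` for `p > j` (`vvF u a` is the `F` of `VVQ`, by `rfl`).
`gR_hw` (`m ≤ a`, `j ≤ a`, `j ≤ C`): weights clear. `E`: for `p = j`: `E um = 0`. For `p < j`, `i = j - p ≥ 1`: `E fd i um = [C-i+1] fd (i-1) um` and `x_(p+1) = hc (p+1) fd (i-1) um` has
weight `C - 2(i-1)`, so the claim is `hc p [C-i+1] + [a-p] v^(2(C-2i+2)) hc (p+1) = 0`; `C - i + 1 = C - j + p + 1`, `C - 2i + 2 = C - 2j + 2p + 2`: this is the definition of `hc a C j (p+1)`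
(`[a-p] ≠ 0` since `p < j ≤ a`).
`s2_gR`: slicewise. `gR_ne`: the slice `p = j` is `hc a C j j • um`, and `hc a C j j ≠ 0` (`hc_ne`, `j ≤ C`, `j ≤ a`).
`gR_uniq`: as in CL: let `x ≠ 0` be HW of weight `3a - 2k` with `s2 x = lam m x`, `m ≤ a`, and let `p` be the largest index with `x_p ≠ 0`. Then `E x_p = 0`, `x_p` has weight `2a - 2(k-p)`
and `S x_p = lam m x_p`; `hw_none`, `hw_uniq`, `S_um`, `lam_inj` give `k - p = m`. So the top slice is at `p = k - m = j ≤ a` and equals `c' um m`, `c' ≠ 0`.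
`j ≤ C`: `E x_p = - [a-p] v^(..) x_(p+1)`, so `E^i x_(j-i) = (nonzero) um` for `i ≤ j`; for `i = C+1 ≤ j` the form with `um` gives a contradiction with `fd_last`.
`x - c • gR m j` with `c = c'/hc a C j j` has vanishing slice `j`, so it is `0`.
-/

set_option autoImplicit false

open Matrix

namespace Pool.Agent.KT

variable {u : ℝˣ}

open QM

private theorem um_ne (u : ℝˣ) {a m : ℕ} (hm : m ≤ a) : um u a m ≠ 0 := by
  intro h
  have h1 := um_zero (u := u) a m (by omega)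
  rw [h] at h1
  simp at h1

private theorem ip_shift (hu : 1 < (u : ℝ)) {a : ℕ}
    (X : ℕ → Fin (a + 1) × Fin (a + 1) → ℝ) (c : ℕ → ℝ) (hc : ∀ q < a, c q ≠ 0)
    (hE : ∀ q < a, (VVQ u hu a).E *ᵥ X q = c q • X (q + 1)) (i : ℕ) :
    ∀ q : ℕ, i ≤ q → q ≤ a → ∀ (t : ℤ) (y : Fin (a + 1) × Fin (a + 1) → ℝ),
      (VVQ u hu a).Wt t y → ∃ r : ℝ, (VVQ u hu a).ip (X q) y =
        r * (VVQ u hu a).ip (X (q - i)) ((VVQ u hu a).F ^ i *ᵥ y) := by
  induction i with
  | zero =>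
    intro q _ _ t y _
    exact ⟨1, by rw [pow_zero, Matrix.one_mulVec, one_mul, Nat.sub_zero]⟩
  | succ i ih =>
    intro q hiq hqa t y hy
    obtain ⟨q', rfl⟩ : ∃ q', q = q' + 1 := ⟨q - 1, by omega⟩
    have hq' : q' < a := by omega
    obtain ⟨r, hr⟩ := ih q' (by omega) (by omega) (t - 2) _ (wt_F (VVQ u hu a) hy)
    have h1 : X (q' + 1) = (c q')⁻¹ • ((VVQ u hu a).E *ᵥ X q') := by
      rw [hE q' hq', smul_smul, inv_mul_cancel₀ (hc q' hq'), one_smul]
    refine ⟨(c q')⁻¹ * (pw u (2 * t) * r), ?_⟩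
    rw [h1, ip_smul_left, ip_E (VVQ u hu a) _ hy, hr]
    have h2 : q' + 1 - (i + 1) = q' - i := by omega
    rw [h2, pow_succ, ← Matrix.mulVec_mulVec]
    ring

private theorem top_slice (hu : 1 < (u : ℝ)) {a m k : ℕ} (hm : m ≤ a)
    (X : ℕ → Fin (a + 1) × Fin (a + 1) → ℝ) (c : ℕ → ℝ) (hc : ∀ q < a, c q ≠ 0)
    (hE : ∀ q < a, (VVQ u hu a).E *ᵥ X q = c q • X (q + 1))
    (hEa : (VVQ u hu a).E *ᵥ X a = 0)
    (hw : ∀ q ≤ a, (VVQ u hu a).Wt (2 * (a : ℤ) - 2 * ((k : ℤ) - q)) (X q))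
    (hS : ∀ q ≤ a, S u a *ᵥ X q = lam u a m • X q)
    (h0 : ∃ q ≤ a, X q ≠ 0) :
    m ≤ k ∧ k - m ≤ a ∧ k - m + 2 * m ≤ 2 * a ∧
      ∃ d : ℝ, d ≠ 0 ∧ X (k - m) = d • um u a m := by
  classical
  obtain ⟨q, ⟨hqa, hq0⟩, hmax⟩ : ∃ q, (q ≤ a ∧ X q ≠ 0) ∧ ∀ q', q < q' → q' ≤ a → X q' = 0 := by
    obtain ⟨q0, h1, h2⟩ := h0
    refine ⟨Nat.findGreatest (fun q => q ≤ a ∧ X q ≠ 0) a,
      Nat.findGreatest_spec (P := fun q => q ≤ a ∧ X q ≠ 0) h1 ⟨h1, h2⟩, ?_⟩
    intro q' hlt hle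
    by_contra hne
    exact absurd (Nat.le_findGreatest (P := fun q => q ≤ a ∧ X q ≠ 0) hle ⟨hle, hne⟩)
      (by omega)
  have hEq : (VVQ u hu a).E *ᵥ X q = 0 := by
    rcases Nat.lt_or_ge q a with h | h
    · rw [hE q h, hmax (q + 1) (by omega) (by omega), smul_zero]
    · have : q = a := by omega
      rw [this]
      exact hEa
  have hHW : (VVQ u hu a).HW (2 * (a : ℤ) - 2 * ((k : ℤ) - q)) (X q) := ⟨hw q hqa, hEq⟩
  obtain ⟨m', hm', he⟩ : ∃ m' ≤ a, 2 * (a : ℤ) - 2 * ((k : ℤ) - q) = 2 * (a : ℤ) - 2 * m' := by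
    by_contra hcon
    push Not at hcon
    exact hq0 (hw_none hu hcon hHW)
  have hkq : (k : ℤ) = q + m' := by linarith
  have hkq' : k = q + m' := by exact_mod_cast hkq
  rw [he] at hHW
  have hX := hw_uniq hu (by omega : m' < a + 1) hHW
  set d := X q (0, ⟨m', by omega⟩) with hd
  have hd0 : d ≠ 0 := by
    intro h
    rw [h, zero_smul] at hX
    exact hq0 hX
  have hmm : m' = m := by
    apply lam_inj hu hm' hm
    have h1 := hS q hqa
    rw [hX, Matrix.mulVec_smul, S_um hu hm', smul_smul, smul_smul] at h1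
    have h2 := congrFun h1 (0, ⟨m', by omega⟩)
    rw [Pi.smul_apply, Pi.smul_apply, um_zero a m' (by omega)] at h2
    simp only [smul_eq_mul, mul_one] at h2
    have h3 : d * lam u a m' = d * lam u a m := by rw [h2]; ring
    exact mul_left_cancel₀ hd0 h3
  subst hmm
  have hq' : k - m' = q := by omega
  refine ⟨by omega, by omega, ?_, d, hd0, by rw [hq']; exact hX⟩
  by_contra hcon
  have hcon' : 2 * a - 2 * m' < q := by omega
  have humH := um_hw hu hm'
  have hC : (2 * (a : ℤ) - 2 * m') = ((2 * a - 2 * m' : ℕ) : ℤ) := by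
    push_cast [Nat.cast_sub (by omega : 2 * m' ≤ 2 * a)]
    ring
  rw [hC] at humH
  obtain ⟨r, hr⟩ := ip_shift hu X c hc hE (2 * a - 2 * m' + 1) q (by omega) hqa _ (um u a m')
    humH.wt
  have h1 := fd_last (VVQ u hu a) hu humH (i := 2 * a - 2 * m' + 1) (by omega)
  rw [fd, smul_eq_zero] at h1
  have h2 : (VVQ u hu a).F ^ (2 * a - 2 * m' + 1) *ᵥ um u a m' = 0 := by
    rcases h1 with h1 | h1
    · exact absurd h1 (inv_ne_zero (qf_pos hu _).ne')
    · exact h1
  rw [h2] at hr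
  have h3 : (VVQ u hu a).ip (X (q - (2 * a - 2 * m' + 1))) 0 = 0 := by
    have := ip_smul_right (VVQ u hu a) 0 (X (q - (2 * a - 2 * m' + 1))) 0
    rw [zero_smul, zero_mul] at this
    exact this
  rw [h3, mul_zero, hX, ip_smul_left] at hr
  have h4 : (VVQ u hu a).ip (um u a m') (um u a m') = 0 := by
    rcases mul_eq_zero.mp hr with h | h
    · exact absurd h hd0
    · exact h
  rw [ip_self_eq_zero] at h4
  exact um_ne u hm' h4

private theorem sum_ixR {a : ℕ} (f : Ix a → ℝ) :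
    ∑ w, f w = ∑ z : Fin (a + 1) × Fin (a + 1), ∑ r : Fin (a + 1), f (r, z.1, z.2) := by
  simp only [Fintype.sum_prod_type]
  rw [Finset.sum_comm]
  exact Finset.sum_congr rfl fun _ _ => Finset.sum_comm

/-- `E` on slices. -/
private theorem E_sliceR (hu : 1 < (u : ℝ)) (a : ℕ) (x : Ix a → ℝ)
    (y : Fin (a + 1) × Fin (a + 1)) (q : ℕ) (hq : q < a + 1) :
    ((UQ u hu a).E *ᵥ x) (⟨q, hq⟩, y.1, y.2) =
      ((VVQ u hu a).E *ᵥ fun z => x (⟨q, hq⟩, z.1, z.2)) y +
      if h : q + 1 < a + 1 then qn u ((a : ℤ) - q) *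
        (pw u (2 * (VVQ u hu a).wt y) * x (⟨q + 1, h⟩, y.1, y.2)) else 0 := by
  rw [Matrix.mulVec, dotProduct, sum_ixR]
  have h1 : ∀ (z : Fin (a + 1) × Fin (a + 1)) (r : Fin (a + 1)),
      (UQ u hu a).E (⟨q, hq⟩, y.1, y.2) (r, z.1, z.2) * x (r, z.1, z.2) =
      (if (⟨q, hq⟩ : Fin (a + 1)) = r then
        (VVQ u hu a).E y z * x (r, z.1, z.2) else 0) +
      (if y = z then vE u a ⟨q, hq⟩ r * pw u (2 * (VVQ u hu a).wt z) * x (r, z.1, z.2)
        else 0) := by
    intro z r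
    have h0 : (UQ u hu a).E (⟨q, hq⟩, y.1, y.2) (r, z.1, z.2) =
        (if (⟨q, hq⟩ : Fin (a + 1)) = r then (VVQ u hu a).E y z else 0) +
        (if y = z then vE u a ⟨q, hq⟩ r * pw u (2 * (VVQ u hu a).wt z) else 0) := rfl
    rw [h0, add_mul, ite_mul, ite_mul, zero_mul]
  simp only [h1, Finset.sum_add_distrib]
  congr 1
  · rw [Matrix.mulVec, dotProduct]
    refine Finset.sum_congr rfl fun z _ => ?_
    rw [Finset.sum_ite_eq, if_pos (Finset.mem_univ _)]
  · have h2 : ∀ z : Fin (a + 1) × Fin (a + 1),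
        (∑ r : Fin (a + 1), if y = z then
          vE u a ⟨q, hq⟩ r * pw u (2 * (VVQ u hu a).wt z) * x (r, z.1, z.2) else 0) =
        if y = z then ∑ r : Fin (a + 1),
          vE u a ⟨q, hq⟩ r * pw u (2 * (VVQ u hu a).wt z) * x (r, z.1, z.2) else 0 := by
      intro z
      split_ifs with h
      · rfl
      · exact Finset.sum_const_zero
    simp only [h2]
    rw [Finset.sum_ite_eq, if_pos (Finset.mem_univ _)]
    split_ifs with h
    · rw [Finset.sum_eq_single (⟨q + 1, h⟩ : Fin (a + 1))]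
      · have : vE u a ⟨q, hq⟩ ⟨q + 1, h⟩ = qn u ((a : ℤ) - q) := by
          rw [vE, if_pos rfl]
        rw [this, mul_assoc]
      · intro r _ hr
        have : vE u a ⟨q, hq⟩ r = 0 := by
          rw [vE, if_neg]
          intro hh
          exact hr (Fin.ext hh.symm)
        rw [this, zero_mul, zero_mul]
      · intro hh
        exact absurd (Finset.mem_univ _) hh
    · refine Finset.sum_eq_zero fun r _ => ?_
      have : vE u a ⟨q, hq⟩ r = 0 := by
        rw [vE, if_neg]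
        intro hh
        have := r.2
        simp only at hh
        omega
      rw [this, zero_mul, zero_mul]

private theorem s2_slice (a : ℕ) (x : Ix a → ℝ) (y : Fin (a + 1) × Fin (a + 1))
    (q : Fin (a + 1)) :
    (s2 u a *ᵥ x) (q, y.1, y.2) = (S u a *ᵥ fun z => x (q, z.1, z.2)) y := by
  rw [Matrix.mulVec, dotProduct, sum_ixR, Matrix.mulVec, dotProduct]
  refine Finset.sum_congr rfl fun z _ => ?_
  have h1 : ∀ r : Fin (a + 1), s2 u a (q, y.1, y.2) (r, z.1, z.2) * x (r, z.1, z.2) =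
      if q = r then S u a y z * x (r, z.1, z.2) else 0 := by
    intro r
    rw [s2, ite_mul, zero_mul]
  simp only [h1]
  rw [Finset.sum_ite_eq, if_pos (Finset.mem_univ _)]

private theorem UQ_wtR (hu : 1 < (u : ℝ)) (a : ℕ) (x : Ix a) :
    (UQ u hu a).wt x = ((a : ℤ) - 2 * (x.1 : ℕ)) + (VVQ u hu a).wt x.2 := rfl

private theorem gR_slice (a m j : ℕ) (z : Fin (a + 1) × Fin (a + 1)) (q : ℕ) (hq : q < a + 1) :
    gR u a m j (⟨q, hq⟩, z.1, z.2) = if q ≤ j then hc u a (2 * a - 2 * m) j q *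
      fd u (vvF u a) (j - q) (um u a m) z else 0 := rfl

private theorem um_HWC (hu : 1 < (u : ℝ)) {a m : ℕ} (hm : m ≤ a) :
    (VVQ u hu a).HW ((2 * a - 2 * m : ℕ) : ℤ) (um u a m) := by
  have h := um_hw hu hm
  have hC : (2 * (a : ℤ) - 2 * m) = ((2 * a - 2 * m : ℕ) : ℤ) := by
    push_cast [Nat.cast_sub (by omega : 2 * m ≤ 2 * a)]
    ring
  rwa [hC] at h

/-- On a vector of weight `t` the factor `v^(2 wt)` is a scalar. -/
private theorem wt_scal (hu : 1 < (u : ℝ)) {a : ℕ} {t : ℤ} {x : Fin (a + 1) × Fin (a + 1) → ℝ}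
    (hx : (VVQ u hu a).Wt t x) (y : Fin (a + 1) × Fin (a + 1)) :
    pw u (2 * (VVQ u hu a).wt y) * x y = pw u (2 * t) * x y := by
  by_cases h : (VVQ u hu a).wt y = t
  · rw [h]
  · rw [hx y h, mul_zero, mul_zero]

theorem gR_hw (hu : 1 < (u : ℝ)) {a m j : ℕ} (hm : m ≤ a) (hj : j ≤ a) (hj' : j + 2 * m ≤ 2 * a) :
    (UQ u hu a).HW (3 * (a : ℤ) - 2 * (m + j : ℕ)) (gR u a m j) := by
  have hum := um_HWC hu hm
  have hC : (((2 * a - 2 * m : ℕ) : ℤ)) = 2 * (a : ℤ) - 2 * m := by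
    push_cast [Nat.cast_sub (by omega : 2 * m ≤ 2 * a)]
    ring
  constructor
  · rintro ⟨x3, x1, x2⟩ hx
    rw [UQ_wtR] at hx
    have h1 := gR_slice (u := u) a m j (x1, x2) x3 x3.2
    have h2 : gR u a m j (x3, x1, x2) = gR u a m j (⟨x3, x3.2⟩, (x1, x2).1, (x1, x2).2) := rfl
    rw [h2, h1]
    split_ifs with h
    · have h3 := fd_wt (VVQ u hu a) hum.wt (j - (x3 : ℕ)) (x1, x2) (by
        intro he
        apply hx
        simp only
        rw [he, hC]
        push_cast [Nat.cast_sub h]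
        ring)
      have h4 : fd u (vvF u a) (j - (x3 : ℕ)) (um u a m) (x1, x2) = 0 := h3
      rw [h4, mul_zero]
    · rfl
  · funext w
    obtain ⟨w3, w1, w2⟩ := w
    obtain ⟨q, hq⟩ := w3
    have h0 := E_sliceR hu a (gR u a m j) (w1, w2) q hq
    rw [Pi.zero_apply]
    refine h0.trans ?_
    rcases Nat.lt_trichotomy q j with h | h | h
    · -- q < j
      obtain ⟨i, hi⟩ : ∃ i, j - q = i + 1 := ⟨j - q - 1, by omega⟩
      have hlt : q + 1 < a + 1 := by omega
      rw [dif_pos hlt]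
      have e1 : (fun z : Fin (a + 1) × Fin (a + 1) => gR u a m j (⟨q, hq⟩, z.1, z.2)) =
          hc u a (2 * a - 2 * m) j q • fd u (VVQ u hu a).F (i + 1) (um u a m) := by
        funext z
        rw [gR_slice, if_pos h.le, hi]
        rfl
      have e2 : gR u a m j (⟨q + 1, hlt⟩, (w1, w2).1, (w1, w2).2) =
          hc u a (2 * a - 2 * m) j (q + 1) * fd u (VVQ u hu a).F i (um u a m) (w1, w2) := by
        rw [gR_slice, if_pos (by omega)]
        have : j - (q + 1) = i := by omega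
        rw [this]
        rfl
      have e7 : pw u (2 * (VVQ u hu a).wt (w1, w2)) *
          (hc u a (2 * a - 2 * m) j (q + 1) * fd u (VVQ u hu a).F i (um u a m) (w1, w2)) =
          pw u (2 * (((2 * a - 2 * m : ℕ) : ℤ) - 2 * i)) *
          (hc u a (2 * a - 2 * m) j (q + 1) * fd u (VVQ u hu a).F i (um u a m) (w1, w2)) := by
        have := wt_scal hu (fd_wt (VVQ u hu a) hum.wt i) (w1, w2)
        rw [mul_left_comm, this, mul_left_comm]
      rw [e1, Matrix.mulVec_smul, E_fd (VVQ u hu a) hu hum i, e2, e7]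
      simp only [Pi.smul_apply, smul_eq_mul]
      have hqn : qn u ((a : ℤ) - q) ≠ 0 := qn_ne hu (by omega)
      have e3 : hc u a (2 * a - 2 * m) j (q + 1) = -(hc u a (2 * a - 2 * m) j q *
          pw u (-(2 * (2 * (a : ℤ) - 2 * m - 2 * j + 2 * q + 2))) *
          qn u (2 * (a : ℤ) - 2 * m - j + q + 1) / qn u ((a : ℤ) - q)) := rfl
      have e4 : 2 * (a : ℤ) - 2 * m - 2 * i = 2 * (a : ℤ) - 2 * m - 2 * j + 2 * q + 2 := by
        have : (j : ℤ) - q = i + 1 := by omega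
        linarith
      have e5 : 2 * (a : ℤ) - 2 * m - i = 2 * (a : ℤ) - 2 * m - j + q + 1 := by
        have : (j : ℤ) - q = i + 1 := by omega
        linarith
      have e6 : pw u (2 * (2 * (a : ℤ) - 2 * m - 2 * j + 2 * q + 2)) *
          pw u (-(2 * (2 * (a : ℤ) - 2 * m - 2 * j + 2 * q + 2))) = 1 := by
        rw [mul_comm]
        exact pw_neg_mul u _
      rw [e3, hC, e4, e5]
      have key : ∀ (P P' H Q R Y : ℝ), R ≠ 0 → P * P' = 1 →
          H * (Q * Y) + R * (P * (-(H * P' * Q / R) * Y)) = 0 := by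
        intro P P' H Q R Y hR hP
        have : R * (P * (-(H * P' * Q / R) * Y)) = -((P * P') * (H * Q * Y)) := by
          field_simp
        rw [this, hP]
        ring
      exact key _ _ _ _ _ _ hqn e6
    · -- q = j
      subst h
      have e1 : (fun z : Fin (a + 1) × Fin (a + 1) => gR u a m q (⟨q, hq⟩, z.1, z.2)) =
          hc u a (2 * a - 2 * m) q q • um u a m := by
        funext z
        rw [gR_slice, if_pos le_rfl, Nat.sub_self, fd_zero]
        rfl
      rw [e1, Matrix.mulVec_smul, hum.E, smul_zero, Pi.zero_apply, zero_add]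
      split_ifs with h
      · have := gR_slice (u := u) a m q (w1, w2) (q + 1) h
        rw [if_neg (by omega)] at this
        simp only at this ⊢
        rw [this, mul_zero, mul_zero]
      · rfl
    · have e1 : (fun z : Fin (a + 1) × Fin (a + 1) => gR u a m j (⟨q, hq⟩, z.1, z.2)) = 0 := by
        funext z
        rw [gR_slice, if_neg (by omega)]
        rfl
      rw [e1, Matrix.mulVec_zero, Pi.zero_apply, zero_add]
      split_ifs with h
      · have := gR_slice (u := u) a m j (w1, w2) (q + 1) h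
        rw [if_neg (by omega)] at this
        simp only at this ⊢
        rw [this, mul_zero, mul_zero]
      · rfl

theorem s2_gR (hu : 1 < (u : ℝ)) {a m : ℕ} (hm : m ≤ a) (j : ℕ) :
    s2 u a *ᵥ gR u a m j = lam u a m • gR u a m j := by
  funext w
  obtain ⟨w3, w1, w2⟩ := w
  obtain ⟨q, hq⟩ := w3
  have h0 := s2_slice (u := u) a (gR u a m j) (w1, w2) ⟨q, hq⟩
  refine h0.trans ?_
  have h2 : (lam u a m • gR u a m j) (⟨q, hq⟩, w1, w2) =
      lam u a m * gR u a m j (⟨q, hq⟩, (w1, w2).1, (w1, w2).2) := rfl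
  rw [h2, gR_slice]
  by_cases h : q ≤ j
  · have e1 : (fun z : Fin (a + 1) × Fin (a + 1) => gR u a m j (⟨q, hq⟩, z.1, z.2)) =
        hc u a (2 * a - 2 * m) j q • fd u (VVQ u hu a).F (j - q) (um u a m) := by
      funext z
      rw [gR_slice, if_pos h]
      rfl
    rw [e1, Matrix.mulVec_smul, fd_com (VVQ u hu a) (com_S hu a), S_um hu hm, fd_smul,
      if_pos h]
    simp only [Pi.smul_apply, smul_eq_mul]
    have e2 : fd u (VVQ u hu a).F (j - q) (um u a m) = fd u (vvF u a) (j - q) (um u a m) := rfl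
    rw [e2]
    ring
  · have e1 : (fun z : Fin (a + 1) × Fin (a + 1) => gR u a m j (⟨q, hq⟩, z.1, z.2)) = 0 := by
      funext z
      rw [gR_slice, if_neg h]
      rfl
    rw [e1, Matrix.mulVec_zero, if_neg h, mul_zero]
    rfl

private theorem gR_top (a m j : ℕ) (z : Fin (a + 1) × Fin (a + 1)) (hj : j < a + 1) :
    gR u a m j (⟨j, hj⟩, z.1, z.2) = hc u a (2 * a - 2 * m) j j * um u a m z := by
  rw [gR_slice, if_pos le_rfl, Nat.sub_self, fd_zero]

private theorem hc_top (hu : 1 < (u : ℝ)) {a m j : ℕ} (hj : j ≤ a) (hj' : j + 2 * m ≤ 2 * a) :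
    hc u a (2 * a - 2 * m) j j ≠ 0 := by
  have h := hc_ne hu (b := a) (b' := 2 * a - 2 * m) (m := j) (i := j) (by omega) hj
  have hC : (((2 * a - 2 * m : ℕ) : ℤ)) = 2 * (a : ℤ) - 2 * m := by
    push_cast [Nat.cast_sub (by omega : 2 * m ≤ 2 * a)]
    ring
  rwa [hC] at h

theorem gR_ne (hu : 1 < (u : ℝ)) {a m j : ℕ} (hm : m ≤ a) (hj : j ≤ a)
    (hj' : j + 2 * m ≤ 2 * a) : gR u a m j ≠ 0 := by
  intro h
  have h1 := gR_top (u := u) a m j (0, ⟨m, by omega⟩) (by omega)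
  rw [h, um_zero a m (by omega), mul_one] at h1
  exact hc_top hu hj hj' h1.symm

private theorem uniq_aux (hu : 1 < (u : ℝ)) {a m k : ℕ} (hm : m ≤ a) {x : Ix a → ℝ} (h0 : x ≠ 0)
    (hx : (UQ u hu a).HW (3 * (a : ℤ) - 2 * k) x) (hs : s2 u a *ᵥ x = lam u a m • x) :
    m ≤ k ∧ k - m ≤ a ∧ k - m + 2 * m ≤ 2 * a ∧ ∃ d : ℝ, d ≠ 0 ∧
      ∀ (h : k - m < a + 1) (z : Fin (a + 1) × Fin (a + 1)),
        x (⟨k - m, h⟩, z.1, z.2) = d * um u a m z := by
  classical
  set X : ℕ → Fin (a + 1) × Fin (a + 1) → ℝ := fun q z =>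
    if h : q < a + 1 then x (⟨q, h⟩, z.1, z.2) else 0 with hX
  have hXq : ∀ (q : ℕ) (h : q < a + 1), X q = fun z => x (⟨q, h⟩, z.1, z.2) := by
    intro q h
    funext z
    rw [hX]
    simp only [dif_pos h]
  have hXw : ∀ q ≤ a, (VVQ u hu a).Wt (2 * (a : ℤ) - 2 * ((k : ℤ) - q)) (X q) := by
    intro q hq z hz
    rw [hXq q (by omega)]
    refine hx.wt _ ?_
    rw [UQ_wtR]
    intro he
    apply hz
    simp only at he
    have : (VVQ u hu a).wt z = (VVQ u hu a).wt (z.1, z.2) := rfl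
    rw [this]
    linarith
  have hsl : ∀ (q : ℕ) (hq : q < a + 1) (y : Fin (a + 1) × Fin (a + 1)),
      ((VVQ u hu a).E *ᵥ X q) y +
      (if h : q + 1 < a + 1 then qn u ((a : ℤ) - q) *
        (pw u (2 * (VVQ u hu a).wt y) * x (⟨q + 1, h⟩, y.1, y.2)) else 0) = 0 := by
    intro q hq y
    have h1 := E_sliceR hu a x y q hq
    rw [hx.E, Pi.zero_apply] at h1
    rw [hXq q hq]
    exact h1.symm
  have hpw : ∀ t : ℤ, pw u t ≠ 0 := fun t => (pw_pos hu t).ne'
  have hts := top_slice hu hm (k := k) X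
    (fun q => -(qn u ((a : ℤ) - q) * pw u (2 * (2 * (a : ℤ) - 2 * ((k : ℤ) - (q + 1 : ℕ))))))
    ?_ ?_ ?_ hXw ?_ ?_
  · obtain ⟨r1, r2, r3, d, hd0, hd⟩ := hts
    refine ⟨r1, r2, r3, d, hd0, fun h z => ?_⟩
    rw [hXq _ h] at hd
    exact congrFun hd z
  · intro q hq
    exact neg_ne_zero.mpr (mul_ne_zero (qn_ne hu (by omega)) (hpw _))
  · intro q hq
    funext y
    have h1 := hsl q (by omega) y
    rw [dif_pos (by omega : q + 1 < a + 1)] at h1
    have h2 := wt_scal hu (hXw (q + 1) (by omega)) y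
    rw [hXq (q + 1) (by omega)] at h2
    simp only at h2
    rw [h2] at h1
    rw [Pi.smul_apply, smul_eq_mul, hXq (q + 1) (by omega)]
    simp only
    linarith
  · funext y
    have h1 := hsl a (by omega) y
    rw [dif_neg (by omega), add_zero] at h1
    exact h1
  · intro q hq
    funext y
    have h1 := s2_slice (u := u) a x y ⟨q, by omega⟩
    rw [hs] at h1
    rw [hXq q (by omega), ← h1]
    rfl
  · by_contra hcon
    push Not at hcon
    apply h0
    funext w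
    obtain ⟨w3, w1, w2⟩ := w
    have h1 := hcon w3 (by have := w3.2; omega)
    rw [hXq _ w3.2] at h1
    exact congrFun h1 (w1, w2)

theorem gR_uniq (hu : 1 < (u : ℝ)) {a m k : ℕ} (hm : m ≤ a) {x : Ix a → ℝ} (h0 : x ≠ 0)
    (hx : (UQ u hu a).HW (3 * (a : ℤ) - 2 * k) x) (hs : s2 u a *ᵥ x = lam u a m • x) :
    m ≤ k ∧ k - m ≤ a ∧ k - m + 2 * m ≤ 2 * a ∧ ∃ c : ℝ, x = c • gR u a m (k - m) := by
  obtain ⟨r1, r2, r3, d, hd0, hd⟩ := uniq_aux hu hm h0 hx hs
  have hh := hc_top hu r2 r3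
  set H := hc u a (2 * a - 2 * m) (k - m : ℕ) (k - m) with hH
  refine ⟨r1, r2, r3, d / H, ?_⟩
  by_contra hcon
  have hne : x + (-(d / H)) • gR u a m (k - m) ≠ 0 := by
    intro h
    apply hcon
    have : x = (x + (-(d / H)) • gR u a m (k - m)) + (d / H) • gR u a m (k - m) := by
      rw [neg_smul]
      abel
    rw [this, h, zero_add]
  have hfw := gR_hw hu hm r2 r3
  have hmk : m + (k - m) = k := by omega
  rw [hmk] at hfw
  obtain ⟨-, -, -, d', hd0', hd'⟩ := uniq_aux hu hm (k := k) hne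
    (hx.add (hfw.smul (-(d / H)))) (by
    rw [Matrix.mulVec_add, Matrix.mulVec_smul, hs, s2_gR hu hm, smul_add, smul_comm])
  have h1 := hd' (by omega) (0, ⟨m, by omega⟩)
  have h2 := hd (by omega) (0, ⟨m, by omega⟩)
  rw [Pi.add_apply, Pi.smul_apply, h2, gR_top, um_zero a m (by omega), ← hH] at h1
  simp only [smul_eq_mul, mul_one] at h1
  apply hd0'
  have h3 : -(d / H) * H = -d := by
    field_simp
  rw [h3] at h1
  linarith

end Pool.Agent.KT
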