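import Pool.Agent.Work.MP_ab49bb_gt.Pt
import Pool.Agent.Work.MP_ab49bb_gt.As1

/-!
# Ca0 (S-M): the case `d = 0`, `p = 1`

`sp L = 1` and `GenL L` give `L = [(1,q)]`, `q = sq L`. `jt_zero`: the term `m` is `(-1)^(mq) v^(q E(m)) [2a-2m+1]`, `E(m) = a² - 4am + 2m² - 2m`, up to the sign `Asy (q E(m) + 4a - 4m)` (`Asy_lam`, `Asy_qn`), and `E` is strictly decreasing for `m ≤ a`, so the term
`m = 0` (sign `+`) dominates (`Asy_sum` needs the signs: treat `(-1)^(mq)` as a bounded factor, or use the limits of the terms directly): `jt v^(-D) → 1` with `D = -q a(a+2) + q a² + 4a = (4 - 2q) a`.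
So `RDeg` with `c = 1/2`, `C = 2`, and `DegNeg` with period `1`: `D = 2(2-q)(n-1)`, `b = 2 - q ≤ 0`.
-/

set_option autoImplicit false

namespace Pool.Agent.KT

open Filter Topology

/-- the exponent of the term `m` -/
private def ez (a q m : ℕ) : ℤ :=
  2 * (2 * (a : ℤ) - 2 * m + 1) - 2 + q * ((a : ℤ) ^ 2 - 4 * a * m + 2 * (m : ℤ) ^ 2 - 2 * m)

private theorem ez_lt {a q m : ℕ} (hm : m ≤ a) (h0 : m ≠ 0) : ez a q m < ez a q 0 := by
  unfold ez
  have h1 : (1 : ℤ) ≤ m := by omega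
  have h2 : (m : ℤ) ≤ a := by omega
  have h3 : (0 : ℤ) ≤ q := by omega
  have h4 : 0 ≤ (m : ℤ) * (2 * a + 1 - m) := mul_nonneg (by omega) (by omega)
  have h5 : 0 ≤ (q : ℤ) * ((m : ℤ) * (2 * a + 1 - m)) := mul_nonneg h3 h4
  push_cast
  nlinarith

private theorem asy_term (a q : ℕ) {m : ℕ} (hm : m ≤ a) :
    Asy (fun v => qn (ru v) (2 * (a : ℤ) - 2 * m + 1) * ((-1) ^ m * lam (ru v) a m) ^ q)
      (ez a q m) :=
  (Asy_qn (by omega)).mul ((Asy_lam a m).pow q)

private theorem lim_term (a q : ℕ) {m : ℕ} (hm : m ≤ a) :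
    Tendsto (fun v : ℝ => qn (ru v) (2 * (a : ℤ) - 2 * m + 1) * lam (ru v) a m ^ q *
      v ^ (-ez a q 0)) atTop (𝓝 (if m = 0 then 1 else 0)) := by
  have h1 := asy_term a q hm
  unfold Asy at h1
  by_cases h0 : m = 0
  · subst h0
    rw [if_pos rfl]
    simpa using h1
  · rw [if_neg h0]
    have hlt : ez a q m - ez a q 0 < 0 := by
      have := ez_lt (q := q) hm h0
      omega
    have h2 : Tendsto (fun v : ℝ => v ^ (ez a q m - ez a q 0)) atTop (𝓝 0) :=
      tendsto_zpow_atTop_zero hlt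
    have h3 := (h1.mul h2).const_mul (((-1 : ℝ) ^ m) ^ q)
    rw [mul_zero, mul_zero] at h3
    refine h3.congr' ?_
    filter_upwards [eventually_gt_atTop (0 : ℝ)] with v hv
    have h4 : v ^ (-ez a q 0) = v ^ (-ez a q m) * v ^ (ez a q m - ez a q 0) := by
      rw [← zpow_add₀ hv.ne']
      congr 1
      ring
    have h5 : ((-1 : ℝ) ^ m) ^ q * ((-1 : ℝ) ^ m) ^ q = 1 := by
      rw [← mul_pow, ← mul_pow]
      norm_num
    rw [h4, mul_pow]
    linear_combination (qn (ru v) (2 * (a : ℤ) - 2 * m + 1) * lam (ru v) a m ^ q *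
      (v ^ (-ez a q m) * v ^ (ez a q m - ez a q 0))) * h5

private theorem asy_total (a q : ℕ) :
    Asy (fun v => jt (ru v) a (gw 0 [(1, q)])) ((4 - 2 * (q : ℤ)) * a) := by
  have h1 : Asy (fun v => ∑ m ∈ Finset.range (a + 1),
      qn (ru v) (2 * (a : ℤ) - 2 * m + 1) * lam (ru v) a m ^ q) (ez a q 0) := by
    unfold Asy
    have h2 : Tendsto (fun v : ℝ => ∑ m ∈ Finset.range (a + 1),
        qn (ru v) (2 * (a : ℤ) - 2 * m + 1) * lam (ru v) a m ^ q * v ^ (-ez a q 0)) atTop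
        (𝓝 (∑ m ∈ Finset.range (a + 1), if m = 0 then 1 else 0)) :=
      tendsto_finsetSum _ fun m hm => lim_term a q (Nat.lt_succ_iff.1 (Finset.mem_range.1 hm))
    have h3 : (∑ m ∈ Finset.range (a + 1), if m = 0 then (1 : ℝ) else 0) = 1 := by
      rw [Finset.sum_ite_eq', if_pos (Finset.mem_range.2 (Nat.succ_pos a))]
    rw [h3] at h2
    refine h2.congr fun v => ?_
    rw [Finset.sum_mul]
  have h4 := ((Asy_pw (-((q : ℤ) * (a * (a + 2))))).mul h1).congr (fun v hv =>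
    (jt_zero (ru_gt hv) a q).symm)
  have h5 : -((q : ℤ) * (a * (a + 2))) + ez a q 0 = (4 - 2 * (q : ℤ)) * a := by
    unfold ez
    push_cast
    ring
  rw [h5] at h4
  exact h4

private theorem rdeg_of_asy {w : List Letter} {a : ℕ} {D : ℤ}
    (h : Asy (fun v => jt (ru v) a w) D) : RDeg w a D := by
  refine ⟨1 / 2, 2, by norm_num, ?_⟩
  unfold Asy at h
  filter_upwards [h.eventually (Ioo_mem_nhds (by norm_num : (1 / 2 : ℝ) < 1)
    (by norm_num : (1 : ℝ) < 2)), eventually_gt_atTop (0 : ℝ)] with v hv h0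
  have hp : 0 < v ^ D := zpow_pos h0 D
  have h1 : jt (ru v) a w = jt (ru v) a w * v ^ (-D) * v ^ D := by
    rw [mul_assoc, ← zpow_add₀ h0.ne', neg_add_cancel, zpow_zero, mul_one]
  obtain ⟨h2, h3⟩ := hv
  generalize jt (ru v) a w * v ^ (-D) = t at h1 h2 h3
  rw [h1, abs_mul, abs_of_pos hp, abs_of_pos (by linarith)]
  exact ⟨mul_le_mul_of_nonneg_right h2.le hp.le, mul_le_mul_of_nonneg_right h3.le hp.le⟩

theorem case_zero {L : List (ℕ × ℕ)} (hL : GenL L) (hp : sp L = 1) (hq : 2 ≤ sq L) :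
    DegNeg (gw 0 L) := by
  obtain ⟨q, rfl⟩ : ∃ q, L = [(1, q)] := by
    obtain ⟨hne, hpos⟩ := hL
    cases L with
    | nil => exact absurd rfl hne
    | cons x L' =>
      have h1 := hpos x List.mem_cons_self
      cases L' with
      | nil =>
        have h2 : x.1 = 1 := by
          simpa [sp] using hp
        exact ⟨x.2, by rw [← h2]⟩
      | cons y L'' =>
        have h2 := hpos y (List.mem_cons_of_mem _ List.mem_cons_self)
        have h3 : sp (x :: y :: L'') = x.1 + (y.1 + (L''.map Prod.fst).sum) := by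
          simp [sp]
        omega
  have hq' : 2 ≤ q := by simpa [sq] using hq
  have hqQ : (2 : ℚ) ≤ q := by exact_mod_cast hq'
  refine ⟨1, fun _ => 0, fun _ => 2 - q, fun _ => -(2 * (2 - q)), ⟨one_pos, 1, fun n hn => ?_⟩,
    fun _ _ => by linarith⟩
  refine ⟨(4 - 2 * (q : ℤ)) * ((n - 1 : ℕ) : ℤ), rdeg_of_asy (asy_total (n - 1) q), ?_⟩
  push_cast [Nat.cast_sub hn]
  ring

end Pool.Agent.KT
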