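import Pool.Agent.Work.MP_ab49bb_gt.Gm

/-!
# CaI (S-M): the case `0 ≤ d ≤ q`, `(d,p) ≠ (0,1)`

`p = sp L ≥ 1`, `q = sq L ≥ 1` (`GenL`). For `a ≥ 1`, `D = FB 0 = (2p+8d) a(a+2) - 2(q-1) a`:
`FB 0 - FB s = s (2p(s+1) + 4d(s+a+1) - 4) > 0` for `1 ≤ s` (`d ≥ 1`: `≥ s(4 + 8 - 4)`; `d = 0`: `p ≥ 2`, `2p(s+1) ≥ 8`).
`FB 0 - FA h = 2ph(h+1) + h(2q(2a-h+1) - 4d(a+1-h)) + 4h > 0` for `1 ≤ h`, `2h ≤ a`: with `d ≤ q`: `2q(2a-h+1) - 4d(a+1-h) ≥ 2q(2a-h+1) - 4q(a+1-h) = 2q(h-1) ≥ 0`.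
So `gen_max` applies with the unique index `s = 0`, `ε = (-1)^(a p)`. `DegNeg` with period `1`: `n = a + 1 ≥ 2`, `D = (2p+8d) n² + 2(1-q) n + c`, `c = -(2p+8d) + 2(q-1)`, `b = 1 - q ≤ 0`.
-/

set_option autoImplicit false

namespace Pool.Agent.KT

private theorem one_le_sp {L : List (ℕ × ℕ)} (hL : GenL L) : 1 ≤ sp L ∧ 1 ≤ sq L := by
  obtain ⟨h1, h2⟩ := hL
  cases L with
  | nil => exact absurd rfl h1
  | cons x L =>
    have h3 := h2 x (List.mem_cons_self)
    unfold sp sq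
    rw [List.map_cons, List.map_cons, List.sum_cons, List.sum_cons]
    omega

theorem case_one {L : List (ℕ × ℕ)} (hL : GenL L) {d : ℤ} (h0 : 0 ≤ d) (h1 : d ≤ sq L)
    (h2 : ¬(d = 0 ∧ sp L = 1)) : DegNeg (gw d L) := by
  obtain ⟨hp, hq⟩ := one_le_sp hL
  have hpz : (1 : ℤ) ≤ sp L := by exact_mod_cast hp
  have hqz : (1 : ℤ) ≤ sq L := by exact_mod_cast hq
  refine ⟨1, fun _ => 2 * (sp L : ℚ) + 8 * d, fun _ => 1 - (sq L : ℚ),
    fun _ => -(2 * (sp L : ℚ) + 8 * d) + 2 * ((sq L : ℚ) - 1), ⟨one_pos, 2, fun n hn => ?_⟩,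
    fun j _ => ?_⟩
  · obtain ⟨a, rfl⟩ : ∃ a, n = a + 1 := ⟨n - 1, by omega⟩
    have ha : 1 ≤ a := by omega
    have haz : (1 : ℤ) ≤ a := by exact_mod_cast ha
    rw [Nat.add_sub_cancel]
    refine ⟨FB a (sp L) (sq L) d 0, ?_, ?_⟩
    · refine gen_max hL ((-1 : ℝ) ^ (a * sp L)) (neg_one_pow_eq_or ℝ _) (fun s hs => ?_)
        (fun h hh1 hh2 => ?_) (Or.inl ⟨0, Nat.zero_le a, by rw [Nat.cast_zero]⟩)
      · rcases Nat.eq_zero_or_pos s with h3 | h3
        · subst h3
          rw [Nat.cast_zero, Nat.sub_zero]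
          exact ⟨le_refl _, fun _ => rfl⟩
        · have hsz : (1 : ℤ) ≤ s := by exact_mod_cast h3
          have hX : 0 < 2 * (sp L : ℤ) * (s + 1) + 4 * d * (s + a + 1) - 4 := by
            rcases lt_or_eq_of_le h0 with h4 | h4
            · have h5 : 0 ≤ (sp L : ℤ) * (s + 1) := by positivity
              have h6 : 1 * ((s : ℤ) + a + 1) ≤ d * (s + a + 1) :=
                mul_le_mul_of_nonneg_right (by omega) (by omega)
              linarith
            · have h5 : (2 : ℤ) ≤ sp L := by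
                have : ¬ sp L = 1 := fun h => h2 ⟨h4.symm, h⟩
                omega
              rw [← h4]
              have h6 : 2 * ((s : ℤ) + 1) ≤ (sp L : ℤ) * (s + 1) :=
                mul_le_mul_of_nonneg_right h5 (by omega)
              linarith
          have hlt : FB a (sp L) (sq L) d s < FB a (sp L) (sq L) d 0 := by
            have h5 : FB a (sp L) (sq L) d 0 - FB a (sp L) (sq L) d s =
                s * (2 * (sp L : ℤ) * (s + 1) + 4 * d * (s + a + 1) - 4) := by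
              unfold FB
              ring
            have h6 := mul_pos (by omega : (0 : ℤ) < s) hX
            linarith
          exact ⟨hlt.le, fun h => absurd h hlt.ne⟩
      · have hhz : (1 : ℤ) ≤ h := by exact_mod_cast hh1
        have hhz2 : 2 * (h : ℤ) ≤ a := by exact_mod_cast hh2
        have hlt : FA a (sp L) (sq L) d h < FB a (sp L) (sq L) d 0 := by
          have h5 : FB a (sp L) (sq L) d 0 - FA a (sp L) (sq L) d h =
              2 * ((sp L : ℤ) * (h * (h + 1))) + h * (2 * (sq L : ℤ) * (h - 1) +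
                4 * (((sq L : ℤ) - d) * (a + 1 - h))) + 4 * h := by
            unfold FA FB
            ring
          have h6 : 0 ≤ (sp L : ℤ) * (h * (h + 1)) := by positivity
          have h7 : 0 ≤ ((sq L : ℤ) - d) * (a + 1 - h) :=
            mul_nonneg (by linarith) (by omega)
          have h8 : 0 ≤ 2 * (sq L : ℤ) * (h - 1) := mul_nonneg (by positivity) (by omega)
          have h9 : 0 ≤ (h : ℤ) * (2 * (sq L : ℤ) * (h - 1) +
                4 * (((sq L : ℤ) - d) * (a + 1 - h))) := mul_nonneg (by omega) (by linarith)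
          linarith
        exact ⟨hlt.le, fun h => absurd h hlt.ne⟩
    · unfold FB
      push_cast
      ring
  · have : (1 : ℚ) ≤ sq L := by exact_mod_cast hq
    linarith

end Pool.Agent.KT
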