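import Pool.Agent.Work.MP_ab49bb_gt.RDefs

/-!
# Rnd (S): the maximum of `-2κ h² + 2 h N` over the integers

`2κ (-2κh² + 2hN) = N² - (N - 2κh)²`, `N - 2κh ≡ N mod 2κ`, and `N.bmod (2κ)` is the residue of least absolute value (`-κ ≤ bmod < κ`: `Int.bmod_lt`, `Int.le_bmod`, `Int.dvd_bmod_sub_self`/`Int.bmod_add_bmod..`).
(a) `|N.bmod (2κ)| ≤ |N - 2κh|`: the difference is a multiple `2κ l`; if `l ≠ 0`: `|N - 2κh| ≥ 2κ - |bmod| ≥ |bmod|`.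
(b) `h0 = (N - N.bmod (2κ)) / (2κ)` satisfies `2κ h0 = N - bmod`.
(c) equality for `h` and `h'` gives `|N - 2κh| = |N - 2κh'| ≤ κ`, so `2κ|h-h'| ≤ 2κ`.
(d) the value as a polynomial: all `h` with `2κ h = N - b`.
-/

set_option autoImplicit false

namespace Pool.Agent.KT

private theorem rnd_bd {κ : ℕ} (hκ : 0 < κ) (N : ℤ) : |N.bmod (2 * κ)| ≤ κ := by
  have h0 : 0 < 2 * κ := by omega
  have h1 := Int.bmod_lt (x := N) h0
  have h2 := Int.le_bmod (x := N) h0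
  rw [abs_le]
  constructor
  · push_cast at h2; omega
  · push_cast at h1; omega

private theorem rnd_dv (κ : ℕ) (N : ℤ) : ∃ l : ℤ, N - N.bmod (2 * κ) = 2 * κ * l := by
  have h := Int.dvd_self_sub_bmod (x := N) (m := 2 * κ)
  obtain ⟨l, hl⟩ := h
  exact ⟨l, by rw [hl]; push_cast; ring⟩

theorem rnd_le {κ : ℕ} (hκ : 0 < κ) (N h : ℤ) :
    2 * κ * (2 * h * N - 2 * κ * h ^ 2) ≤ N ^ 2 - (N.bmod (2 * κ)) ^ 2 := by
  obtain ⟨l, hl⟩ := rnd_dv κ N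
  have hb := rnd_bd hκ N
  set b := N.bmod (2 * κ) with hbdef
  have hk : (0 : ℤ) < κ := by exact_mod_cast hκ
  have h1 : N - 2 * κ * h = b + 2 * κ * (l - h) := by linarith [hl, mul_sub (2 * (κ : ℤ)) l h]
  have h2 : -(b * (l - h)) ≤ κ * (l - h) ^ 2 := by
    have h3 : |b * (l - h)| ≤ κ * |l - h| := by
      rw [abs_mul]; exact mul_le_mul_of_nonneg_right hb (abs_nonneg _)
    have h4 : |l - h| ≤ (l - h) ^ 2 := by
      rw [← sq_abs]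
      exact Int.le_self_sq _
    have h5 := neg_le_of_abs_le h3
    have h6 := mul_le_mul_of_nonneg_left h4 hk.le
    linarith
  have h7 : 0 ≤ 4 * (κ : ℤ) * (b * (l - h) + κ * (l - h) ^ 2) := by
    have : 0 ≤ b * (l - h) + κ * (l - h) ^ 2 := by linarith
    positivity
  have h8 : (N - 2 * κ * h) ^ 2 = b ^ 2 + 4 * κ * (b * (l - h) + κ * (l - h) ^ 2) := by
    rw [h1]; ring
  have h9 : 2 * (κ : ℤ) * (2 * h * N - 2 * κ * h ^ 2) = N ^ 2 - (N - 2 * κ * h) ^ 2 := by ring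
  rw [h9, h8]
  linarith

theorem rnd_ex {κ : ℕ} (hκ : 0 < κ) (N : ℤ) : ∃ h : ℤ, 2 * κ * h = N - N.bmod (2 * κ) ∧
    2 * κ * (2 * h * N - 2 * κ * h ^ 2) = N ^ 2 - (N.bmod (2 * κ)) ^ 2 := by
  obtain ⟨l, hl⟩ := rnd_dv κ N
  refine ⟨l, hl.symm, ?_⟩
  have h9 : 2 * (κ : ℤ) * (2 * l * N - 2 * κ * l ^ 2) = N ^ 2 - (N - 2 * κ * l) ^ 2 := by ring
  have h1 : N - 2 * κ * l = N.bmod (2 * κ) := by linarith
  rw [h9, h1]

theorem rnd_abs {κ : ℕ} (hκ : 0 < κ) (N : ℤ) : |N.bmod (2 * κ)| ≤ κ := rnd_bd hκ N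

theorem rnd_tie {κ : ℕ} (hκ : 0 < κ) (N h h' : ℤ)
    (e : 2 * κ * (2 * h * N - 2 * κ * h ^ 2) = N ^ 2 - (N.bmod (2 * κ)) ^ 2)
    (e' : 2 * κ * (2 * h' * N - 2 * κ * h' ^ 2) = N ^ 2 - (N.bmod (2 * κ)) ^ 2) :
    |h - h'| ≤ 1 := by
  have hb := rnd_bd hκ N
  set b := N.bmod (2 * κ) with hbdef
  have hk : (0 : ℤ) < κ := by exact_mod_cast hκ
  have h1 : (N - 2 * κ * h) ^ 2 = b ^ 2 := by
    have : 2 * (κ : ℤ) * (2 * h * N - 2 * κ * h ^ 2) = N ^ 2 - (N - 2 * κ * h) ^ 2 := by ring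
    linarith
  have h2 : (N - 2 * κ * h') ^ 2 = b ^ 2 := by
    have : 2 * (κ : ℤ) * (2 * h' * N - 2 * κ * h' ^ 2) = N ^ 2 - (N - 2 * κ * h') ^ 2 := by ring
    linarith
  have h3 : |N - 2 * κ * h| ≤ κ := by rw [(sq_eq_sq_iff_abs_eq_abs _ _).1 h1]; exact hb
  have h4 : |N - 2 * κ * h'| ≤ κ := by rw [(sq_eq_sq_iff_abs_eq_abs _ _).1 h2]; exact hb
  rw [abs_le] at h3 h4 ⊢
  constructor
  · by_contra hc
    push Not at hc
    have : h - h' ≤ -2 := by omega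
    have := mul_le_mul_of_nonneg_left this hk.le
    nlinarith
  · by_contra hc
    push Not at hc
    have : 2 ≤ h - h' := by omega
    have := mul_le_mul_of_nonneg_left this hk.le
    nlinarith

end Pool.Agent.KT
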