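import Pool.Agent.Work.MP_ab49bb_gt.Gm
import Pool.Agent.Work.MP_ab49bb_gt.Rnd

/-!
# CaII (M): the case `d > q`

`p = sp L ≥ 1`, `q = sq L ≥ 1`, `p + q` even, `d > q`, `κ = 2d + p - q > 0` (as a natural number), `n = a + 1`, `N = 2(d-q)n - p + q - 2`.
`FA h = FB 0 - 2κh² + 2hN` for all `h` (`ring`; also for `h = 0`). For `s ≥ 1`: `FB s < FB 0` (`FB 0 - FB s = s (2p(s+1) + 4d(s+a+1) - 4) > 0`).
`D = FB 0 + (N² - b²)/(2κ)`, `b = N.bmod (2κ)`: `rnd_le`, `rnd_ex`. For large `n` the maximiser `h0 = (N - b)/(2κ)` satisfies `1 ≤ h0` (`N → ∞`) and `2 h0 ≤ a`: `2κ h0 ≤ N + κ`, and `2(N + κ) ≤ 2κ a` for large `n` because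
`4(d-q) < 2κ = 4d + 2p - 2q`. So `D` is attained by `FA h0`; `FA h ≤ D`, `FB s ≤ D` (`(N² - b²)/(2κ) ≥ 0` by `rnd_le` with `h = 0`). Signs: `(-1)^((a-h)p + hq) = (-1)^(ap)` for all `h ≤ a` since `p + q` is even
(`(a-h)p + hq ≡ ap + h(p+q) mod 2`), and for `s = 0` the sign is `(-1)^(ap)`, too (if `FB s = D` then `s = 0`). So `gen_max` with `ε = (-1)^(ap)` (`a ≥ n0`).
`DegNeg` with period `2κ`: `N mod 2κ` depends only on `n mod 2κ` (`Int.bmod` of congruent numbers: `Int.bmod_eq_bmod_iff_..` or `Int.emod_emod_of_dvd`; put `b_j = (2(d-q)j - p + q - 2).bmod (2κ)`).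
`D = (2p+8d)(n²-1) - 2(q-1)(n-1) + ((α n + β)² - b_j²)/(2κ)`, `α = 2(d-q)`, `β = q-p-2`: the linear coefficient is `2 b` with
`b = 1 - q + αβ/(2κ) = (p+q)(1-d)/κ ≤ 0` (`field_simp; ring`).
-/

set_option autoImplicit false

namespace Pool.Agent.KT

private theorem sp_pos {L : List (ℕ × ℕ)} (hL : GenL L) : 0 < sp L ∧ 0 < sq L := by
  obtain ⟨hne, hpos⟩ := hL
  cases L with
  | nil => exact absurd rfl hne
  | cons x l =>
    have h1 := hpos x List.mem_cons_self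
    constructor
    · rw [sp, List.map_cons, List.sum_cons]
      omega
    · rw [sq, List.map_cons, List.sum_cons]
      omega

private theorem core {p q κ a : ℕ} {d : ℤ} (hp0 : 0 < p) (hq0 : 0 < q) (hd : (q : ℤ) < d)
    (hκ : (κ : ℤ) = 2 * d + p - q) (ha : 4 * κ + p + q + 10 ≤ a) {N : ℤ}
    (hN : N = 2 * (d - q) * (a + 1) + q - p - 2) :
    ∃ D : ℤ, 2 * κ * (D - FB a p q d 0) = N ^ 2 - (N.bmod (2 * κ)) ^ 2 ∧
      (∀ s : ℕ, FB a p q d s ≤ D ∧ (FB a p q d s = D → s = 0)) ∧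
      (∀ h : ℤ, FA a p q d h ≤ D) ∧ ∃ h : ℕ, 1 ≤ h ∧ 2 * h ≤ a ∧ FA a p q d h = D := by
  have hκ0 : 0 < κ := by omega
  have hκZ : (0 : ℤ) < κ := by exact_mod_cast hκ0
  have haZ : 4 * (κ : ℤ) + p + q + 10 ≤ a := by exact_mod_cast ha
  have hpZ : (1 : ℤ) ≤ p := by exact_mod_cast hp0
  have hqZ : (1 : ℤ) ≤ q := by exact_mod_cast hq0
  obtain ⟨h0, e1, e2⟩ := rnd_ex hκ0 N
  have hb := rnd_abs hκ0 N
  rw [abs_le] at hb
  have hFA : ∀ h : ℤ, FA a p q d h = FB a p q d 0 + (2 * h * N - 2 * κ * h ^ 2) := by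
    intro h
    rw [FA, FB, hN, hκ]
    ring
  have hle : ∀ h : ℤ, 2 * h * N - 2 * κ * h ^ 2 ≤ 2 * h0 * N - 2 * κ * h0 ^ 2 := by
    intro h
    have h1 := rnd_le hκ0 N h
    rw [← e2] at h1
    exact le_of_mul_le_mul_left h1 (by positivity)
  have hD0 : FB a p q d 0 ≤ FA a p q d h0 := by
    rw [hFA]
    have h1 := hle 0
    simp only [mul_zero, zero_mul, ne_eq, OfNat.ofNat_ne_zero, not_false_eq_true, zero_pow,
      sub_zero] at h1
    linarith
  refine ⟨FA a p q d h0, ?_, ?_, ?_, ?_⟩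
  · rw [hFA, ← e2]
    ring
  · intro s
    rcases Nat.eq_zero_or_pos s with hs | hs
    · subst hs
      exact ⟨hD0, fun _ => rfl⟩
    · have h1 : FB a p q d s < FB a p q d 0 := by
        have hsZ : (1 : ℤ) ≤ s := by exact_mod_cast hs
        have h2 : FB a p q d 0 - FB a p q d s =
            s * (2 * p * (s + 1) + 4 * d * (s + a + 1) - 4) := by
          rw [FB, FB]
          ring
        have h3 : (0 : ℤ) < 2 * p * (s + 1) + 4 * d * (s + a + 1) - 4 := by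
          have h4 : (0 : ℤ) ≤ 2 * p * (s + 1) := by positivity
          have h5 : (2 : ℤ) ≤ d := by linarith
          have h6 : (1 : ℤ) ≤ s + a + 1 := by linarith [(Int.natCast_nonneg a : (0 : ℤ) ≤ a)]
          nlinarith
        have h7 : (0 : ℤ) < s * (2 * p * (s + 1) + 4 * d * (s + a + 1) - 4) :=
          mul_pos (by linarith) h3
        linarith
      exact ⟨by linarith, fun h2 => by linarith⟩
  · intro h
    rw [hFA, hFA]
    have h1 := hle h
    linarith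
  · have hdq : (1 : ℤ) ≤ d - q := by linarith
    have haN : (0 : ℤ) ≤ (a : ℤ) + 1 := by positivity
    have hN1 : (κ : ℤ) < N := by
      rw [hN]
      nlinarith
    have hpos : 0 < h0 := by
      have h1 : 0 < 2 * (κ : ℤ) * h0 := by
        rw [e1]
        linarith
      exact (mul_pos_iff_of_pos_left (by positivity)).1 h1
    have h2a : 2 * h0 ≤ a := by
      have h1 : (κ : ℤ) * (2 * h0) ≤ κ * a := by
        have h2 : (κ : ℤ) * (2 * h0) = N - N.bmod (2 * κ) := by rw [← e1]; ring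
        rw [h2]
        have h3 : N + κ ≤ κ * a := by
          have h4 : (κ : ℤ) * a - (N + κ) = (p + q) * (a + 1) - 2 * κ - q + p + 2 := by
            rw [hN, hκ]
            ring
          have h5 : 2 * ((a : ℤ) + 1) ≤ (p + q) * (a + 1) :=
            mul_le_mul_of_nonneg_right (by linarith) haN
          linarith
        linarith
      exact le_of_mul_le_mul_left h1 hκZ
    refine ⟨h0.toNat, by omega, by omega, ?_⟩
    rw [Int.toNat_of_nonneg hpos.le]

theorem case_two {L : List (ℕ × ℕ)} (hL : GenL L) {d : ℤ} (hd : (sq L : ℤ) < d)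
    (hp : Even (sp L + sq L)) : DegNeg (gw d L) := by
  obtain ⟨hp0, hq0⟩ := sp_pos hL
  obtain ⟨κ, hκ⟩ : ∃ κ : ℕ, (κ : ℤ) = 2 * d + sp L - sq L :=
    ⟨(2 * d + sp L - sq L).toNat, by omega⟩
  have hκ0 : 0 < κ := by omega
  have hκQ : (κ : ℚ) = 2 * d + sp L - sq L := by exact_mod_cast hκ
  have hκQ0 : (0 : ℚ) < κ := by exact_mod_cast hκ0
  have hq1 : (1 : ℚ) ≤ sq L := by exact_mod_cast hq0
  have hdQ : (sq L : ℚ) < d := by exact_mod_cast hd
  refine ⟨2 * κ, fun _ => 2 * sp L + 8 * d + (2 * (d - sq L)) ^ 2 / (2 * κ),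
    fun _ => 1 - sq L + (2 * (d - sq L)) * (sq L - sp L - 2) / (2 * κ),
    fun j => -(2 * sp L + 8 * d) + 2 * (sq L - 1) + ((sq L - sp L - 2) ^ 2 -
      (((2 * (d - sq L) * (j : ℤ) + (sq L - sp L - 2)).bmod (2 * κ) : ℤ) : ℚ) ^ 2) / (2 * κ),
    ⟨by omega, 4 * κ + sp L + sq L + 11, ?_⟩, ?_⟩
  · intro n hn
    obtain ⟨a, rfl⟩ : ∃ a, n = a + 1 := ⟨n - 1, by omega⟩
    obtain ⟨D, hD, h1, h2, h0, h3, h4, h5⟩ := core (a := a) hp0 hq0 hd hκ (by omega) rfl
    refine ⟨D, ?_, ?_⟩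
    · rw [Nat.add_sub_cancel]
      refine gen_max hL ((-1) ^ (a * sp L)) (neg_one_pow_eq_or ℝ _) ?_ ?_ (Or.inr ⟨h0, h3, h4, h5⟩)
      · intro s _
        refine ⟨(h1 s).1, fun e => ?_⟩
        rw [(h1 s).2 e, Nat.sub_zero]
      · intro h _ hh
        refine ⟨h2 h, fun _ => ?_⟩
        have e1 : a * sp L + h * (sp L + sq L) = ((a - h) * sp L + h * sq L) + 2 * (h * sp L) := by
          obtain ⟨r, rfl⟩ : ∃ r, a = h + r := ⟨a - h, by omega⟩
          rw [Nat.add_sub_cancel_left]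
          ring
        have e2 : (-1 : ℝ) ^ (h * (sp L + sq L)) = 1 := (hp.mul_left h).neg_one_pow
        have e3 : (-1 : ℝ) ^ (2 * (h * sp L)) = 1 := (even_two_mul _).neg_one_pow
        have e4 := congrArg (fun t => (-1 : ℝ) ^ t) e1
        simp only [pow_add _ (a * sp L), pow_add _ ((a - h) * sp L + h * sq L), e2, e3,
          mul_one] at e4
        exact e4.symm
    · have e1 : ((2 * (d - sq L) * ((a : ℤ) + 1) + sq L - sp L - 2).bmod (2 * κ)) =
          (2 * (d - sq L) * (((a + 1) % (2 * κ) : ℕ) : ℤ) + (sq L - sp L - 2)).bmod (2 * κ) := by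
        have e2 : ((a : ℤ) + 1) = (((a + 1) % (2 * κ) : ℕ) : ℤ) +
            ((2 * κ : ℕ) : ℤ) * (((a + 1) / (2 * κ) : ℕ) : ℤ) := by
          exact_mod_cast (Nat.mod_add_div (a + 1) (2 * κ)).symm
        rw [e2]
        have e3 : 2 * (d - (sq L : ℤ)) * ((((a + 1) % (2 * κ) : ℕ) : ℤ) +
            ((2 * κ : ℕ) : ℤ) * (((a + 1) / (2 * κ) : ℕ) : ℤ)) + sq L - sp L - 2 =
            (2 * (d - sq L) * (((a + 1) % (2 * κ) : ℕ) : ℤ) + (sq L - sp L - 2)) +
            ((2 * κ : ℕ) : ℤ) * (2 * (d - sq L) * (((a + 1) / (2 * κ) : ℕ) : ℤ)) := by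
          ring
        rw [e3, Int.add_mul_bmod_self_left]
      rw [e1] at hD
      beta_reduce
      generalize ((2 * (d - sq L) * (((a + 1) % (2 * κ) : ℕ) : ℤ) +
        (sq L - sp L - 2)).bmod (2 * κ)) = r at hD ⊢
      rw [FB] at hD
      have hD' : 2 * (κ : ℚ) * (D - ((2 * sp L + 8 * d) * (a * (a + 2)) - 2 * (sq L - 1) * a)) =
          (2 * (d - sq L) * (a + 1) + sq L - sp L - 2) ^ 2 - (r : ℚ) ^ 2 := by
        have hD2 : 2 * (κ : ℤ) * (D - ((2 * sp L + 8 * d) * (a * (a + 2)) -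
            2 * (sq L - 1) * a)) =
            (2 * (d - sq L) * (a + 1) + sq L - sp L - 2) ^ 2 - r ^ 2 := by
          rw [← hD]
          ring
        exact_mod_cast hD2
      have hDD : (D : ℚ) = ((2 * sp L + 8 * d) * (a * (a + 2)) - 2 * (sq L - 1) * a) +
          ((2 * (d - sq L) * (a + 1) + sq L - sp L - 2) ^ 2 - (r : ℚ) ^ 2) / (2 * κ) := by
        rw [← hD']
        field_simp
        ring
      rw [hDD]
      have hκn : (κ : ℚ) ≠ 0 := hκQ0.ne'
      push_cast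
      field_simp
      ring
  · intro j _
    have e1 : (1 : ℚ) - sq L + (2 * (d - sq L)) * (sq L - sp L - 2) / (2 * κ) =
        -((sp L + sq L) * (d - 1)) / κ := by
      have hκn : (κ : ℚ) ≠ 0 := hκQ0.ne'
      field_simp
      rw [hκQ]
      ring
    rw [e1]
    apply div_nonpos_of_nonpos_of_nonneg _ hκQ0.le
    rw [neg_nonpos]
    have h2 : (0 : ℚ) ≤ sp L := by positivity
    exact mul_nonneg (by linarith) (by linarith)

end Pool.Agent.KT
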