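import Pool.Agent.Work.MP_ab49bb_gt.Tie2
import Pool.Agent.Work.MP_ab49bb_gt.Rnd

/-!
# CaIII (M-L): the case `d = -e < 0`, `p > 3e`

`r = p - 2e > e ≥ 1`, `N = 2en - p + 2 = 2(ea+1) - r`, `n = a + 1`; `FB s = FB 0 - 2rs² + 2sN` (`ring`). `FA h < FB 0` for `1 ≤ h`, `2h ≤ a`:
`FA h - FB 0 = 2h(-h r + hq - 2(e+q)a - p - q - 2e - 2) < 0` (`hq ≤ aq`).
(A) `p` even, or `p` odd and `r ∤ ea+1`: `D = FB 0 + (N² - b²)/(2r)`, `b = N.bmod (2r)` (`rnd_le`, `rnd_ex`): the maximiser `s0 = (N - b)/(2r)` satisfies `0 ≤ s0` (`N ≥ r`.. for large `n`) and `s0 ≤ a` for large `n` (`2r s0 ≤ N + r ≤ 2ra` since `2e < 2r`). `gen_max`: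
for `p` even all signs `(-1)^((a-s)p)` are `1 = ε`. For `p` odd the maximiser is unique: if `FB s = FB s' = D`, `s ≠ s'` then `|s - s'| = 1` (`rnd_tie`), say `s' = s - 1`, and `FB s - FB (s-1) = 4(ea + 1 - rs) = 0`, so `r ∣ ea+1`, excluded; take
`ε = (-1)^((a-s0)p)`. (`FA h ≠ D` and `FB 0 ≤ D`.)
(B) `p` odd and `r ∣ ea+1`, `ea + 1 = r s0`: `tie_deg`: `D = FB s0 - 4 s0`, where `FB s0 = FB 0 + 2r s0(s0-1)`; in this case `N = r(2s0 - 1)`, `b = ±r`.
`DegNeg` with period `P = 2r`: `ea + 1 = en - e + 1` modulo `r` and `N` modulo `2r` depend only on `n mod 2r`. In (A): `D = (2p-8e)(n²-1) - 2(q-1)(n-1) + ((2en - p + 2)² - b_j²)/(2r)`, linear coefficient `2b`,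
`b = 1 - q + e(2-p)/r = -q + p(1-e)/r ≤ -q < 0`. In (B): `s0 = (e(n-1)+1)/r`, `D = (2p-8e)(n²-1) - 2(q-1)(n-1) + 2r s0(s0-1) - 4 s0`; linear coefficient of `2r s0(s0 - 1)`: `s0 = (e n - e + 1)/r`,
`2(en-e+1)(en-e+1-r)/r`: `2e(2 - 2e - r)/r · n`, so `b = 1 - q + e(2-2e-r)/r - 2e/r = -q + p(1-e)/r - 2e/r < 0` (`p = r + 2e`). So `b ≤ 0` in all classes.
-/

set_option autoImplicit false

namespace Pool.Agent.KT

private theorem fa_lt {a p q e : ℕ} {h : ℤ} (h1 : 1 ≤ h) (h2 : 2 * h ≤ a) :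
    FA a p q (-(e : ℤ)) h < FB a p q (-(e : ℤ)) 0 := by
  unfold FA FB
  have hp : (0 : ℤ) ≤ p := by positivity
  have hq : (0 : ℤ) ≤ q := by positivity
  have he : (0 : ℤ) ≤ e := by positivity
  have k1 : 0 ≤ (p : ℤ) * (h * (h + 1)) := mul_nonneg hp (mul_nonneg (by omega) (by omega))
  have k2 : 0 ≤ (q : ℤ) * (h * (2 * a - h + 1)) :=
    mul_nonneg hq (mul_nonneg (by omega) (by omega))
  have k3 : 0 ≤ (e : ℤ) * (h * (a + 1 - h)) := mul_nonneg he (mul_nonneg (by omega) (by omega))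
  linarith

private theorem fb_eq (a p q e : ℕ) (s : ℤ) : FB a p q (-(e : ℤ)) s =
    FB a p q (-(e : ℤ)) 0 + (2 * s * (2 * e * (a + 1) - p + 2) - 2 * (p - 2 * e) * s ^ 2) := by
  unfold FB
  ring

private theorem deg_A {L : List (ℕ × ℕ)} (hL : GenL L) {e r : ℕ} (he : 1 ≤ e)
    (hr : sp L = r + 2 * e) (her : e < r) {a : ℕ} (ha : sp L ≤ a)
    (hcase : Even (sp L) ∨ ¬ ((r : ℤ) ∣ e * a + 1)) :
    ∃ D : ℤ, RDeg (gw (-(e : ℤ)) L) a D ∧
      2 * (r : ℤ) * (D - FB a (sp L) (sq L) (-(e : ℤ)) 0) =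
        (2 * (e : ℤ) * (a + 1) - sp L + 2) ^ 2 -
          ((2 * (e : ℤ) * (a + 1) - sp L + 2).bmod (2 * r)) ^ 2 := by
  have hr0 : 0 < r := by omega
  set N : ℤ := 2 * (e : ℤ) * (a + 1) - sp L + 2 with hN
  have hrp : ((sp L : ℤ) - 2 * e) = r := by omega
  have hNr : N = 2 * (e * a + 1) - r := by rw [hN, hr]; push_cast; ring
  obtain ⟨s0, h1, h2⟩ := rnd_ex hr0 N
  have hb := rnd_abs hr0 N
  rw [abs_le] at hb
  have hr0' : (0 : ℤ) < r := by exact_mod_cast hr0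
  have hea : (a : ℤ) ≤ e * a := by
    have : (1 : ℤ) ≤ e := by exact_mod_cast he
    have ha0 : (0 : ℤ) ≤ a := by positivity
    nlinarith
  have hra : (e : ℤ) * a + a ≤ r * a := by
    have : (e : ℤ) + 1 ≤ r := by exact_mod_cast her
    have ha0 : (0 : ℤ) ≤ a := by positivity
    nlinarith
  have ha1 : (1 : ℤ) ≤ a := by omega
  have hs0 : 0 ≤ s0 := by
    by_contra hneg
    have : s0 ≤ -1 := by omega
    have : 2 * (r : ℤ) * s0 ≤ 2 * r * (-1) := mul_le_mul_of_nonneg_left this (by omega)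
    omega
  have hs0a : s0 ≤ a := by
    by_contra hneg
    have : (a : ℤ) + 1 ≤ s0 := by omega
    have : 2 * (r : ℤ) * (a + 1) ≤ 2 * r * s0 := mul_le_mul_of_nonneg_left this (by omega)
    nlinarith
  have hfb : ∀ s : ℤ, FB a (sp L) (sq L) (-(e : ℤ)) s = FB a (sp L) (sq L) (-(e : ℤ)) 0 +
      (2 * s * N - 2 * r * s ^ 2) := by
    intro s
    rw [fb_eq a (sp L) (sq L) e s, hrp]
  obtain ⟨n0, hn0⟩ : ∃ n0 : ℕ, (n0 : ℤ) = s0 := ⟨s0.toNat, by omega⟩
  have hn0a : n0 ≤ a := by omega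
  refine ⟨FB a (sp L) (sq L) (-(e : ℤ)) s0, ?_, ?_⟩
  · have hle : ∀ s : ℤ, FB a (sp L) (sq L) (-(e : ℤ)) s ≤ FB a (sp L) (sq L) (-(e : ℤ)) s0 := by
      intro s
      have h3 := rnd_le hr0 N s
      rw [← h2] at h3
      have h4 : 2 * s * N - 2 * r * s ^ 2 ≤ 2 * s0 * N - 2 * r * s0 ^ 2 :=
        le_of_mul_le_mul_left h3 (by omega)
      rw [hfb s, hfb s0]
      linarith
    have huniq : ¬ Even (sp L) → ∀ s : ℤ, FB a (sp L) (sq L) (-(e : ℤ)) s =
        FB a (sp L) (sq L) (-(e : ℤ)) s0 → s = s0 := by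
      intro ho s hs
      have hnd := hcase.resolve_left ho
      rw [hfb s, hfb s0] at hs
      have h5 : 2 * s * N - 2 * r * s ^ 2 = 2 * s0 * N - 2 * r * s0 ^ 2 := by linarith
      have h6 := rnd_tie hr0 N s s0 (by rw [h5, h2]) h2
      rw [abs_le] at h6
      by_contra hne
      have hcase2 : s = s0 + 1 ∨ s = s0 - 1 := by omega
      rcases hcase2 with h7 | h7
      · apply hnd
        refine ⟨s, ?_⟩
        rw [h7, hNr] at h5
        rw [h7]
        nlinarith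
      · apply hnd
        refine ⟨s0, ?_⟩
        rw [h7, hNr] at h5
        nlinarith
    refine gen_max hL ((-1 : ℝ) ^ ((a - n0) * sp L)) (neg_one_pow_eq_or ℝ _) ?_ ?_ ?_
    · intro s hs
      refine ⟨hle s, fun h => ?_⟩
      by_cases hev : Even (sp L)
      · rw [(hev.mul_left _).neg_one_pow, (hev.mul_left _).neg_one_pow]
      · have := huniq hev s h
        have : s = n0 := by omega
        rw [this]
    · intro h h3 h4
      have h5 := fa_lt (a := a) (p := sp L) (q := sq L) (e := e) (h := (h : ℤ)) (by omega)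
        (by omega)
      have h6 := hle 0
      exact ⟨by omega, fun h7 => by omega⟩
    · exact Or.inl ⟨n0, hn0a, by rw [hn0]⟩
  · rw [hfb s0, ← h2]
    ring

theorem case_three {L : List (ℕ × ℕ)} (hL : GenL L) {e : ℕ} (he : 1 ≤ e) (hp : 3 * e < sp L) :
    DegNeg (gw (-(e : ℤ)) L) := by
  classical
  obtain ⟨r, hr⟩ : ∃ r, sp L = r + 2 * e := ⟨sp L - 2 * e, by omega⟩
  have her : e < r := by omega
  have hr0 : 0 < r := by omega
  have hq : 1 ≤ sq L := by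
    obtain ⟨x, hx⟩ := List.exists_mem_of_ne_nil L hL.ne
    have h1 := (hL.pos x hx).2
    have h2 : x.2 ≤ sq L := List.single_le_sum (by simp) x.2 (List.mem_map_of_mem hx)
    omega
  have hrq : (r : ℚ) ≠ 0 := by positivity
  have hrq0 : (0 : ℚ) < r := by positivity
  have hqq : (1 : ℚ) ≤ sq L := by exact_mod_cast hq
  have heq : (1 : ℚ) ≤ e := by exact_mod_cast he
  have hpq : (4 : ℚ) ≤ sp L := by
    have : 4 ≤ sp L := by omega
    exact_mod_cast this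
  refine ⟨2 * r, fun _ => (2 * (sp L : ℚ) - 8 * e) + 2 * e ^ 2 / r,
    fun j => if Odd (sp L) ∧ (r : ℤ) ∣ (e : ℤ) * j - e + 1 then
        1 - (sq L : ℚ) - e * (2 * e + r) / r
      else 1 - (sq L : ℚ) + e * (2 - sp L) / r,
    fun j => if Odd (sp L) ∧ (r : ℤ) ∣ (e : ℤ) * j - e + 1 then
        -(2 * (sp L : ℚ) - 8 * e) + 2 * ((sq L : ℚ) - 1) +
          2 * (1 - e) * (1 - e - r) / r - 4 * (1 - e) / r
      else -(2 * (sp L : ℚ) - 8 * e) + 2 * ((sq L : ℚ) - 1) +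
        ((2 - (sp L : ℚ)) ^ 2 - (((2 * (e : ℤ) * j - sp L + 2).bmod (2 * r) : ℤ) : ℚ) ^ 2) /
          (2 * r), ⟨by omega, 4 * (e + 1) ^ 2 + 6 + sp L, ?_⟩, ?_⟩
  · intro n hn
    obtain ⟨a, rfl⟩ : ∃ a, n = a + 1 := ⟨n - 1, by omega⟩
    have haa : 4 * (e + 1) ^ 2 + 4 ≤ a := by omega
    have hap : sp L ≤ a := by omega
    rw [Nat.add_sub_cancel]
    set j := (a + 1) % (2 * r) with hj
    obtain ⟨m, hm⟩ : ∃ m : ℕ, a + 1 = j + 2 * r * m := ⟨(a + 1) / (2 * r), by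
      rw [hj]; exact (Nat.mod_add_div _ _).symm⟩
    have hmz : (a : ℤ) + 1 = j + 2 * r * m := by exact_mod_cast hm
    have hdiv : (r : ℤ) ∣ (e : ℤ) * j - e + 1 ↔ (r : ℤ) ∣ (e : ℤ) * a + 1 := by
      have e1 : (e : ℤ) * a + 1 = ((e : ℤ) * j - e + 1) + r * (2 * e * m) := by
        have : (a : ℤ) = j + 2 * r * m - 1 := by linarith
        rw [this]; ring
      rw [e1]
      exact (dvd_add_left (dvd_mul_right _ _)).symm
    have hbm : (2 * (e : ℤ) * (a + 1) - sp L + 2).bmod (2 * r) =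
        (2 * (e : ℤ) * j - sp L + 2).bmod (2 * r) := by
      have e1 : 2 * (e : ℤ) * (a + 1) - sp L + 2 =
          (2 * (e : ℤ) * j - sp L + 2) + (2 * r : ℕ) * (2 * e * m) := by
        rw [hmz]; push_cast; ring
      rw [e1, Int.add_mul_bmod_self_left]
    by_cases hc : Odd (sp L) ∧ (r : ℤ) ∣ (e : ℤ) * j - e + 1
    · simp only [if_pos hc]
      obtain ⟨s0, hs0⟩ := hdiv.1 hc.2
      have hs : ((sp L : ℤ) - 2 * e) * s0 = e * a + 1 := by
        rw [hs0, hr]; push_cast; ring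
      refine ⟨_, tie_deg hL he hp hc.1 haa hs, ?_⟩
      rw [fb_eq]
      have hs' : (s0 : ℚ) = (e * a + 1) / r := by
        rw [eq_div_iff hrq]
        have : (s0 : ℤ) * r = e * a + 1 := by rw [hs0]; ring
        exact_mod_cast this
      have hpr : (sp L : ℚ) = r + 2 * e := by exact_mod_cast hr
      unfold FB
      push_cast
      rw [hs', hpr]
      field_simp
      ring
    · simp only [if_neg hc]
      have hcase : Even (sp L) ∨ ¬ ((r : ℤ) ∣ e * a + 1) := by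
        by_cases hev : Even (sp L)
        · exact Or.inl hev
        · refine Or.inr fun h => hc ⟨Nat.not_even_iff_odd.1 hev, hdiv.2 h⟩
      obtain ⟨D, hD, hD2⟩ := deg_A hL he hr her hap hcase
      refine ⟨D, hD, ?_⟩
      rw [hbm] at hD2
      have hD3 : 2 * (r : ℚ) * (D - ((FB a (sp L) (sq L) (-(e : ℤ)) 0 : ℤ) : ℚ)) =
        (2 * (e : ℚ) * (a + 1) - sp L + 2) ^ 2 -
          (((2 * (e : ℤ) * j - sp L + 2).bmod (2 * r) : ℤ) : ℚ) ^ 2 := by
        exact_mod_cast hD2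
      have hD4 : (D : ℚ) = ((FB a (sp L) (sq L) (-(e : ℤ)) 0 : ℤ) : ℚ) +
          ((2 * (e : ℚ) * (a + 1) - sp L + 2) ^ 2 -
          (((2 * (e : ℤ) * j - sp L + 2).bmod (2 * r) : ℤ) : ℚ) ^ 2) / (2 * r) := by
        rw [← hD3]
        field_simp
        ring
      rw [hD4]
      unfold FB
      push_cast
      field_simp
      ring
  · intro j _
    dsimp only
    split_ifs with hc
    · have : (0 : ℚ) ≤ e * (2 * e + r) / r := by positivity
      linarith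
    · have : (e : ℚ) * (2 - sp L) / r ≤ 0 := by
        apply div_nonpos_of_nonpos_of_nonneg _ hrq0.le
        nlinarith
      linarith

end Pool.Agent.KT
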