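import Pool.Agent.Work.MP_ab49bb_gt.Gm

/-!
# CaIV (S-M): the case `d = -e < 0`, `p ≤ 3e`

`p = sp L ≥ 1`, `q = sq L ≥ 1`, `e ≥ 1`, `a ≥ 1`. `FB s - FB (s-1) = 4(ea + 1 - (p-2e)s)`: since `p - 2e ≤ e` and `s ≤ a` it is `≥ 4`. So `FB s < FB a` for `s < a` (induction, or directly
`FB a - FB s = 4(a-s)(ea+1) - 2(p-2e)(a-s)(a+s+1)`; if `p - 2e ≤ 0` clear, otherwise `≤ e`: `2(p-2e)(a+s+1) ≤ 2e(2a) < 4(ea+1)` as `s + 1 ≤ a`).
`FA h < FB 0` for `h ≥ 1`, `2h ≤ a`: `FA h - FB 0 = -2h²(p-q-2e) + 2h(-2(e+q)a - p - q - 2e - 2) = 2h(-h(p-2e) + hq - 2(e+q)a - p - q - 2e - 2)`, and `h q ≤ a q`, `-h(p-2e) ≤ 2eh ≤ ea`.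
So `D = FB a = a(2p - 2q - 12e + 6)` is attained only for `s = a` (and `FB 0 ≤ FB a`); `gen_max` with `ε = (-1)^0 = 1`. `DegNeg` with period `1`: `D = 2b(n-1)`, `b = p - q - 6e + 3 ≤ 3 - 3e - q < 0`.
-/

set_option autoImplicit false

namespace Pool.Agent.KT

private theorem sp_pos {L : List (ℕ × ℕ)} (hL : GenL L) : 1 ≤ sp L ∧ 1 ≤ sq L := by
  obtain ⟨h1, h2⟩ := hL
  cases L with
  | nil => exact absurd rfl h1
  | cons x l =>
    have h3 := h2 x List.mem_cons_self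
    unfold sp sq
    rw [List.map_cons, List.map_cons, List.sum_cons, List.sum_cons]
    omega

private theorem fb_lt (a p q e s : ℕ) (hp : p ≤ 3 * e) (hs : s < a) :
    FB a p q (-(e : ℤ)) s < FB a p q (-(e : ℤ)) a := by
  have h1 : FB a p q (-(e : ℤ)) a - FB a p q (-(e : ℤ)) s =
      2 * ((a : ℤ) - s) * (2 * (e * a + 1) - (p - 2 * e) * (a + s + 1)) := by
    unfold FB
    ring
  have hs' : (s : ℤ) + 1 ≤ a := by exact_mod_cast hs
  have hp' : (p : ℤ) ≤ 3 * e := by exact_mod_cast hp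
  have he0 : (0 : ℤ) ≤ e := by positivity
  have ha0 : (0 : ℤ) ≤ a := by positivity
  have hs0 : (0 : ℤ) ≤ s := by positivity
  have h2 : ((p : ℤ) - 2 * e) * (a + s + 1) ≤ 2 * (e * a) := by
    rcases le_total ((p : ℤ) - 2 * e) 0 with h | h
    · have h3 : ((p : ℤ) - 2 * e) * (a + s + 1) ≤ 0 := mul_nonpos_of_nonpos_of_nonneg h (by linarith)
      have h4 : (0 : ℤ) ≤ e * a := by positivity
      linarith
    · have h3 : ((p : ℤ) - 2 * e) * (a + s + 1) ≤ e * (2 * a) :=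
        mul_le_mul (by linarith) (by linarith) (by linarith) he0
      linarith
  have h3 : 0 < 2 * ((a : ℤ) - s) * (2 * (e * a + 1) - (p - 2 * e) * (a + s + 1)) :=
    mul_pos (by linarith) (by linarith)
  linarith

private theorem fa_lt (a p q e h : ℕ) (h1 : 1 ≤ h) (h2 : 2 * h ≤ a) :
    FA a p q (-(e : ℤ)) h < FB a p q (-(e : ℤ)) 0 := by
  have h3 : FA a p q (-(e : ℤ)) h - FB a p q (-(e : ℤ)) 0 =
      -(2 * (h : ℤ) * (p * (h + 1) + q * (2 * a - h + 1) + 2 * e * (a + 1 - h) + 2)) := by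
    unfold FA FB
    ring
  have h1' : (1 : ℤ) ≤ h := by exact_mod_cast h1
  have h2' : 2 * (h : ℤ) ≤ a := by exact_mod_cast h2
  have hp0 : (0 : ℤ) ≤ p := by positivity
  have hq0 : (0 : ℤ) ≤ q := by positivity
  have he0 : (0 : ℤ) ≤ e := by positivity
  have e1 : (0 : ℤ) ≤ p * (h + 1) := mul_nonneg hp0 (by linarith)
  have e2 : (0 : ℤ) ≤ q * (2 * a - h + 1) := mul_nonneg hq0 (by linarith)
  have e3 : (0 : ℤ) ≤ 2 * e * (a + 1 - h) := mul_nonneg (by linarith) (by linarith)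
  have e4 : 0 < 2 * (h : ℤ) * (p * (h + 1) + q * (2 * a - h + 1) + 2 * e * (a + 1 - h) + 2) :=
    mul_pos (by linarith) (by linarith)
  linarith

theorem case_four {L : List (ℕ × ℕ)} (hL : GenL L) {e : ℕ} (he : 1 ≤ e) (hp : sp L ≤ 3 * e) :
    DegNeg (gw (-(e : ℤ)) L) := by
  obtain ⟨hp1, hq1⟩ := sp_pos hL
  refine ⟨1, fun _ => 0, fun _ => (sp L : ℚ) - sq L - 6 * e + 3,
    fun _ => -(2 * ((sp L : ℚ) - sq L - 6 * e + 3)), ⟨one_pos, 2, ?_⟩, ?_⟩
  · intro n hn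
    obtain ⟨a, rfl⟩ := Nat.exists_eq_add_of_le' (show 1 ≤ n by omega)
    have ha : 1 ≤ a := by omega
    rw [Nat.add_sub_cancel]
    refine ⟨FB a (sp L) (sq L) (-(e : ℤ)) a, ?_, ?_⟩
    · have hle : ∀ s : ℕ, s ≤ a → FB a (sp L) (sq L) (-(e : ℤ)) s ≤ FB a (sp L) (sq L) (-(e : ℤ)) a := by
        intro s hs
        rcases Nat.lt_or_eq_of_le hs with h | h
        · exact (fb_lt a (sp L) (sq L) e s hp h).le
        · rw [h]
      apply gen_max hL 1 (Or.inl rfl)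
      · intro s hs
        refine ⟨hle s hs, ?_⟩
        intro h
        rcases Nat.lt_or_eq_of_le hs with h' | h'
        · exact absurd h (fb_lt a (sp L) (sq L) e s hp h').ne
        · rw [h', Nat.sub_self, zero_mul, pow_zero]
      · intro h h1 h2
        have h3 := fa_lt a (sp L) (sq L) e h h1 h2
        have h4 := hle 0 (Nat.zero_le _)
        rw [Nat.cast_zero] at h4
        have h5 := lt_of_lt_of_le h3 h4
        exact ⟨h5.le, fun h6 => absurd h6 h5.ne⟩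
      · exact Or.inl ⟨a, le_rfl, rfl⟩
    · unfold FB
      push_cast
      ring
  · intro j _
    show (sp L : ℚ) - sq L - 6 * e + 3 ≤ 0
    have h1 : (sp L : ℚ) ≤ 3 * e := by exact_mod_cast hp
    have h2 : (1 : ℚ) ≤ sq L := by exact_mod_cast hq1
    have h3 : (1 : ℚ) ≤ e := by exact_mod_cast he
    linarith

end Pool.Agent.KT
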