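import Pool.Agent.Work.MP_ab49bb_gt.Tn

/-!
# SA (M): the braiding is self-adjoint

`S_wt`: clear from the definition. `S_sa`: let `x = (j+l, i-l)`, `y = (i,j)`; `S x y ≠ 0` iff the weights agree and `x.2 ≤ y.1`, and then also `y.2 ≤ x.1`
(`x.1 - y.2 = y.1 - x.2 = l`), so both sides are zero or both are given by `rc`:
`S x y = rc i j l = v^((a-2i+2l)(a-2j-2l)+l(l-1)) gb (j+l) l ∏_{s=1}^{l} {a-i+s}`,
`S y x = rc (j+l) (i-l) l = v^((a-2j)(a-2i)+l(l-1)) gb i l ∏_{s=1}^{l} {a-j-l+s}`.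
Claim `vN (j+l) vN (i-l) S x y = vN i vN j S y x`, `vN i = v^(-2i(a-i+1)) gb a i`. Exponents:
`-2(j+l)(a-j-l+1) - 2(i-l)(a-i+l+1) + (a-2i+2l)(a-2j-2l) = -2i(a-i+1) - 2j(a-j+1) + (a-2i)(a-2j)` (`ring`). Coefficients, with `bf n = {n}!`
(`gb_fact`, all factorials are positive; `l ≤ i`, `j + l ≤ a`): `gb a (j+l) gb (j+l) l = bf a / (bf (a-j-l) bf l bf j)`,
`gb a (i-l) ∏ {a-i+s} = bf a / (bf (i-l) bf (a-i))` (`bf_prod` with `m = a-i`), `gb a i gb i l = bf a / (bf (a-i) bf l bf (i-l))`,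
`gb a j ∏ {a-j-l+s} = bf a / (bf j bf (a-j-l))` (`bf_prod` with `m = a-j-l`). The products agree.
-/

set_option autoImplicit false

open Matrix

namespace Pool.Agent.KT

variable {u : ℝˣ}

theorem S_wt (hu : 1 < (u : ℝ)) (a : ℕ) (x y : Fin (a + 1) × Fin (a + 1)) (h : S u a x y ≠ 0) :
    (VVQ u hu a).wt x = (VVQ u hu a).wt y := by
  unfold S at h
  split_ifs at h with h1
  · show vw a x.1 + vw a x.2 = vw a y.1 + vw a y.2
    unfold vw
    have h2 := h1.1
    omega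
  · exact absurd rfl h

private theorem coef (hu : 1 < (u : ℝ)) {a q j l A B : ℕ} (hA : a = q + l + A) (hB : a = j + l + B) :
    gb u a (j + l) * gb u a q * gb u (j + l) l * ∏ s ∈ Finset.range l, br u ((A : ℤ) + (s + 1)) =
      gb u a (q + l) * gb u a j * gb u (q + l) l *
        ∏ s ∈ Finset.range l, br u ((B : ℤ) + (s + 1)) := by
  have n := fun k => (bf_pos hu k).ne'
  have e1 : gb u a (j + l) = bf u a / (bf u (j + l) * bf u B) := by
    rw [eq_div_iff (mul_ne_zero (n _) (n _)), ← mul_assoc]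
    have := gb_fact (v := u) (n := a) (k := j + l) (by omega)
    rwa [show a - (j + l) = B by omega] at this
  have e2 : gb u a q = bf u a / (bf u q * bf u (A + l)) := by
    rw [eq_div_iff (mul_ne_zero (n _) (n _)), ← mul_assoc]
    have := gb_fact (v := u) (n := a) (k := q) (by omega)
    rwa [show a - q = A + l by omega] at this
  have e3 : gb u (j + l) l = bf u (j + l) / (bf u l * bf u j) := by
    rw [eq_div_iff (mul_ne_zero (n _) (n _)), ← mul_assoc]
    have := gb_fact (v := u) (n := j + l) (k := l) (by omega)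
    rwa [show j + l - l = j by omega] at this
  have e4 : ∏ s ∈ Finset.range l, br u ((A : ℤ) + (s + 1)) = bf u (A + l) / bf u A := by
    rw [eq_div_iff (n _), mul_comm]
    exact bf_prod u A l
  have f1 : gb u a (q + l) = bf u a / (bf u (q + l) * bf u A) := by
    rw [eq_div_iff (mul_ne_zero (n _) (n _)), ← mul_assoc]
    have := gb_fact (v := u) (n := a) (k := q + l) (by omega)
    rwa [show a - (q + l) = A by omega] at this
  have f2 : gb u a j = bf u a / (bf u j * bf u (B + l)) := by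
    rw [eq_div_iff (mul_ne_zero (n _) (n _)), ← mul_assoc]
    have := gb_fact (v := u) (n := a) (k := j) (by omega)
    rwa [show a - j = B + l by omega] at this
  have f3 : gb u (q + l) l = bf u (q + l) / (bf u l * bf u q) := by
    rw [eq_div_iff (mul_ne_zero (n _) (n _)), ← mul_assoc]
    have := gb_fact (v := u) (n := q + l) (k := l) (by omega)
    rwa [show q + l - l = q by omega] at this
  have f4 : ∏ s ∈ Finset.range l, br u ((B : ℤ) + (s + 1)) = bf u (B + l) / bf u B := by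
    rw [eq_div_iff (n _), mul_comm]
    exact bf_prod u B l
  rw [e1, e2, e3, e4, f1, f2, f3, f4]
  have n1 := n a
  have n2 := n (j + l)
  have n3 := n B
  have n4 := n q
  have n5 := n (A + l)
  have n6 := n l
  have n7 := n j
  have n8 := n A
  have n9 := n (q + l)
  have n10 := n (B + l)
  field_simp

private theorem rc_sa (hu : 1 < (u : ℝ)) {a q j l : ℕ} (h1 : q + l ≤ a) (h2 : j + l ≤ a) :
    vN u a (j + l) * vN u a q * rc u a (q + l) j l =
      vN u a (q + l) * vN u a j * rc u a (j + l) q l := by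
  obtain ⟨A, hA⟩ := Nat.exists_eq_add_of_le h1
  obtain ⟨B, hB⟩ := Nat.exists_eq_add_of_le h2
  have hc := coef hu hA hB
  have hA' : (a : ℤ) - ((q + l : ℕ) : ℤ) = A := by rw [hA]; push_cast; ring
  have hB' : (a : ℤ) - ((j + l : ℕ) : ℤ) = B := by rw [hB]; push_cast; ring
  unfold vN rc
  rw [hA', hB']
  have hp : pw u (-(2 * ((j + l : ℕ) : ℤ) * ((a : ℤ) - ((j + l : ℕ) : ℤ) + 1))) *
      pw u (-(2 * (q : ℤ) * ((a : ℤ) - q + 1))) *
      pw u (((a : ℤ) - 2 * ((q + l : ℕ) : ℤ) + 2 * l) * (a - 2 * j - 2 * l) + l * (l - 1)) =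
      pw u (-(2 * ((q + l : ℕ) : ℤ) * ((a : ℤ) - ((q + l : ℕ) : ℤ) + 1))) *
      pw u (-(2 * (j : ℤ) * ((a : ℤ) - j + 1))) *
      pw u (((a : ℤ) - 2 * ((j + l : ℕ) : ℤ) + 2 * l) * (a - 2 * q - 2 * l) + l * (l - 1)) := by
    rw [← pw_add, ← pw_add, ← pw_add, ← pw_add]
    congr 1
    push_cast
    ring
  rw [hA', hB'] at hp
  linear_combination (gb u a (j + l) * gb u a q * gb u (j + l) l *
      ∏ s ∈ Finset.range l, br u ((A : ℤ) + (s + 1))) * hp +
    (pw u (-(2 * ((q + l : ℕ) : ℤ) * ((A : ℤ) + 1))) *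
      pw u (-(2 * (j : ℤ) * ((a : ℤ) - j + 1))) *
      pw u (((a : ℤ) - 2 * ((j + l : ℕ) : ℤ) + 2 * l) * (a - 2 * q - 2 * l) + l * (l - 1))) * hc

theorem S_sa (hu : 1 < (u : ℝ)) (a : ℕ) (x y : Fin (a + 1) × Fin (a + 1)) :
    (VVQ u hu a).nm x * S u a x y = (VVQ u hu a).nm y * S u a y x := by
  show vN u a x.1 * vN u a x.2 * S u a x y = vN u a y.1 * vN u a y.2 * S u a y x
  unfold S
  have hx1 := x.1.2
  have hx2 := x.2.2
  have hy1 := y.1.2
  have hy2 := y.2.2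
  by_cases h : (x.1 : ℕ) + x.2 = y.1 + y.2 ∧ (x.2 : ℕ) ≤ y.1
  · have h' : (y.1 : ℕ) + y.2 = x.1 + x.2 ∧ (y.2 : ℕ) ≤ x.1 := ⟨h.1.symm, by omega⟩
    rw [if_pos h, if_pos h']
    obtain ⟨l, hl⟩ := Nat.exists_eq_add_of_le h.2
    have hl' : (x.1 : ℕ) = y.2 + l := by omega
    have hm : (y.1 : ℕ) - x.2 = l := by omega
    have hm' : (x.1 : ℕ) - y.2 = l := by omega
    rw [hm, hm', hl, hl']
    exact rc_sa hu (by omega) (by omega)
  · have h' : ¬ ((y.1 : ℕ) + y.2 = x.1 + x.2 ∧ (y.2 : ℕ) ≤ x.1) := by omega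
    rw [if_neg h, if_neg h', mul_zero, mul_zero]

end Pool.Agent.KT
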