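import Pool.Agent.Work.MP_ab49bb_gt.SE
import Pool.Agent.Work.MP_ab49bb_gt.SA
import Pool.Agent.Work.MP_ab49bb_gt.Cm
import Pool.Agent.Work.MP_ab49bb_gt.Det

/-!
# Co (M): the braid matrices are endomorphisms of `V ⊗ V ⊗ V`

`com_S`: `QM.Com.of_sa` with `S_wt`, `S_E`, `S_sa`. `com_l2`: `E = 1 ⊗ E' + E ⊗ K'` (definition of `UQ`); `l2 X = 1 ⊗ X` commutes with `1 ⊗ E'` (`X E' = E' X`) and with
`E ⊗ K'` (`X` preserves weights, so `X K' = K' X`); the same for `F`; weights are clear. `com_l1`: the same with `UQ_E'`, `UQ_F'`: `E = E_12 ⊗ K_3 + 1 ⊗ 1 ⊗ E_3`,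
`F = F_12 ⊗ 1 + K⁻¹_12 ⊗ F_3` and `l1 X = X ⊗ 1`. (Entrywise: `(l1 X * E) x z = ∑_y`, sums over one coordinate with `Finset.sum_eq_single`, or first write the matrices
as Kronecker products after reindexing.) `s1 = l1 (S)`, `s2 = l2 (S)` (`s1_eq`, `s2_eq`). Self-adjointness is `S_sa` times the norm of the third
(first) basis vector. `com_wm`: induction on the word (`Com.mul`, `Com.inv`, `Com.one`).
-/

set_option autoImplicit false

open Matrix

namespace Pool.Agent.KT

variable {u : ℝˣ}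

private theorem com_right {ι κ : Type} [Fintype ι] [DecidableEq ι] [Fintype κ] [DecidableEq κ]
    (M : QM u ι) (N : QM u κ) {X : Matrix κ κ ℝ} (hX : N.Com X) (Y : Matrix (ι × κ) (ι × κ) ℝ)
    (hY : ∀ x y, Y x y = if x.1 = y.1 then X x.2 y.2 else 0) : (tn M N).Com Y := by
  have hL : ∀ (Z : Matrix (ι × κ) (ι × κ) ℝ) (x z), (Y * Z) x z = ∑ k, X x.2 k * Z (x.1, k) z := by
    intro Z x z
    rw [Matrix.mul_apply, Fintype.sum_prod_type]
    rw [Finset.sum_eq_single x.1]
    · exact Finset.sum_congr rfl fun k _ => by rw [hY, if_pos rfl]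
    · intro i _ hi
      exact Finset.sum_eq_zero fun k _ => by rw [hY, if_neg (fun h => hi h.symm), zero_mul]
    · intro h
      exact absurd (Finset.mem_univ _) h
  have hR : ∀ (Z : Matrix (ι × κ) (ι × κ) ℝ) (x z), (Z * Y) x z = ∑ k, Z x (z.1, k) * X k z.2 := by
    intro Z x z
    rw [Matrix.mul_apply, Fintype.sum_prod_type]
    rw [Finset.sum_eq_single z.1]
    · exact Finset.sum_congr rfl fun k _ => by rw [hY, if_pos rfl]
    · intro i _ hi
      exact Finset.sum_eq_zero fun k _ => by rw [hY, if_neg hi, mul_zero]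
    · intro h
      exact absurd (Finset.mem_univ _) h
  refine ⟨?_, ?_, ?_⟩
  · intro x y h
    rw [hY] at h
    by_cases h1 : x.1 = y.1
    · rw [if_pos h1] at h
      change M.wt x.1 + N.wt x.2 = M.wt y.1 + N.wt y.2
      rw [h1, hX.wt _ _ h]
    · rw [if_neg h1] at h
      exact absurd rfl h
  · ext x z
    rw [hL, hR]
    change ∑ k, X x.2 k * tE u M.E N.E N.wt (x.1, k) z = ∑ k, tE u M.E N.E N.wt x (z.1, k) * X k z.2
    simp only [tE, mul_add, add_mul, Finset.sum_add_distrib]
    congr 1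
    · by_cases h : x.1 = z.1
      · simp only [h, if_true]
        have h1 := congrFun (congrFun hX.E x.2) z.2
        rw [Matrix.mul_apply, Matrix.mul_apply] at h1
        exact h1
      · simp only [h, if_false, mul_zero, zero_mul]
    · rw [Finset.sum_eq_single z.2, Finset.sum_eq_single x.2]
      · rw [if_pos rfl, if_pos rfl]
        by_cases h : X x.2 z.2 = 0
        · rw [h, zero_mul, mul_zero]
        · rw [hX.wt _ _ h]
          ring
      · intro k _ hk
        rw [if_neg (fun h => hk h.symm), zero_mul]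
      · intro h
        exact absurd (Finset.mem_univ _) h
      · intro k _ hk
        rw [if_neg hk, mul_zero]
      · intro h
        exact absurd (Finset.mem_univ _) h
  · ext x z
    rw [hL, hR]
    change ∑ k, X x.2 k * tF u M.F N.F M.wt (x.1, k) z = ∑ k, tF u M.F N.F M.wt x (z.1, k) * X k z.2
    simp only [tF, mul_add, add_mul, Finset.sum_add_distrib]
    congr 1
    · by_cases h : x.1 = z.1
      · simp only [h, if_true]
        have h1 := congrFun (congrFun hX.F x.2) z.2
        rw [Matrix.mul_apply, Matrix.mul_apply] at h1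
        have h2 : ∀ k, X x.2 k * (pw u (-(2 * M.wt z.1)) * N.F k z.2) =
            pw u (-(2 * M.wt z.1)) * (X x.2 k * N.F k z.2) := fun k => by ring
        have h3 : ∀ k, pw u (-(2 * M.wt z.1)) * N.F x.2 k * X k z.2 =
            pw u (-(2 * M.wt z.1)) * (N.F x.2 k * X k z.2) := fun k => by ring
        rw [Finset.sum_congr rfl fun k _ => h2 k, Finset.sum_congr rfl fun k _ => h3 k,
          ← Finset.mul_sum, ← Finset.mul_sum, h1]
      · simp only [h, if_false, mul_zero, zero_mul]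
    · rw [Finset.sum_eq_single z.2, Finset.sum_eq_single x.2]
      · rw [if_pos rfl, if_pos rfl, mul_comm]
      · intro k _ hk
        rw [if_neg (fun h => hk h.symm), zero_mul]
      · intro h
        exact absurd (Finset.mem_univ _) h
      · intro k _ hk
        rw [if_neg hk, mul_zero]
      · intro h
        exact absurd (Finset.mem_univ _) h

private theorem com_left {ι κ : Type} [Fintype ι] [DecidableEq ι] [Fintype κ] [DecidableEq κ]
    (M : QM u ι) (N : QM u κ) {X : Matrix ι ι ℝ} (hX : M.Com X) (Y : Matrix (ι × κ) (ι × κ) ℝ)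
    (hY : ∀ x y, Y x y = if x.2 = y.2 then X x.1 y.1 else 0) : (tn M N).Com Y := by
  have hL : ∀ (Z : Matrix (ι × κ) (ι × κ) ℝ) (x z), (Y * Z) x z = ∑ k, X x.1 k * Z (k, x.2) z := by
    intro Z x z
    rw [Matrix.mul_apply, Fintype.sum_prod_type]
    refine Finset.sum_congr rfl fun k _ => ?_
    rw [Finset.sum_eq_single x.2]
    · rw [hY, if_pos rfl]
    · intro i _ hi
      rw [hY, if_neg (fun h => hi h.symm), zero_mul]
    · intro h
      exact absurd (Finset.mem_univ _) h
  have hR : ∀ (Z : Matrix (ι × κ) (ι × κ) ℝ) (x z), (Z * Y) x z = ∑ k, Z x (k, z.2) * X k z.1 := by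
    intro Z x z
    rw [Matrix.mul_apply, Fintype.sum_prod_type]
    refine Finset.sum_congr rfl fun k _ => ?_
    rw [Finset.sum_eq_single z.2]
    · rw [hY, if_pos rfl]
    · intro i _ hi
      rw [hY, if_neg hi, mul_zero]
    · intro h
      exact absurd (Finset.mem_univ _) h
  refine ⟨?_, ?_, ?_⟩
  · intro x y h
    rw [hY] at h
    by_cases h1 : x.2 = y.2
    · rw [if_pos h1] at h
      change M.wt x.1 + N.wt x.2 = M.wt y.1 + N.wt y.2
      rw [h1, hX.wt _ _ h]
    · rw [if_neg h1] at h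
      exact absurd rfl h
  · ext x z
    rw [hL, hR]
    change ∑ k, X x.1 k * tE u M.E N.E N.wt (k, x.2) z = ∑ k, tE u M.E N.E N.wt x (k, z.2) * X k z.1
    simp only [tE, mul_add, add_mul, Finset.sum_add_distrib]
    congr 1
    · rw [Finset.sum_eq_single z.1, Finset.sum_eq_single x.1]
      · rw [if_pos rfl, if_pos rfl, mul_comm]
      · intro k _ hk
        rw [if_neg (fun h => hk h.symm), zero_mul]
      · intro h
        exact absurd (Finset.mem_univ _) h
      · intro k _ hk
        rw [if_neg hk, mul_zero]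
      · intro h
        exact absurd (Finset.mem_univ _) h
    · by_cases h : x.2 = z.2
      · simp only [h, if_true]
        have h1 := congrFun (congrFun hX.E x.1) z.1
        rw [Matrix.mul_apply, Matrix.mul_apply] at h1
        have h2 : ∀ k, X x.1 k * (M.E k z.1 * pw u (2 * N.wt z.2)) =
            pw u (2 * N.wt z.2) * (X x.1 k * M.E k z.1) := fun k => by ring
        have h3 : ∀ k, M.E x.1 k * pw u (2 * N.wt z.2) * X k z.1 =
            pw u (2 * N.wt z.2) * (M.E x.1 k * X k z.1) := fun k => by ring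
        rw [Finset.sum_congr rfl fun k _ => h2 k, Finset.sum_congr rfl fun k _ => h3 k,
          ← Finset.mul_sum, ← Finset.mul_sum, h1]
      · simp only [h, if_false, mul_zero, zero_mul]
  · ext x z
    rw [hL, hR]
    change ∑ k, X x.1 k * tF u M.F N.F M.wt (k, x.2) z = ∑ k, tF u M.F N.F M.wt x (k, z.2) * X k z.1
    simp only [tF, mul_add, add_mul, Finset.sum_add_distrib]
    congr 1
    · rw [Finset.sum_eq_single z.1, Finset.sum_eq_single x.1]
      · rw [if_pos rfl, if_pos rfl]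
        by_cases h : X x.1 z.1 = 0
        · rw [h, zero_mul, mul_zero]
        · rw [hX.wt _ _ h]
          ring
      · intro k _ hk
        rw [if_neg (fun h => hk h.symm), zero_mul]
      · intro h
        exact absurd (Finset.mem_univ _) h
      · intro k _ hk
        rw [if_neg hk, mul_zero]
      · intro h
        exact absurd (Finset.mem_univ _) h
    · by_cases h : x.2 = z.2
      · simp only [h, if_true]
        have h1 := congrFun (congrFun hX.F x.1) z.1
        rw [Matrix.mul_apply, Matrix.mul_apply] at h1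
        exact h1
      · simp only [h, if_false, mul_zero, zero_mul]

theorem com_S (hu : 1 < (u : ℝ)) (a : ℕ) : (VVQ u hu a).Com (S u a) :=
  QM.Com.of_sa (S_wt hu a) (S_E hu a) (S_sa hu a)

theorem com_l2 (hu : 1 < (u : ℝ)) {a : ℕ}
    {X : Matrix (Fin (a + 1) × Fin (a + 1)) (Fin (a + 1) × Fin (a + 1)) ℝ}
    (h : (VVQ u hu a).Com X) : (UQ u hu a).Com (l2 X) :=
  com_right (VQ u hu a) (VVQ u hu a) h (l2 X) fun _ _ => rfl

theorem com_l1 (hu : 1 < (u : ℝ)) {a : ℕ}
    {X : Matrix (Fin (a + 1) × Fin (a + 1)) (Fin (a + 1) × Fin (a + 1)) ℝ}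
    (h : (VVQ u hu a).Com X) : (UQ u hu a).Com (l1 X) := by
  have h1 := com_left (VVQ u hu a) (VQ u hu a) h
    (fun x y => if x.2 = y.2 then X x.1 y.1 else 0) fun _ _ => rfl
  set Y : Matrix ((Fin (a + 1) × Fin (a + 1)) × Fin (a + 1)) ((Fin (a + 1) × Fin (a + 1)) × Fin (a + 1)) ℝ :=
    fun x y => if x.2 = y.2 then X x.1 y.1 else 0 with hY
  let e : Ix a ≃ (Fin (a + 1) × Fin (a + 1)) × Fin (a + 1) := (Equiv.prodAssoc _ _ _).symm
  have hl : l1 X = Y.submatrix e e := by
    ext x y
    rfl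
  have hE : (UQ u hu a).E = (tn (VVQ u hu a) (VQ u hu a)).E.submatrix e e := by
    ext x y
    rw [UQ_E']
    change _ = tE u (VVQ u hu a).E (VQ u hu a).E (VQ u hu a).wt ((x.1, x.2.1), x.2.2) ((y.1, y.2.1), y.2.2)
    rw [tE, add_comm]
    rfl
  have hF : (UQ u hu a).F = (tn (VVQ u hu a) (VQ u hu a)).F.submatrix e e := by
    ext x y
    rw [UQ_F']
    change _ = tF u (VVQ u hu a).F (VQ u hu a).F (VVQ u hu a).wt ((x.1, x.2.1), x.2.2) ((y.1, y.2.1), y.2.2)
    rw [tF, add_comm]
    rfl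
  refine ⟨?_, ?_, ?_⟩
  · intro x y hxy
    have h2 := h1.wt (e x) (e y) hxy
    change (VQ u hu a).wt x.1 + (VQ u hu a).wt x.2.1 + (VQ u hu a).wt x.2.2 =
      (VQ u hu a).wt y.1 + (VQ u hu a).wt y.2.1 + (VQ u hu a).wt y.2.2 at h2
    change (VQ u hu a).wt x.1 + ((VQ u hu a).wt x.2.1 + (VQ u hu a).wt x.2.2) =
      (VQ u hu a).wt y.1 + ((VQ u hu a).wt y.2.1 + (VQ u hu a).wt y.2.2)
    rw [← add_assoc, ← add_assoc, h2]
  · rw [hl, hE, Matrix.submatrix_mul_equiv, Matrix.submatrix_mul_equiv, h1.E]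
  · rw [hl, hF, Matrix.submatrix_mul_equiv, Matrix.submatrix_mul_equiv, h1.F]

theorem com_s1 (hu : 1 < (u : ℝ)) (a : ℕ) : (UQ u hu a).Com (s1 u a) := by
  rw [s1_eq]
  exact com_l1 hu (com_S hu a)

theorem com_s2 (hu : 1 < (u : ℝ)) (a : ℕ) : (UQ u hu a).Com (s2 u a) := by
  rw [s2_eq]
  exact com_l2 hu (com_S hu a)

theorem com_wm (hu : 1 < (u : ℝ)) (a : ℕ) (w : List Letter) : (UQ u hu a).Com (wm u a w) := by
  induction w with
  | nil => exact QM.Com.one
  | cons l w ih =>
    have h1 : (UQ u hu a).Com (lm u a l) := by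
      rw [lm]
      split_ifs
      · exact com_s1 hu a
      · exact com_s2 hu a
      · exact (com_s1 hu a).inv
      · exact (com_s2 hu a).inv
    have h2 : wm u a (l :: w) = lm u a l * wm u a w := by
      rw [wm, wm, List.map_cons, List.prod_cons]
    rw [h2]
    exact h1.mul ih

theorem sa_s1 (hu : 1 < (u : ℝ)) (a : ℕ) (x y : Ix a) :
    (UQ u hu a).nm x * s1 u a x y = (UQ u hu a).nm y * s1 u a y x := by
  have h1 : ∀ z : Ix a, (UQ u hu a).nm z = (VVQ u hu a).nm (z.1, z.2.1) * (VQ u hu a).nm z.2.2 := by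
    intro z
    change (VQ u hu a).nm z.1 * ((VQ u hu a).nm z.2.1 * (VQ u hu a).nm z.2.2) =
      (VQ u hu a).nm z.1 * (VQ u hu a).nm z.2.1 * (VQ u hu a).nm z.2.2
    ring
  rw [h1, h1, s1, s1]
  by_cases h : x.2.2 = y.2.2
  · rw [if_pos h, if_pos h.symm, h]
    have h2 := S_sa hu a (x.1, x.2.1) (y.1, y.2.1)
    linear_combination (VQ u hu a).nm y.2.2 * h2
  · rw [if_neg h, if_neg (fun h' => h h'.symm), mul_zero, mul_zero]

theorem sa_s2 (hu : 1 < (u : ℝ)) (a : ℕ) (x y : Ix a) :
    (UQ u hu a).nm x * s2 u a x y = (UQ u hu a).nm y * s2 u a y x := by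
  have h1 : ∀ z : Ix a, (UQ u hu a).nm z = (VQ u hu a).nm z.1 * (VVQ u hu a).nm (z.2.1, z.2.2) :=
    fun z => rfl
  rw [h1, h1, s2, s2]
  by_cases h : x.1 = y.1
  · rw [if_pos h, if_pos h.symm, h]
    have h2 := S_sa hu a (x.2.1, x.2.2) (y.2.1, y.2.2)
    linear_combination (VQ u hu a).nm y.1 * h2
  · rw [if_neg h, if_neg (fun h' => h h'.symm), mul_zero, mul_zero]

end Pool.Agent.KT
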