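import Mathlib

/-!
# The coloured Jones polynomial of a closed 3-braid

The `n`-coloured unnormalised Jones polynomial of the closure of a 3-braid, as the quantum trace of
the braid in the third tensor power of the `n`-dimensional irreducible representation `V` of
`U_q(sl_2)` (Reshetikhin-Turaev).

With `a = n - 1`, the basis `e_0, …, e_a` of `V` (`e_0` is the highest weight vector) and
`{m} = v^(2m) - v^(-2m)`, the braiding of `V ⊗ V` is
`e_i ⊗ e_j ↦ ∑_l v^((a-2i+2l)(a-2j-2l)+l(l-1)) [j+l choose l] {a-i+1} ⋯ {a-i+l} e_(j+l) ⊗ e_(i-l)`,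
the element `K` acts on `e_i` by `v^(2(a-2i))`, and a framing correction `v^(-a(a+2))` is used for every
positive letter. The value of the unknot is `[n] = {n} / {1}`.
-/

set_option autoImplicit false

namespace Pool.Agent.KT

section RMatrix

variable {A : Type*} [CommRing A] (v : Aˣ)

/-- the power `v^m` -/
def pw (m : ℤ) : A := ((v ^ m : Aˣ) : A)

/-- `{m} = v^(2m) - v^(-2m)` -/
def br (m : ℤ) : A := pw v (2 * m) - pw v (-(2 * m))

/-- the symmetric Gaussian binomial coefficient `[n choose k]` in `v^2` -/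
def gb : ℕ → ℕ → A
  | _, 0 => 1
  | 0, _ + 1 => 0
  | n + 1, k + 1 => pw v (2 * (k + 1)) * gb n (k + 1) + pw v (-(2 * ((n : ℤ) - k))) * gb n k

/-- the coefficient of `e_(j+l) ⊗ e_(i-l)` in the braiding of `e_i ⊗ e_j` -/
def rc (a i j l : ℕ) : A :=
  pw v (((a : ℤ) - 2 * i + 2 * l) * (a - 2 * j - 2 * l) + l * (l - 1)) * gb v (j + l) l *
    ∏ s ∈ Finset.range l, br v ((a : ℤ) - i + (s + 1))

/-- The braiding of `V ⊗ V`: the column `(i, j)` contains `rc i j l` in the row `(j + l, i - l)`. -/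
def S (a : ℕ) : Matrix (Fin (a + 1) × Fin (a + 1)) (Fin (a + 1) × Fin (a + 1)) A :=
  fun x y => if (x.1 : ℕ) + x.2 = y.1 + y.2 ∧ (x.2 : ℕ) ≤ y.1 then rc v a y.1 y.2 (y.1 - x.2) else 0

/-- The indices of the basis of `V ⊗ V ⊗ V`. -/
abbrev Ix (a : ℕ) : Type := Fin (a + 1) × Fin (a + 1) × Fin (a + 1)

/-- the braiding of the first two strands -/
def s1 (a : ℕ) : Matrix (Ix a) (Ix a) A :=
  fun x y => if x.2.2 = y.2.2 then S v a (x.1, x.2.1) (y.1, y.2.1) else 0

/-- the braiding of the last two strands -/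
def s2 (a : ℕ) : Matrix (Ix a) (Ix a) A :=
  fun x y => if x.1 = y.1 then S v a (x.2.1, x.2.2) (y.2.1, y.2.2) else 0

/-- A letter of a braid word: `(i, true)` is the generator `σ_i`, `(i, false)` its inverse. -/
abbrev Letter : Type := Fin 2 × Bool

/-- the matrix of a letter -/
noncomputable def lm (a : ℕ) (l : Letter) : Matrix (Ix a) (Ix a) A :=
  if l.2 then (if l.1 = 0 then s1 v a else s2 v a)
  else (if l.1 = 0 then (s1 v a)⁻¹ else (s2 v a)⁻¹)

/-- the matrix of a braid word -/
noncomputable def wm (a : ℕ) (w : List Letter) : Matrix (Ix a) (Ix a) A := (w.map (lm v a)).prod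

/-- the exponent sum of a braid word -/
def ex (w : List Letter) : ℤ := (w.map fun l => if l.2 then 1 else -1).sum

/-- the matrix of `K ⊗ K ⊗ K` -/
def km (a : ℕ) : Matrix (Ix a) (Ix a) A :=
  Matrix.diagonal fun x => pw v (2 * (3 * a - 2 * ((x.1 : ℤ) + x.2.1 + x.2.2)))

/-- the quantum trace of a braid word, with the framing correction -/
noncomputable def jt (a : ℕ) (w : List Letter) : A :=
  pw v (-(ex w * (a * (a + 2)))) * (wm v a w * km v a).trace

end RMatrix

open LaurentPolynomial

/-- the unit `T` of `ℤ[T;T⁻¹]` -/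
noncomputable def tu : (ℤ[T;T⁻¹])ˣ where
  val := T 1
  inv := T (-1)
  val_inv := by rw [← T_add]; simp
  inv_val := by rw [← T_add]; simp

/-- The `n`-coloured Jones polynomial of the closure of the braid word `w`, in the variable `v = T`. -/
noncomputable def cj (w : List Letter) (n : ℕ) : ℤ[T;T⁻¹] := jt tu (n - 1) w

/-- The permutation of a braid word. -/
def perm (w : List Letter) : Equiv.Perm (Fin 3) :=
  (w.map fun l => if l.1 = 0 then Equiv.swap 0 1 else Equiv.swap 1 2).prod

/-- The relation of the braid group on three strands. -/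
def rels : Set (FreeGroup (Fin 2)) :=
  {FreeGroup.of 0 * FreeGroup.of 1 * FreeGroup.of 0 *
    (FreeGroup.of 1 * FreeGroup.of 0 * FreeGroup.of 1)⁻¹}

/-- The braid group on three strands. -/
abbrev B3 : Type := PresentedGroup rels

/-- The standard generators of the braid group. -/
def sg (i : Fin 2) : B3 := PresentedGroup.of i

/-- The braid of a word. -/
def bd (w : List Letter) : B3 := (w.map fun l => if l.2 then sg l.1 else (sg l.1)⁻¹).prod

/-- The closure is a knot: the permutation is a 3-cycle. -/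
def IsKnot (w : List Letter) : Prop := (perm w).IsThreeCycle

/-- The braids conjugate to `σ_1 σ_2`, `σ_1⁻¹ σ_2⁻¹`, `σ_1 σ_2⁻¹`; their closures are unknots. -/
def IsTriv (w : List Letter) : Prop :=
  IsConj (bd w) (sg 0 * sg 1) ∨ IsConj (bd w) ((sg 0)⁻¹ * (sg 1)⁻¹) ∨
    IsConj (bd w) (sg 0 * (sg 1)⁻¹)

/-- For all large `n`, the maximal degree of the `n`-coloured Jones polynomial is
`a_j n^2 + 2 b_j n + c_j`, where `j = n mod p`. -/
def DegQ (w : List Letter) (p : ℕ) (a b c : ℕ → ℚ) : Prop :=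
  0 < p ∧ ∃ N : ℕ, ∀ n ≥ N, ∃ D : ℤ, (cj w n).degree = (D : WithBot ℤ) ∧
    (D : ℚ) = a (n % p) * n ^ 2 + 2 * b (n % p) * n + c (n % p)

end Pool.Agent.KT
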