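import Pool.Agent.Work.MP_ab49bb_gt.Det

/-!
# Mp (S-M): specialisation of the coloured Jones polynomial

`map_jt`: a ring homomorphism `f : A → B` maps `pw v m` to `pw (Units.map f v) m` (`map_zpow`, `Units.coe_map`), hence `br`, `gb` (induction), `rc` (`map_prod`),
the entries of `S`, `s1`, `s2`, `km`; so `(s1 v a).map f = s1 (Units.map f v) a`. Inverses: `s1 v a * (s1 v a)⁻¹ = 1` (`isUnit_s1`; `Matrix.mul_nonsing_inv`, `Matrix.isUnit_iff_isUnit_det`), map it
by `f` (`Matrix.map_mul`) and use `Matrix.inv_eq_right_inv`: `((s1 v a)⁻¹).map f = (s1 (Units.map f v) a)⁻¹`. Words by induction on the list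
(`f.mapMatrix` is a ring homomorphism; `map_list_prod`), the trace by `AddMonoidHom.map_trace`/`Matrix.trace` and `map_sum`.
`cj_eval`: `LaurentPolynomial.eval₂ (Int.castRingHom ℝ) u` is a ring homomorphism mapping `T 1` to `u` (`LaurentPolynomial.eval₂_T`).
-/

set_option autoImplicit false

open Matrix

namespace Pool.Agent.KT

section Map

variable {A B : Type*} [CommRing A] [CommRing B] (f : A →+* B) (v : Aˣ)

private theorem map_pw (m : ℤ) : f (pw v m) = pw (Units.map (f : A →* B) v) m := by
  rw [pw, pw, ← map_zpow, Units.coe_map]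
  rfl

private theorem map_br (m : ℤ) : f (br v m) = br (Units.map (f : A →* B) v) m := by
  rw [br, br, map_sub, map_pw, map_pw]

private theorem map_gb : ∀ n k : ℕ, f (gb v n k) = gb (Units.map (f : A →* B) v) n k
  | _, 0 => by rw [gb, gb, map_one]
  | 0, _ + 1 => by rw [gb, gb, map_zero]
  | n + 1, k + 1 => by
    rw [gb, gb, map_add, map_mul, map_mul, map_pw, map_pw, map_gb n (k + 1), map_gb n k]

private theorem map_rc (a i j l : ℕ) : f (rc v a i j l) = rc (Units.map (f : A →* B) v) a i j l := by
  rw [rc, rc, map_mul, map_mul, map_pw, map_gb, map_prod]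
  congr 1
  exact Finset.prod_congr rfl fun s _ => map_br f v _

private theorem map_S (a : ℕ) (x y : Fin (a + 1) × Fin (a + 1)) :
    f (S v a x y) = S (Units.map (f : A →* B) v) a x y := by
  unfold S
  split_ifs
  · exact map_rc f v _ _ _ _
  · exact map_zero f

private theorem map_s1 (a : ℕ) : f.mapMatrix (s1 v a) = s1 (Units.map (f : A →* B) v) a := by
  ext x y
  rw [RingHom.mapMatrix_apply, Matrix.map_apply]
  unfold s1
  split_ifs
  · exact map_S f v a _ _
  · exact map_zero f

private theorem map_s2 (a : ℕ) : f.mapMatrix (s2 v a) = s2 (Units.map (f : A →* B) v) a := by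
  ext x y
  rw [RingHom.mapMatrix_apply, Matrix.map_apply]
  unfold s2
  split_ifs
  · exact map_S f v a _ _
  · exact map_zero f

private theorem map_inv' {n : Type*} [Fintype n] [DecidableEq n] {X : Matrix n n A} (hX : IsUnit X) :
    f.mapMatrix X⁻¹ = (f.mapMatrix X)⁻¹ := by
  symm
  apply Matrix.inv_eq_right_inv
  rw [← map_mul, Matrix.mul_nonsing_inv X ((Matrix.isUnit_iff_isUnit_det X).1 hX), map_one]

private theorem map_lm (a : ℕ) (l : Letter) :
    f.mapMatrix (lm v a l) = lm (Units.map (f : A →* B) v) a l := by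
  unfold lm
  split_ifs
  · exact map_s1 f v a
  · exact map_s2 f v a
  · rw [map_inv' f (isUnit_s1 v a), map_s1]
  · rw [map_inv' f (isUnit_s2 v a), map_s2]

private theorem map_wm (a : ℕ) (w : List Letter) :
    f.mapMatrix (wm v a w) = wm (Units.map (f : A →* B) v) a w := by
  unfold wm
  rw [map_list_prod, List.map_map]
  congr 1
  exact List.map_congr_left fun l _ => map_lm f v a l

private theorem map_km (a : ℕ) : f.mapMatrix (km v a) = km (Units.map (f : A →* B) v) a := by
  unfold km
  rw [RingHom.mapMatrix_apply, Matrix.diagonal_map (map_zero f)]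
  congr 1
  funext x
  exact map_pw f v _

end Map

theorem map_jt {A B : Type*} [CommRing A] [CommRing B] (f : A →+* B) (v : Aˣ) (a : ℕ)
    (w : List Letter) : f (jt v a w) = jt (Units.map (f : A →* B) v) a w := by
  unfold jt
  rw [map_mul, map_pw, ← map_wm f v a w, ← map_km f v a, ← map_mul]
  congr 1
  exact AddMonoidHom.map_trace (f : A →+ B) _

theorem cj_eval (u : ℝˣ) (w : List Letter) (n : ℕ) :
    LaurentPolynomial.eval₂ (Int.castRingHom ℝ) u (cj w n) = jt u (n - 1) w := by
  unfold cj
  rw [map_jt]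
  congr 1
  ext
  show LaurentPolynomial.eval₂ (Int.castRingHom ℝ) u (LaurentPolynomial.T 1) = (u : ℝ)
  rw [LaurentPolynomial.eval₂_T, zpow_one]

end Pool.Agent.KT
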