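import Pool.Agent.Work.MP_ab49bb_gt.Yb
import Pool.Agent.Work.MP_ab49bb_gt.Mp

/-!
# Rp (M): conjugation invariance

Let `ρ : B3 →* (Matrix (Ix a) (Ix a) ℝ)ˣ` be `PresentedGroup.toGroup` of the units `s1, s2` (`isUnit_s1`, `isUnit_s2`; the relation is `ybe`). By induction on the word
`wm u a w = ρ (bd w)` (the inverse of a unit matrix is `Matrix.inv`: `Matrix.coe_units_inv`). `wm_of_bd`, `trw_conj`: if `bd w = g * bd w' * g⁻¹` then
`wm w = ρ g * wm w' * (ρ g)⁻¹`; `ρ g` commutes with the module: every `g : B3` is `bd` of a word (`PresentedGroup` is generated by the images of the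
generators: `PresentedGroup.closure_range_of`, or `QuotientGroup.mk_surjective` and `FreeGroup` induction), so `com_wm` applies; then `QM.trw_mul_comm`.
`ex_conj`: `ex w = φ (bd w)` with `φ : B3 →* Multiplicative ℤ`, both generators to `1`; conjugate elements of a commutative group are equal.
`perm_conj`: `perm w = π (bd w)` with `π : B3 →* Equiv.Perm (Fin 3)`, `sg 0 ↦ swap 0 1`, `sg 1 ↦ swap 1 2` (the relation by `decide`; `swap⁻¹ = swap`).
`jt_conj`: `trace (wm w * km) = ∑_t v^(2t) trw (wm w) t` (or: `km` commutes with all weight preserving matrices).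
`RDeg_conj`: for large `v` (`v > 1`) the real unit `ru v` has value `v > 1`, use `jt_conj`.
-/

set_option autoImplicit false

open Matrix

namespace Pool.Agent.KT

variable {u : ℝˣ}

theorem bd_append (w w' : List Letter) : bd (w ++ w') = bd w * bd w' := by
  rw [bd, bd, bd, List.map_append, List.prod_append]

private theorem bd_nil : bd [] = 1 := rfl

private theorem bd_cons (l : Letter) (w : List Letter) :
    bd (l :: w) = (if l.2 then sg l.1 else (sg l.1)⁻¹) * bd w := by
  rw [bd, bd, List.map_cons, List.prod_cons]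

theorem bd_surj (g : B3) : ∃ w, bd w = g := by
  obtain ⟨x, rfl⟩ := PresentedGroup.mk_surjective rels g
  induction x using FreeGroup.induction_on with
  | C1 => exact ⟨[], by rw [bd_nil, map_one]⟩
  | of i =>
    refine ⟨[(i, true)], ?_⟩
    rw [bd_cons, bd_nil, mul_one]
    rfl
  | inv_of i _ =>
    refine ⟨[(i, false)], ?_⟩
    rw [bd_cons, bd_nil, mul_one, map_inv]
    rfl
  | mul x y hx hy =>
    obtain ⟨w, hw⟩ := hx
    obtain ⟨w', hw'⟩ := hy
    exact ⟨w ++ w', by rw [bd_append, hw, hw', map_mul]⟩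

theorem wm_append (a : ℕ) (w w' : List Letter) : wm u a (w ++ w') = wm u a w * wm u a w' := by
  rw [wm, wm, wm, List.map_append, List.prod_append]

theorem ex_append (w w' : List Letter) : ex (w ++ w') = ex w + ex w' := by
  rw [ex, ex, ex, List.map_append, List.sum_append]

theorem perm_append (w w' : List Letter) : perm (w ++ w') = perm w * perm w' := by
  rw [perm, perm, perm, List.map_append, List.prod_append]

private theorem exists_hom {G : Type*} [Group G] (x y : G) (h : x * y * x = y * x * y) :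
    ∃ ρ : B3 →* G, ρ (sg 0) = x ∧ ρ (sg 1) = y := by
  have hrel : ∀ r ∈ rels, FreeGroup.lift (fun i : Fin 2 => if i = 0 then x else y) r = 1 := by
    intro r hr
    have hr' : r = FreeGroup.of 0 * FreeGroup.of 1 * FreeGroup.of 0 *
        (FreeGroup.of 1 * FreeGroup.of 0 * FreeGroup.of 1)⁻¹ := hr
    rw [hr']
    simp only [map_mul, map_inv, FreeGroup.lift_apply_of, if_true, one_ne_zero, if_false]
    rw [mul_inv_eq_one]
    exact h
  refine ⟨PresentedGroup.toGroup hrel, ?_, ?_⟩
  · exact PresentedGroup.toGroup.of hrel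
  · exact PresentedGroup.toGroup.of hrel

private theorem exists_rho (hu : 1 < (u : ℝ)) (a : ℕ) :
    ∃ ρ : B3 →* (Matrix (Ix a) (Ix a) ℝ)ˣ, ∀ w, ((ρ (bd w) : (Matrix (Ix a) (Ix a) ℝ)ˣ) :
      Matrix (Ix a) (Ix a) ℝ) = wm u a w := by
  obtain ⟨U1, h1⟩ := isUnit_s1 u a
  obtain ⟨U2, h2⟩ := isUnit_s2 u a
  obtain ⟨ρ, hρ0, hρ1⟩ := exists_hom U1 U2 (by
    ext1
    simp only [Units.val_mul]
    rw [h1, h2]
    exact ybe hu a)
  refine ⟨ρ, fun w => ?_⟩
  have hsg : ∀ i : Fin 2, ρ (sg i) = if i = 0 then U1 else U2 := by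
    intro i
    fin_cases i
    · exact hρ0
    · exact hρ1
  induction w with
  | nil => rw [bd_nil, map_one]; rfl
  | cons l w ih =>
    rw [bd_cons, map_mul, Units.val_mul, ih, wm, wm, List.map_cons, List.prod_cons]
    congr 1
    unfold lm
    by_cases hl : l.2 = true
    · rw [if_pos hl, if_pos hl, hsg]
      by_cases h0 : l.1 = 0
      · rw [if_pos h0, if_pos h0, h1]
      · rw [if_neg h0, if_neg h0, h2]
    · rw [if_neg hl, if_neg hl, map_inv, hsg]
      by_cases h0 : l.1 = 0
      · rw [if_pos h0, if_pos h0, Matrix.coe_units_inv, h1]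
      · rw [if_neg h0, if_neg h0, Matrix.coe_units_inv, h2]

theorem wm_of_bd (hu : 1 < (u : ℝ)) (a : ℕ) {w w' : List Letter} (h : bd w = bd w') :
    wm u a w = wm u a w' := by
  obtain ⟨ρ, hρ⟩ := exists_rho hu a
  rw [← hρ, ← hρ, h]

private theorem wm_nil (a : ℕ) : wm u a [] = 1 := rfl

private theorem wm_conj (hu : 1 < (u : ℝ)) (a : ℕ) {w w' : List Letter}
    (h : IsConj (bd w) (bd w')) : ∃ z z' : List Letter,
      wm u a w' = wm u a z * wm u a w * wm u a z' ∧ wm u a z' * wm u a z = 1 := by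
  obtain ⟨c, hc⟩ := isConj_iff.1 h
  obtain ⟨z, hz⟩ := bd_surj c
  obtain ⟨z', hz'⟩ := bd_surj c⁻¹
  refine ⟨z, z', ?_, ?_⟩
  · rw [← wm_append, ← wm_append]
    apply wm_of_bd hu
    rw [bd_append, bd_append, hz, hz', hc]
  · rw [← wm_append, ← wm_nil]
    apply wm_of_bd hu
    rw [bd_append, hz, hz', bd_nil, inv_mul_cancel]

theorem trw_conj (hu : 1 < (u : ℝ)) (a : ℕ) {w w' : List Letter} (h : IsConj (bd w) (bd w'))
    (t : ℤ) : (UQ u hu a).trw (wm u a w) t = (UQ u hu a).trw (wm u a w') t := by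
  obtain ⟨z, z', h1, h2⟩ := wm_conj hu a h
  rw [h1, QM.trw_mul_comm ((com_wm hu a z).mul (com_wm hu a w)) (com_wm hu a z'), ← mul_assoc, h2,
    one_mul]

theorem ex_conj {w w' : List Letter} (h : IsConj (bd w) (bd w')) : ex w = ex w' := by
  obtain ⟨φ, h0, h1⟩ := exists_hom (Multiplicative.ofAdd (1 : ℤ)) (Multiplicative.ofAdd (1 : ℤ)) rfl
  have key : ∀ w, φ (bd w) = Multiplicative.ofAdd (ex w) := by
    intro w
    have hsg : ∀ i : Fin 2, φ (sg i) = Multiplicative.ofAdd (1 : ℤ) := by
      intro i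
      fin_cases i
      · exact h0
      · exact h1
    induction w with
    | nil => rw [bd_nil, map_one]; rfl
    | cons l w ih =>
      have he : ex (l :: w) = (if l.2 then 1 else -1) + ex w := by
        rw [ex, ex, List.map_cons, List.sum_cons]
      rw [bd_cons, map_mul, ih, he, ofAdd_add]
      congr 1
      by_cases hl : l.2 = true
      · rw [if_pos hl, if_pos hl, hsg]
      · rw [if_neg hl, if_neg hl, map_inv, hsg, ofAdd_neg]
  obtain ⟨c, hc⟩ := isConj_iff.1 h
  have h2 := congrArg φ hc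
  rw [map_mul, map_mul, map_inv, mul_comm (φ c), mul_inv_cancel_right, key, key] at h2
  exact Multiplicative.ofAdd.injective h2

theorem perm_conj {w w' : List Letter} (h : IsConj (bd w) (bd w')) : IsConj (perm w) (perm w') := by
  obtain ⟨φ, h0, h1⟩ := exists_hom (Equiv.swap (0 : Fin 3) 1) (Equiv.swap (1 : Fin 3) 2) (by decide)
  have key : ∀ w, φ (bd w) = perm w := by
    intro w
    have hsg : ∀ i : Fin 2, φ (sg i) = if i = 0 then Equiv.swap 0 1 else Equiv.swap 1 2 := by
      intro i
      fin_cases i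
      · exact h0
      · exact h1
    induction w with
    | nil => rw [bd_nil, map_one]; rfl
    | cons l w ih =>
      have he : perm (l :: w) = (if l.1 = 0 then Equiv.swap 0 1 else Equiv.swap 1 2) * perm w := by
        rw [perm, perm, List.map_cons, List.prod_cons]
      rw [bd_cons, map_mul, ih, he]
      congr 1
      by_cases hl : l.2 = true
      · rw [if_pos hl, hsg]
      · rw [if_neg hl, map_inv, hsg]
        split_ifs
        · exact Equiv.swap_inv _ _
        · exact Equiv.swap_inv _ _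
  rw [← key, ← key]
  exact φ.map_isConj h

private theorem km_comm (hu : 1 < (u : ℝ)) (a : ℕ) {X : Matrix (Ix a) (Ix a) ℝ}
    (hX : (UQ u hu a).Com X) : X * km u a = km u a * X := by
  ext x y
  unfold km
  rw [Matrix.mul_diagonal, Matrix.diagonal_mul]
  by_cases h : X x y = 0
  · rw [h, zero_mul, mul_zero]
  · have h1 := hX.wt x y h
    change vw a x.1 + (vw a x.2.1 + vw a x.2.2) = vw a y.1 + (vw a y.2.1 + vw a y.2.2) at h1
    unfold vw at h1
    have h2 : 2 * (3 * (a : ℤ) - 2 * ((y.1 : ℤ) + y.2.1 + y.2.2)) =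
        2 * (3 * (a : ℤ) - 2 * ((x.1 : ℤ) + x.2.1 + x.2.2)) := by
      push_cast at h1
      linarith
    rw [h2, mul_comm]

theorem jt_conj (hu : 1 < (u : ℝ)) (a : ℕ) {w w' : List Letter} (h : IsConj (bd w) (bd w')) :
    jt u a w = jt u a w' := by
  obtain ⟨z, z', h1, h2⟩ := wm_conj hu a h
  unfold jt
  rw [ex_conj h]
  congr 1
  have h3 : wm u a z * wm u a w * wm u a z' * km u a =
      wm u a z * wm u a w * km u a * wm u a z' := by
    rw [mul_assoc, km_comm hu a (com_wm hu a z'), ← mul_assoc]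
  rw [h1, h3, Matrix.trace_mul_comm (wm u a z * wm u a w * km u a) (wm u a z'), mul_assoc,
    ← mul_assoc, h2, one_mul]

theorem RDeg_conj {w w' : List Letter} (h : IsConj (bd w) (bd w')) {a : ℕ} {D : ℤ}
    (hD : RDeg w a D) : RDeg w' a D := by
  obtain ⟨c, C, hc, hv⟩ := hD
  refine ⟨c, C, hc, ?_⟩
  filter_upwards [hv, Filter.eventually_gt_atTop 1] with v h1 h2
  have h3 : ((ru v : ℝˣ) : ℝ) = v := by
    unfold ru
    rw [dif_pos (by linarith : v ≠ 0).symm.symm]
    rfl
  have h4 := jt_conj (u := ru v) (by rw [h3]; exact h2) a h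
  rw [← h4]
  exact h1

end Pool.Agent.KT
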