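import Pool.Agent.Work.MP_ab49bb_gt.Nf1
import Pool.Agent.Work.MP_ab49bb_gt.Rp

/-!
# Nf2 (M): the words for knots

Let `IsKnot w` (`perm w` is a 3-cycle). `normal1` for `g = bd w`. `π : B3 →* Perm (Fin 3)` with `π (bd w) = perm w` (build it again or use `perm_conj` with words for the elements, `bd_surj`): `π gH = 1`, `π gA` is a transposition, `π gB` a 3-cycle. Being a 3-cycle is a conjugacy
invariant. `gH^k`: excluded (`1` is not a 3-cycle). `gH^k gA`: excluded. `gH^k gB`: `gB = σ2σ1` is conjugate to `σ1σ2` (by `σ1` : `σ1 (σ2 σ1) σ1⁻¹ = σ1σ2`), `gH` central, so `g` is conjugate to `(σ1σ2)^(3k+1) = bd (tor (3k+1))`; `gH^k gB⁻¹`: to `bd (tor (3k-1))`.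
For `m = ±1` the element `bd (tor m)` is `σ1σ2` or `σ2⁻¹σ1⁻¹`, conjugate to `σ1⁻¹σ2⁻¹`: `IsTriv`. So `|m| ≥ 2` in the second alternative (`m = 3k ± 1`, `m ≠ 0`).
The list case: `l ≠ []`. If all letters are `true`: `π g = (swap 0 1)^n`, no 3-cycle; all `false`: the same. Otherwise rotate the list (conjugation) so that it starts with `false` (`σ2⁻¹`) and ends with `true` (`σ1`): a cyclic list with both letters has a position `true, false`. Such a
list is `blk L`: maximal runs, `bd (blk L) = ∏ σ2^(-p_r) σ1^(q_r)`, `GenL L` (induction on the list: a list starting with `false` and ending with `true` is `false^p true^q` followed by a shorter list of the same type or nothing). `bd (tw d) = gH^(-d)`: `d = -k`.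
Parity: the sign of `perm w` is `1` (3-cycle), and `sign = (-1)^(number of letters)`, so `sp L + sq L` is even (`sign (perm (gw d L)) = (-1)^(6|d| + sp + sq)`; `sign` is invariant under conjugation).
If `d = 0`, `sp L = sq L = 1` then `L = [(1,1)]` and `bd = σ2⁻¹σ1`, conjugate to `σ1σ2⁻¹`: `IsTriv`.
-/

set_option autoImplicit false

namespace Pool.Agent.KT

/-! ## The homomorphism to permutations -/

private def tp : Fin 2 → Equiv.Perm (Fin 3) :=
  fun i => if i = 0 then Equiv.swap 0 1 else Equiv.swap 1 2

private theorem tp_rel : ∀ r ∈ rels, FreeGroup.lift tp r = 1 := by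
  intro r hr
  rw [rels, Set.mem_singleton_iff] at hr
  subst hr
  simp only [map_mul, map_inv, FreeGroup.lift_apply_of]
  decide

private noncomputable def pm : B3 →* Equiv.Perm (Fin 3) := PresentedGroup.toGroup tp_rel

private theorem pm_sg (i : Fin 2) : pm (sg i) = tp i := PresentedGroup.toGroup.of tp_rel

private theorem tp_inv (i : Fin 2) : (tp i)⁻¹ = tp i := by
  revert i; decide

private theorem tp_sq (i : Fin 2) : tp i * tp i = 1 := by
  revert i; decide

private theorem pm_bd (w : List Letter) : pm (bd w) = perm w := by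
  induction w with
  | nil => simp [bd, perm]
  | cons l w ih =>
    have e1 : bd (l :: w) = (if l.2 then sg l.1 else (sg l.1)⁻¹) * bd w := by simp [bd]
    have e2 : perm (l :: w) = tp l.1 * perm w := by simp [perm, tp]
    rw [e1, e2, map_mul, ih]
    congr 1
    split
    · exact pm_sg _
    · rw [map_inv, pm_sg, tp_inv]

private theorem pm_gH : pm gH = 1 := by
  rw [gH, map_pow, map_mul, pm_sg, pm_sg]
  decide

private theorem sign_gA : Equiv.Perm.sign (pm gA) = -1 := by
  rw [gA, map_mul pm, map_mul pm, pm_sg, pm_sg]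
  decide

private theorem sign_tp (i : Fin 2) : Equiv.Perm.sign (tp i) = -1 := by
  revert i; decide

private theorem isThree_of_conj {g g' : B3} (h : IsConj g g') (h3 : (pm g).IsThreeCycle) :
    (pm g').IsThreeCycle := by
  have h1 : IsConj (pm g) (pm g') := MonoidHom.map_isConj pm h
  rw [Equiv.Perm.isConj_iff_cycleType_eq] at h1
  rw [Equiv.Perm.IsThreeCycle, ← h1]
  exact h3

private theorem not_three_one : ¬ (1 : Equiv.Perm (Fin 3)).IsThreeCycle := by
  intro h
  rw [Equiv.Perm.IsThreeCycle, Equiv.Perm.cycleType_one] at h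
  exact absurd (congrArg Multiset.card h) (by simp)

private theorem not_three_pow (i : Fin 2) (n : ℕ) : ¬ ((tp i) ^ n).IsThreeCycle := by
  intro h
  rcases Nat.even_or_odd' n with ⟨m, rfl | rfl⟩
  · rw [pow_mul, pow_two, tp_sq, one_pow] at h
    exact not_three_one h
  · rw [pow_succ, pow_mul, pow_two, tp_sq, one_pow, one_mul] at h
    have h1 := h.sign
    rw [sign_tp] at h1
    exact absurd h1 (by decide)

/-! ## Words -/

private theorem bd_flat (w : List Letter) (n : ℕ) :
    bd (List.replicate n w).flatten = bd w ^ n := by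
  induction n with
  | zero => simp [bd]
  | succ n ih =>
    rw [List.replicate_succ, List.flatten_cons, bd_append, ih, pow_succ']

private theorem bd_tor (m : ℤ) : bd (tor m) = (sg 0 * sg 1) ^ m := by
  rw [tor]
  split
  · rename_i h
    rw [bd_flat]
    have e : bd [((0 : Fin 2), true), (1, true)] = sg 0 * sg 1 := by simp [bd]
    rw [e, ← zpow_natCast, Int.toNat_of_nonneg h]
  · rename_i h
    rw [bd_flat]
    have e : bd [((1 : Fin 2), false), (0, false)] = (sg 0 * sg 1)⁻¹ := by
      simp [bd, mul_inv_rev]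
    rw [e, ← zpow_natCast, Int.toNat_of_nonneg (by omega), inv_zpow, zpow_neg, inv_inv]

private theorem bd_tw (d : ℤ) : bd (tw d) = gH ^ (-d) := by
  rw [tw]
  split
  · rename_i h
    rw [bd_flat]
    have e : bd (ft false) = gH⁻¹ := by
      simp [bd, ft, gH, pow_succ, mul_inv_rev, mul_assoc]
    rw [e, ← zpow_natCast, Int.toNat_of_nonneg h, inv_zpow, zpow_neg]
  · rename_i h
    rw [bd_flat]
    have e : bd (ft true) = gH := by
      simp [bd, ft, gH, pow_succ, mul_assoc]
    rw [e, ← zpow_natCast, Int.toNat_of_nonneg (by omega)]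

private theorem bd_pwr_true (i : Fin 2) (n : ℕ) : bd (pwr i true n) = sg i ^ n := by
  simp [bd, pwr]

private theorem bd_pwr_false (i : Fin 2) (n : ℕ) : bd (pwr i false n) = (sg i)⁻¹ ^ n := by
  simp [bd, pwr]

private theorem bd_blk_cons (x : ℕ × ℕ) (L : List (ℕ × ℕ)) :
    bd (blk (x :: L)) = (sg 1)⁻¹ ^ x.1 * sg 0 ^ x.2 * bd (blk L) := by
  have e : blk (x :: L) = (pwr 1 false x.1 ++ pwr 0 true x.2) ++ blk L := by simp [blk]
  rw [e, bd_append, bd_append, bd_pwr_false, bd_pwr_true]

private theorem bd_blk_nil : bd (blk []) = 1 := by simp [blk, bd]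

private def lf (l : List Bool) : B3 := (l.map fun b => if b then sg 0 else (sg 1)⁻¹).prod

private theorem lf_cons (b : Bool) (l : List Bool) :
    lf (b :: l) = (if b then sg 0 else (sg 1)⁻¹) * lf l := by simp [lf]

private theorem lf_append (l l' : List Bool) : lf (l ++ l') = lf l * lf l' := by simp [lf]

private theorem lf_rot (l l' : List Bool) : IsConj (lf (l ++ l')) (lf (l' ++ l)) := by
  rw [lf_append, lf_append]
  refine isConj_iff.mpr ⟨lf l', ?_⟩
  group

private theorem step (q : ℕ) (L : List (ℕ × ℕ)) (hpos : ∀ x ∈ L, 0 < x.1 ∧ 0 < x.2)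
    (h : L = [] → 0 < q) :
    ∃ L', GenL L' ∧ (sg 1)⁻¹ * (sg 0 ^ q * bd (blk L)) = bd (blk L') := by
  rcases Nat.eq_zero_or_pos q with hq | hq
  · subst hq
    cases L with
    | nil => exact absurd (h rfl) (lt_irrefl _)
    | cons x L =>
      refine ⟨(x.1 + 1, x.2) :: L, ⟨by simp, ?_⟩, ?_⟩
      · intro y hy
        rcases List.mem_cons.mp hy with rfl | hy
        · exact ⟨Nat.succ_pos _, (hpos x (by simp)).2⟩
        · exact hpos y (by simp [hy])
      · rw [bd_blk_cons, bd_blk_cons, pow_zero, one_mul, pow_succ']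
        simp only [mul_assoc]
  · refine ⟨(1, q) :: L, ⟨by simp, ?_⟩, ?_⟩
    · intro y hy
      rcases List.mem_cons.mp hy with rfl | hy
      · exact ⟨Nat.one_pos, hq⟩
      · exact hpos y hy
    · rw [bd_blk_cons, pow_one]
      simp only [mul_assoc]

private theorem runs (X : List Bool) : ∃ (q : ℕ) (L : List (ℕ × ℕ)),
    (∀ x ∈ L, 0 < x.1 ∧ 0 < x.2) ∧ (L = [] → 0 < q) ∧
      lf (X ++ [true]) = sg 0 ^ q * bd (blk L) := by
  induction X with
  | nil => exact ⟨1, [], by simp, fun _ => Nat.one_pos, by simp [lf, bd_blk_nil]⟩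
  | cons b X ih =>
    obtain ⟨q, L, h1, h2, h3⟩ := ih
    cases b with
    | true =>
      refine ⟨q + 1, L, h1, fun _ => Nat.succ_pos _, ?_⟩
      rw [List.cons_append, lf_cons, h3, pow_succ']
      simp only [mul_assoc, if_true]
    | false =>
      obtain ⟨L', h4, h5⟩ := step q L h1 h2
      refine ⟨0, L', h4.pos, fun h => absurd h h4.ne, ?_⟩
      rw [List.cons_append, lf_cons, h3, pow_zero, one_mul, ← h5]
      simp

private theorem runs_false (X : List Bool) :
    ∃ L : List (ℕ × ℕ), GenL L ∧ lf (false :: (X ++ [true])) = bd (blk L) := by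
  obtain ⟨q, L, h1, h2, h3⟩ := runs X
  obtain ⟨L', h4, h5⟩ := step q L h1 h2
  refine ⟨L', h4, ?_⟩
  rw [lf_cons, h3, ← h5]
  simp

private theorem all_of_not_mem (b : Bool) (l : List Bool) (h : b ∉ l) : ∀ x ∈ l, x = !b := by
  intro x hx
  by_contra hne
  have : x = b := by revert hne; cases x <;> cases b <;> simp
  exact h (this ▸ hx)

private theorem rotate_ex (l : List Bool) (h0 : false ∈ l) (h1 : true ∈ l) :
    ∃ X : List Bool, IsConj (lf l) (lf (false :: (X ++ [true]))) := by
  obtain ⟨as, bs, h2, h3⟩ := List.eq_append_cons_of_mem h0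
  have h4 : IsConj (lf l) (lf (false :: bs ++ as)) := by
    rw [h2]; exact lf_rot as (false :: bs)
  rcases List.eq_nil_or_concat as with rfl | ⟨as', x, rfl⟩
  · -- the list starts with `false`
    rw [List.nil_append] at h2
    have h5 : true ∈ bs := by
      rw [h2] at h1
      simpa using h1
    have h6 : true ∈ bs.reverse := List.mem_reverse.mpr h5
    obtain ⟨cs, ds, h7, h8⟩ := List.eq_append_cons_of_mem h6
    have h9 : bs = ds.reverse ++ [true] ++ cs.reverse := by
      have := congrArg List.reverse h7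
      rw [List.reverse_reverse] at this
      rw [this]; simp
    have h10 : IsConj (lf l) (lf (cs.reverse ++ (false :: (ds.reverse ++ [true])))) := by
      rw [h2, h9]
      have := lf_rot (false :: (ds.reverse ++ [true])) cs.reverse
      simpa using this
    cases hc : cs.reverse with
    | nil =>
      rw [hc] at h10
      exact ⟨ds.reverse, by simpa using h10⟩
    | cons y t =>
      have hy : y = false := by
        have : y ∈ cs := by
          rw [← List.mem_reverse, hc]; simp
        simpa using all_of_not_mem true cs h8 y this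
      subst hy
      rw [hc] at h10
      exact ⟨t ++ false :: ds.reverse, by simpa using h10⟩
  · have hx : x = true := by
      simpa using all_of_not_mem false _ h3 x (by simp)
    subst hx
    exact ⟨bs ++ as', by simpa using h4⟩

/-! ## Signs -/

private theorem sign_lf_blk (L : List (ℕ × ℕ)) :
    Equiv.Perm.sign (pm (bd (blk L))) = (-1) ^ (sp L + sq L) := by
  induction L with
  | nil => simp [bd_blk_nil, sp, sq]
  | cons x L ih =>
    have e1 : sp (x :: L) = x.1 + sp L := by simp [sp]
    have e2 : sq (x :: L) = x.2 + sq L := by simp [sq]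
    rw [bd_blk_cons, map_mul pm, map_mul pm, map_pow pm, map_pow pm, map_inv pm, pm_sg, pm_sg,
      tp_inv, map_mul, map_mul, map_pow, map_pow, sign_tp, sign_tp, ih, e1, e2, ← pow_add,
      ← pow_add]
    congr 1
    omega

private theorem sp_pos {L : List (ℕ × ℕ)} (h : GenL L) : L.length ≤ sp L := by
  obtain ⟨-, hp⟩ := h
  induction L with
  | nil => simp
  | cons x L ih =>
    have e1 : sp (x :: L) = x.1 + sp L := by simp [sp]
    have h1 := (hp x (by simp)).1
    have h2 := ih (fun y hy => hp y (by simp [hy]))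
    rw [e1, List.length_cons]
    omega

private theorem one_block {L : List (ℕ × ℕ)} (h : GenL L) (h1 : sp L = 1) (h2 : sq L = 1) :
    L = [(1, 1)] := by
  have h3 := sp_pos h
  have h4 := h.ne
  match L, h3, h4 with
  | [x], _, _ =>
    have e1 : x.1 = 1 := by simpa [sp] using h1
    have e2 : x.2 = 1 := by simpa [sq] using h2
    rw [← e1]
    congr 1
    ext
    · rfl
    · exact e2.trans e1.symm
  | x :: y :: L, h3, _ =>
    rw [h1] at h3
    simp at h3

/-! ## Main theorem -/

private theorem conj_gH (k : ℤ) {g g' : B3} (h : IsConj g g') :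
    IsConj (gH ^ k * g) (gH ^ k * g') := by
  obtain ⟨c, hc⟩ := isConj_iff.mp h
  refine isConj_iff.mpr ⟨c, ?_⟩
  have h1 : Commute gH c := gH_comm c
  have h2 : c * gH ^ k = gH ^ k * c := (h1.zpow_left k).eq.symm
  rw [← hc]
  calc c * (gH ^ k * g) * c⁻¹ = (c * gH ^ k) * g * c⁻¹ := by group
    _ = gH ^ k * (c * g * c⁻¹) := by rw [h2]; group

private theorem conj_gB : IsConj gB (sg 0 * sg 1) :=
  isConj_iff.mpr ⟨sg 0, by rw [gB]; group⟩

private theorem conj_gB_inv : IsConj gB⁻¹ (sg 0 * sg 1)⁻¹ :=
  isConj_iff.mpr ⟨sg 0, by rw [gB]; group⟩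

private theorem gH_zpow_mul (k : ℤ) : gH ^ k * (sg 0 * sg 1) = (sg 0 * sg 1) ^ (3 * k + 1) := by
  rw [gH, ← zpow_natCast, ← zpow_mul, zpow_add, zpow_one]
  norm_num

private theorem gH_zpow_mul_inv (k : ℤ) :
    gH ^ k * (sg 0 * sg 1)⁻¹ = (sg 0 * sg 1) ^ (3 * k - 1) := by
  rw [gH, ← zpow_natCast, ← zpow_mul, zpow_sub, zpow_one]
  norm_num

theorem normal_form {w : List Letter} (hw : IsKnot w) :
    IsTriv w ∨ (∃ m : ℤ, (2 ≤ m ∨ m ≤ -2) ∧ IsConj (bd (tor m)) (bd w)) ∨
      ∃ (d : ℤ) (L : List (ℕ × ℕ)), GenL L ∧ Even (sp L + sq L) ∧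
        ¬(d = 0 ∧ sp L = 1 ∧ sq L = 1) ∧ IsConj (bd (gw d L)) (bd w) := by
  have hw3 : (pm (bd w)).IsThreeCycle := by rw [pm_bd]; exact hw
  have hgHk : ∀ k : ℤ, pm (gH ^ k) = 1 := fun k => by rw [map_zpow, pm_gH, one_zpow]
  obtain ⟨k, h | h | h | h | ⟨l, hl, h⟩⟩ := normal1 (bd w)
  · exfalso
    have h1 := isThree_of_conj h hw3
    rw [hgHk] at h1
    exact not_three_one h1
  · exfalso
    have h1 := (isThree_of_conj h hw3).sign
    rw [map_mul, hgHk, one_mul, sign_gA] at h1
    exact absurd h1 (by decide)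
  · have h1 : IsConj (bd w) ((sg 0 * sg 1) ^ (3 * k + 1)) := by
      rw [← gH_zpow_mul]
      exact h.trans (conj_gH k conj_gB)
    rcases eq_or_ne k 0 with hk | hk
    · left
      left
      rw [hk] at h1
      simpa using h1
    · right
      left
      refine ⟨3 * k + 1, by omega, ?_⟩
      rw [bd_tor]
      exact h1.symm
  · have h1 : IsConj (bd w) ((sg 0 * sg 1) ^ (3 * k - 1)) := by
      rw [← gH_zpow_mul_inv]
      exact h.trans (conj_gH k conj_gB_inv)
    rcases eq_or_ne k 0 with hk | hk
    · left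
      right
      left
      rw [hk, zpow_zero, one_mul, gB, mul_inv_rev] at h
      exact h
    · right
      left
      refine ⟨3 * k - 1, by omega, ?_⟩
      rw [bd_tor]
      exact h1.symm
  · change IsConj (bd w) (gH ^ k * lf l) at h
    have h3 := isThree_of_conj h hw3
    rw [map_mul, hgHk, one_mul] at h3
    have hft : false ∈ l ∧ true ∈ l := by
      constructor
      · by_contra hn
        have ha := all_of_not_mem false l hn
        have hl' : l = List.replicate l.length true := List.eq_replicate_iff.mpr ⟨rfl, ha⟩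
        rw [hl'] at h3
        have e : pm (lf (List.replicate l.length true)) = tp 0 ^ l.length := by
          rw [lf, List.map_replicate, List.prod_replicate, map_pow]
          simp [pm_sg]
        rw [e] at h3
        exact not_three_pow 0 _ h3
      · by_contra hn
        have ha := all_of_not_mem true l hn
        have hl' : l = List.replicate l.length false := List.eq_replicate_iff.mpr ⟨rfl, ha⟩
        rw [hl'] at h3
        have e : pm (lf (List.replicate l.length false)) = tp 1 ^ l.length := by
          rw [lf, List.map_replicate, List.prod_replicate, map_pow]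
          simp [pm_sg, tp_inv]
        rw [e] at h3
        exact not_three_pow 1 _ h3
    obtain ⟨X, hX⟩ := rotate_ex l hft.1 hft.2
    obtain ⟨L, hL, hLX⟩ := runs_false X
    rw [hLX] at hX
    have h4 : IsConj (bd w) (gH ^ k * bd (blk L)) := h.trans (conj_gH k hX)
    have h5 : bd (gw (-k) L) = gH ^ k * bd (blk L) := by
      rw [gw, bd_append, bd_tw, neg_neg]
    by_cases htriv : -k = 0 ∧ sp L = 1 ∧ sq L = 1
    · obtain ⟨e0, e1, e2⟩ := htriv
      left
      right
      right
      have hk0 : k = 0 := by omega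
      rw [hk0, zpow_zero, one_mul, one_block hL e1 e2, bd_blk_cons, bd_blk_nil] at h4
      refine h4.trans (isConj_iff.mpr ⟨sg 0, ?_⟩)
      simp only [pow_one, mul_one]
      group
    · right
      right
      refine ⟨-k, L, hL, ?_, htriv, ?_⟩
      · have h6 := (isThree_of_conj h4 hw3).sign
        rw [map_mul, hgHk, one_mul, sign_lf_blk] at h6
        by_contra hodd
        rw [Nat.not_even_iff_odd] at hodd
        rw [hodd.neg_one_pow] at h6
        exact absurd h6 (by decide)
      · rw [h5]
        exact h4.symm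

end Pool.Agent.KT
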