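import Pool.Agent.Work.MP_ab49bb_gt.TorA
import Pool.Agent.Work.MP_ab49bb_gt.As1

/-!
# TorN (M): the torus words `(σ_1 σ_2)^(-m)`, `m ≥ 2`

`Z_k = tz u a k (-m)`, `t = 3a - 2k`, `Z_k³ = v^(-m(t(t+2) - 3a(a+2)))`. So `|tr Z_k|³ ≤ (dd+1)³ v^(3ma(a+2) - m t(t+2))` (`z3_le`).
Let `t0 = 0` (`a` even, `k0 = 3a/2`, `m0 = m1 = a/2`, one channel) or `t0 = 1` (`a` odd, `k0 = (3a-1)/2`, `m0 = (a-1)/2`, `m1 = (a+1)/2`, two channels).
`G = ma(a+2)` for `a` even, `G = ma(a+2) - m` for `a` odd: `c_k := v^(3ma(a+2) - m t0(t0+2))` is `(v^G)^3`. `a` even: `|tr Z|³ = (v^G)³` (`z3_one`); `a` odd: `(v^G)³ ≤ |tr Z|³ ≤ 8 (v^G)³` (`z3_two`, `z3_le`), so `v^G ≤ |tr Z_(k0)| ≤ 2 v^G`. The term of `k0` is `[t0+1] tr Z`, so its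
absolute value divided by `v^(G + 2 t0)` lies in `[1/2, 3]` for large `v` (`[1] = 1`, `[2] = v² + v^(-2)`).
The other terms, `t ≥ t0 + 2`: `|[t+1] tr Z_k|³ ≤ const v^(6t + 3ma(a+2) - m t(t+2))`, and `6t - m t(t+2) < 6 t0 - m t0(t0+2)` for `m ≥ 2`: `t0 = 0`: `6 < m(t+2)` (`t ≥ 2`); `t0 = 1`: `6(t-1) < m(t-1)(t+3)` (`t ≥ 3`). So `|term| v^(-(G + 2t0)) → 0` (its cube tends to `0`).
Hence `RDeg (tor (-m)) a D` with `D = 2ma(a+2) + G + 2 t0`: `3ma(a+2)` for `a` even, `3ma(a+2) - m + 2` for `a` odd.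
`DegNeg` with period `2`: `n = a+1`: `n` odd: `3m(n²-1)`; `n` even: `3m(n²-1) - m + 2`; `b = 0` in both classes.
(Set `dd a k0 + 1` to the literal `1` or `2`: use `Matrix.reindex`/`finCongr` or state `z3_one`, `z3_two` for `Fin n` with `n = 1`, `n = 2` by `subst`/`cast`; e.g. first prove `∀ n (h : n = 2) (Z : Matrix (Fin n) (Fin n) ℝ) ..` by `subst h`.)
-/

set_option autoImplicit false

namespace Pool.Agent.KT

private theorem tn_two {n : ℕ} (hn : n = 2) (Z : Matrix (Fin n) (Fin n) ℝ) {c : ℝ} (hc : 0 < c)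
    (h : Z ^ 3 = c • (1 : Matrix (Fin n) (Fin n) ℝ)) : c ≤ |Z.trace| ^ 3 := by
  subst hn
  exact z3_two Z hc h

private theorem tn_one {n : ℕ} (hn : n = 1) (Z : Matrix (Fin n) (Fin n) ℝ) {c : ℝ}
    (h : Z ^ 3 = c • (1 : Matrix (Fin n) (Fin n) ℝ)) : c ≤ |Z.trace| ^ 3 := by
  subst hn
  rw [← abs_pow, z3_one Z h]
  exact le_abs_self c

private theorem tn_cube {x y : ℝ} (hy : 0 ≤ y) (h : x ^ 3 ≤ y ^ 3) : x ≤ y :=
  le_of_pow_le_pow_left₀ (by norm_num) hy h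

private theorem tn_c {v : ℝ} (hv : 1 < v) (a k : ℕ) (m : ℤ) :
    eta (ru v) a k ^ (-m) = v ^ (3 * m * ((a : ℤ) * (a + 2)) -
      m * ((3 * (a : ℤ) - 2 * k) * (3 * a - 2 * k + 2))) := by
  rw [eta, pw_ru hv, ← zpow_mul]
  congr 1
  ring

private theorem tn_tr {v : ℝ} (hv : 1 < v) {a k : ℕ} (h : 2 * k ≤ 3 * a) (m : ℤ) :
    |(tz (ru v) a k (-m)).trace| ^ 3 ≤ ((dd a k + 1 : ℕ) : ℝ) ^ 3 *
      v ^ (3 * m * ((a : ℤ) * (a + 2)) - m * ((3 * (a : ℤ) - 2 * k) * (3 * a - 2 * k + 2))) := by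
  have h1 := tz_cube (ru_gt hv) h (-m)
  rw [tn_c hv] at h1
  exact z3_le _ (zpow_pos (by linarith) _) h1

private theorem tn_qn {t : ℤ} (ht : 0 ≤ t) : ∀ᶠ v : ℝ in Filter.atTop,
    1 / 2 * v ^ (2 * t) ≤ qn (ru v) (t + 1) ∧ qn (ru v) (t + 1) ≤ 2 * v ^ (2 * t) := by
  have h1 : Asy (fun v => qn (ru v) (t + 1)) (2 * (t + 1) - 2) := Asy_qn (by omega)
  unfold Asy at h1
  have h2 := h1.eventually (Ioo_mem_nhds (a := (1 / 2 : ℝ)) (b := 2) (by norm_num) (by norm_num))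
  filter_upwards [h2, Filter.eventually_gt_atTop (1 : ℝ)] with v h3 hv
  have hv0 : 0 < v := by linarith
  have e : -(2 * (t + 1) - 2) = -(2 * t) := by ring
  rw [e] at h3
  have hp : 0 < v ^ (2 * t) := zpow_pos hv0 _
  have e2 : qn (ru v) (t + 1) = (qn (ru v) (t + 1) * v ^ (-(2 * t))) * v ^ (2 * t) := by
    rw [mul_assoc, ← zpow_add₀ hv0.ne', neg_add_cancel, zpow_zero, mul_one]
  rw [e2]
  exact ⟨mul_le_mul_of_nonneg_right h3.1.le hp.le, mul_le_mul_of_nonneg_right h3.2.le hp.le⟩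

/-- the small terms -/
private theorem tn_small {m : ℤ} (hm : 2 ≤ m) {a k : ℕ} {t0 : ℤ} (h0 : t0 = 0 ∨ t0 = 1)
    (hk : t0 + 2 ≤ 3 * (a : ℤ) - 2 * k) {ε : ℝ} (hε : 0 < ε) : ∀ᶠ v : ℝ in Filter.atTop,
    |qn (ru v) (3 * (a : ℤ) - 2 * k + 1) * (tz (ru v) a k (-m)).trace| ≤
      ε * v ^ (m * ((a : ℤ) * (a + 2)) - m * t0 + 2 * t0) := by
  set t : ℤ := 3 * (a : ℤ) - 2 * k with ht
  have ht0 : 0 ≤ t := by rcases h0 with h | h <;> omega
  have hka : 2 * k ≤ 3 * a := by omega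
  set κ : ℝ := 2 ^ 3 * ((dd a k + 1 : ℕ) : ℝ) ^ 3 / ε ^ 3 with hκ
  filter_upwards [tn_qn ht0, Filter.eventually_gt_atTop (1 : ℝ), Filter.eventually_ge_atTop κ]
    with v hq hv hvκ
  have hv0 : 0 < v := by linarith
  have hp : ∀ e : ℤ, 0 < v ^ e := fun e => zpow_pos hv0 e
  have h1 := tn_tr hv hka m
  rw [← ht] at h1
  refine tn_cube (mul_nonneg hε.le (hp _).le) ?_
  have hqn : |qn (ru v) (t + 1)| ≤ 2 * v ^ (2 * t) := by
    rw [abs_of_nonneg ((mul_nonneg (by norm_num) (hp _).le).trans hq.1)]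
    exact hq.2
  have h2 : |qn (ru v) (t + 1)| ^ 3 ≤ 2 ^ 3 * v ^ (6 * t) := by
    refine (pow_le_pow_left₀ (abs_nonneg _) hqn 3).trans_eq ?_
    rw [mul_pow, ← zpow_natCast (v ^ (2 * t)) 3, ← zpow_mul]
    congr 2
    push_cast
    ring
  have hlin : 6 * t + (3 * m * ((a : ℤ) * (a + 2)) - m * (t * (t + 2))) + 1 ≤
      3 * (m * ((a : ℤ) * (a + 2)) - m * t0 + 2 * t0) := by
    rcases h0 with h | h
    · subst h
      have h3 : 0 ≤ (m - 2) * (t * (t + 2)) := mul_nonneg (by omega) (by positivity)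
      nlinarith
    · subst h
      have h3 : 0 ≤ (m - 2) * ((t - 1) * (t + 3)) :=
        mul_nonneg (by omega) (mul_nonneg (by omega) (by omega))
      have h4 : 0 ≤ (t - 3) * (t - 1) := mul_nonneg (by omega) (by omega)
      nlinarith
  have h5 : v ^ (6 * t + (3 * m * ((a : ℤ) * (a + 2)) - m * (t * (t + 2)))) * v ≤
      (v ^ (m * ((a : ℤ) * (a + 2)) - m * t0 + 2 * t0)) ^ 3 := by
    rw [← zpow_add_one₀ hv0.ne', ← zpow_natCast (v ^ (_ : ℤ)) 3, ← zpow_mul]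
    refine zpow_le_zpow_right₀ hv.le ?_
    push_cast
    linarith
  rw [abs_mul, mul_pow, mul_pow]
  have h6 : 2 ^ 3 * ((dd a k + 1 : ℕ) : ℝ) ^ 3 ≤ ε ^ 3 * v := by
    rw [hκ, div_le_iff₀ (by positivity)] at hvκ
    linarith
  calc |qn (ru v) (t + 1)| ^ 3 * |(tz (ru v) a k (-m)).trace| ^ 3
      ≤ (2 ^ 3 * v ^ (6 * t)) * (((dd a k + 1 : ℕ) : ℝ) ^ 3 *
          v ^ (3 * m * ((a : ℤ) * (a + 2)) - m * (t * (t + 2)))) :=
        mul_le_mul h2 h1 (pow_nonneg (abs_nonneg _) _) (mul_nonneg (by norm_num) (hp _).le)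
    _ = (2 ^ 3 * ((dd a k + 1 : ℕ) : ℝ) ^ 3) *
          v ^ (6 * t + (3 * m * ((a : ℤ) * (a + 2)) - m * (t * (t + 2)))) := by
        rw [zpow_add₀ hv0.ne']
        ring
    _ ≤ (ε ^ 3 * v) * v ^ (6 * t + (3 * m * ((a : ℤ) * (a + 2)) - m * (t * (t + 2)))) :=
        mul_le_mul_of_nonneg_right h6 (hp _).le
    _ = ε ^ 3 * (v ^ (6 * t + (3 * m * ((a : ℤ) * (a + 2)) - m * (t * (t + 2)))) * v) := by ring
    _ ≤ ε ^ 3 * (v ^ (m * ((a : ℤ) * (a + 2)) - m * t0 + 2 * t0)) ^ 3 :=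
        mul_le_mul_of_nonneg_left h5 (by positivity)

/-- the main term -/
private theorem tn_main (m : ℤ) {a k : ℕ} {t0 : ℤ} (h0 : t0 = 0 ∨ t0 = 1)
    (hk : 3 * (a : ℤ) - 2 * k = t0) : ∀ᶠ v : ℝ in Filter.atTop,
    1 / 2 * v ^ (m * ((a : ℤ) * (a + 2)) - m * t0 + 2 * t0) ≤
      |qn (ru v) (3 * (a : ℤ) - 2 * k + 1) * (tz (ru v) a k (-m)).trace| ∧
    |qn (ru v) (3 * (a : ℤ) - 2 * k + 1) * (tz (ru v) a k (-m)).trace| ≤
      4 * v ^ (m * ((a : ℤ) * (a + 2)) - m * t0 + 2 * t0) := by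
  have ht0 : 0 ≤ t0 := by rcases h0 with h | h <;> omega
  have hka : 2 * k ≤ 3 * a := by omega
  have hd : dd a k + 1 = 1 ∨ dd a k + 1 = 2 := by
    unfold dd m0 m1
    rcases h0 with h | h <;> omega
  filter_upwards [tn_qn ht0, Filter.eventually_gt_atTop (1 : ℝ)] with v hq hv
  have hv0 : 0 < v := by linarith
  have hp : ∀ e : ℤ, 0 < v ^ e := fun e => zpow_pos hv0 e
  rw [hk]
  set G : ℤ := m * ((a : ℤ) * (a + 2)) - m * t0 with hG
  have hc3 : 3 * m * ((a : ℤ) * (a + 2)) - m * (t0 * (t0 + 2)) = G * 3 := by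
    rcases h0 with h | h <;> rw [hG, h] <;> ring
  have h1 := tz_cube (ru_gt hv) hka (-m)
  rw [tn_c hv, hk, hc3, zpow_mul] at h1
  have e3 : (v ^ G) ^ (3 : ℤ) = (v ^ G) ^ 3 := by norm_cast
  rw [e3] at h1
  have hcp : 0 < (v ^ G) ^ 3 := pow_pos (hp _) _
  have hlo : v ^ G ≤ |(tz (ru v) a k (-m)).trace| := by
    refine tn_cube (abs_nonneg _) ?_
    rcases hd with h | h
    · exact tn_one h _ h1
    · exact tn_two h _ hcp h1
  have hhi : |(tz (ru v) a k (-m)).trace| ≤ 2 * v ^ G := by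
    refine tn_cube (mul_nonneg (by norm_num) (hp _).le) ?_
    refine (z3_le _ hcp h1).trans ?_
    rw [mul_pow]
    refine mul_le_mul_of_nonneg_right ?_ hcp.le
    refine pow_le_pow_left₀ (Nat.cast_nonneg _) ?_ 3
    rcases hd with h | h <;> rw [h] <;> norm_num
  have hq0 : 0 ≤ qn (ru v) (t0 + 1) := (mul_nonneg (by norm_num) (hp _).le).trans hq.1
  rw [abs_mul, abs_of_nonneg hq0, zpow_add₀ hv0.ne']
  constructor
  · calc 1 / 2 * (v ^ G * v ^ (2 * t0)) = (1 / 2 * v ^ (2 * t0)) * v ^ G := by ring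
      _ ≤ _ := mul_le_mul hq.1 hlo (hp _).le hq0
  · calc _ ≤ (2 * v ^ (2 * t0)) * (2 * v ^ G) :=
          mul_le_mul hq.2 hhi (abs_nonneg _) (mul_nonneg (by norm_num) (hp _).le)
      _ = 4 * (v ^ G * v ^ (2 * t0)) := by ring

private theorem tn_deg {m : ℤ} (hm : 2 ≤ m) (a : ℕ) {t0 : ℤ} (h0 : t0 = 0 ∨ t0 = 1)
    (ha : 3 * (a : ℤ) - 2 * (3 * a / 2 : ℕ) = t0) :
    RDeg (tor (-m)) a (2 * m * ((a : ℤ) * (a + 2)) +
      (m * ((a : ℤ) * (a + 2)) - m * t0 + 2 * t0)) := by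
  set K : ℕ := 3 * a / 2 with hK
  set G' : ℤ := m * ((a : ℤ) * (a + 2)) - m * t0 + 2 * t0 with hG'
  refine ⟨1 / 4, 17 / 4, by norm_num, ?_⟩
  have hε : (0 : ℝ) < 1 / (4 * (K + 1)) := by positivity
  have hs : ∀ᶠ v : ℝ in Filter.atTop, ∀ k ∈ Finset.range K,
      |qn (ru v) (3 * (a : ℤ) - 2 * k + 1) * (tz (ru v) a k (-m)).trace| ≤
        1 / (4 * (K + 1)) * v ^ G' := by
    rw [Filter.eventually_all_finset]
    intro k hk
    rw [Finset.mem_range] at hk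
    exact tn_small hm h0 (by omega) hε
  filter_upwards [hs, tn_main m h0 ha, Filter.eventually_gt_atTop (1 : ℝ)] with v hs hmn hv
  have hv0 : 0 < v := by linarith
  have hp : ∀ e : ℤ, 0 < v ^ e := fun e => zpow_pos hv0 e
  rw [tor_jt (ru_gt hv), ← hK, Finset.sum_range_succ, pw_ru hv, abs_mul, abs_of_pos (hp _)]
  have e1 : -(2 * -m * ((a : ℤ) * (a + 2))) = 2 * m * ((a : ℤ) * (a + 2)) := by ring
  rw [e1, zpow_add₀ hv0.ne']
  set R := ∑ k ∈ Finset.range K, qn (ru v) (3 * (a : ℤ) - 2 * k + 1) *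
    (tz (ru v) a k (-m)).trace with hR
  set X := qn (ru v) (3 * (a : ℤ) - 2 * K + 1) * (tz (ru v) a K (-m)).trace with hX
  have hRb : |R| ≤ 1 / 4 * v ^ G' := by
    calc |R| ≤ ∑ k ∈ Finset.range K, |qn (ru v) (3 * (a : ℤ) - 2 * k + 1) *
          (tz (ru v) a k (-m)).trace| := Finset.abs_sum_le_sum_abs _ _
      _ ≤ ∑ _k ∈ Finset.range K, 1 / (4 * ((K : ℝ) + 1)) * v ^ G' := Finset.sum_le_sum hs
      _ = K * (1 / (4 * ((K : ℝ) + 1)) * v ^ G') := by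
          rw [Finset.sum_const, Finset.card_range, nsmul_eq_mul]
      _ = (K / (4 * ((K : ℝ) + 1))) * v ^ G' := by ring
      _ ≤ 1 / 4 * v ^ G' := by
          refine mul_le_mul_of_nonneg_right ?_ (hp _).le
          rw [div_le_div_iff₀ (by positivity) (by norm_num)]
          linarith
  have h2 : |X| - |R| ≤ |R + X| := by
    have := abs_sub_abs_le_abs_sub X (-R)
    rw [abs_neg, sub_neg_eq_add, add_comm X R] at this
    exact this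
  have h3 : |R + X| ≤ |R| + |X| := abs_add_le R X
  constructor
  · calc 1 / 4 * (v ^ (2 * m * ((a : ℤ) * (a + 2))) * v ^ G')
        = v ^ (2 * m * ((a : ℤ) * (a + 2))) * (1 / 4 * v ^ G') := by ring
      _ ≤ _ := mul_le_mul_of_nonneg_left (by linarith [hmn.1]) (hp _).le
  · calc _ ≤ v ^ (2 * m * ((a : ℤ) * (a + 2))) * (17 / 4 * v ^ G') :=
          mul_le_mul_of_nonneg_left (by linarith [hmn.2]) (hp _).le
      _ = _ := by ring

theorem case_tor_neg {m : ℤ} (hm : 2 ≤ m) : DegNeg (tor (-m)) := by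
  refine ⟨2, fun _ => 3 * m, fun _ => 0, fun j => if j = 0 then -4 * m + 2 else -3 * m,
    ⟨by norm_num, 1, fun n hn => ?_⟩, fun j _ => le_rfl⟩
  obtain ⟨a, rfl⟩ : ∃ a, n = a + 1 := ⟨n - 1, by omega⟩
  rw [Nat.add_sub_cancel]
  rcases Nat.even_or_odd' a with ⟨b, hb | hb⟩
  · refine ⟨_, tn_deg hm a (t0 := 0) (Or.inl rfl) (by omega), ?_⟩
    have h1 : (a + 1) % 2 ≠ 0 := by omega
    beta_reduce
    rw [if_neg h1]
    push_cast
    ring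
  · refine ⟨_, tn_deg hm a (t0 := 1) (Or.inr rfl) (by omega), ?_⟩
    have h1 : (a + 1) % 2 = 0 := by omega
    beta_reduce
    rw [if_pos h1]
    push_cast
    ring

end Pool.Agent.KT
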