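import Pool.Agent.Work.MP_ab49bb_gt.TorA
import Pool.Agent.Work.MP_ab49bb_gt.As1

/-!
# TorP (S-M): the torus words `(σ_1 σ_2)^m`, `m ≥ 2`

`eta u a k = v^(t(t+2) - 3a(a+2))`, `t = 3a - 2k`. Let `m ≥ 1`, `D = (6-4m) a`. `k = 0`: `t = 3a`, `eta = v^(6a²)`, one channel (`dd a 0 = 0`), so `(tr tz)^3 = v^(6 m a²)` (`z3_one`; real numbers: cube root is unique), `tr tz = v^(2 m a²)`. The term is `[3a+1] v^(2ma²)`, `Asy (6a + 2ma²)`.
`k ≥ 1`: `|tr tz|³ ≤ (dd+1)³ v^(m(t(t+2) - 3a(a+2))) ≤ (dd+1)³ v^(6ma²)` (`z3_le`, `t ≤ 3a`), so `|tr tz| ≤ (dd+1) v^(2ma²)`, and `[t+1]` is `Asy (2t)` with `2t ≤ 6a - 4`. So `jt v^(-D) → 1` with `D = -2ma(a+2) + 6a + 2ma² = (6 - 4m) a`.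
`DegNeg` with period `1`: `D = 2(3-2m)(n-1)`, `b = 3 - 2m ≤ -1` for `m ≥ 2`.
-/

set_option autoImplicit false

namespace Pool.Agent.KT

open Filter

private theorem eta_ru {v : ℝ} (hv : 1 < v) (a k : ℕ) (m : ℤ) :
    eta (ru v) a k ^ m =
      v ^ (((3 * (a : ℤ) - 2 * k) * (3 * a - 2 * k + 2) - 3 * a * (a + 2)) * m) := by
  rw [eta, pw_ru hv, zpow_mul]

private theorem dd_zero (a : ℕ) : dd a 0 = 0 := by
  simp [dd, m1, m0]

private theorem trace_one {n : ℕ} (hn : n = 0) (Z : Matrix (Fin (n + 1)) (Fin (n + 1)) ℝ) {c : ℝ}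
    (h : Z ^ 3 = c • (1 : Matrix (Fin (n + 1)) (Fin (n + 1)) ℝ)) : Z.trace ^ 3 = c := by
  subst hn
  exact z3_one Z h

private theorem cube_inj {x y : ℝ} (h : x ^ 3 = y ^ 3) : x = y :=
  (Odd.strictMono_pow (R := ℝ) (n := 3) (by decide)).injective h

private theorem cube_le {x y : ℝ} (h : x ^ 3 ≤ y ^ 3) : x ≤ y :=
  (Odd.strictMono_pow (R := ℝ) (n := 3) (by decide)).le_iff_le.1 h

private theorem tr_zero {v : ℝ} (hv : 1 < v) (a : ℕ) (m : ℤ) :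
    (tz (ru v) a 0 m).trace = v ^ (2 * m * (a : ℤ) ^ 2) := by
  have h0 : (0 : ℝ) < v := by linarith
  apply cube_inj
  rw [trace_one (dd_zero a) _ (tz_cube (ru_gt hv) (by omega) m), eta_ru hv, ← zpow_natCast,
    ← zpow_mul]
  congr 1
  push_cast
  ring

private theorem tr_le {v : ℝ} (hv : 1 < v) {a k : ℕ} (hk : 2 * k ≤ 3 * a) {m : ℤ} (hm : 0 ≤ m) :
    |(tz (ru v) a k m).trace| ≤ (dd a k + 1 : ℕ) * v ^ (2 * m * (a : ℤ) ^ 2) := by
  have h0 : (0 : ℝ) < v := by linarith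
  apply cube_le
  have h1 := tz_cube (ru_gt hv) hk m
  have hpos : 0 < eta (ru v) a k ^ m := by
    rw [eta_ru hv]
    exact zpow_pos h0 _
  refine (z3_le _ hpos h1).trans ?_
  rw [mul_pow]
  refine mul_le_mul_of_nonneg_left ?_ (by positivity)
  rw [eta_ru hv, ← zpow_natCast (v ^ _), ← zpow_mul]
  refine zpow_le_zpow_right₀ hv.le ?_
  have h2 : (0 : ℤ) ≤ 3 * (a : ℤ) - 2 * k := by
    have : (2 * k : ℤ) ≤ 3 * a := by exact_mod_cast hk
    linarith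
  have h3 : (0 : ℤ) ≤ k := Int.natCast_nonneg k
  have h4 : (3 * (a : ℤ) - 2 * k) * (3 * a - 2 * k + 2) ≤ 3 * (a : ℤ) * (3 * a + 2) := by
    have h5 : 3 * (a : ℤ) - 2 * k ≤ 3 * a := by linarith
    exact mul_le_mul h5 (by linarith) (by linarith) (by linarith)
  have h6 : ((3 * (a : ℤ) - 2 * k) * (3 * a - 2 * k + 2) - 3 * a * (a + 2)) ≤
      6 * (a : ℤ) ^ 2 := by linarith [h4]
  calc ((3 * (a : ℤ) - 2 * k) * (3 * a - 2 * k + 2) - 3 * a * (a + 2)) * m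
      ≤ 6 * (a : ℤ) ^ 2 * m := mul_le_mul_of_nonneg_right h6 hm
    _ = 2 * m * (a : ℤ) ^ 2 * ((3 : ℕ) : ℤ) := by push_cast; ring

/-- the normalised terms -/
private noncomputable def gt (a : ℕ) (m : ℤ) (k : ℕ) (v : ℝ) : ℝ :=
  qn (ru v) (3 * (a : ℤ) - 2 * k + 1) * (tz (ru v) a k m).trace *
    v ^ (-(6 * (a : ℤ) + 2 * m * (a : ℤ) ^ 2))

private theorem gt_zero (a : ℕ) (m : ℤ) : Tendsto (gt a m 0) atTop (nhds 1) := by
  have h1 : Asy (fun v => qn (ru v) (3 * (a : ℤ) - 2 * ((0 : ℕ) : ℤ) + 1))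
      (2 * (3 * (a : ℤ) - 2 * ((0 : ℕ) : ℤ) + 1) - 2) := Asy_qn (by
        have := Int.natCast_nonneg a
        push_cast
        linarith)
  refine Tendsto.congr' ?_ h1
  filter_upwards [eventually_gt_atTop 1] with v hv
  have h0 : v ≠ 0 := by linarith
  rw [gt, tr_zero hv, mul_assoc, ← zpow_add₀ h0]
  congr 2
  push_cast
  ring

private theorem gt_pos {a k : ℕ} (hk : 2 * k ≤ 3 * a) (hk1 : 1 ≤ k) {m : ℤ} (hm : 0 ≤ m) :
    Tendsto (gt a m k) atTop (nhds 0) := by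
  have ht : (2 * k : ℤ) ≤ 3 * a := by exact_mod_cast hk
  have hk1' : (1 : ℤ) ≤ k := by exact_mod_cast hk1
  have h1 : Asy (fun v => qn (ru v) (3 * (a : ℤ) - 2 * k + 1))
      (2 * (3 * (a : ℤ) - 2 * k + 1) - 2) := Asy_qn (by linarith)
  have h2 : Tendsto (fun v : ℝ => v ^ (-(4 * (k : ℤ)))) atTop (nhds 0) := by
    exact tendsto_zpow_atTop_zero (by linarith)
  have h3 : Tendsto (fun v : ℝ => ((dd a k + 1 : ℕ) : ℝ) *
      |(qn (ru v) (3 * (a : ℤ) - 2 * k + 1) * v ^ (-(2 * (3 * (a : ℤ) - 2 * k + 1) - 2))) *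
        v ^ (-(4 * (k : ℤ)))|) atTop (nhds (((dd a k + 1 : ℕ) : ℝ) * |(1 : ℝ) * 0|)) :=
    ((Tendsto.mul h1 h2).abs).const_mul _
  rw [mul_zero, abs_zero, mul_zero] at h3
  refine squeeze_zero_norm' ?_ h3
  filter_upwards [eventually_gt_atTop 1] with v hv
  have h0 : (0 : ℝ) < v := by linarith
  have h5 := tr_le hv hk hm
  rw [Real.norm_eq_abs, gt, abs_mul, abs_mul, abs_mul, abs_mul]
  have e1 : |v ^ (-(6 * (a : ℤ) + 2 * m * (a : ℤ) ^ 2))| =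
      v ^ (-(2 * m * (a : ℤ) ^ 2)) * (|v ^ (-(2 * (3 * (a : ℤ) - 2 * k + 1) - 2))| *
        |v ^ (-(4 * (k : ℤ)))|) := by
    rw [abs_of_pos (zpow_pos h0 _), abs_of_pos (zpow_pos h0 _), abs_of_pos (zpow_pos h0 _),
      ← zpow_add₀ h0.ne', ← zpow_add₀ h0.ne']
    congr 1
    ring
  rw [e1]
  have h6 : |(tz (ru v) a k m).trace| * v ^ (-(2 * m * (a : ℤ) ^ 2)) ≤ ((dd a k + 1 : ℕ) : ℝ) := by
    calc |(tz (ru v) a k m).trace| * v ^ (-(2 * m * (a : ℤ) ^ 2))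
        ≤ (((dd a k + 1 : ℕ) : ℝ) * v ^ (2 * m * (a : ℤ) ^ 2)) * v ^ (-(2 * m * (a : ℤ) ^ 2)) :=
          mul_le_mul_of_nonneg_right h5 (zpow_pos h0 _).le
      _ = ((dd a k + 1 : ℕ) : ℝ) := by
          rw [mul_assoc, ← zpow_add₀ h0.ne', add_neg_cancel, zpow_zero, mul_one]
  have h7 : 0 ≤ |qn (ru v) (3 * (a : ℤ) - 2 * k + 1)| *
      (|v ^ (-(2 * (3 * (a : ℤ) - 2 * k + 1) - 2))| * |v ^ (-(4 * (k : ℤ)))|) := by positivity
  have h8 := mul_le_mul_of_nonneg_right h6 h7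
  calc _ = |(tz (ru v) a k m).trace| * v ^ (-(2 * m * (a : ℤ) ^ 2)) *
      (|qn (ru v) (3 * (a : ℤ) - 2 * k + 1)| *
      (|v ^ (-(2 * (3 * (a : ℤ) - 2 * k + 1) - 2))| * |v ^ (-(4 * (k : ℤ)))|)) := by ring
    _ ≤ _ := h8
    _ = _ := by ring

private theorem asy_tor {m : ℤ} (hm : 0 ≤ m) (a : ℕ) :
    Asy (fun v => jt (ru v) a (tor m)) ((6 - 4 * m) * a) := by
  have h1 : Tendsto (fun v => ∑ k ∈ Finset.range (3 * a / 2 + 1), gt a m k v) atTop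
      (nhds (∑ k ∈ Finset.range (3 * a / 2 + 1), if k = 0 then (1 : ℝ) else 0)) := by
    refine tendsto_finsetSum _ fun k hk => ?_
    have hk' := Finset.mem_range.1 hk
    by_cases h0 : k = 0
    · subst h0
      rw [if_pos rfl]
      exact gt_zero a m
    · rw [if_neg h0]
      exact gt_pos (by omega) (by omega) hm
  rw [Finset.sum_ite_eq' (Finset.range (3 * a / 2 + 1)) 0 (fun _ => (1 : ℝ)),
    if_pos (Finset.mem_range.2 (Nat.succ_pos _))] at h1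
  refine Tendsto.congr' ?_ h1
  filter_upwards [eventually_gt_atTop 1] with v hv
  have h0 : v ≠ 0 := by linarith
  rw [tor_jt (ru_gt hv) a m, pw_ru hv, mul_comm (v ^ _), mul_assoc, ← zpow_add₀ h0,
    Finset.sum_mul]
  refine Finset.sum_congr rfl fun k _ => ?_
  rw [gt]
  congr 2
  ring

theorem case_tor_pos {m : ℤ} (hm : 2 ≤ m) : DegNeg (tor m) := by
  refine ⟨1, fun _ => 0, fun _ => 3 - 2 * (m : ℚ), fun _ => 4 * (m : ℚ) - 6, ⟨one_pos, 1,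
    fun n hn => ⟨(6 - 4 * m) * ((n - 1 : ℕ) : ℤ), ?_, ?_⟩⟩, ?_⟩
  · have h1 := asy_tor (by linarith : (0 : ℤ) ≤ m) (n - 1)
    refine ⟨1 / 2, 2, by norm_num, ?_⟩
    have h2 := h1.eventually (Ioo_mem_nhds (show (1 / 2 : ℝ) < 1 by norm_num)
      (show (1 : ℝ) < 2 by norm_num))
    filter_upwards [h2, eventually_gt_atTop 1] with v hv hv1
    have h0 : (0 : ℝ) < v := by linarith
    set D : ℤ := (6 - 4 * m) * ((n - 1 : ℕ) : ℤ) with hD
    set J : ℝ := jt (ru v) (n - 1) (tor m) with hJ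
    have h3 : 0 < v ^ D := zpow_pos h0 _
    have h4 : J * v ^ (-D) * v ^ D = J := by
      rw [mul_assoc, ← zpow_add₀ h0.ne', neg_add_cancel, zpow_zero, mul_one]
    have hv' : 1 / 2 < J * v ^ (-D) ∧ J * v ^ (-D) < 2 := hv
    have h5 : 1 / 2 * v ^ D ≤ J := by
      have := mul_le_mul_of_nonneg_right hv'.1.le h3.le
      rwa [h4] at this
    have h6 : J ≤ 2 * v ^ D := by
      have := mul_le_mul_of_nonneg_right hv'.2.le h3.le
      rwa [h4] at this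
    have h7 : 0 ≤ J := le_trans (by positivity) h5
    rw [abs_of_nonneg h7]
    exact ⟨h5, h6⟩
  · have h1 : ((n - 1 : ℕ) : ℤ) = (n : ℤ) - 1 := by
      rw [Nat.cast_sub hn]
      norm_num
    rw [h1]
    push_cast
    ring
  · intro j _
    have : (2 : ℚ) ≤ m := by exact_mod_cast hm
    linarith

end Pool.Agent.KT
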