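import Pool.Agent.Work.MP_ab49bb_gt.Uq
import Pool.Agent.Work.MP_ab49bb_gt.Nf2
import Pool.Agent.Work.MP_ab49bb_gt.CaI
import Pool.Agent.Work.MP_ab49bb_gt.CaII
import Pool.Agent.Work.MP_ab49bb_gt.CaIII
import Pool.Agent.Work.MP_ab49bb_gt.CaIV
import Pool.Agent.Work.MP_ab49bb_gt.Ca0
import Pool.Agent.Work.MP_ab49bb_gt.TorP
import Pool.Agent.Work.MP_ab49bb_gt.TorN

/-!
# Fin: assembly
-/

set_option autoImplicit false

namespace Pool.Agent.KT

theorem main {w : List Letter} (hw : IsKnot w) : IsTriv w ∨
    ((∃ p a b c, DegQ w p a b c) ∧ ∀ p a b c, DegQ w p a b c → ∀ j < p, b j ≤ 0) := by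
  rcases normal_form hw with h | ⟨m, hm, hc⟩ | ⟨d, L, hL, he, hn, hc⟩
  · exact Or.inl h
  · right
    have hD : DegNeg w := by
      apply degneg_conj hc
      rcases hm with hm | hm
      · exact case_tor_pos hm
      · have := case_tor_neg (m := -m) (by omega)
        simpa using this
    exact ⟨degneg_ex hD, fun p a b c h => degneg_all hD h⟩
  · right
    have hD : DegNeg w := by
      apply degneg_conj hc
      rcases lt_or_ge d 0 with h0 | h0
      · obtain ⟨e, rfl⟩ : ∃ e : ℕ, d = -(e : ℤ) := ⟨d.natAbs, by omega⟩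
        rcases Nat.lt_or_ge (3 * e) (sp L) with h1 | h1
        · exact case_three hL (by omega) h1
        · exact case_four hL (by omega) h1
      · rcases le_or_gt d (sq L) with h1 | h1
        · by_cases h2 : d = 0 ∧ sp L = 1
          · obtain ⟨rfl, h3⟩ := h2
            have h4 : sq L ≠ 1 := fun h => hn ⟨rfl, h3, h⟩
            have h5 : 0 < sq L := by
              obtain ⟨x, l, rfl⟩ := List.exists_cons_of_ne_nil hL.ne
              have := (hL.pos x (by simp)).2
              simp only [sq, List.map_cons, List.sum_cons]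
              omega
            exact case_zero hL h3 (by omega)
          · exact case_one hL h0 h1 h2
        · exact case_two hL h1 he
    exact ⟨degneg_ex hD, fun p a b c h => degneg_all hD h⟩

end Pool.Agent.KT
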