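import Pool.Agent.Work.MP_ab49bb_gt.Qn

/-!
# Ga (S-M): the contravariant form

Proofs. `ip_E`: `ip (E x) y = ∑_i nm i (∑_j E i j x j) y i`, `nm i * E i j = nm j * F j i * v^(2 wt i)` (`adj`); if `y i ≠ 0` then `wt i = t`.
`comm_wt`: `(E F - F E) *ᵥ x` has the entries `[wt i] x i`. `F_inj` (`0 < t`): `E F x = 0`, so `-F E x = [t] x`; take the form with `x`:
`-ip (F E x) x = [t] ip x x` and `ip (E x) (E x) = v^(2(t+2)) ip x (F E x)` (`ip_E` with `y := E x`, of weight `t+2`), so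
`-(positive) * ip (E x) (E x) = [t] ip x x`, hence `ip x x ≤ 0`, `x = 0`. `hw_nonneg`: `E F x = [t] x`, `ip (E (F x)) x = v^(2t) ip (F x) (F x)`
(`ip_E` with `x := F x`, `y := x`), so `[t] ip x x ≥ 0`; if `t < 0` then `[t] < 0` and `x = 0`.
-/

set_option autoImplicit false

open Matrix

namespace Pool.Agent.KT

namespace QM

variable {u : ℝˣ} {ι : Type} [Fintype ι] [DecidableEq ι] (M : QM u ι)

theorem ip_comm (x y : ι → ℝ) : M.ip x y = M.ip y x :=
  Finset.sum_congr rfl fun i _ => by ring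

theorem ip_add_left (x y z : ι → ℝ) : M.ip (x + y) z = M.ip x z + M.ip y z := by
  rw [ip, ip, ip, ← Finset.sum_add_distrib]
  exact Finset.sum_congr rfl fun i _ => by rw [Pi.add_apply]; ring

theorem ip_add_right (x y z : ι → ℝ) : M.ip x (y + z) = M.ip x y + M.ip x z := by
  rw [ip, ip, ip, ← Finset.sum_add_distrib]
  exact Finset.sum_congr rfl fun i _ => by rw [Pi.add_apply]; ring

theorem ip_smul_left (c : ℝ) (x y : ι → ℝ) : M.ip (c • x) y = c * M.ip x y := by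
  rw [ip, ip, Finset.mul_sum]
  exact Finset.sum_congr rfl fun i _ => by rw [Pi.smul_apply, smul_eq_mul]; ring

theorem ip_smul_right (c : ℝ) (x y : ι → ℝ) : M.ip x (c • y) = c * M.ip x y := by
  rw [ip, ip, Finset.mul_sum]
  exact Finset.sum_congr rfl fun i _ => by rw [Pi.smul_apply, smul_eq_mul]; ring

theorem ip_sum_left {α : Type} (s : Finset α) (f : α → ι → ℝ) (y : ι → ℝ) :
    M.ip (∑ i ∈ s, f i) y = ∑ i ∈ s, M.ip (f i) y := by
  simp only [ip, Finset.sum_apply, Finset.mul_sum, Finset.sum_mul]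
  exact Finset.sum_comm

theorem ip_sum_right {α : Type} (s : Finset α) (f : α → ι → ℝ) (y : ι → ℝ) :
    M.ip y (∑ i ∈ s, f i) = ∑ i ∈ s, M.ip y (f i) := by
  rw [ip_comm, ip_sum_left]
  exact Finset.sum_congr rfl fun i _ => ip_comm M _ _

theorem ip_self_nonneg (x : ι → ℝ) : 0 ≤ M.ip x x := by
  refine Finset.sum_nonneg fun i _ => ?_
  rw [mul_assoc]
  exact mul_nonneg (M.pos i).le (mul_self_nonneg _)

theorem ip_self_eq_zero (x : ι → ℝ) : M.ip x x = 0 ↔ x = 0 := by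
  constructor
  · intro h
    have h1 := (Finset.sum_eq_zero_iff_of_nonneg (fun i _ => by
      rw [mul_assoc]
      exact mul_nonneg (M.pos i).le (mul_self_nonneg _))).1 h
    funext i
    have h2 := h1 i (Finset.mem_univ i)
    rw [mul_assoc] at h2
    exact mul_self_eq_zero.1 ((mul_eq_zero.1 h2).resolve_left (M.pos i).ne')
  · rintro rfl
    simp [ip]

/-- Cauchy-Schwarz -/
theorem ip_sq_le (x y : ι → ℝ) : M.ip x y ^ 2 ≤ M.ip x x * M.ip y y := by
  refine Finset.sum_sq_le_sum_mul_sum_of_sq_eq_mul _ (fun i _ => ?_) (fun i _ => ?_)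
    (fun i _ => by ring)
  · rw [mul_assoc]
    exact mul_nonneg (M.pos i).le (mul_self_nonneg _)
  · rw [mul_assoc]
    exact mul_nonneg (M.pos i).le (mul_self_nonneg _)

theorem ip_of_wt_ne {s t : ℤ} (h : s ≠ t) {x y : ι → ℝ} (hx : M.Wt s x) (hy : M.Wt t y) :
    M.ip x y = 0 := by
  refine Finset.sum_eq_zero fun i _ => ?_
  by_cases h1 : M.wt i = s
  · rw [hy i (by rw [h1]; exact h), mul_zero]
  · rw [hx i h1, mul_zero, zero_mul]

theorem ip_E {t : ℤ} (x : ι → ℝ) {y : ι → ℝ} (hy : M.Wt t y) :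
    M.ip (M.E *ᵥ x) y = pw u (2 * t) * M.ip x (M.F *ᵥ y) := by
  simp only [ip, Matrix.mulVec, dotProduct, Finset.mul_sum, Finset.sum_mul]
  rw [Finset.sum_comm]
  refine Finset.sum_congr rfl fun j _ => Finset.sum_congr rfl fun i _ => ?_
  by_cases h1 : M.wt i = t
  · have h2 := M.adj i j
    rw [h1] at h2
    linear_combination (x j * y i) * h2
  · rw [hy i h1]
    ring

theorem wt_E {t : ℤ} {x : ι → ℝ} (hx : M.Wt t x) : M.Wt (t + 2) (M.E *ᵥ x) := by
  intro i hi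
  rw [Matrix.mulVec, dotProduct]
  refine Finset.sum_eq_zero fun j _ => ?_
  by_cases h1 : M.E i j = 0
  · rw [h1, zero_mul]
  · rw [hx j (fun h2 => hi (by rw [M.hE i j h1, h2])), mul_zero]

theorem wt_F {t : ℤ} {x : ι → ℝ} (hx : M.Wt t x) : M.Wt (t - 2) (M.F *ᵥ x) := by
  intro i hi
  rw [Matrix.mulVec, dotProduct]
  refine Finset.sum_eq_zero fun j _ => ?_
  by_cases h1 : M.F i j = 0
  · rw [h1, zero_mul]
  · rw [hx j (fun h2 => hi (by rw [M.hF i j h1, h2])), mul_zero]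

theorem comm_wt {t : ℤ} {x : ι → ℝ} (hx : M.Wt t x) :
    M.E *ᵥ (M.F *ᵥ x) - M.F *ᵥ (M.E *ᵥ x) = qn u t • x := by
  rw [Matrix.mulVec_mulVec, Matrix.mulVec_mulVec, ← Matrix.sub_mulVec, M.comm]
  funext i
  rw [Matrix.mulVec_diagonal, Pi.smul_apply, smul_eq_mul]
  by_cases h1 : M.wt i = t
  · rw [h1]
  · rw [hx i h1, mul_zero, mul_zero]

theorem F_inj (hu : 1 < (u : ℝ)) {t : ℤ} (ht : 0 < t) {x : ι → ℝ} (hx : M.Wt t x)
    (h : M.F *ᵥ x = 0) : x = 0 := by
  have h1 := M.comm_wt hx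
  rw [h, Matrix.mulVec_zero, zero_sub] at h1
  have h2 := M.ip_E x (M.wt_E hx)
  have h3 : M.F *ᵥ (M.E *ᵥ x) = (-qn u t) • x := by rw [neg_smul, ← h1, neg_neg]
  rw [h3, ip_smul_right] at h2
  have h4 := M.ip_self_nonneg (M.E *ᵥ x)
  have h5 := M.ip_self_nonneg x
  have h6 := pw_pos hu (2 * (t + 2))
  have h7 := qn_pos hu ht
  rw [← M.ip_self_eq_zero]
  have h8 : 0 < pw u (2 * (t + 2)) * qn u t := mul_pos h6 h7
  nlinarith

theorem hw_nonneg (hu : 1 < (u : ℝ)) {t : ℤ} (ht : t < 0) {x : ι → ℝ} (hx : M.HW t x) : x = 0 := by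
  have h1 := M.comm_wt hx.wt
  rw [hx.E, Matrix.mulVec_zero, sub_zero] at h1
  have h2 := M.ip_E (M.F *ᵥ x) hx.wt
  rw [h1, ip_smul_left] at h2
  have h4 := M.ip_self_nonneg (M.F *ᵥ x)
  have h5 := M.ip_self_nonneg x
  have h6 := pw_pos hu (2 * t)
  have h7 : 0 < qn u (-t) := qn_pos hu (by omega)
  rw [qn_neg] at h7
  rw [← M.ip_self_eq_zero]
  have h8 := mul_nonneg h6.le h4
  nlinarith

end QM

end Pool.Agent.KT
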