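import Pool.Agent.Work.MP_ab49bb_gt.Qn

/-!
# Gb (S-M): symmetric Gaussian binomial coefficients

`gb v (n+1) (k+1) = v^(2(k+1)) gb v n (k+1) + v^(-2(n-k)) gb v n k` (definition), `gb v n 0 = 1`, `gb v 0 (k+1) = 0`.

Proofs (any commutative ring, all by induction on `n`, all natural `k`).
* `gb_of_lt`: induction on `n` for all `k`. `gb_self`: `gb (n+1) (n+1) = v^.. gb n (n+1) + v^0 gb n n = gb n n`.
* `gb_step`: `gb n (k+1) {k+1} = gb n k {n-k}`. Induction on `n`. `n = 0`: `k = 0`: `0 = 1 * {0}`; `k > 0`: `0 = 0`.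
  Step: for `k = 0`: `(v^2 gb n 1 + v^(-2n)) {1} = v^2 {n} + v^(-2n) {1} = {n+1}` by `br_add'` (with `gb_step n 0`). For
  `k = k'+1`: left side `(v^(2(k+1)) gb n (k+1) + v^(-2(n-k)) gb n k) {k+1}
  = v^(2(k+1)) gb n k {n-k} + v^(-2(n-k)) gb n k {k+1} = gb n k {n+1}` (since `{n-k} v^(2(k+1)) + v^(-2(n-k)) {k+1} = {n+1}`,
  `br_add`), right side `gb (n+1) k {n+1-k} = (v^(2k) gb n k + v^(-2(n-k+1)) gb n (k-1)) {n+1-k}` and
  `gb n (k-1) {n-k+1} = gb n k {k}` (induction), so it is `gb n k (v^(2k) {n+1-k} + v^(-2(n-k+1)) {k}) = gb n k {n+1}`.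
* `gb_succ_mul` (A): `gb (n+1) (k+1) {k+1} = gb n k {n+1}`: this is the left side computation above.
* `gb_fact`: `bf k = ∏_{s<k} {s+1}`: `gb n k bf k bf (n-k) = bf n` for `k ≤ n`: induction on `k`: from `k` to `k+1 ≤ n`:
  `gb n (k+1) bf (k+1) bf (n-k-1) = gb n (k+1) {k+1} bf k bf (n-k-1) = gb n k {n-k} bf k bf (n-k-1) = gb n k bf k bf (n-k)`.
* `gb_pos` (real `1 < u`, `k ≤ n`): induction on `k` with `gb_step` and `br_pos`, or induction on `n` with the
  definition (all terms nonnegative, one positive).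
-/

set_option autoImplicit false

namespace Pool.Agent.KT

section Ring

variable {A : Type*} [CommRing A] (v : Aˣ)

/-- `{k}!` -/
def bf (k : ℕ) : A := ∏ s ∈ Finset.range k, br v (s + 1)

theorem gb_zero_right (n : ℕ) : gb v n 0 = 1 := by
  cases n <;> simp [gb]

private theorem gb_succ (n k : ℕ) : gb v (n + 1) (k + 1) =
    pw v (2 * ((k : ℤ) + 1)) * gb v n (k + 1) + pw v (-(2 * ((n : ℤ) - k))) * gb v n k := by
  rw [gb]

private theorem gb_zero_left (k : ℕ) : gb v 0 (k + 1) = 0 := by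
  rw [gb]

theorem gb_of_lt {n k : ℕ} (h : n < k) : gb v n k = 0 := by
  induction n generalizing k with
  | zero =>
    obtain ⟨k, rfl⟩ := Nat.exists_eq_succ_of_ne_zero (Nat.pos_iff_ne_zero.1 h)
    exact gb_zero_left v k
  | succ n ih =>
    obtain ⟨k, rfl⟩ := Nat.exists_eq_succ_of_ne_zero (Nat.pos_iff_ne_zero.1 (by omega : 0 < k))
    rw [Nat.succ_eq_add_one, gb_succ, ih (by omega), ih (by omega), mul_zero, mul_zero, add_zero]

theorem gb_self (n : ℕ) : gb v n n = 1 := by
  induction n with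
  | zero => exact gb_zero_right v 0
  | succ n ih =>
    have e : -(2 * ((n : ℤ) - n)) = 0 := by ring
    rw [gb_succ, gb_of_lt v (Nat.lt_succ_self n), ih, e, pw_zero]
    ring

private theorem succ_mul_aux {n : ℕ}
    (h : ∀ k : ℕ, gb v n (k + 1) * br v (k + 1) = gb v n k * br v (n - k)) (k : ℕ) :
    gb v (n + 1) (k + 1) * br v (k + 1) = gb v n k * br v (n + 1) := by
  have h1 := br_add v ((n : ℤ) - k) ((k : ℤ) + 1)
  have e : (n : ℤ) - k + (k + 1) = n + 1 := by ring
  rw [e] at h1
  rw [gb_succ, h1]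
  linear_combination pw v (2 * ((k : ℤ) + 1)) * h k

theorem gb_step (n k : ℕ) : gb v n (k + 1) * br v (k + 1) = gb v n k * br v (n - k) := by
  induction n generalizing k with
  | zero =>
    cases k with
    | zero =>
      rw [gb_zero_left]
      simp [br_zero]
    | succ k =>
      rw [gb_zero_left, gb_zero_left]
      ring
  | succ n ih =>
    rw [succ_mul_aux v ih]
    cases k with
    | zero =>
      rw [gb_zero_right, gb_zero_right]
      simp
    | succ k =>
      have h1 := br_add v ((n : ℤ) - k) ((k : ℤ) + 1)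
      have e : (n : ℤ) - k + (k + 1) = n + 1 := by ring
      rw [e] at h1
      have e2 : ((n + 1 : ℕ) : ℤ) - ((k + 1 : ℕ) : ℤ) = n - k := by
        push_cast
        ring
      rw [gb_succ, h1, e2]
      linear_combination pw v (-(2 * ((n : ℤ) - k))) * ih k

theorem gb_succ_mul (n k : ℕ) : gb v (n + 1) (k + 1) * br v (k + 1) = gb v n k * br v (n + 1) :=
  succ_mul_aux v (fun k => gb_step v n k) k

private theorem bf_succ (k : ℕ) : bf v (k + 1) = bf v k * br v (k + 1) := by
  rw [bf, bf, Finset.prod_range_succ]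

theorem gb_fact {n k : ℕ} (h : k ≤ n) : gb v n k * bf v k * bf v (n - k) = bf v n := by
  induction k with
  | zero =>
    rw [gb_zero_right, Nat.sub_zero]
    simp [bf]
  | succ k ih =>
    have h1 := ih (by omega)
    have e : n - k = n - (k + 1) + 1 := by omega
    have e2 : (((n - (k + 1) : ℕ) : ℤ) + 1) = (n : ℤ) - k := by
      rw [Nat.cast_sub h]
      push_cast
      ring
    rw [e, bf_succ v (n - (k + 1)), e2] at h1
    rw [bf_succ v k]
    linear_combination h1 + bf v k * bf v (n - (k + 1)) * gb_step v n k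

/-- `∏_{s=1}^{l} {m + s} = {m+l}! / {m}!` -/
theorem bf_prod (m l : ℕ) : bf v m * ∏ s ∈ Finset.range l, br v (m + (s + 1)) = bf v (m + l) := by
  induction l with
  | zero => simp
  | succ l ih =>
    have e : (m : ℤ) + ((l : ℤ) + 1) = ((m + l : ℕ) : ℤ) + 1 := by
      push_cast
      ring
    rw [Finset.prod_range_succ, ← mul_assoc, ih, ← Nat.add_assoc, bf_succ, e]

end Ring

variable {u : ℝˣ}

theorem bf_pos (hu : 1 < (u : ℝ)) (k : ℕ) : 0 < bf u k :=
  Finset.prod_pos fun s _ => br_pos hu (by positivity)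

theorem gb_pos (hu : 1 < (u : ℝ)) {n k : ℕ} (h : k ≤ n) : 0 < gb u n k := by
  induction n generalizing k with
  | zero =>
    obtain rfl : k = 0 := by omega
    rw [gb_zero_right]
    exact one_pos
  | succ n ih =>
    cases k with
    | zero =>
      rw [gb_zero_right]
      exact one_pos
    | succ k =>
      rw [gb_succ]
      have h1 : 0 ≤ gb u n (k + 1) := by
        by_cases hk : k + 1 ≤ n
        · exact (ih hk).le
        · rw [gb_of_lt u (by omega)]
      exact add_pos_of_nonneg_of_pos (mul_nonneg (pw_pos hu _).le h1)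
        (mul_pos (pw_pos hu _) (ih (by omega)))

end Pool.Agent.KT
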