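import Pool.Agent.Work.MP_ab49bb_gt.Ga
import Pool.Agent.Work.MP_ab49bb_gt.Cm

/-!
# Gd (M): the decomposition `U_t = ker E ⊕ F U_(t+2)`

Proof of `decomp`. Orthogonal projection. Let `W` be the (finite dimensional) space of all `F z`, `z` of weight `t + 2`. For the positive
definite form `ip` every `x` is `y + F z` with `ip y (F z') = 0` for all `z'` of weight `t + 2`. [One way in Lean: transport to
`EuclideanSpace ℝ ι` with `x ↦ √nm · x`, use `Submodule.exists_add_mem_mem_orthogonal` for the submodule `W`. Another way: choose `z` in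
the span minimising; or `LinearMap.BilinForm` orthogonal complements for `ip` restricted to `W` (nondegenerate since positive definite):
`LinearMap.BilinForm.isCompl_orthogonal_of_restrict_nondegenerate`.] Replace `y` by its weight `t` part (all of `x`, `F z` have weight `t`,
so `y = x - F z` has weight `t`). Then for every `z'` of weight `t+2`: `ip (E y) z' = v^(2(t+2)) ip y (F z') = 0` (`ip_E`), and `E y` has
weight `t + 2`; with `z' = E y`: `E y = 0`.
`Com.ext_hw`: let `X` commute and kill all highest weight vectors. Show `X x = 0` for all `x` of weight `t`, by induction on `(B - t).toNat`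
where `B` bounds all weights (for `t > B` there is no nonzero vector of weight `t`): `x = y + F z`, `X x = X y + F (X z) = 0`.
Every vector is the sum of its weight components (`x = ∑_i x i • Pi.single i 1`, each basis vector has a weight), so `X = 0`.
-/

set_option autoImplicit false

open Matrix

namespace Pool.Agent.KT

namespace QM

variable {u : ℝˣ} {ι : Type} [Fintype ι] [DecidableEq ι] (M : QM u ι)

private noncomputable def wsub (t : ℤ) : Submodule ℝ (ι → ℝ) where
  carrier := {x | M.Wt t x}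
  add_mem' := by
    intro x y hx hy i hi
    rw [Pi.add_apply, hx i hi, hy i hi, add_zero]
  zero_mem' := fun _ _ => rfl
  smul_mem' := by
    intro c x hx i hi
    rw [Pi.smul_apply, hx i hi, smul_zero]

private noncomputable def bip : LinearMap.BilinForm ℝ (ι → ℝ) :=
  LinearMap.mk₂ ℝ M.ip (fun x y z => M.ip_add_left x y z) (fun c x y => M.ip_smul_left c x y)
    (fun x y z => M.ip_add_right x y z) (fun c x y => M.ip_smul_right c x y)

private theorem bip_apply (x y : ι → ℝ) : M.bip x y = M.ip x y := rfl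

private theorem proj (W : Submodule ℝ (ι → ℝ)) (x : ι → ℝ) :
    ∃ w ∈ W, ∃ y, (∀ n ∈ W, M.ip n y = 0) ∧ w + y = x := by
  have h1 : M.bip.IsRefl := fun x y h => by
    rw [bip_apply] at h ⊢
    rw [M.ip_comm]
    exact h
  have h2 : (M.bip.restrict W).Nondegenerate := by
    refine ⟨?_, ?_⟩
    · rintro ⟨x, hx⟩ h
      have h3 := h ⟨x, hx⟩
      have h4 : M.ip x x = 0 := h3
      exact Subtype.ext ((M.ip_self_eq_zero x).1 h4)
    · rintro ⟨x, hx⟩ h
      have h3 := h ⟨x, hx⟩
      have h4 : M.ip x x = 0 := h3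
      exact Subtype.ext ((M.ip_self_eq_zero x).1 h4)
  have h3 := (LinearMap.BilinForm.isCompl_orthogonal_of_restrict_nondegenerate h1 h2).sup_eq_top
  have h4 : x ∈ W ⊔ M.bip.orthogonal W := by
    rw [h3]
    exact Submodule.mem_top
  obtain ⟨w, hw, y, hy, h5⟩ := Submodule.mem_sup.1 h4
  exact ⟨w, hw, y, fun n hn => hy n hn, h5⟩

theorem decomp {t : ℤ} {x : ι → ℝ} (hx : M.Wt t x) :
    ∃ y z, M.HW t y ∧ M.Wt (t + 2) z ∧ x = y + M.F *ᵥ z := by
  obtain ⟨w, hw, y, hy, hwy⟩ := M.proj ((M.wsub (t + 2)).map M.F.mulVecLin) x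
  obtain ⟨z, hz, hzw⟩ := hw
  rw [Matrix.mulVecLin_apply] at hzw
  have hz' : M.Wt (t + 2) z := hz
  have hFz : M.Wt t (M.F *ᵥ z) := by
    have := M.wt_F hz'
    rwa [add_sub_cancel_right] at this
  have hyt : M.Wt t y := by
    intro i hi
    have h1 := congrFun hwy i
    rw [Pi.add_apply, hx i hi, ← hzw, hFz i hi, zero_add] at h1
    exact h1
  refine ⟨y, z, ⟨hyt, ?_⟩, hz', ?_⟩
  · rw [← M.ip_self_eq_zero]
    have hEy := M.wt_E hyt
    rw [M.ip_E y hEy, M.ip_comm, hy (M.F *ᵥ (M.E *ᵥ y)), mul_zero]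
    exact ⟨M.E *ᵥ y, hEy, Matrix.mulVecLin_apply _ _⟩
  · rw [← hwy, ← hzw, add_comm]

private theorem ext_hw_aux {M : QM u ι} {X : Matrix ι ι ℝ} (hX : M.Com X)
    (h : ∀ (t : ℤ) (x : ι → ℝ), M.HW t x → X *ᵥ x = 0) {B : ℤ} (hB : ∀ i, M.wt i ≤ B) :
    ∀ (n : ℕ) (t : ℤ) (x : ι → ℝ), B < t + n → M.Wt t x → X *ᵥ x = 0 := by
  intro n
  induction n with
  | zero =>
    intro t x ht hx
    have h1 : x = 0 := by
      funext i
      refine hx i fun h2 => ?_
      have h3 := hB i
      push_cast at ht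
      omega
    rw [h1, Matrix.mulVec_zero]
  | succ n ih =>
    intro t x ht hx
    obtain ⟨y, z, hy, hz, hxy⟩ := M.decomp hx
    have h1 := ih (t + 2) z (by push_cast at ht; omega) hz
    rw [hxy, Matrix.mulVec_add, h t y hy, Matrix.mulVec_mulVec, hX.F, ← Matrix.mulVec_mulVec, h1,
      Matrix.mulVec_zero, add_zero]

theorem Com.ext_hw {M : QM u ι} {X : Matrix ι ι ℝ} (hX : M.Com X)
    (h : ∀ (t : ℤ) (x : ι → ℝ), M.HW t x → X *ᵥ x = 0) : X = 0 := by
  obtain ⟨B, hB⟩ : ∃ B : ℤ, ∀ i, M.wt i ≤ B := by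
    obtain ⟨B, hB⟩ := (Set.finite_range M.wt).bddAbove
    exact ⟨B, fun i => hB ⟨i, rfl⟩⟩
  ext i j
  have hj : M.Wt (M.wt j) (Pi.single j 1) := by
    intro k hk
    exact Pi.single_eq_of_ne (fun hkj => hk (by rw [hkj])) _
  have h1 := ext_hw_aux hX h hB (B - M.wt j + 1).toNat (M.wt j) (Pi.single j 1)
    (by have := Int.self_le_toNat (B - M.wt j + 1); omega) hj
  have h2 := congrFun h1 i
  rw [Matrix.mulVec_single_one] at h2
  exact h2

end QM

end Pool.Agent.KT
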