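import Pool.Agent.Work.MP_ab49bb_gt.Cm

/-!
# Tr (M): the quantum trace by Abel summation

If `tr_{U_(-w)} X = tr_{U_w} X` for all `w`, and all weights are of the form `B - 2 i`, `|wt| ≤ B`, then
`∑_i X i i v^(2 wt i) = ∑_{2 k ≤ B} [B - 2k + 1] (tr_(B-2k) X - tr_(B-2k+2) X)`.

Proof. Put `c w = trw X w`. The left side is `∑_{w ∈ Icc (-B) B} c w v^(2w)` (fibrewise sum over `wt i = w`; `Finset.sum_fiberwise` or
exchange of sums), only `w ≡ B mod 2` contribute. Pair `w` and `-w`: it is `∑_{k=0}^{⌊B/2⌋} g(B-2k) c(B-2k)`, where `g 0 = 1`,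
`g w = v^(2w) + v^(-2w)` for `w ≥ 1`. And `v^(2w) + v^(-2w) = [w+1] - [w-1]` (from the definition of `qn`; clear `br u 1 ≠ 0`), `g 0 = [1]`.
The right side is, by Abel summation, `∑_k [B-2k+1] c(B-2k) - ∑_k [B-2k+1] c(B-2k+2)
= ∑_k [B-2k+1] c(B-2k) - ∑_{k ≥ 1} [B-2k+1] c(B-2(k-1)) = ∑_k c(B-2k) ([B-2k+1] - [B-2k-1] 1_{k+1 ≤ ⌊B/2⌋})` (since `c(B+2) = 0`), and for the last
`k = ⌊B/2⌋`: `B - 2k = 0` (`g 0 = [1]`) or `1` (`g 1 = [2] - [0] = [2]`).
An alternative without pairing: prove by induction on `m` that `∑_{k=0}^{m} v^(2(m-2k))`-type telescoping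
`[w+1] = ∑_{k=0}^{w} v^(2(w-2k))` holds and exchange sums: the right side is `∑_k ∑_{j=0}^{B-2k} v^(2(B-2k-2j)) (c(B-2k) - c(B-2k+2))`.
-/

set_option autoImplicit false

open Matrix

namespace Pool.Agent.KT

namespace QM

variable {u : ℝˣ} {ι : Type} [Fintype ι] [DecidableEq ι] (M : QM u ι)

private theorem qn_diff (hu : 1 < (u : ℝ)) (m : ℤ) :
    qn u (m + 1) - qn u (m + -1) = pw u (2 * m) + pw u (-(2 * m)) := by
  have h1 := qn_add (u := u) m 1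
  have h2 := qn_add' (u := u) m (-1)
  have h3 : qn u (-1) = -1 := by rw [qn_neg, qn_one hu]
  have h4 : (2 : ℤ) * 1 = 2 := by norm_num
  have h5 : -((2 : ℤ) * -1) = 2 := by norm_num
  rw [qn_one hu, h4] at h1
  rw [h3, h5] at h2
  rw [h1, h2]
  ring

private theorem abel_aux (hu : 1 < (u : ℝ)) (c : ℤ → ℝ) (hc : ∀ t, c (-t) = c t) (B : ℕ) :
    (∑ k ∈ Finset.range (B + 1), c ((B : ℤ) - 2 * k) * pw u (2 * ((B : ℤ) - 2 * k))) =
      (∑ k ∈ Finset.range (B / 2 + 1),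
        qn u ((B : ℤ) - 2 * k + 1) * (c ((B : ℤ) - 2 * k) - c ((B : ℤ) - 2 * k + 2))) +
        qn u ((B : ℤ) + 1) * c ((B : ℤ) + 2) := by
  induction B using Nat.twoStepInduction with
  | zero =>
    simp [qn_one hu, pw_zero]
  | one =>
    have h := qn_diff hu 1
    have h0 : qn u ((1 : ℤ) + -1) = 0 := by norm_num [qn_zero]
    rw [h0, sub_zero] at h
    rw [Finset.sum_range_succ, Finset.sum_range_one]
    have e1 : ((1 : ℕ) : ℤ) - 2 * ((0 : ℕ) : ℤ) = 1 := by norm_num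
    have e2 : ((1 : ℕ) : ℤ) - 2 * ((1 : ℕ) : ℤ) = -1 := by norm_num
    have e3 : (1 : ℕ) / 2 + 1 = 1 := by norm_num
    rw [e1, e2, e3, Finset.sum_range_one, e1, hc]
    have e4 : (2 : ℤ) * -1 = -(2 * 1) := by norm_num
    have e5 : ((1 : ℕ) : ℤ) + 1 = 1 + 1 := by norm_num
    have e6 : ((1 : ℕ) : ℤ) + 2 = 1 + 2 := by norm_num
    rw [e4, e5, e6]
    linear_combination (-(c 1)) * h
  | more B ih _ =>
    have h := qn_diff hu ((B : ℤ) + 2)
    have e3 : ((B + 2 : ℕ) : ℤ) - 2 * ((B + 2 : ℕ) : ℤ) = -((B : ℤ) + 2) := by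
      push_cast
      ring
    rw [Finset.sum_range_succ, e3, Finset.sum_range_succ']
    have e1 : (B + 2) / 2 + 1 = (B / 2 + 1) + 1 := by omega
    rw [e1, Finset.sum_range_succ' _ (B / 2 + 1)]
    have e2 : ∀ k : ℕ, ((B + 2 : ℕ) : ℤ) - 2 * ((k + 1 : ℕ) : ℤ) = (B : ℤ) - 2 * k := by
      intro k
      push_cast
      ring
    simp only [e2]
    have e4 : ((B + 2 : ℕ) : ℤ) - 2 * ((0 : ℕ) : ℤ) = (B : ℤ) + 2 := by
      push_cast
      ring
    have e5 : ((B + 2 : ℕ) : ℤ) = (B : ℤ) + 2 := by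
      push_cast
      ring
    have e6 : (2 : ℤ) * -((B : ℤ) + 2) = -(2 * ((B : ℤ) + 2)) := by ring
    have e7 : (B : ℤ) + 2 + -1 = (B : ℤ) + 1 := by ring
    rw [e4, e5, hc, e6, ih]
    rw [e7] at h
    linear_combination (-(c ((B : ℤ) + 2))) * h

theorem tr_abel (hu : 1 < (u : ℝ)) (X : Matrix ι ι ℝ) (B : ℕ)
    (hB : ∀ i, ∃ k : ℕ, k ≤ B ∧ M.wt i = (B : ℤ) - 2 * k)
    (hs : ∀ t, M.trw X (-t) = M.trw X t) :
    (∑ i, X i i * pw u (2 * M.wt i)) = ∑ k ∈ Finset.range (B / 2 + 1),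
      qn u ((B : ℤ) - 2 * k + 1) * (M.trw X ((B : ℤ) - 2 * k) - M.trw X ((B : ℤ) - 2 * k + 2)) := by
  have h1 := abel_aux hu (M.trw X) hs B
  have h2 : M.trw X ((B : ℤ) + 2) = 0 := by
    unfold trw
    refine Finset.sum_eq_zero fun i _ => if_neg fun h => ?_
    obtain ⟨k, hk, hw⟩ := hB i
    rw [h] at hw
    omega
  rw [h2, mul_zero, add_zero] at h1
  rw [← h1]
  unfold trw
  simp only [Finset.sum_mul]
  rw [Finset.sum_comm]
  refine Finset.sum_congr rfl fun i _ => ?_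
  obtain ⟨k, hk, hw⟩ := hB i
  rw [Finset.sum_eq_single k]
  · rw [if_pos hw, hw]
  · intro l _ hl
    rw [if_neg, zero_mul]
    intro h
    rw [hw] at h
    omega
  · intro h
    exact absurd (Finset.mem_range.2 (by omega)) h

end QM

end Pool.Agent.KT
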