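import Pool.Agent.Work.MP_ab49bb_gt.Sy
import Pool.Agent.Work.MP_ab49bb_gt.Tr

/-!
# Tf (S): the quantum trace formulas

`jt u a w = v^(-ex w a(a+2)) ∑_i wm w i i v^(2 wt i)` (`km` is diagonal, `wt i = 3a - 2(i.1+i.2.1+i.2.2)`), then `QM.tr_abel` with `B = 3a` and `trw_symm`.
`tr_VV`: the same for `V ⊗ V`, `B = 2a`, `trw_symm_VV`.
-/

set_option autoImplicit false

open Matrix

namespace Pool.Agent.KT

variable {u : ℝˣ}

private theorem tf_UQ_wt (hu : 1 < (u : ℝ)) (a : ℕ) (x : Ix a) :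
    (UQ u hu a).wt x = 3 * (a : ℤ) - 2 * ((x.1 : ℕ) + (x.2.1 : ℕ) + (x.2.2 : ℕ) : ℕ) := by
  have h : (UQ u hu a).wt x = ((a : ℤ) - 2 * (x.1 : ℕ)) +
      (((a : ℤ) - 2 * (x.2.1 : ℕ)) + ((a : ℤ) - 2 * (x.2.2 : ℕ))) := rfl
  rw [h]
  push_cast
  ring

private theorem tf_VV_wt (hu : 1 < (u : ℝ)) (a : ℕ) (x : Fin (a + 1) × Fin (a + 1)) :
    (VVQ u hu a).wt x = 2 * (a : ℤ) - 2 * ((x.1 : ℕ) + (x.2 : ℕ) : ℕ) := by
  have h : (VVQ u hu a).wt x = ((a : ℤ) - 2 * (x.1 : ℕ)) + ((a : ℤ) - 2 * (x.2 : ℕ)) := rfl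
  rw [h]
  push_cast
  ring

theorem jt_eq (hu : 1 < (u : ℝ)) (a : ℕ) (w : List Letter) :
    jt u a w = pw u (-(ex w * (a * (a + 2)))) * ∑ k ∈ Finset.range (3 * a / 2 + 1),
      qn u (3 * (a : ℤ) - 2 * k + 1) * ((UQ u hu a).trw (wm u a w) (3 * (a : ℤ) - 2 * k) -
        (UQ u hu a).trw (wm u a w) (3 * (a : ℤ) - 2 * k + 2)) := by
  have h1 : (wm u a w * km u a).trace = ∑ x, (wm u a w) x x * pw u (2 * (UQ u hu a).wt x) := by
    unfold Matrix.trace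
    refine Finset.sum_congr rfl fun x _ => ?_
    rw [Matrix.diag_apply, km, Matrix.mul_diagonal, tf_UQ_wt]
    push_cast
    rfl
  have h2 := (UQ u hu a).tr_abel hu (wm u a w) (3 * a) (fun x => ⟨(x.1 : ℕ) + x.2.1 + x.2.2, by
    have := x.1.2; have := x.2.1.2; have := x.2.2.2; omega, by rw [tf_UQ_wt]; push_cast; ring⟩)
    (fun t => trw_symm hu a w t)
  rw [jt, h1, h2]
  push_cast
  rfl

theorem tr_VV (hu : 1 < (u : ℝ)) (a q : ℕ) :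
    (∑ x, (S u a ^ q) x x * pw u (2 * (VVQ u hu a).wt x)) = ∑ m ∈ Finset.range (a + 1),
      qn u (2 * (a : ℤ) - 2 * m + 1) * ((VVQ u hu a).trw (S u a ^ q) (2 * (a : ℤ) - 2 * m) -
        (VVQ u hu a).trw (S u a ^ q) (2 * (a : ℤ) - 2 * m + 2)) := by
  have h2 := (VVQ u hu a).tr_abel hu (S u a ^ q) (2 * a) (fun x => ⟨(x.1 : ℕ) + x.2, by
    have := x.1.2; have := x.2.2; omega, by rw [tf_VV_wt]; push_cast; ring⟩)
    (fun t => trw_symm_VV hu a q t)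
  rw [h2, Nat.mul_div_cancel_left a two_pos]
  push_cast
  rfl

end Pool.Agent.KT
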