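import Pool.Agent.Work.MP_ab49bb_gt.Al
import Pool.Agent.Work.MP_ab49bb_gt.Tf

/-!
# Tk (M): the terms of the quantum trace for generic words

`A = eA`, `B = eB`, `η = eta u a k`, `2k ≤ 3a`.
`ev_append`: `ev` of a concatenation is the product; `ev (pwr 0 true q) = A^q`, `ev (pwr 1 false p) = (B⁻¹)^p`; `ev (ft true) = (A B)^3 = η`, `ev (ft false) = (B⁻¹A⁻¹)^3 = η⁻¹` (inverse of the former), so
`ev (tw d) = η^(-d)` (a scalar matrix; integer power; two cases `0 ≤ d`, `d < 0`).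
`A^q = (lam m0)^q diagonal (dA q)`; `(B⁻¹)^p = om diagonal((la)⁻¹^p) omᵀ = (lam m1)^(-p) om diagonal (dB p) omᵀ` (`om_tr`, induction on `p`). So
`ev (gw d L) = η^(-d) (lam m1)^(-sp L) (lam m0)^(sq L) • ∏ (om diagonal(dB p_r) omᵀ diagonal(dA q_r))` (induction on `L`) and the trace is `tk`.
`term`: `jt_eq` and `tr_ev` for every `k ≤ 3a/2`; split the sum: `k = a - s` (`0 ≤ s ≤ a`: `m0 = 0`, `m1 = k`), `k = a + h` (`1 ≤ h ≤ a/2`: `m0 = h`, `m1 = a - h`). `ex (gw d L) = q - p - 6d`. With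
`E(m) = a²-4am+2m²-2m` (`lam m = (-1)^m v^E(m)`), `t = 3a - 2k`, `[t+1] = v^(2t) (1 - v^(-4(t+1)))/(1 - v^(-4))` (`qn_x`), the exponent is
`-(q-p-6d)a(a+2) + 2t - d(t(t+2) - 3a(a+2)) - p E(m1) + q E(m0)`, which is `FB a p q d s` for `k = a - s` and `FA a p q d h` for `k = a + h` (`ring` after the substitution; checked numerically), and the sign is
`(-1)^(p m1 + q m0)`.
-/

set_option autoImplicit false

open Matrix

namespace Pool.Agent.KT

variable {u : ℝˣ}

private theorem ev_app {n : ℕ} (A B : Matrix (Fin n) (Fin n) ℝ) (w w' : List Letter) :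
    ev A B (w ++ w') = ev A B w * ev A B w' := by
  simp [ev, List.map_append, List.prod_append]

private theorem ev_nil {n : ℕ} (A B : Matrix (Fin n) (Fin n) ℝ) : ev A B [] = 1 := by
  simp [ev]

private theorem ev_rep {n : ℕ} (A B : Matrix (Fin n) (Fin n) ℝ) (w : List Letter) (k : ℕ) :
    ev A B (List.replicate k w).flatten = ev A B w ^ k := by
  induction k with
  | zero => simp [ev_nil]
  | succ k ih => rw [List.replicate_succ, List.flatten_cons, ev_app, ih, pow_succ']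

private theorem ev_pA {n : ℕ} (A B : Matrix (Fin n) (Fin n) ℝ) (q : ℕ) :
    ev A B (pwr 0 true q) = A ^ q := by
  simp [ev, pwr, List.map_replicate, List.prod_replicate]

private theorem ev_pB {n : ℕ} (A B : Matrix (Fin n) (Fin n) ℝ) (p : ℕ) :
    ev A B (pwr 1 false p) = B⁻¹ ^ p := by
  simp [ev, pwr, List.map_replicate, List.prod_replicate]

private theorem ev_ft_true {n : ℕ} (A B : Matrix (Fin n) (Fin n) ℝ) :
    ev A B (ft true) = (A * B) ^ 3 := by
  simp [ev, ft, pow_succ, mul_assoc]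

private theorem ev_ft_false {n : ℕ} (A B : Matrix (Fin n) (Fin n) ℝ) :
    ev A B (ft false) = (A * B)⁻¹ ^ 3 := by
  rw [Matrix.mul_inv_rev]
  simp [ev, ft, pow_succ, mul_assoc]

private theorem eta_ne (hu : 1 < (u : ℝ)) (a k : ℕ) : eta u a k ≠ 0 := by
  unfold eta
  exact (pw_pos hu _).ne'

private theorem ev_tw (hu : 1 < (u : ℝ)) {a k : ℕ} (h : 2 * k ≤ 3 * a) (d : ℤ) :
    ev (eA u a k) (eB u a k) (tw d) =
      (eta u a k ^ (-d)) • (1 : Matrix (Fin (dd a k + 1)) (Fin (dd a k + 1)) ℝ) := by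
  have h0 := eta_ne hu a k
  have ht := ev_twist hu h
  unfold tw
  by_cases hd : 0 ≤ d
  · rw [if_pos hd, ev_rep, ev_ft_false]
    obtain ⟨n, rfl⟩ := Int.eq_ofNat_of_zero_le hd
    have h1 : (eA u a k * eB u a k)⁻¹ ^ 3 =
        (eta u a k)⁻¹ • (1 : Matrix (Fin (dd a k + 1)) (Fin (dd a k + 1)) ℝ) := by
      rw [Matrix.inv_pow', ht]
      apply Matrix.inv_eq_right_inv
      rw [smul_mul_smul_comm, mul_one, mul_inv_cancel₀ h0, one_smul]
    rw [h1, smul_pow, one_pow, Int.toNat_natCast, _root_.zpow_neg, zpow_natCast, inv_pow]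
  · rw [if_neg hd, ev_rep, ev_ft_true, ht, smul_pow, one_pow]
    congr 1
    have : (-d) = ((-d).toNat : ℤ) := by omega
    conv_rhs => rw [this]
    rw [zpow_natCast]

private theorem eA_pow (hu : 1 < (u : ℝ)) (a k q : ℕ) :
    eA u a k ^ q = (lam u a (m0 a k) ^ q) • diagonal (dA u a k q) := by
  have h0 := lam_ne hu a (m0 a k)
  unfold eA
  rw [Matrix.diagonal_pow, ← Matrix.diagonal_smul]
  congr 1
  funext i
  simp only [Pi.pow_apply, Pi.smul_apply, smul_eq_mul, la, dA]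
  rw [div_pow, mul_div_cancel₀ _ (pow_ne_zero q h0)]

private theorem eB_pow (hu : 1 < (u : ℝ)) {a k : ℕ} (h : 2 * k ≤ 3 * a) (p : ℕ) :
    (eB u a k)⁻¹ ^ p = (lam u a (m1 a k) ^ (-(p : ℤ))) •
      (om u a k * diagonal (dB u a k p) * (om u a k)ᵀ) := by
  have h1 := om_tr hu h
  have h2 := om_tr' hu h
  have h0 : ∀ m, lam u a m ≠ 0 := fun m => lam_ne hu a m
  have hinv : (eB u a k)⁻¹ =
      om u a k * diagonal (fun i => (la u a k i)⁻¹) * (om u a k)ᵀ := by
    apply Matrix.inv_eq_right_inv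
    unfold eB
    calc om u a k * diagonal (la u a k) * (om u a k)ᵀ *
          (om u a k * diagonal (fun i => (la u a k i)⁻¹) * (om u a k)ᵀ)
        = om u a k * (diagonal (la u a k) * (((om u a k)ᵀ * om u a k) *
            diagonal (fun i => (la u a k i)⁻¹))) * (om u a k)ᵀ := by
          simp only [Matrix.mul_assoc]
      _ = 1 := by
          rw [h1, Matrix.one_mul, Matrix.diagonal_mul_diagonal]
          have : (fun i => la u a k i * (la u a k i)⁻¹) = fun _ => (1 : ℝ) := by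
            funext i
            exact mul_inv_cancel₀ (h0 _)
          rw [this, Matrix.diagonal_one, Matrix.mul_one, h2]
  have hpow : ∀ p : ℕ, (eB u a k)⁻¹ ^ p =
      om u a k * diagonal (fun i => (la u a k i)⁻¹ ^ p) * (om u a k)ᵀ := by
    intro p
    induction p with
    | zero =>
      simp only [pow_zero]
      rw [Matrix.diagonal_one, Matrix.mul_one, h2]
    | succ p ih =>
      rw [pow_succ, ih, hinv]
      calc om u a k * diagonal (fun i => (la u a k i)⁻¹ ^ p) * (om u a k)ᵀ *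
            (om u a k * diagonal (fun i => (la u a k i)⁻¹) * (om u a k)ᵀ)
          = om u a k * (diagonal (fun i => (la u a k i)⁻¹ ^ p) * (((om u a k)ᵀ * om u a k) *
              diagonal (fun i => (la u a k i)⁻¹))) * (om u a k)ᵀ := by
            simp only [Matrix.mul_assoc]
        _ = _ := by
            rw [h1, Matrix.one_mul, Matrix.diagonal_mul_diagonal]
            simp only [pow_succ]
  rw [hpow p]
  have hd : (fun i => (la u a k i)⁻¹ ^ p) = (lam u a (m1 a k) ^ (-(p : ℤ))) • dB u a k p := by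
    funext i
    simp only [Pi.smul_apply, smul_eq_mul, la, dB]
    rw [div_pow, _root_.zpow_neg, zpow_natCast, inv_pow]
    field_simp [h0]
  rw [hd, Matrix.diagonal_smul, Matrix.mul_smul, Matrix.smul_mul]

private theorem ev_blk (hu : 1 < (u : ℝ)) {a k : ℕ} (h : 2 * k ≤ 3 * a) (L : List (ℕ × ℕ)) :
    ev (eA u a k) (eB u a k) (blk L) =
      (lam u a (m1 a k) ^ (-(sp L : ℤ)) * lam u a (m0 a k) ^ (sq L : ℤ)) •
      (L.map fun x => om u a k * diagonal (dB u a k x.1) * (om u a k)ᵀ *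
        diagonal (dA u a k x.2)).prod := by
  have h0 : ∀ m, lam u a m ≠ 0 := fun m => lam_ne hu a m
  induction L with
  | nil => simp [blk, sp, sq, ev_nil]
  | cons x L ih =>
    have h1 : blk (x :: L) = (pwr 1 false x.1 ++ pwr 0 true x.2) ++ blk L := by
      simp [blk]
    rw [h1, ev_app, ev_app, ih, ev_pB, ev_pA, eB_pow hu h, eA_pow hu]
    rw [List.map_cons, List.prod_cons]
    simp only [Matrix.smul_mul, Matrix.mul_smul, smul_smul]
    congr 1
    have e1 : (sp (x :: L) : ℤ) = x.1 + sp L := by simp [sp]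
    have e2 : (sq (x :: L) : ℤ) = x.2 + sq L := by simp [sq]
    rw [e1, e2, neg_add, zpow_add₀ (h0 _), zpow_add₀ (h0 _)]
    simp only [zpow_natCast]
    ring

theorem tk (hu : 1 < (u : ℝ)) {a k : ℕ} (h : 2 * k ≤ 3 * a) (d : ℤ) (L : List (ℕ × ℕ)) :
    (ev (eA u a k) (eB u a k) (gw d L)).trace =
      eta u a k ^ (-d) * lam u a (m1 a k) ^ (-(sp L : ℤ)) * lam u a (m0 a k) ^ (sq L : ℤ) *
        TT u a k L := by
  unfold gw
  rw [ev_app, ev_tw hu h, ev_blk hu h, Matrix.smul_mul, Matrix.one_mul, smul_smul,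
    Matrix.trace_smul, smul_eq_mul]
  unfold TT
  ring

private theorem lam_neg_pow (hu : 1 < (u : ℝ)) (a m p : ℕ) : lam u a m ^ (-(p : ℤ)) =
    (-1) ^ (m * p) * pw u (-(((a : ℤ) ^ 2 - 4 * a * m + 2 * (m : ℤ) ^ 2 - 2 * m) * p)) := by
  unfold lam
  rw [mul_zpow, _root_.zpow_neg, zpow_natCast, ← pow_mul, pw_real, pw_real, ← _root_.zpow_mul]
  have h1 : (((-1 : ℝ) ^ (m * p))⁻¹) = (-1) ^ (m * p) := by
    rcases neg_one_pow_eq_or ℝ (m * p) with h | h <;> rw [h] <;> norm_num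
  rw [h1]
  congr 2
  ring

private theorem lam_pos_pow (hu : 1 < (u : ℝ)) (a m p : ℕ) : lam u a m ^ ((p : ℤ)) =
    (-1) ^ (m * p) * pw u (((a : ℤ) ^ 2 - 4 * a * m + 2 * (m : ℤ) ^ 2 - 2 * m) * p) := by
  unfold lam
  rw [mul_zpow, zpow_natCast, ← pow_mul, pw_real, pw_real, ← _root_.zpow_mul]

private theorem eta_pow (a k : ℕ) (d : ℤ) : eta u a k ^ (-d) =
    pw u (-(((3 * (a : ℤ) - 2 * k) * (3 * a - 2 * k + 2) - 3 * a * (a + 2)) * d)) := by
  unfold eta
  rw [pw_real, pw_real, ← _root_.zpow_mul]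
  congr 1
  ring

private theorem ex_gw (d : ℤ) (L : List (ℕ × ℕ)) :
    ex (gw d L) = (sq L : ℤ) - sp L - 6 * d := by
  have happ : ∀ w w' : List Letter, ex (w ++ w') = ex w + ex w' := by
    intro w w'
    simp [ex, List.map_append, List.sum_append]
  have hrep : ∀ (w : List Letter) (n : ℕ), ex (List.replicate n w).flatten = n * ex w := by
    intro w n
    induction n with
    | zero => simp [ex]
    | succ n ih =>
      rw [List.replicate_succ, List.flatten_cons, happ, ih]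
      push_cast
      ring
  have h1 : ex (tw d) = -(6 * d) := by
    unfold tw
    split_ifs with hd
    · rw [hrep]
      have : ex (ft false) = -6 := by simp [ex, ft]
      rw [this, Int.toNat_of_nonneg hd]
      ring
    · rw [hrep]
      have : ex (ft true) = 6 := by simp [ex, ft]
      rw [this, Int.toNat_of_nonneg (by omega)]
      ring
  have h2 : ∀ L : List (ℕ × ℕ), ex (blk L) = (sq L : ℤ) - sp L := by
    intro L
    induction L with
    | nil => simp [blk, ex, sq, sp]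
    | cons x L ih =>
      have h3 : blk (x :: L) = (pwr 1 false x.1 ++ pwr 0 true x.2) ++ blk L := by
        simp [blk]
      rw [h3, happ, happ, ih]
      have e1 : (sp (x :: L) : ℤ) = x.1 + sp L := by simp [sp]
      have e2 : (sq (x :: L) : ℤ) = x.2 + sq L := by simp [sq]
      rw [e1, e2]
      have e3 : ex (pwr 1 false x.1) = -(x.1 : ℤ) := by
        simp [ex, pwr, List.map_replicate, List.sum_replicate]
      have e4 : ex (pwr 0 true x.2) = (x.2 : ℤ) := by
        simp [ex, pwr, List.map_replicate, List.sum_replicate]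
      rw [e3, e4]
      ring
  unfold gw
  rw [happ, h1, h2]
  ring

private theorem core (hu : 1 < (u : ℝ)) (a k n1 n0 p q : ℕ) (d F : ℤ) (T : ℝ)
    (hF : F = -(((q : ℤ) - p - 6 * d) * (a * (a + 2))) + 2 * (3 * (a : ℤ) - 2 * k) -
      ((3 * (a : ℤ) - 2 * k) * (3 * a - 2 * k + 2) - 3 * a * (a + 2)) * d -
      ((a : ℤ) ^ 2 - 4 * a * n1 + 2 * (n1 : ℤ) ^ 2 - 2 * n1) * p +
      ((a : ℤ) ^ 2 - 4 * a * n0 + 2 * (n0 : ℤ) ^ 2 - 2 * n0) * q) :
    pw u (-(((q : ℤ) - p - 6 * d) * (a * (a + 2)))) * (qn u (3 * (a : ℤ) - 2 * k + 1) *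
      (eta u a k ^ (-d) * lam u a n1 ^ (-(p : ℤ)) * lam u a n0 ^ (q : ℤ) * T)) =
    (-1) ^ (n1 * p + n0 * q) * pw u F *
      ((1 - pw u (-(4 * (3 * (a : ℤ) - 2 * k + 1)))) / (1 - pw u (-4))) * T := by
  rw [eta_pow, lam_neg_pow hu, lam_pos_pow hu, qn_x hu, hF]
  have e : ∀ x1 x2 x3 x4 x5 : ℤ, pw u (x1 + x2 - x3 - x4 + x5) =
      pw u x1 * pw u x2 * pw u (-x3) * pw u (-x4) * pw u x5 := by
    intro x1 x2 x3 x4 x5
    rw [← pw_add, ← pw_add, ← pw_add, ← pw_add]
    congr 1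
  rw [e]
  have e2 : (2 * (3 * (a : ℤ) - 2 * k + 1) - 2) = 2 * (3 * (a : ℤ) - 2 * k) := by ring
  rw [e2, pow_add]
  ring

theorem term (hu : 1 < (u : ℝ)) (a : ℕ) (d : ℤ) (L : List (ℕ × ℕ)) :
    jt u a (gw d L) =
      (∑ s ∈ Finset.range (a + 1), (-1) ^ ((a - s) * sp L) * pw u (FB a (sp L) (sq L) d s) *
        ((1 - pw u (-(4 * ((a : ℤ) + 2 * s + 1)))) / (1 - pw u (-4))) * TT u a (a - s) L) +
      ∑ h ∈ Finset.Icc 1 (a / 2), (-1) ^ ((a - h) * sp L + h * sq L) *
        pw u (FA a (sp L) (sq L) d h) *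
        ((1 - pw u (-(4 * ((a : ℤ) - 2 * h + 1)))) / (1 - pw u (-4))) * TT u a (a + h) L := by
  rw [jt_eq hu, ex_gw, Finset.mul_sum]
  have hr : 3 * a / 2 + 1 = (a + 1) + a / 2 := by omega
  rw [hr, Finset.sum_range_add]
  congr 1
  · rw [← Finset.sum_range_reflect]
    apply Finset.sum_congr rfl
    intro s hs
    rw [Finset.mem_range] at hs
    have hk : 2 * (a + 1 - 1 - s) ≤ 3 * a := by omega
    have e0 : a + 1 - 1 - s = a - s := by omega
    rw [e0] at hk ⊢
    rw [tr_ev hu hk, tk hu hk]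
    have h0 : m0 a (a - s) = 0 := by unfold m0; omega
    have h1 : m1 a (a - s) = a - s := by unfold m1; omega
    rw [h0, h1, core hu a (a - s) (a - s) 0 (sp L) (sq L) d (FB a (sp L) (sq L) d s)]
    · have e1 : (a - s) * sp L + 0 * sq L = (a - s) * sp L := by ring
      rw [e1]
      congr 5
      push_cast [Nat.cast_sub (show s ≤ a by omega)]
      ring
    · unfold FB
      push_cast [Nat.cast_sub (show s ≤ a by omega)]
      ring
  · have hb : ∑ x ∈ Finset.range (a / 2), pw u (-(((sq L : ℤ) - sp L - 6 * d) * (a * (a + 2)))) *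
        (qn u (3 * (a : ℤ) - 2 * ((a + 1 + x : ℕ) : ℤ) + 1) *
        ((UQ u hu a).trw (wm u a (gw d L)) (3 * (a : ℤ) - 2 * ((a + 1 + x : ℕ) : ℤ)) -
          (UQ u hu a).trw (wm u a (gw d L)) (3 * (a : ℤ) - 2 * ((a + 1 + x : ℕ) : ℤ) + 2))) =
        ∑ h ∈ Finset.Icc 1 (a / 2), pw u (-(((sq L : ℤ) - sp L - 6 * d) * (a * (a + 2)))) *
        (qn u (3 * (a : ℤ) - 2 * ((a + h : ℕ) : ℤ) + 1) *
        ((UQ u hu a).trw (wm u a (gw d L)) (3 * (a : ℤ) - 2 * ((a + h : ℕ) : ℤ)) -
          (UQ u hu a).trw (wm u a (gw d L)) (3 * (a : ℤ) - 2 * ((a + h : ℕ) : ℤ) + 2))) := by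
      refine Finset.sum_nbij (fun x => x + 1) ?_ ?_ ?_ ?_
      · intro x hx
        simp only [Finset.mem_range, Finset.mem_Icc] at hx ⊢
        omega
      · intro x _ y _ hxy
        simpa using hxy
      · intro y hy
        simp only [Finset.coe_Icc, Set.mem_Icc, Finset.coe_range, Set.mem_image, Set.mem_Iio] at hy ⊢
        exact ⟨y - 1, by omega, by omega⟩
      · intro x _
        have : a + 1 + x = a + (x + 1) := by ring
        rw [this]
    rw [hb]
    apply Finset.sum_congr rfl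
    intro h hh
    rw [Finset.mem_Icc] at hh
    have hk : 2 * (a + h) ≤ 3 * a := by omega
    rw [tr_ev hu hk, tk hu hk]
    have h0 : m0 a (a + h) = h := by unfold m0; omega
    have h1 : m1 a (a + h) = a - h := by unfold m1; omega
    rw [h0, h1, core hu a (a + h) (a - h) h (sp L) (sq L) d (FA a (sp L) (sq L) d h)]
    · congr 5
      push_cast
      ring
    · unfold FA
      push_cast [Nat.cast_sub (show h ≤ a by omega)]
      ring

end Pool.Agent.KT
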