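import Pool.Agent.Work.MP_ab49bb_gt.TT1
import Pool.Agent.Work.MP_ab49bb_gt.Tk

/-!
# Gm (M): the degree if the maximal exponents have the same sign

`p = sp L`, `q = sq L`. Multiply the formula `term` by `v^(-D)`. Every term tends to `0` if its exponent is `< D` (`v^(F-D) → 0`, `TT → 1` by `tt_lim`, the fraction `(1 - v^(-4(t+1)))/(1 - v^(-4)) → 1`, `t + 1 ≥ 1`) and to its
sign if its exponent is `D`; by `hs` all those signs are `ε`. So `jt · v^(-D) → N ε` with `N ≥ 1` the number of the indices with exponent `D` (`hex`), `ε = ±1`; hence `c = 1/2`, `C = N + 1`. (`tendsto_finset_sum`.)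
The values of `k` in `term` satisfy `2k ≤ 3a`. For `v > 1`: `ru_gt`, `pw_ru`.
-/

set_option autoImplicit false

open Matrix

namespace Pool.Agent.KT

open Filter in
private theorem zp_lim {k : ℤ} (hk : k < 0) :
    Tendsto (fun v : ℝ => v ^ k) atTop (nhds 0) := by
  obtain ⟨n, hn⟩ : ∃ n : ℕ, k = -(n : ℤ) := ⟨k.natAbs, by omega⟩
  subst hn
  have hn : n ≠ 0 := by omega
  have := tendsto_pow_neg_atTop (𝕜 := ℝ) hn
  exact this

open Filter in
private theorem lim_term (F D t : ℤ) (c0 : ℝ) (ht : 1 ≤ t) (G : ℝ → ℝ)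
    (hG : Tendsto G atTop (nhds 1)) (hF : F ≤ D) :
    Tendsto (fun v => c0 * pw (ru v) F *
      ((1 - pw (ru v) (-(4 * t))) / (1 - pw (ru v) (-4))) * G v * v ^ (-D)) atTop
      (nhds (if F = D then c0 else 0)) := by
  have e1 : Tendsto (fun v : ℝ => 1 - v ^ (-(4 * t))) atTop (nhds 1) := by
    have := (tendsto_const_nhds (x := (1 : ℝ))).sub (zp_lim (k := -(4 * t)) (by omega))
    simpa using this
  have e2 : Tendsto (fun v : ℝ => 1 - v ^ (-4 : ℤ)) atTop (nhds 1) := by
    have := (tendsto_const_nhds (x := (1 : ℝ))).sub (zp_lim (k := -4) (by omega))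
    simpa using this
  have e3 : Tendsto (fun v : ℝ => (1 - v ^ (-(4 * t))) / (1 - v ^ (-4 : ℤ))) atTop (nhds 1) := by
    have := e1.div e2 one_ne_zero
    rw [div_one] at this
    exact this
  have e4 : Tendsto (fun v : ℝ => v ^ (F - D)) atTop (nhds (if F = D then 1 else 0)) := by
    split_ifs with h
    · rw [h, sub_self]
      simp
    · exact zp_lim (by omega)
  have e5 := ((e4.const_mul c0).mul e3).mul hG
  have e6 : c0 * (if F = D then (1 : ℝ) else 0) * 1 * 1 = if F = D then c0 else 0 := by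
    split_ifs <;> ring
  rw [e6] at e5
  refine e5.congr' ?_
  filter_upwards [eventually_gt_atTop 1] with v hv
  rw [pw_ru hv, pw_ru hv, pw_ru hv, sub_eq_add_neg F D, zpow_add₀ (by linarith : v ≠ 0)]
  ring

open Filter in
theorem gen_max {a : ℕ} {L : List (ℕ × ℕ)} (hL : GenL L) {d D : ℤ} (ε : ℝ) (hε : ε = 1 ∨ ε = -1)
    (h1 : ∀ s : ℕ, s ≤ a → FB a (sp L) (sq L) d s ≤ D ∧
      (FB a (sp L) (sq L) d s = D → (-1 : ℝ) ^ ((a - s) * sp L) = ε))
    (h2 : ∀ h : ℕ, 1 ≤ h → 2 * h ≤ a → FA a (sp L) (sq L) d h ≤ D ∧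
      (FA a (sp L) (sq L) d h = D → (-1 : ℝ) ^ ((a - h) * sp L + h * sq L) = ε))
    (hex : (∃ s : ℕ, s ≤ a ∧ FB a (sp L) (sq L) d s = D) ∨
      ∃ h : ℕ, 1 ≤ h ∧ 2 * h ≤ a ∧ FA a (sp L) (sq L) d h = D) :
    RDeg (gw d L) a D := by
  have hlim : Tendsto (fun v => jt (ru v) a (gw d L) * v ^ (-D)) atTop
      (nhds ((∑ s ∈ Finset.range (a + 1), if FB a (sp L) (sq L) d s = D then ε else 0) +
        ∑ h ∈ Finset.Icc 1 (a / 2), if FA a (sp L) (sq L) d h = D then ε else 0)) := by
    have hA : Tendsto (fun v => ∑ s ∈ Finset.range (a + 1),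
        (-1) ^ ((a - s) * sp L) * pw (ru v) (FB a (sp L) (sq L) d s) *
        ((1 - pw (ru v) (-(4 * ((a : ℤ) + 2 * s + 1)))) / (1 - pw (ru v) (-4))) *
        TT (ru v) a (a - s) L * v ^ (-D)) atTop
        (nhds (∑ s ∈ Finset.range (a + 1), if FB a (sp L) (sq L) d s = D then ε else 0)) := by
      apply tendsto_finsetSum
      intro s hs
      rw [Finset.mem_range] at hs
      have h3 := lim_term (FB a (sp L) (sq L) d s) D ((a : ℤ) + 2 * s + 1)
        ((-1) ^ ((a - s) * sp L)) (by omega) (fun v => TT (ru v) a (a - s) L)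
        (tt_lim (by omega) hL) (h1 s (by omega)).1
      have h4 : (if FB a (sp L) (sq L) d s = D then ((-1 : ℝ) ^ ((a - s) * sp L)) else 0) =
          if FB a (sp L) (sq L) d s = D then ε else 0 := by
        split_ifs with h5
        · exact (h1 s (by omega)).2 h5
        · rfl
      rw [h4] at h3
      exact h3
    have hB : Tendsto (fun v => ∑ h ∈ Finset.Icc 1 (a / 2),
        (-1) ^ ((a - h) * sp L + h * sq L) * pw (ru v) (FA a (sp L) (sq L) d h) *
        ((1 - pw (ru v) (-(4 * ((a : ℤ) - 2 * h + 1)))) / (1 - pw (ru v) (-4))) *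
        TT (ru v) a (a + h) L * v ^ (-D)) atTop
        (nhds (∑ h ∈ Finset.Icc 1 (a / 2), if FA a (sp L) (sq L) d h = D then ε else 0)) := by
      apply tendsto_finsetSum
      intro h hh
      rw [Finset.mem_Icc] at hh
      have h3 := lim_term (FA a (sp L) (sq L) d h) D ((a : ℤ) - 2 * h + 1)
        ((-1) ^ ((a - h) * sp L + h * sq L)) (by omega) (fun v => TT (ru v) a (a + h) L)
        (tt_lim (by omega) hL) (h2 h hh.1 (by omega)).1
      have h4 : (if FA a (sp L) (sq L) d h = D then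
          ((-1 : ℝ) ^ ((a - h) * sp L + h * sq L)) else 0) =
          if FA a (sp L) (sq L) d h = D then ε else 0 := by
        split_ifs with h5
        · exact (h2 h hh.1 (by omega)).2 h5
        · rfl
      rw [h4] at h3
      exact h3
    refine (hA.add hB).congr' ?_
    filter_upwards [eventually_gt_atTop 1] with v hv
    rw [term (ru_gt hv), add_mul, Finset.sum_mul, Finset.sum_mul]
  -- the limit is a nonzero multiple of ε
  set N1 := ∑ s ∈ Finset.range (a + 1), (if FB a (sp L) (sq L) d s = D then (1 : ℝ) else 0)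
    with hN1
  set N2 := ∑ h ∈ Finset.Icc 1 (a / 2), (if FA a (sp L) (sq L) d h = D then (1 : ℝ) else 0)
    with hN2
  have hsum : ((∑ s ∈ Finset.range (a + 1), if FB a (sp L) (sq L) d s = D then ε else 0) +
        ∑ h ∈ Finset.Icc 1 (a / 2), if FA a (sp L) (sq L) d h = D then ε else 0) =
        ε * (N1 + N2) := by
    rw [hN1, hN2, mul_add, Finset.mul_sum, Finset.mul_sum]
    congr 1
    · apply Finset.sum_congr rfl
      intro s _
      split_ifs <;> ring
    · apply Finset.sum_congr rfl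
      intro s _
      split_ifs <;> ring
  rw [hsum] at hlim
  have hn1 : 0 ≤ N1 := Finset.sum_nonneg fun s _ => by split_ifs <;> norm_num
  have hn2 : 0 ≤ N2 := Finset.sum_nonneg fun s _ => by split_ifs <;> norm_num
  have hN : 1 ≤ N1 + N2 := by
    rcases hex with ⟨s, hs, he⟩ | ⟨h, hh1, hh2, he⟩
    · have : (if FB a (sp L) (sq L) d s = D then (1 : ℝ) else 0) ≤ N1 :=
        Finset.single_le_sum (f := fun s : ℕ =>
          if FB a (sp L) (sq L) d s = D then (1 : ℝ) else 0)
          (fun s _ => by split_ifs <;> norm_num)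
          (Finset.mem_range.mpr (Nat.lt_succ_of_le hs))
      rw [if_pos he] at this
      linarith
    · have : (if FA a (sp L) (sq L) d h = D then (1 : ℝ) else 0) ≤ N2 :=
        Finset.single_le_sum (f := fun s : ℕ =>
          if FA a (sp L) (sq L) d s = D then (1 : ℝ) else 0)
          (fun s _ => by split_ifs <;> norm_num)
          (Finset.mem_Icc.mpr ⟨hh1, by omega⟩)
      rw [if_pos he] at this
      linarith
  refine ⟨1 / 2, N1 + N2 + 1, by norm_num, ?_⟩
  have hev := Metric.tendsto_atTop.mp hlim (1 / 2) (by norm_num)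
  obtain ⟨V, hV⟩ := hev
  filter_upwards [eventually_ge_atTop V, eventually_gt_atTop 1] with v hv hv1
  have h3 := hV v hv
  rw [Real.dist_eq] at h3
  have hv0 : (0 : ℝ) < v := by linarith
  have hp : 0 < v ^ D := zpow_pos hv0 D
  have h4 : jt (ru v) a (gw d L) = (jt (ru v) a (gw d L) * v ^ (-D)) * v ^ D := by
    rw [mul_assoc, ← zpow_add₀ hv0.ne', neg_add_cancel, zpow_zero, mul_one]
  set g := jt (ru v) a (gw d L) * v ^ (-D)
  have h5 : |ε * (N1 + N2)| = N1 + N2 := by
    rcases hε with h | h <;> rw [h]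
    · rw [one_mul, abs_of_nonneg (by linarith)]
    · rw [neg_one_mul, abs_neg, abs_of_nonneg (by linarith)]
  have h6 : |g| ≤ N1 + N2 + 1 / 2 := by
    have := abs_sub_abs_le_abs_sub g (ε * (N1 + N2))
    rw [h5] at this
    linarith
  have h7 : N1 + N2 - 1 / 2 ≤ |g| := by
    have := abs_sub_abs_le_abs_sub (ε * (N1 + N2)) g
    rw [h5, abs_sub_comm] at this
    linarith
  rw [h4, abs_mul, abs_of_pos hp]
  constructor
  · exact mul_le_mul_of_nonneg_right (by linarith) hp.le
  · exact mul_le_mul_of_nonneg_right (by linarith) hp.le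

end Pool.Agent.KT
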