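import Pool.Agent.Work.MP_ab49bb_gt.Co
import Pool.Agent.Work.MP_ab49bb_gt.Ga

/-!
# Hv (M): the highest weight vectors of `V ⊗ V`

`hc u b b' m (i+1) = - hc i * v^(-2(b'-2m+2i+2)) [b'-m+i+1] / [b-i]`, `um m = ∑_i hc a a m i e_i ⊗ e_(m-i)` (`m ≤ a`).

`hc_ne`: all factors `[b'-m+s+1]` (`s < i ≤ m ≤ b'`) are nonzero, so are the `[b-s]` (`s < i ≤ b`).
`hc_full`: `hc b b' m m = (-1)^m ∏_{s<m} v^(-2(b'-2m+2s+2)) [b'-m+s+1]/[b-s] = (-1)^m v^(-2m(b'-m+1)) ∏_{s<m}[b'-m+1+s] / ∏_{s<m} [b-s]`; in the product with `hc b' b m m` the quotients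
cancel (`∏_{s<m}[b-m+1+s] = ∏_{s<m}[b-s]` by `Finset.prod_range_reflect`, nonzero for `m ≤ b`), and the exponent is `-2m(b'-m+1) - 2m(b-m+1) = -2m(b+b') + 4m² - 4m`.
`hc_diag`: `b = b' = a`, `m ≤ a`: `hc a a m m = (-1)^m v^(-2m(a-m+1))` by the same computation.
`um_hw`: the coordinate `(p,q)` of `E um`, `p + q = m - 1`: `[a-q] c_p + v^(2(a-2q)) [a-p] c_(p+1)` (`tE` with `E' e_(q+1) = [a-q] e_q`, `E e_(p+1) = [a-p] e_p`), `q = m-1-p`:
`c_(p+1) = - c_p v^(-2(a-2m+2p+2)) [a-m+p+1] / [a-p]`. It vanishes. (The case `a - p = 0` does not occur: `p ≤ m - 1 < a`.)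
`hw_uniq`: let `x` be HW of weight `t`. Coordinates `(p,q)` with `2a - 2(p+q) ≠ t` vanish. If `t = 2a - 2m` with `m ≤ a`: `E x = 0` gives the same recursion
`x(p+1,q) [a-p] v^(2(a-2q)) = - [a-q] x(p,q+1)`, so `x = x(0,m) • um`. `hw_none`: if `t` is not of this form with `0 ≤ m ≤ a`, then `x = 0`: either `t < 0`
(`QM.hw_nonneg`), or no coordinate has weight `t` (parity or `t > 2a`).
`S_um`: `S um` is HW of weight `2a-2m` (`com_S`, `HW.com`), so `S um = (S um)(0,m) • um`, and `(S um)(0,m) = S (0,m) (m,0) * um (m,0) = v^((a-2m) a) hc a a m m` (only the column `(m,0)`, `l = 0`)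
`= (-1)^m v^(a²-2am-2am+2m²-2m) = lam m`. `lam_inj`: `|lam m| = v^(a²-4am+2m²-2m)` is strictly decreasing for `m ≤ a` (the difference of the exponents from `m` to `m+1` is `-4(a-m)`).
-/

set_option autoImplicit false

open Matrix

namespace Pool.Agent.KT

variable {u : ℝˣ}

private theorem hc_succ' (b b' m : ℤ) (i : ℕ) : hc u b b' m (i + 1) =
    -(hc u b b' m i * pw u (-(2 * (b' - 2 * m + 2 * i + 2))) * qn u (b' - m + i + 1) /
      qn u (b - i)) := rfl

theorem hc_ne (hu : 1 < (u : ℝ)) {b b' m i : ℕ} (hm : m ≤ b') (hi : i ≤ b) :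
    hc u b b' m i ≠ 0 := by
  induction i with
  | zero => exact one_ne_zero
  | succ i ih =>
    rw [hc_succ']
    have h1 := ih (by omega)
    have h2 : qn u ((b' : ℤ) - m + i + 1) ≠ 0 := qn_ne hu (by omega)
    have h3 : qn u ((b : ℤ) - i) ≠ 0 := qn_ne hu (by omega)
    exact neg_ne_zero.2 (div_ne_zero (mul_ne_zero (mul_ne_zero h1 (pw_pos hu _).ne') h2) h3)

private theorem hc_gen (hu : 1 < (u : ℝ)) {b : ℕ} (b' m : ℤ) {i : ℕ} (hi : i ≤ b) :
    hc u b b' m i * ∏ s ∈ Finset.range i, qn u ((b : ℤ) - s) =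
      (-1) ^ i * pw u (-(2 * i * (b' - 2 * m + i + 1))) *
        ∏ s ∈ Finset.range i, qn u (b' - m + s + 1) := by
  induction i with
  | zero =>
    simp [hc, pw_zero]
  | succ i ih =>
    have h1 := ih (by omega)
    have h3 : qn u ((b : ℤ) - i) ≠ 0 := qn_ne hu (by omega)
    rw [hc_succ', Finset.prod_range_succ, Finset.prod_range_succ]
    have e : pw u (-(2 * ((i + 1 : ℕ) : ℤ) * (b' - 2 * m + ((i + 1 : ℕ) : ℤ) + 1))) =
        pw u (-(2 * i * (b' - 2 * m + i + 1))) * pw u (-(2 * (b' - 2 * m + 2 * i + 2))) := by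
      rw [← pw_add]
      congr 1
      push_cast
      ring
    rw [e, pow_succ]
    have h4 : -(hc u b b' m i * pw u (-(2 * (b' - 2 * m + 2 * i + 2))) * qn u (b' - m + i + 1) /
        qn u ((b : ℤ) - i)) * ((∏ s ∈ Finset.range i, qn u ((b : ℤ) - s)) * qn u ((b : ℤ) - i)) =
        -((hc u b b' m i * ∏ s ∈ Finset.range i, qn u ((b : ℤ) - s)) *
          pw u (-(2 * (b' - 2 * m + 2 * i + 2))) * qn u (b' - m + i + 1)) := by
      field_simp
    rw [h4, h1]
    ring

private theorem refl_prod (c m : ℕ) :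
    ∏ s ∈ Finset.range m, qn u ((c : ℤ) - m + s + 1) = ∏ s ∈ Finset.range m, qn u ((c : ℤ) - s) := by
  rw [← Finset.prod_range_reflect]
  refine Finset.prod_congr rfl fun s hs => ?_
  rw [Finset.mem_range] at hs
  congr 1
  omega

private theorem Q_ne (hu : 1 < (u : ℝ)) {c m : ℕ} (h : m ≤ c) :
    ∏ s ∈ Finset.range m, qn u ((c : ℤ) - s) ≠ 0 := by
  refine Finset.prod_ne_zero_iff.2 fun s hs => ?_
  rw [Finset.mem_range] at hs
  exact qn_ne hu (by omega)

private theorem hc_mm (hu : 1 < (u : ℝ)) {b b' m : ℕ} (hb : m ≤ b) :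
    hc u b b' m m * ∏ s ∈ Finset.range m, qn u ((b : ℤ) - s) =
      (-1) ^ m * pw u (-(2 * m * ((b' : ℤ) - m + 1))) *
        ∏ s ∈ Finset.range m, qn u ((b' : ℤ) - s) := by
  have h1 := hc_gen hu (b' : ℤ) (m : ℤ) hb
  rw [refl_prod] at h1
  rw [h1]
  have e : -(2 * (m : ℤ) * ((b' : ℤ) - 2 * m + m + 1)) = -(2 * m * ((b' : ℤ) - m + 1)) := by ring
  rw [e]

theorem hc_full (hu : 1 < (u : ℝ)) {b b' m : ℕ} (hb : m ≤ b) (hb' : m ≤ b') :
    hc u b b' m m * hc u b' b m m =
      pw u (-(2 * m * ((b : ℤ) + b')) + 4 * (m : ℤ) ^ 2 - 4 * m) := by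
  have h1 := hc_mm hu (b' := b') hb
  have h2 := hc_mm hu (b' := b) hb'
  have q1 := Q_ne hu hb
  have q2 := Q_ne hu hb'
  have hs : ((-1 : ℝ) ^ m) * (-1) ^ m = 1 := by
    rw [← mul_pow]
    norm_num
  have e : pw u (-(2 * m * ((b : ℤ) + b')) + 4 * (m : ℤ) ^ 2 - 4 * m) =
      pw u (-(2 * m * ((b' : ℤ) - m + 1))) * pw u (-(2 * m * ((b : ℤ) - m + 1))) := by
    rw [← pw_add]
    congr 1
    ring
  rw [e]
  apply mul_right_cancel₀ (mul_ne_zero q1 q2)
  calc hc u b b' m m * hc u b' b m m * ((∏ s ∈ Finset.range m, qn u ((b : ℤ) - s)) *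
        ∏ s ∈ Finset.range m, qn u ((b' : ℤ) - s))
      = (hc u b b' m m * ∏ s ∈ Finset.range m, qn u ((b : ℤ) - s)) *
        (hc u b' b m m * ∏ s ∈ Finset.range m, qn u ((b' : ℤ) - s)) := by ring
    _ = (((-1 : ℝ) ^ m) * (-1) ^ m) * (pw u (-(2 * m * ((b' : ℤ) - m + 1))) *
        pw u (-(2 * m * ((b : ℤ) - m + 1))) * ((∏ s ∈ Finset.range m, qn u ((b : ℤ) - s)) *
        ∏ s ∈ Finset.range m, qn u ((b' : ℤ) - s))) := by
        rw [h1, h2]
        ring
    _ = _ := by rw [hs, one_mul]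

theorem hc_diag (hu : 1 < (u : ℝ)) {a m : ℕ} (h : m ≤ a) :
    hc u a a m m = (-1) ^ m * pw u (-(2 * m * ((a : ℤ) - m + 1))) :=
  mul_right_cancel₀ (Q_ne hu h) (hc_mm hu h)

/-- extension by zero -/
private noncomputable def xx {a : ℕ} (x : Fin (a + 1) × Fin (a + 1) → ℝ) (p q : ℕ) : ℝ :=
  if h : p < a + 1 ∧ q < a + 1 then x (⟨p, h.1⟩, ⟨q, h.2⟩) else 0

private theorem xx_eq {a : ℕ} (x : Fin (a + 1) × Fin (a + 1) → ℝ) (p q : Fin (a + 1)) :
    xx x p q = x (p, q) := by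
  unfold xx
  rw [dif_pos ⟨p.2, q.2⟩]

private theorem E_apply (hu : 1 < (u : ℝ)) {a : ℕ} (x : Fin (a + 1) × Fin (a + 1) → ℝ)
    (p q : Fin (a + 1)) : ((VVQ u hu a).E *ᵥ x) (p, q) =
      qn u ((a : ℤ) - (q : ℕ)) * xx x p (q + 1) +
        qn u ((a : ℤ) - (p : ℕ)) * pw u (2 * vw a q) * xx x (p + 1) q := by
  have hE : ∀ y : Fin (a + 1) × Fin (a + 1), (VVQ u hu a).E (p, q) y =
      (if p = y.1 then vE u a q y.2 else 0) +
        if q = y.2 then vE u a p y.1 * pw u (2 * vw a y.2) else 0 := fun y => rfl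
  rw [Matrix.mulVec, dotProduct, Fintype.sum_prod_type]
  simp only [hE, add_mul]
  simp only [Finset.sum_add_distrib]
  congr 1
  · rw [Finset.sum_eq_single p]
    · simp only [if_true]
      by_cases hq : (q : ℕ) + 1 < a + 1
      · rw [Finset.sum_eq_single (⟨(q : ℕ) + 1, hq⟩ : Fin (a + 1))]
        · unfold vE xx
          rw [if_pos rfl, dif_pos ⟨p.2, hq⟩]
        · intro j _ hj
          unfold vE
          rw [if_neg (fun h => hj (Fin.ext h.symm)), zero_mul]
        · intro h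
          exact absurd (Finset.mem_univ _) h
      · have h0 : xx x p (q + 1) = 0 := by
          unfold xx
          rw [dif_neg (fun h => hq h.2)]
        rw [h0, mul_zero]
        refine Finset.sum_eq_zero fun j _ => ?_
        unfold vE
        rw [if_neg (fun h => by have := j.2; omega), zero_mul]
    · intro i _ hi
      refine Finset.sum_eq_zero fun j _ => ?_
      rw [if_neg (fun h => hi h.symm), zero_mul]
    · intro h
      exact absurd (Finset.mem_univ _) h
  · rw [Finset.sum_comm, Finset.sum_eq_single q]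
    · simp only [if_true]
      by_cases hp : (p : ℕ) + 1 < a + 1
      · rw [Finset.sum_eq_single (⟨(p : ℕ) + 1, hp⟩ : Fin (a + 1))]
        · unfold vE xx
          rw [if_pos rfl, dif_pos ⟨hp, q.2⟩]
        · intro j _ hj
          unfold vE
          rw [if_neg (fun h => hj (Fin.ext h.symm)), zero_mul, zero_mul]
        · intro h
          exact absurd (Finset.mem_univ _) h
      · have h0 : xx x (p + 1) q = 0 := by
          unfold xx
          rw [dif_neg (fun h => hp h.1)]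
        rw [h0, mul_zero]
        refine Finset.sum_eq_zero fun j _ => ?_
        unfold vE
        rw [if_neg (fun h => by have := j.2; omega), zero_mul, zero_mul]
    · intro i _ hi
      refine Finset.sum_eq_zero fun j _ => ?_
      rw [if_neg (fun h => hi h.symm), zero_mul]
    · intro h
      exact absurd (Finset.mem_univ _) h

private theorem wt_apply (hu : 1 < (u : ℝ)) {a : ℕ} (x : Fin (a + 1) × Fin (a + 1)) :
    (VVQ u hu a).wt x = 2 * (a : ℤ) - 2 * ((x.1 : ℕ) + (x.2 : ℕ)) := by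
  have h : (VVQ u hu a).wt x = ((a : ℤ) - 2 * (x.1 : ℕ)) + ((a : ℤ) - 2 * (x.2 : ℕ)) := rfl
  rw [h]
  ring

private theorem xx_um {a m : ℕ} (p q : ℕ) (hp : p < a + 1) (hq : q < a + 1) :
    xx (um u a m) p q = if p + q = m then hc u a a m p else 0 := by
  unfold xx um
  rw [dif_pos ⟨hp, hq⟩]

theorem um_hw (hu : 1 < (u : ℝ)) {a m : ℕ} (h : m ≤ a) :
    (VVQ u hu a).HW (2 * (a : ℤ) - 2 * m) (um u a m) := by
  refine ⟨fun x hx => ?_, ?_⟩
  · unfold um
    rw [wt_apply] at hx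
    rw [if_neg]
    intro h1
    apply hx
    rw [← h1]
    push_cast
    ring
  · funext x
    obtain ⟨p, q⟩ := x
    rw [E_apply, Pi.zero_apply]
    by_cases h1 : (p : ℕ) + q + 1 = m
    · rw [xx_um _ _ p.2 (by omega), xx_um _ _ (by omega) q.2, if_pos (by omega), if_pos (by omega),
        hc_succ']
      have h3 : qn u ((a : ℤ) - (p : ℕ)) ≠ 0 := qn_ne hu (by omega)
      have e1 : (a : ℤ) - m + (p : ℕ) + 1 = (a : ℤ) - (q : ℕ) := by omega
      have e2 : pw u (2 * vw a q) * pw u (-(2 * ((a : ℤ) - 2 * m + 2 * (p : ℕ) + 2))) = 1 := by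
        rw [← pw_add]
        have e3 : 2 * vw a q + -(2 * ((a : ℤ) - 2 * m + 2 * (p : ℕ) + 2)) = 0 := by
          unfold vw
          omega
        rw [e3, pw_zero]
      rw [e1]
      have h4 : qn u ((a : ℤ) - (p : ℕ)) * pw u (2 * vw a q) *
          -(hc u a a m p * pw u (-(2 * ((a : ℤ) - 2 * m + 2 * (p : ℕ) + 2))) *
            qn u ((a : ℤ) - (q : ℕ)) / qn u ((a : ℤ) - (p : ℕ))) =
          -((pw u (2 * vw a q) * pw u (-(2 * ((a : ℤ) - 2 * m + 2 * (p : ℕ) + 2)))) *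
            hc u a a m p * qn u ((a : ℤ) - (q : ℕ))) := by
        field_simp
      rw [h4, e2]
      ring
    · have h2 : xx (um u a m) p (q + 1) = 0 := by
        by_cases hq : (q : ℕ) + 1 < a + 1
        · rw [xx_um _ _ p.2 hq, if_neg (by omega)]
        · unfold xx
          rw [dif_neg (fun h => hq h.2)]
      have h3 : xx (um u a m) (p + 1) q = 0 := by
        by_cases hp : (p : ℕ) + 1 < a + 1
        · rw [xx_um _ _ hp q.2, if_neg (by omega)]
        · unfold xx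
          rw [dif_neg (fun h => hp h.1)]
      rw [h2, h3, mul_zero, mul_zero, add_zero]

theorem um_zero (a m : ℕ) (h : m < a + 1) : um u a m (0, ⟨m, h⟩) = 1 := by
  unfold um
  rw [if_pos (by simp)]
  rfl

private theorem hw_zero (hu : 1 < (u : ℝ)) {a m : ℕ} (h : m < a + 1)
    {x : Fin (a + 1) × Fin (a + 1) → ℝ}
    (hx : (VVQ u hu a).HW (2 * (a : ℤ) - 2 * m) x) (h0 : x (0, ⟨m, h⟩) = 0) : x = 0 := by
  have key : ∀ p q : ℕ, p + q = m → xx x p q = 0 := by
    intro p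
    induction p with
    | zero =>
      intro q hq
      rw [zero_add] at hq
      subst hq
      unfold xx
      rw [dif_pos ⟨Nat.succ_pos _, h⟩]
      exact h0
    | succ p ih =>
      intro q hq
      have h1 := ih (q + 1) (by omega)
      have h2 := congrFun hx.E (⟨p, by omega⟩, ⟨q, by omega⟩)
      rw [E_apply, Pi.zero_apply] at h2
      simp only at h2
      rw [h1, mul_zero, zero_add] at h2
      have h3 : qn u ((a : ℤ) - (p : ℕ)) ≠ 0 := qn_ne hu (by omega)
      rcases mul_eq_zero.1 h2 with h4 | h4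
      · rcases mul_eq_zero.1 h4 with h5 | h5
        · exact absurd h5 h3
        · exact absurd h5 (pw_pos hu _).ne'
      · exact h4
  funext y
  obtain ⟨p, q⟩ := y
  by_cases h1 : (p : ℕ) + q = m
  · rw [← xx_eq x p q, key p q h1]
    rfl
  · refine hx.wt (p, q) ?_
    rw [wt_apply]
    simp only
    omega

theorem hw_uniq (hu : 1 < (u : ℝ)) {a m : ℕ} (h : m < a + 1) {x : Fin (a + 1) × Fin (a + 1) → ℝ}
    (hx : (VVQ u hu a).HW (2 * (a : ℤ) - 2 * m) x) : x = x (0, ⟨m, h⟩) • um u a m := by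
  have h1 : (VVQ u hu a).HW (2 * (a : ℤ) - 2 * m) (x + (-(x (0, ⟨m, h⟩))) • um u a m) :=
    hx.add ((um_hw hu (by omega)).smul _)
  have h2 := hw_zero hu h h1 (by
    rw [Pi.add_apply, Pi.smul_apply, um_zero, smul_eq_mul]
    ring)
  rw [neg_smul] at h2
  exact add_neg_eq_zero.1 h2

theorem hw_none (hu : 1 < (u : ℝ)) {a : ℕ} {t : ℤ} (h : ∀ m ≤ a, t ≠ 2 * (a : ℤ) - 2 * m)
    {x : Fin (a + 1) × Fin (a + 1) → ℝ} (hx : (VVQ u hu a).HW t x) : x = 0 := by
  by_cases ht : t < 0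
  · exact (VVQ u hu a).hw_nonneg hu ht hx
  · funext y
    refine hx.wt y ?_
    intro h1
    rw [wt_apply] at h1
    have h2 := h ((y.1 : ℕ) + y.2) (by omega)
    apply h2
    rw [← h1]
    push_cast
    ring

theorem S_um (hu : 1 < (u : ℝ)) {a m : ℕ} (h : m ≤ a) :
    S u a *ᵥ um u a m = lam u a m • um u a m := by
  have h1 : (VVQ u hu a).HW (2 * (a : ℤ) - 2 * m) (S u a *ᵥ um u a m) :=
    (um_hw hu h).com (com_S hu a)
  have h2 := hw_uniq hu (show m < a + 1 by omega) h1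
  rw [h2]
  congr 1
  rw [Matrix.mulVec, dotProduct, Finset.sum_eq_single ((⟨m, by omega⟩, 0) : Fin (a + 1) × Fin (a + 1))]
  · have e1 : S u a (0, ⟨m, by omega⟩) (⟨m, by omega⟩, 0) = pw u (((a : ℤ) - 2 * m) * a) := by
      unfold S
      simp only [Fin.val_zero, zero_add, add_zero, le_refl, and_self, if_true, Nat.sub_self]
      unfold rc
      simp [gb]
    have e2 : um u a m (⟨m, by omega⟩, 0) = hc u a a m m := by
      unfold um
      simp
    rw [e1, e2, hc_diag hu h]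
    unfold lam
    rw [mul_left_comm, ← pw_add]
    congr 2
    ring
  · rintro ⟨i, j⟩ _ hne
    have e1 : S u a (0, ⟨m, by omega⟩) (i, j) = 0 ∨ um u a m (i, j) = 0 := by
      by_cases hs : (i : ℕ) + j = m
      · left
        unfold S
        rw [if_neg]
        rintro ⟨-, h4⟩
        apply hne
        simp only at h4
        rw [Prod.mk.injEq]
        constructor
        · apply Fin.ext
          simp only
          omega
        · apply Fin.ext
          simp only [Fin.val_zero]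
          omega
      · right
        unfold um
        rw [if_neg hs]
    rcases e1 with e | e
    · rw [e, zero_mul]
    · rw [e, mul_zero]
  · intro h3
    exact absurd (Finset.mem_univ _) h3

theorem lam_ne (hu : 1 < (u : ℝ)) (a m : ℕ) : lam u a m ≠ 0 :=
  mul_ne_zero (pow_ne_zero _ (by norm_num)) (pw_pos hu _).ne'

theorem lam_inj (hu : 1 < (u : ℝ)) {a m m' : ℕ} (h : m ≤ a) (h' : m' ≤ a)
    (he : lam u a m = lam u a m') : m = m' := by
  have h1 : ∀ m, |lam u a m| = pw u ((a : ℤ) ^ 2 - 4 * a * m + 2 * (m : ℤ) ^ 2 - 2 * m) := by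
    intro m
    unfold lam
    rw [abs_mul, abs_pow, abs_neg, abs_one, one_pow, one_mul, abs_of_pos (pw_pos hu _)]
  have h2 := congrArg abs he
  rw [h1, h1] at h2
  have h3 := pw_inj hu h2
  have h4 : ((m : ℤ) - m') * ((m : ℤ) + m' - 1 - 2 * a) = 0 := by linarith
  rcases mul_eq_zero.1 h4 with h5 | h5
  · omega
  · omega

end Pool.Agent.KT
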