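import Pool.Agent.Work.MP_ab49bb_gt.Mp

/-!
# Lau (M): the degree of a Laurent polynomial from its growth

`deg_of_growth`: let `f : ℤ[T;T⁻¹]`, `g v = ev f v` its value at the real number `v` (`v > 1`), and `c v^D ≤ |g v| ≤ C v^D` for large `v`, `0 < c`.
Then `f ≠ 0` (otherwise `g = 0`). Let `m = f.degree` (an integer, the maximum of the support). `g v = ∑_{i ∈ supp} f_i v^i`
(`LaurentPolynomial.eval₂` of a finite sum `∑ C (f_i) * T i`, `LaurentPolynomial.eval₂_C_mul_T`), so `g v * v^(-m) → f_m ≠ 0` for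
`v → ∞` (finite sum; `v^(i-m) → 0` for `i < m`: `tendsto_zpow_atTop_zero`). Then `|g v| v^(-D) = |g v v^(-m)| v^(m-D)`
lies between `c` and `C` for large `v`, which forces `m = D`: if `m < D` it tends to `0`, if `m > D` it tends to infinity
(`tendsto_zpow_atTop_atTop`). `cj_degree`: apply it with `cj_eval` (for `v > 1` the unit `ru v` has the value `v`).
`LaurentPolynomial.degree` is defined in `Mathlib/Algebra/Polynomial/Laurent.lean` (maximum of the support in `WithBot ℤ`).
-/

set_option autoImplicit false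

open LaurentPolynomial

namespace Pool.Agent.KT

private theorem lp_sum (f : ℤ[T;T⁻¹]) : f = ∑ n ∈ f.coeff.support, C (f.coeff n) * T n := by
  ext a
  simp_rw [← single_eq_C_mul_T]
  simp only [AddMonoidAlgebra.coeff_sum, AddMonoidAlgebra.coeff_single]
  rw [Finset.sum_apply', Finset.sum_eq_single a, Finsupp.single_eq_same]
  · intro b _ hb
    rw [Finsupp.single_eq_of_ne' hb]
  · intro ha
    rw [Finsupp.single_eq_same, Finsupp.notMem_support_iff.mp ha]

private theorem ev_eq {v : ℝ} (hv : v ≠ 0) (f : ℤ[T;T⁻¹]) :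
    eval₂ (Int.castRingHom ℝ) (ru v) f = ∑ n ∈ f.coeff.support, (f.coeff n : ℝ) * v ^ n := by
  have hu : (ru v : ℝ) = v := by
    rw [ru, dif_pos hv]
    rfl
  conv_lhs => rw [lp_sum f]
  rw [map_sum]
  refine Finset.sum_congr rfl fun n _ => ?_
  rw [eval₂_C_mul_T, Units.val_zpow_eq_zpow_val, hu]
  rfl

theorem deg_of_growth (f : ℤ[T;T⁻¹]) (D : ℤ) (c C : ℝ) (hc : 0 < c)
    (h : ∀ᶠ v : ℝ in Filter.atTop, c * v ^ D ≤ |eval₂ (Int.castRingHom ℝ) (ru v) f| ∧
      |eval₂ (Int.castRingHom ℝ) (ru v) f| ≤ C * v ^ D) :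
    f.degree = (D : WithBot ℤ) := by
  have hf : f ≠ 0 := by
    rintro rfl
    obtain ⟨v, h1, h2⟩ := (h.and (Filter.eventually_gt_atTop (0 : ℝ))).exists
    have h3 := h1.1
    rw [map_zero, abs_zero] at h3
    have h4 : 0 < c * v ^ D := mul_pos hc (zpow_pos h2 D)
    linarith
  have hne : f.coeff.support.Nonempty := by
    rw [Finset.nonempty_iff_ne_empty]
    intro h1
    apply hf
    rw [lp_sum f, h1, Finset.sum_empty]
  set m := f.coeff.support.max' hne with hm
  have hdeg : f.degree = (m : WithBot ℤ) := (Finset.coe_max' hne).symm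
  have hmS : m ∈ f.coeff.support := Finset.max'_mem _ hne
  have hm0 : (f.coeff m : ℝ) ≠ 0 := by
    rw [Finsupp.mem_support_iff] at hmS
    exact_mod_cast hmS
  have hlim : Filter.Tendsto (fun v : ℝ => |eval₂ (Int.castRingHom ℝ) (ru v) f| * v ^ (-m))
      Filter.atTop (nhds |(f.coeff m : ℝ)|) := by
    have h1 : Filter.Tendsto (fun v : ℝ => ∑ n ∈ f.coeff.support, (f.coeff n : ℝ) * v ^ (n - m))
        Filter.atTop (nhds (∑ n ∈ f.coeff.support, if n = m then (f.coeff m : ℝ) else 0)) := by
      refine tendsto_finsetSum _ fun n hn => ?_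
      by_cases hnm : n = m
      · rw [if_pos hnm, hnm]
        simp
      · rw [if_neg hnm]
        have h2 : n - m < 0 := by
          have := Finset.le_max' _ n hn
          have h3 : n < m := lt_of_le_of_ne this hnm
          omega
        have h3 := (tendsto_zpow_atTop_zero (𝕜 := ℝ) h2).const_mul (f.coeff n : ℝ)
        rwa [mul_zero] at h3
    rw [Finset.sum_ite_eq', if_pos hmS] at h1
    refine h1.abs.congr' ?_
    filter_upwards [Filter.eventually_gt_atTop (0 : ℝ)] with v hv
    rw [ev_eq hv.ne', ← abs_of_pos (zpow_pos hv (-m)), ← abs_mul, Finset.sum_mul]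
    congr 1
    refine Finset.sum_congr rfl fun n _ => ?_
    rw [mul_assoc, ← zpow_add₀ hv.ne', sub_eq_add_neg]
  have key : m = D := by
    rcases lt_trichotomy m D with h1 | h1 | h1
    · exfalso
      have h2 := hlim.mul (tendsto_zpow_atTop_zero (𝕜 := ℝ) (show m - D < 0 by omega))
      rw [mul_zero] at h2
      have h3 : c ≤ 0 := by
        refine ge_of_tendsto h2 ?_
        filter_upwards [h, Filter.eventually_gt_atTop (0 : ℝ)] with v h4 hv
        rw [mul_assoc, ← zpow_add₀ hv.ne', show -m + (m - D) = -D by ring]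
        have h5 := mul_le_mul_of_nonneg_right h4.1 (zpow_pos hv (-D)).le
        rwa [mul_assoc, ← zpow_add₀ hv.ne', add_neg_cancel, zpow_zero, mul_one] at h5
      linarith
    · exact h1
    · exfalso
      have h2 := (tendsto_zpow_atTop_zero (𝕜 := ℝ) (show D - m < 0 by omega)).const_mul C
      rw [mul_zero] at h2
      have h3 : |(f.coeff m : ℝ)| ≤ 0 := by
        refine le_of_tendsto_of_tendsto hlim h2 ?_
        filter_upwards [h, Filter.eventually_gt_atTop (0 : ℝ)] with v h4 hv
        have h5 := mul_le_mul_of_nonneg_right h4.2 (zpow_pos hv (-m)).le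
        rwa [mul_assoc, ← zpow_add₀ hv.ne', ← sub_eq_add_neg] at h5
      exact hm0 (abs_nonpos_iff.mp h3)
  rw [hdeg, key]

theorem cj_degree {w : List Letter} {n : ℕ} {D : ℤ} (h : RDeg w (n - 1) D) :
    (cj w n).degree = (D : WithBot ℤ) := by
  obtain ⟨c, C, hc, h1⟩ := h
  refine deg_of_growth (cj w n) D c C hc ?_
  filter_upwards [h1] with v hv
  rw [cj_eval]
  exact hv

end Pool.Agent.KT
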