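import Pool.Agent.Work.MP_ab49bb_gt.RDefs

/-!
# Nf1 (M-L): conjugacy normal form in the braid group on three strands

`gA = σ1σ2σ1`, `gB = σ2σ1`, `gH = (σ1σ2)^3`. Facts (from `σ1σ2σ1 = σ2σ1σ2`): `gA² = gH`, `gB³ = gH`, `gH` is central (it commutes with `σ1` and `σ2`: `gA σ1 = σ2 gA`, `gA σ2 = σ1 gA`), `gA gB⁻¹ = σ1`, `gA gB = gH σ2⁻¹`, `gB⁻¹ gA = σ2`.
Letters: `inductive`-free: let `e : Fin 3 → B3` with `e 0 = gA`, `e 1 = gB`, `e 2 = gB⁻¹`. Every element of `B3` is `gH^k * (product of letters)` (the generators are `σ1 = gA gB⁻¹`, `σ2 = gB⁻¹ gA` and `σ1⁻¹ = gB gA⁻¹ = gH⁻¹ gB gA`, `σ2⁻¹ = gA⁻¹ gB = gH⁻¹ gA gB`).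
Claim for `g = gH^k ∏ c` by strong induction on the length of `c`: (0) length `0`: `g = gH^k`; length `1`: `g = gH^k gA`, `gH^k gB^(±1)`. (1) If two cyclically adjacent letters of `c` (length `≥ 2`) are both `gA`, or both in `{gB, gB⁻¹}`: conjugate (rotate the list) so that
they are the first two, and shorten: `gA gA = gH`, `gB gB = gH gB⁻¹`, `gB⁻¹ gB⁻¹ = gH⁻¹ gB`, `gB gB⁻¹ = 1`: length drops; induction. (2) Otherwise letters `gA` and `gB^(±1)` alternate cyclically; rotate so that the first letter is `gA`: `c = gA b_1 gA b_2 .. gA b_n`, `b_i ∈ {gB, gB⁻¹}`, `n ≥ 1`: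
`gA gB⁻¹ = σ1`, `gA gB = gH σ2⁻¹`, so `g` is conjugate to `gH^(k') ∏ (σ1 or σ2⁻¹)`: the last alternative (`true` for `σ1`, `false` for `σ2⁻¹`).
A simpler organisation of (1), (2): prove first the statement `P`: every `g` is conjugate to `gH^k ∏ c` with `c` of minimal length among all such representations of conjugates; minimality excludes all reductions of cyclically adjacent letters; then `c` has length `≤ 1` or alternates.
-/

set_option autoImplicit false

namespace Pool.Agent.KT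

private theorem rel : sg 0 * sg 1 * sg 0 = sg 1 * sg 0 * sg 1 := by
  have h : (PresentedGroup.mk rels) (FreeGroup.of 0 * FreeGroup.of 1 * FreeGroup.of 0 *
    (FreeGroup.of 1 * FreeGroup.of 0 * FreeGroup.of 1)⁻¹) = 1 :=
    PresentedGroup.one_of_mem rfl
  rw [map_mul, map_inv, mul_inv_eq_one] at h
  simpa [sg, PresentedGroup.of] using h

theorem gA_sq : gA * gA = gH := by
  have h := rel
  calc gA * gA = sg 0 * sg 1 * sg 0 * (sg 0 * sg 1 * sg 0) := rfl
    _ = sg 0 * sg 1 * sg 0 * (sg 1 * sg 0 * sg 1) := by rw [h]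
    _ = gH := by simp only [gH, pow_succ, pow_zero, one_mul, mul_assoc]

theorem gB_cube : gB * gB * gB = gH := by
  have h := rel
  calc gB * gB * gB = (sg 1 * sg 0 * sg 1) * (sg 0 * sg 1 * sg 0) := by
        simp only [gB, mul_assoc]
    _ = (sg 0 * sg 1 * sg 0) * (sg 0 * sg 1 * sg 0) := by rw [h]
    _ = gH := gA_sq

private theorem gA_s0 : gA * sg 0 = sg 1 * gA := by
  have h := rel
  calc gA * sg 0 = (sg 0 * sg 1 * sg 0) * sg 0 := rfl
    _ = (sg 1 * sg 0 * sg 1) * sg 0 := by rw [h]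
    _ = sg 1 * gA := by simp only [gA, mul_assoc]

private theorem gA_s1 : gA * sg 1 = sg 0 * gA := by
  have h := rel
  calc gA * sg 1 = sg 0 * (sg 1 * sg 0 * sg 1) := by simp only [gA, mul_assoc]
    _ = sg 0 * (sg 0 * sg 1 * sg 0) := by rw [h]
    _ = sg 0 * gA := rfl

theorem gH_comm (g : B3) : gH * g = g * gH := by
  have h : g ∈ Subgroup.centralizer {gH} := by
    refine PresentedGroup.generated_by rels _ ?_ g
    intro j
    rw [Subgroup.mem_centralizer_singleton_iff]
    change sg j * gH = gH * sg j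
    fin_cases j
    · change sg 0 * gH = gH * sg 0
      rw [← gA_sq, mul_assoc, gA_s0, ← mul_assoc gA, gA_s1, mul_assoc]
    · change sg 1 * gH = gH * sg 1
      rw [← gA_sq, mul_assoc, gA_s1, ← mul_assoc gA, gA_s0, mul_assoc]
  rw [Subgroup.mem_centralizer_singleton_iff] at h
  exact h.symm

theorem gA_gB_inv : gA * gB⁻¹ = sg 0 := by
  simp only [gA, gB, mul_inv_rev, mul_assoc, mul_inv_cancel_left]
  rw [mul_inv_cancel, mul_one]

theorem gA_gB : gA * gB = gH * (sg 1)⁻¹ := by
  rw [← gA_sq, eq_mul_inv_iff_mul_eq]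
  have h := rel
  calc gA * gB * sg 1 = gA * (sg 1 * sg 0 * sg 1) := by simp only [gB, mul_assoc]
    _ = gA * (sg 0 * sg 1 * sg 0) := by rw [h]
    _ = gA * gA := rfl

theorem gB_inv_gA : gB⁻¹ * gA = sg 1 := by
  rw [inv_mul_eq_iff_eq_mul]
  have h := rel
  calc gA = sg 0 * sg 1 * sg 0 := rfl
    _ = gB * sg 1 := by rw [h]; rfl

private theorem zc (k : ℤ) (g : B3) : g * gH ^ k = gH ^ k * g :=
  ((show Commute gH g from gH_comm g).zpow_left k).eq.symm

private theorem zl (k : ℤ) (g x : B3) : g * (gH ^ k * x) = gH ^ k * (g * x) := by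
  rw [← mul_assoc, zc, mul_assoc]

private theorem zz (k m : ℤ) (x : B3) : gH ^ k * (gH ^ m * x) = gH ^ (k + m) * x := by
  rw [← mul_assoc, ← zpow_add]

private def bb (x : Bool) : B3 := if x then gB⁻¹ else gB

private def cc (x : Bool) : ℤ := if x then 0 else -1

private def lt (x : Bool) : B3 := if x then sg 0 else (sg 1)⁻¹

private theorem lt_eq (x : Bool) : lt x = gH ^ cc x * (gA * bb x) := by
  cases x
  · simp [lt, cc, bb, gA_gB]
  · simp [lt, cc, bb, gA_gB_inv]

private def W (l : List Bool) : B3 := (l.map lt).prod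

private theorem W_nil : W [] = 1 := rfl

private theorem W_cons (x : Bool) (l : List Bool) : W (x :: l) = lt x * W l := by
  simp [W]

private theorem W_concat (x : Bool) (l : List Bool) : W (l ++ [x]) = W l * lt x := by
  simp [W]

private theorem AA (x : B3) : gA * (gA * x) = gH ^ (1 : ℤ) * x := by
  rw [← mul_assoc, gA_sq, zpow_one]

private theorem A_bb (x : Bool) (y : B3) : gA * (bb x * y) = gH ^ (-cc x) * (lt x * y) := by
  rw [lt_eq, mul_assoc, zz]
  simp [mul_assoc]

private theorem gB_gB : gB * gB = gH ^ (1 : ℤ) * gB⁻¹ := by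
  rw [zpow_one, eq_mul_inv_iff_mul_eq, gB_cube]

private def Q (g : B3) : Prop := ∃ (k : ℤ) (E R : B3) (l : List Bool),
  (E = 1 ∨ ∃ x, E = bb x) ∧ (R = 1 ∨ R = gA) ∧ g = gH ^ k * (E * (W l * R))

private theorem Q_H {g : B3} (k : ℤ) (h : Q g) : Q (gH ^ k * g) := by
  obtain ⟨m, E, R, l, h1, h2, rfl⟩ := h
  exact ⟨k + m, E, R, l, h1, h2, by rw [zz]⟩

private theorem Q_A {g : B3} (h : Q g) : Q (gA * g) := by
  obtain ⟨k, E, R, l, h1, h2, rfl⟩ := h
  rcases h1 with rfl | ⟨x, rfl⟩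
  · cases l with
    | nil =>
      rcases h2 with rfl | rfl
      · exact ⟨k, 1, gA, [], Or.inl rfl, Or.inr rfl, by simp [W_nil, zc]⟩
      · refine ⟨k + 1, 1, 1, [], Or.inl rfl, Or.inl rfl, ?_⟩
        rw [zl, W_nil, one_mul, one_mul, gA_sq, mul_one, mul_one, mul_one, zpow_add, zpow_one]
    | cons y l =>
      refine ⟨k + cc y + 1, bb y, R, l, Or.inr ⟨y, rfl⟩, h2, ?_⟩
      rw [one_mul, W_cons, lt_eq, zl]
      simp only [mul_assoc]
      rw [zl, AA, zz, zz]
  · refine ⟨k - cc x, 1, R, x :: l, Or.inl rfl, h2, ?_⟩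
    rw [zl, A_bb, zz, one_mul, W_cons, mul_assoc, sub_eq_add_neg]

private theorem Q_B {g : B3} (h : Q g) : Q (gB * g) := by
  obtain ⟨k, E, R, l, h1, h2, rfl⟩ := h
  rcases h1 with rfl | ⟨x, rfl⟩
  · refine ⟨k, bb false, R, l, Or.inr ⟨_, rfl⟩, h2, ?_⟩
    rw [zl, one_mul]
    rfl
  · cases x
    · refine ⟨k + 1, bb true, R, l, Or.inr ⟨_, rfl⟩, h2, ?_⟩
      have e1 : bb false = gB := rfl
      have e2 : bb true = gB⁻¹ := rfl
      rw [zl, e1, e2, ← mul_assoc gB gB, gB_gB, mul_assoc, zz]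
    · refine ⟨k, 1, R, l, Or.inl rfl, h2, ?_⟩
      have e2 : bb true = gB⁻¹ := rfl
      rw [zl, e2, mul_inv_cancel_left, one_mul]

private theorem all_Q (g : B3) : Q g := by
  let H : Subgroup B3 :=
    { carrier := {h | ∀ g, Q (h * g) ↔ Q g}
      one_mem' := by intro g; rw [one_mul]
      mul_mem' := by
        intro a b ha hb g
        rw [mul_assoc, ha, hb]
      inv_mem' := by
        intro a ha g
        rw [← ha, mul_inv_cancel_left] }
  have hA : gA ∈ H := by
    intro g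
    refine ⟨fun h => ?_, Q_A⟩
    have := Q_H (-1) (Q_A h)
    rw [AA, zz] at this
    simpa using this
  have hB : gB ∈ H := by
    intro g
    refine ⟨fun h => ?_, Q_B⟩
    have h2 := Q_H (-1) (Q_B (Q_B h))
    have e : gB * (gB * (gB * g)) = gH ^ (1 : ℤ) * g := by
      rw [← mul_assoc, ← mul_assoc, gB_cube, zpow_one]
    rw [e, zz] at h2
    simpa using h2
  have hg : g ∈ H := by
    refine PresentedGroup.generated_by rels H ?_ g
    intro j
    change sg j ∈ H
    fin_cases j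
    · change sg 0 ∈ H
      rw [← gA_gB_inv]
      exact H.mul_mem hA (H.inv_mem hB)
    · change sg 1 ∈ H
      rw [← gB_inv_gA]
      exact H.mul_mem (H.inv_mem hB) hA
  have h1 : Q 1 := ⟨0, 1, 1, [], Or.inl rfl, Or.inl rfl, by simp [W_nil]⟩
  have := (hg 1).2 h1
  rwa [mul_one] at this

private def Gd (g : B3) : Prop := ∃ k : ℤ, IsConj g (gH ^ k) ∨ IsConj g (gH ^ k * gA) ∨
    IsConj g (gH ^ k * gB) ∨ IsConj g (gH ^ k * gB⁻¹) ∨
    ∃ l : List Bool, l ≠ [] ∧ IsConj g (gH ^ k * W l)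

private theorem Gd_conj {g g' : B3} (h : IsConj g g') (hg : Gd g') : Gd g := by
  obtain ⟨k, h1⟩ := hg
  refine ⟨k, ?_⟩
  rcases h1 with h1 | h1 | h1 | h1 | ⟨l, hl, h1⟩
  · exact Or.inl (h.trans h1)
  · exact Or.inr (Or.inl (h.trans h1))
  · exact Or.inr (Or.inr (Or.inl (h.trans h1)))
  · exact Or.inr (Or.inr (Or.inr (Or.inl (h.trans h1))))
  · exact Or.inr (Or.inr (Or.inr (Or.inr ⟨l, hl, h.trans h1⟩)))

private theorem conj_H {g g' : B3} (k : ℤ) (h : IsConj g g') :
    IsConj (gH ^ k * g) (gH ^ k * g') := by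
  rw [isConj_iff] at h ⊢
  obtain ⟨c, hc⟩ := h
  exact ⟨c, by rw [zl, mul_assoc, hc]⟩

private theorem Gd_H {g : B3} (m : ℤ) (hg : Gd g) : Gd (gH ^ m * g) := by
  obtain ⟨k, h1⟩ := hg
  refine ⟨m + k, ?_⟩
  have e : ∀ x, gH ^ m * (gH ^ k * x) = gH ^ (m + k) * x := fun x => zz m k x
  rcases h1 with h1 | h1 | h1 | h1 | ⟨l, hl, h1⟩
  · refine Or.inl ?_
    have := conj_H m h1
    rwa [← zpow_add] at this
  · refine Or.inr (Or.inl ?_)
    have := conj_H m h1
    rwa [e] at this
  · refine Or.inr (Or.inr (Or.inl ?_))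
    have := conj_H m h1
    rwa [e] at this
  · refine Or.inr (Or.inr (Or.inr (Or.inl ?_)))
    have := conj_H m h1
    rwa [e] at this
  · refine Or.inr (Or.inr (Or.inr (Or.inr ⟨l, hl, ?_⟩)))
    have := conj_H m h1
    rwa [e] at this

private theorem conj_swap (x y : B3) : IsConj (x * y) (y * x) := by
  rw [isConj_iff]
  exact ⟨y, by simp [mul_assoc]⟩

private theorem Gd_swap {x y : B3} (h : Gd (y * x)) : Gd (x * y) := Gd_conj (conj_swap x y) h

private theorem Gd_W {l : List Bool} (hl : l ≠ []) : Gd (W l) :=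
  ⟨0, Or.inr (Or.inr (Or.inr (Or.inr ⟨l, hl, by rw [zpow_zero, one_mul]⟩)))⟩

private theorem bb_bb (x : Bool) : ∃ k : ℤ, bb x * bb x = gH ^ k * bb (!x) := by
  cases x
  · exact ⟨1, gB_gB⟩
  · refine ⟨-1, ?_⟩
    have e1 : bb (!true) = gB := rfl
    have e2 : bb true = gB⁻¹ := rfl
    rw [e1, e2, zpow_neg, eq_inv_mul_iff_mul_eq, ← mul_assoc, ← gB_gB]
    simp

private theorem bb_bb' (x : Bool) : bb x * bb (!x) = 1 := by
  cases x
  · have e1 : bb (!false) = gB⁻¹ := rfl
    have e2 : bb false = gB := rfl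
    rw [e1, e2, mul_inv_cancel]
  · have e1 : bb (!true) = gB := rfl
    have e2 : bb true = gB⁻¹ := rfl
    rw [e1, e2, inv_mul_cancel]

private theorem Gd_bWA (x : Bool) (l : List Bool) : Gd (bb x * (W l * gA)) := by
  rw [← mul_assoc]
  refine Gd_swap ?_
  rw [A_bb, ← W_cons]
  exact Gd_H _ (Gd_W (by simp))

private theorem main (n : ℕ) : (∀ l : List Bool, l.length = n → ∀ x, Gd (bb x * W l)) ∧
    ∀ l : List Bool, l.length = n → Gd (W l * gA) := by
  induction n with
  | zero =>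
    constructor
    · intro l hl x
      rw [List.length_eq_zero_iff.1 hl, W_nil, mul_one]
      cases x
      · exact ⟨0, Or.inr (Or.inr (Or.inl (by rw [zpow_zero, one_mul]; exact IsConj.refl _)))⟩
      · exact ⟨0, Or.inr (Or.inr (Or.inr (Or.inl (by
          rw [zpow_zero, one_mul]; exact IsConj.refl _))))⟩
    · intro l hl
      rw [List.length_eq_zero_iff.1 hl, W_nil, one_mul]
      exact ⟨0, Or.inr (Or.inl (by rw [zpow_zero, one_mul])) ⟩
  | succ n ih =>
    constructor
    · intro l hl x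
      obtain ⟨l', y, rfl⟩ : ∃ l' y, l = l' ++ [y] := by
        have hne : l ≠ [] := by
          intro h
          rw [h] at hl
          simp at hl
        exact ⟨l.dropLast, l.getLast hne, (List.dropLast_append_getLast hne).symm⟩
      have hl' : l'.length = n := by simpa using hl
      rw [W_concat, lt_eq]
      -- move the last factor to the front
      have e1 : bb x * (W l' * (gH ^ cc y * (gA * bb y))) =
          gH ^ cc y * ((bb x * (W l' * gA)) * bb y) := by
        rw [zl, zl]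
        simp only [mul_assoc]
      rw [e1]
      refine Gd_H _ (Gd_swap ?_)
      rw [← mul_assoc (bb y)]
      by_cases hxy : y = x
      · subst hxy
        obtain ⟨k, hk⟩ := bb_bb y
        rw [hk, mul_assoc]
        exact Gd_H _ (Gd_bWA _ _)
      · have : x = !y := by
          cases x <;> cases y <;> simp_all
        rw [this, bb_bb', one_mul]
        exact ih.2 l' hl'
    · intro l hl
      obtain ⟨y, l', rfl⟩ : ∃ y l', l = y :: l' := by
        cases l with
        | nil => simp at hl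
        | cons y l' => exact ⟨y, l', rfl⟩
      have hl' : l'.length = n := by simpa using hl
      refine Gd_swap ?_
      rw [W_cons, lt_eq, mul_assoc, zl]
      refine Gd_H _ ?_
      rw [mul_assoc, AA]
      exact Gd_H _ (ih.1 l' hl' y)

theorem normal1 (g : B3) : ∃ k : ℤ, IsConj g (gH ^ k) ∨ IsConj g (gH ^ k * gA) ∨
    IsConj g (gH ^ k * gB) ∨ IsConj g (gH ^ k * gB⁻¹) ∨
    ∃ l : List Bool, l ≠ [] ∧
      IsConj g (gH ^ k * (l.map fun b => if b then sg 0 else (sg 1)⁻¹).prod) := by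
  change Gd g
  obtain ⟨k, E, R, l, h1, h2, rfl⟩ := all_Q g
  refine Gd_H k ?_
  rcases h1 with rfl | ⟨x, rfl⟩
  · rw [one_mul]
    rcases h2 with rfl | rfl
    · rw [mul_one]
      by_cases hl : l = []
      · subst hl
        exact ⟨0, Or.inl (by rw [W_nil, zpow_zero])⟩
      · exact Gd_W hl
    · exact (main l.length).2 l rfl
  · rcases h2 with rfl | rfl
    · rw [mul_one]
      exact (main l.length).1 l rfl x
    · exact Gd_bWA x l

end Pool.Agent.KT
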