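import Pool.Agent.Work.MP_ab49bb_gt.On
import Pool.Agent.Work.MP_ab49bb_gt.As1

/-!
# Oa (M): the vector `fN 0` for `k > a` is concentrated in one coordinate

`a < k`, `2k ≤ 3a`, `m = m0 = k - a`, `j = k - m = a`, `C = 2a - 2m = 4a - 2k ≥ a`, `f = fL m a`. Slices `x_q`, `q = a - i`: `hc C a a i • fd i (um m)`, `i = 0..a` (`i ≤ a ≤ C`). By `fd_norm` (`um m` is HW of weight `C`):
`ip f f = ip_VV um um * ∑_{i ≤ a} hc C a a i ² vN C i N_(a-i)`, `N_i = vN u a i`. Asymptotics: term `i` is `Asy (-4i(C-a+1) - 2i - 2(a-i)) = -2a - 4i(3a-2k+1)`, dominated by `i = 0`: the sum is `Asy (-2a)`.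
`ip_VV um um = ∑_{i ≤ m} hc a a m i ² N_i N_(m-i)`: term `i` is `Asy (-4i(a-m+1) - 2m)`, so it is `Asy (-2m)`. The coordinate `(0, m, a)` of `f` is `hc C a a 0 * um m (0,m) = 1` and its norm is `N_0 N_m N_a`,
`Asy (-2m-2a)`. So the share `N_0 N_m N_a / ip f f` is `Asy 0`.
-/

set_option autoImplicit false

open Matrix

namespace Pool.Agent.KT

/-- the share of a coordinate. Do not change. -/
noncomputable def shr (u : ℝˣ) (a : ℕ) (x : Ix a → ℝ) (y : Ix a) : ℝ :=
  uN u a y * x y ^ 2 / uip u a x x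

private theorem sum_diag {a m : ℕ} (h : m ≤ a) (g : ℕ → ℕ → ℝ) :
    ∑ p : Fin (a + 1), ∑ q : Fin (a + 1), (if (p : ℕ) + q = m then g p q else 0) =
      ∑ i ∈ Finset.range (m + 1), g i (m - i) := by
  have h1 : ∀ p : ℕ, ∑ q : Fin (a + 1), (if p + (q : ℕ) = m then g p q else 0) =
      if p < m + 1 then g p (m - p) else 0 := by
    intro p
    rw [Fin.sum_univ_eq_sum_range (fun q => if p + q = m then g p q else 0) (a + 1)]
    by_cases hp : p < m + 1
    · rw [if_pos hp, Finset.sum_eq_single (m - p)]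
      · rw [if_pos (by omega)]
      · intro q _ hq
        rw [if_neg (by omega)]
      · intro hq
        rw [Finset.mem_range] at hq
        omega
    · rw [if_neg hp]
      exact Finset.sum_eq_zero fun q _ => by rw [if_neg (by omega)]
  rw [Finset.sum_congr rfl fun (p : Fin (a + 1)) _ => h1 p,
    Fin.sum_univ_eq_sum_range (fun p => if p < m + 1 then g p (m - p) else 0) (a + 1), ← Finset.sum_filter]
  refine Finset.sum_congr ?_ fun _ _ => rfl
  ext p
  simp only [Finset.mem_filter, Finset.mem_range]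
  omega

private theorem sum_Ix {a : ℕ} (f : Ix a → ℝ) :
    ∑ x : Ix a, f x = ∑ q : Fin (a + 1), ∑ y : Fin (a + 1) × Fin (a + 1), f (y.1, y.2, q) := by
  have h1 : ∑ z : (Fin (a + 1) × Fin (a + 1)) × Fin (a + 1), f (Equiv.prodAssoc _ _ _ z) = ∑ x : Ix a, f x :=
    Equiv.sum_comp (Equiv.prodAssoc _ _ _) f
  rw [← h1, Fintype.sum_prod_type_right]
  rfl

private theorem dom_sum {b b' j : ℕ} (hb : j ≤ b) (hb' : j ≤ b') :
    Asy (fun v => ∑ i ∈ Finset.range (j + 1), hc (ru v) b b' j i ^ 2 * (vN (ru v) b i * vN (ru v) b' (j - i)))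
      (-(2 * j)) := by
  have h1 : ∀ i ∈ Finset.range (j + 1), Asy (fun v => hc (ru v) b b' j i ^ 2 *
      (vN (ru v) b i * vN (ru v) b' (j - i))) (-(4 * i * ((b : ℤ) - j + 1)) - 2 * j) := by
    intro i hi
    rw [Finset.mem_range] at hi
    have h2 := (Asy_hc (b := b) (b' := b') (m := j) (i := i) hb' (by omega)).pow 2
    have h3 := (Asy_vN (b := b) (i := i) (by omega)).mul (Asy_vN (b := b') (i := j - i) (by omega))
    have h4 := h2.mul h3
    have h5 : ((2 : ℕ) : ℤ) * -(2 * i * ((b : ℤ) - j + 1)) + (-(2 * (i : ℤ)) + -(2 * ((j - i : ℕ) : ℤ))) =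
        -(4 * i * ((b : ℤ) - j + 1)) - 2 * j := by
      rw [Nat.cast_sub (by omega)]
      push_cast
      ring
    rw [h5] at h4
    refine h4.congr fun v _ => ?_
    rw [mul_pow, ← pow_mul, mul_comm i 2, pow_mul, neg_one_sq, one_pow, one_mul]
  have h2 := Asy_sum (Finset.range (j + 1)) (fun i v => hc (ru v) b b' j i ^ 2 *
      (vN (ru v) b i * vN (ru v) b' (j - i))) (fun i => -(4 * i * ((b : ℤ) - j + 1)) - 2 * j) 0
      (Finset.mem_range.2 (Nat.succ_pos _)) h1 (by
        intro i _ hi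
        have h3 : (1 : ℤ) ≤ i := by exact_mod_cast Nat.one_le_iff_ne_zero.2 hi
        have h4 : (1 : ℤ) ≤ (b : ℤ) - j + 1 := by
          have : (j : ℤ) ≤ b := by exact_mod_cast hb
          linarith
        have h5 : (1 : ℤ) ≤ i * ((b : ℤ) - j + 1) := by nlinarith
        simp only [Nat.cast_zero, mul_zero, zero_mul, neg_zero, zero_sub]
        linarith [mul_assoc (4 : ℤ) i ((b : ℤ) - j + 1)])
  have h3 : -(4 * ((0 : ℕ) : ℤ) * ((b : ℤ) - j + 1)) - 2 * j = -(2 * j) := by simp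
  rw [← h3]
  exact h2

theorem um_norm (u : ℝˣ) (hu : 1 < (u : ℝ)) {a m : ℕ} (h : m ≤ a) :
    (VVQ u hu a).ip (um u a m) (um u a m) =
      ∑ i ∈ Finset.range (m + 1), hc u a a m i ^ 2 * (vN u a i * vN u a (m - i)) := by
  rw [← sum_diag h fun p q => hc u a a m p ^ 2 * (vN u a p * vN u a q)]
  rw [QM.ip, Fintype.sum_prod_type]
  refine Finset.sum_congr rfl fun p _ => Finset.sum_congr rfl fun q _ => ?_
  change vN u a p * vN u a q * (if (p : ℕ) + q = m then hc u a a m p else 0) *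
    (if (p : ℕ) + q = m then hc u a a m p else 0) = _
  split_ifs
  · ring
  · rw [mul_zero]

theorem fL_norm (u : ℝˣ) (hu : 1 < (u : ℝ)) {a m j : ℕ} (hm : m ≤ a) (hj : j ≤ a)
    (hj' : j + 2 * m ≤ 2 * a) :
    uip u a (fL u a m j) (fL u a m j) =
      (VVQ u hu a).ip (um u a m) (um u a m) * ∑ i ∈ Finset.range (j + 1),
        hc u (2 * a - 2 * m) a j i ^ 2 * (vN u (2 * a - 2 * m) i * vN u a (j - i)) := by
  have hhw : (VVQ u hu a).HW ((2 * a - 2 * m : ℕ) : ℤ) (um u a m) := by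
    have h1 := um_hw hu hm
    have h2 : ((2 * a - 2 * m : ℕ) : ℤ) = 2 * (a : ℤ) - 2 * m := by
      rw [Nat.cast_sub (by omega)]
      push_cast
      ring
    rw [h2]
    exact h1
  have hterm : ∀ q : ℕ, ∑ y : Fin (a + 1) × Fin (a + 1), vN u a y.1 * (vN u a y.2 * vN u a q) *
      (if q ≤ j then hc u (2 * a - 2 * m) a j (j - q) * fd u (vvF u a) (j - q) (um u a m) (y.1, y.2) else 0) *
      (if q ≤ j then hc u (2 * a - 2 * m) a j (j - q) * fd u (vvF u a) (j - q) (um u a m) (y.1, y.2) else 0) =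
      if q < j + 1 then (VVQ u hu a).ip (um u a m) (um u a m) * (hc u (2 * a - 2 * m) a j (j - q) ^ 2 *
        (vN u (2 * a - 2 * m) (j - q) * vN u a q)) else 0 := by
    intro q
    by_cases hq : q ≤ j
    · rw [if_pos (Nat.lt_succ_of_le hq)]
      simp only [if_pos hq]
      have h1 := fd_norm (VVQ u hu a) hu hhw (j - q)
      have h2 : ∑ y : Fin (a + 1) × Fin (a + 1), vN u a y.1 * (vN u a y.2 * vN u a q) *
          (hc u (2 * a - 2 * m) a j (j - q) * fd u (vvF u a) (j - q) (um u a m) (y.1, y.2)) *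
          (hc u (2 * a - 2 * m) a j (j - q) * fd u (vvF u a) (j - q) (um u a m) (y.1, y.2)) =
          hc u (2 * a - 2 * m) a j (j - q) ^ 2 * vN u a q *
          (VVQ u hu a).ip (fd u (VVQ u hu a).F (j - q) (um u a m)) (fd u (VVQ u hu a).F (j - q) (um u a m)) := by
        rw [QM.ip, Finset.mul_sum]
        refine Finset.sum_congr rfl fun y _ => ?_
        change _ = hc u (2 * a - 2 * m) a j (j - q) ^ 2 * vN u a q * (vN u a y.1 * vN u a y.2 *
          fd u (vvF u a) (j - q) (um u a m) y * fd u (vvF u a) (j - q) (um u a m) y)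
        ring
      rw [h2, h1]
      ring
    · rw [if_neg (fun h => hq (Nat.lt_succ_iff.1 h))]
      exact Finset.sum_eq_zero fun y _ => by rw [if_neg hq, mul_zero]
  rw [uip, sum_Ix]
  have h1 : ∀ q : Fin (a + 1), ∑ y : Fin (a + 1) × Fin (a + 1),
      uN u a (y.1, y.2, q) * fL u a m j (y.1, y.2, q) * fL u a m j (y.1, y.2, q) =
      if (q : ℕ) < j + 1 then (VVQ u hu a).ip (um u a m) (um u a m) *
        (hc u (2 * a - 2 * m) a j (j - q) ^ 2 * (vN u (2 * a - 2 * m) (j - q) * vN u a q)) else 0 :=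
    fun q => hterm q
  rw [Finset.sum_congr rfl fun q _ => h1 q, Fin.sum_univ_eq_sum_range (fun q : ℕ =>
    if q < j + 1 then (VVQ u hu a).ip (um u a m) (um u a m) *
      (hc u (2 * a - 2 * m) a j (j - q) ^ 2 * (vN u (2 * a - 2 * m) (j - q) * vN u a q)) else 0) (a + 1),
    ← Finset.sum_filter]
  have h2 : (Finset.range (a + 1)).filter (fun q => q < j + 1) = Finset.range (j + 1) := by
    ext q
    simp only [Finset.mem_filter, Finset.mem_range]
    omega
  rw [h2, ← Finset.mul_sum]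
  congr 1
  rw [← Finset.sum_flip]
  refine Finset.sum_congr rfl fun q hq => ?_
  rw [Finset.mem_range] at hq
  rw [show j - (j - q) = q by omega]

theorem share_f {a k : ℕ} (h : a < k) (h' : 2 * k ≤ 3 * a) (hk : k - a < a + 1) :
    Filter.Tendsto (fun v => shr (ru v) a (fL (ru v) a (k - a) a)
      (0, ⟨k - a, hk⟩, Fin.last a)) Filter.atTop (nhds 1) := by
  revert hk
  generalize hm : k - a = m
  intro hk
  have hma : m ≤ a := by omega
  have hma' : a ≤ 2 * a - 2 * m := by omega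
  have h1 := dom_sum (b := a) (b' := a) (j := m) hma hma
  have h2 := dom_sum (b := 2 * a - 2 * m) (b' := a) (j := a) hma' le_rfl
  have h3 := (Asy_vN (b := a) (i := 0) (by omega)).mul
    ((Asy_vN (b := a) (i := m) hma).mul (Asy_vN (b := a) (i := a) le_rfl))
  have h4 := h3.div (h1.mul h2)
  have h5 : -(2 * ((0 : ℕ) : ℤ)) + (-(2 * (m : ℤ)) + -(2 * (a : ℤ))) - (-(2 * (m : ℤ)) + -(2 * (a : ℤ))) = 0 := by
    simp
  rw [h5] at h4
  refine (h4.congr fun v hv => ?_).tendsto
  rw [shr, fL_norm (ru v) (ru_gt hv) hma le_rfl (by omega), um_norm _ _ hma]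
  have h6 : ((2 * a - 2 * m : ℕ) : ℤ) = 2 * (a : ℤ) - 2 * m := by
    rw [Nat.cast_sub (by omega)]
    push_cast
    ring
  rw [h6]
  congr 1
  have h7 : fL (ru v) a m a (0, ⟨m, hk⟩, Fin.last a) = 1 := by
    rw [fL]
    change (if a ≤ a then hc (ru v) (2 * a - 2 * m) a a (a - a) *
      fd (ru v) (vvF (ru v) a) (a - a) (um (ru v) a m) (0, ⟨m, hk⟩) else 0) = 1
    rw [if_pos le_rfl, Nat.sub_self, fd_zero, hc, one_mul]
    exact um_zero a m hk
  rw [h7, one_pow, mul_one, uN]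
  rfl

end Pool.Agent.KT
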