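import Pool.Agent.Work.MP_ab49bb_gt.Oa

/-!
# Ob (M): the vector `gN (last)` for `k > a` is concentrated in the same coordinate

`a < k`, `2k ≤ 3a`, `m = m1 = 2a - k`, `C = 2a - 2m = 2k - 2a`, `j = k - m = C`, `g = gR m C`. `N_i = vN u a i`. Slices `x_p = hc a C C p • fd (C-p) (um m)`, `p = 0..C` (`C ≤ a`). By `fd_norm`:
`ip g g = ip_VV um um * ∑_{p ≤ C} hc a C C p ² N_p vN C (C-p)`; term `p` is `Asy (-4p(a-C+1) - 2p - 2(C-p)) = -2C - 4p(3a-2k+1)`, dominated by `p = 0` (value `vN C C`).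
Let `z = fd C (um m)`: `F z = 0` (`F_fd`, `fd_last`), `z` has weight `-C`: coordinates `z(i, k-i)`, `k - a ≤ i ≤ a`. The coordinate `(i+1, k-i)` of `F z`: `v^(-2(a-2i-2)) [k-i] z(i+1,k-i-1) + [i+1] z(i,k-i) = 0`
(`tF`), so `z(i+1,k-i-1) = - z(i,k-i) v^(2(a-2i-2)) [i+1]/[k-i]`. With `z(k-a, a) = z0`: `z(k-a+l, a-l) = (-1)^l z0 h_l`, `h_l` `Asy (-2l(k-a+1))` (step: `2(a-2i-2) + 2i - 2(k-i-1) = 2a-2k-2`).
So `ip_VV z z = z0² ∑_l h_l² N_(k-a+l) N_(a-l)` is `z0²` times `Asy (-2k)` (term `l`: `-4l(k-a+1) - 2k`), and `z0² N_(k-a) N_a / ip z z → 1`. Also `ip z z = vN C C ip um um` (`fd_norm`), so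
`ip g g = ip z z * ∑_p hc a C C p ² N_p vN C (C-p) / vN C C`, and the last factor tends to `1`. The coordinate `(0, k-a, a)` of `g` is `hc a C C 0 z(k-a,a) = z0`, its norm `N_0 N_(k-a) N_a`. (`z0 ≠ 0` since `z ≠ 0`, `fd_ne`.)
`gR_norm`: the slices have disjoint supports; `hc u a (2a-2m) j p`.
-/

set_option autoImplicit false

open Matrix

namespace Pool.Agent.KT

private theorem sum_anti {a n : ℕ} (h : n ≤ a) (g : ℕ → ℕ → ℝ) :
    ∑ p : Fin (a + 1), ∑ q : Fin (a + 1), (if (p : ℕ) + q = a + n then g p q else 0) =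
      ∑ l ∈ Finset.range (a - n + 1), g (n + l) (a - l) := by
  have h1 : ∀ p : ℕ, p < a + 1 → ∑ q : Fin (a + 1), (if p + (q : ℕ) = a + n then g p q else 0) =
      if n ≤ p then g p (a + n - p) else 0 := by
    intro p hpa
    rw [Fin.sum_univ_eq_sum_range (fun q => if p + q = a + n then g p q else 0) (a + 1)]
    by_cases hp : n ≤ p
    · rw [if_pos hp, Finset.sum_eq_single (a + n - p)]
      · rw [if_pos (by omega)]
      · intro q _ hq
        rw [if_neg (by omega)]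
      · intro hq
        rw [Finset.mem_range] at hq
        omega
    · rw [if_neg hp]
      refine Finset.sum_eq_zero fun q hq => ?_
      rw [Finset.mem_range] at hq
      rw [if_neg (by omega)]
  rw [Finset.sum_congr rfl fun (p : Fin (a + 1)) _ => h1 p p.2,
    Fin.sum_univ_eq_sum_range (fun p => if n ≤ p then g p (a + n - p) else 0) (a + 1), ← Finset.sum_filter]
  have h2 : (Finset.range (a + 1)).filter (fun p => n ≤ p) = Finset.Ico n (a + 1) := by
    ext p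
    simp only [Finset.mem_filter, Finset.mem_range, Finset.mem_Ico]
    omega
  rw [h2, Finset.sum_Ico_eq_sum_range, show a + 1 - n = a - n + 1 by omega]
  refine Finset.sum_congr rfl fun l _ => ?_
  rw [show a + n - (n + l) = a - l by omega]

private theorem dom_sum {b b' j : ℕ} (hb : j ≤ b) (hb' : j ≤ b') :
    Asy (fun v => ∑ i ∈ Finset.range (j + 1), hc (ru v) b b' j i ^ 2 * (vN (ru v) b i * vN (ru v) b' (j - i)))
      (-(2 * j)) := by
  have h1 : ∀ i ∈ Finset.range (j + 1), Asy (fun v => hc (ru v) b b' j i ^ 2 *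
      (vN (ru v) b i * vN (ru v) b' (j - i))) (-(4 * i * ((b : ℤ) - j + 1)) - 2 * j) := by
    intro i hi
    rw [Finset.mem_range] at hi
    have h2 := (Asy_hc (b := b) (b' := b') (m := j) (i := i) hb' (by omega)).pow 2
    have h3 := (Asy_vN (b := b) (i := i) (by omega)).mul (Asy_vN (b := b') (i := j - i) (by omega))
    have h4 := h2.mul h3
    have h5 : ((2 : ℕ) : ℤ) * -(2 * i * ((b : ℤ) - j + 1)) + (-(2 * (i : ℤ)) + -(2 * ((j - i : ℕ) : ℤ))) =
        -(4 * i * ((b : ℤ) - j + 1)) - 2 * j := by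
      rw [Nat.cast_sub (by omega)]
      push_cast
      ring
    rw [h5] at h4
    refine h4.congr fun v _ => ?_
    rw [mul_pow, ← pow_mul, mul_comm i 2, pow_mul, neg_one_sq, one_pow, one_mul]
  have h2 := Asy_sum (Finset.range (j + 1)) (fun i v => hc (ru v) b b' j i ^ 2 *
      (vN (ru v) b i * vN (ru v) b' (j - i))) (fun i => -(4 * i * ((b : ℤ) - j + 1)) - 2 * j) 0
      (Finset.mem_range.2 (Nat.succ_pos _)) h1 (by
        intro i _ hi
        have h3 : (1 : ℤ) ≤ i := by exact_mod_cast Nat.one_le_iff_ne_zero.2 hi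
        have h4 : (1 : ℤ) ≤ (b : ℤ) - j + 1 := by
          have : (j : ℤ) ≤ b := by exact_mod_cast hb
          linarith
        have h5 : (1 : ℤ) ≤ i * ((b : ℤ) - j + 1) := by nlinarith
        simp only [Nat.cast_zero, mul_zero, zero_mul, neg_zero, zero_sub]
        linarith [mul_assoc (4 : ℤ) i ((b : ℤ) - j + 1)])
  have h3 : -(4 * ((0 : ℕ) : ℤ) * ((b : ℤ) - j + 1)) - 2 * j = -(2 * j) := by simp
  rw [← h3]
  exact h2

/-- the quotients of the coordinates of a lowest weight vector -/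
private noncomputable def hh (u : ℝˣ) (a n l : ℕ) : ℝ :=
  ∏ s ∈ Finset.range l, (pw u (2 * ((a : ℤ) - 2 * (n + s) - 2)) * (qn u ((n : ℤ) + s + 1) / qn u ((a : ℤ) - s)))

private theorem hh_asy {a n l : ℕ} (h : l + n ≤ a) :
    Asy (fun v => hh (ru v) a n l) (-(2 * l * ((n : ℤ) + 1))) := by
  induction l with
  | zero =>
    have h1 : -(2 * ((0 : ℕ) : ℤ) * ((n : ℤ) + 1)) = 0 := by simp
    rw [h1]
    refine Asy_one.congr fun v _ => ?_
    rw [hh, Finset.range_zero, Finset.prod_empty]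
  | succ l ih =>
    have h1 := (Asy_pw (2 * ((a : ℤ) - 2 * (n + l) - 2))).mul
      ((Asy_qn (m := (n : ℤ) + l + 1) (by omega)).div (Asy_qn (m := (a : ℤ) - l) (by omega)))
    have h2 := (ih (by omega)).mul h1
    have h3 : -(2 * (l : ℤ) * ((n : ℤ) + 1)) + (2 * ((a : ℤ) - 2 * (n + l) - 2) +
        (2 * ((n : ℤ) + l + 1) - 2 - (2 * ((a : ℤ) - l) - 2))) = -(2 * ((l + 1 : ℕ) : ℤ) * ((n : ℤ) + 1)) := by
      push_cast
      ring
    rw [h3] at h2
    refine h2.congr fun v _ => ?_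
    rw [hh, hh, Finset.prod_range_succ]

private theorem hh_sum {a n : ℕ} (h : n ≤ a) :
    Asy (fun v => ∑ l ∈ Finset.range (a - n + 1), hh (ru v) a n l ^ 2 *
      (vN (ru v) a (n + l) * vN (ru v) a (a - l))) (-(2 * ((a : ℤ) + n))) := by
  have h1 : ∀ l ∈ Finset.range (a - n + 1), Asy (fun v => hh (ru v) a n l ^ 2 *
      (vN (ru v) a (n + l) * vN (ru v) a (a - l))) (-(4 * l * ((n : ℤ) + 1)) - 2 * ((a : ℤ) + n)) := by
    intro l hl
    rw [Finset.mem_range] at hl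
    have h2 := (hh_asy (a := a) (n := n) (l := l) (by omega)).pow 2
    have h3 := (Asy_vN (b := a) (i := n + l) (by omega)).mul (Asy_vN (b := a) (i := a - l) (by omega))
    have h4 := h2.mul h3
    have h5 : ((2 : ℕ) : ℤ) * -(2 * l * ((n : ℤ) + 1)) + (-(2 * ((n + l : ℕ) : ℤ)) + -(2 * ((a - l : ℕ) : ℤ))) =
        -(4 * l * ((n : ℤ) + 1)) - 2 * ((a : ℤ) + n) := by
      rw [Nat.cast_sub (by omega)]
      push_cast
      ring
    rw [h5] at h4
    exact h4
  have h2 := Asy_sum (Finset.range (a - n + 1)) (fun l v => hh (ru v) a n l ^ 2 *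
      (vN (ru v) a (n + l) * vN (ru v) a (a - l))) (fun l => -(4 * l * ((n : ℤ) + 1)) - 2 * ((a : ℤ) + n)) 0
      (Finset.mem_range.2 (Nat.succ_pos _)) h1 (by
        intro l _ hl
        have h3 : (1 : ℤ) ≤ l := by exact_mod_cast Nat.one_le_iff_ne_zero.2 hl
        have h4 : (1 : ℤ) ≤ (n : ℤ) + 1 := by omega
        have h5 : (1 : ℤ) ≤ l * ((n : ℤ) + 1) := by nlinarith
        simp only [Nat.cast_zero, mul_zero, zero_mul, neg_zero, zero_sub]
        linarith [mul_assoc (4 : ℤ) l ((n : ℤ) + 1)])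
  have h3 : -(4 * ((0 : ℕ) : ℤ) * ((n : ℤ) + 1)) - 2 * ((a : ℤ) + n) = -(2 * ((a : ℤ) + n)) := by simp
  rw [← h3]
  exact h2

/-- the coordinates of `F z` -/
private theorem F_coord (u : ℝˣ) (hu : 1 < (u : ℝ)) {a : ℕ} (z : Fin (a + 1) × Fin (a + 1) → ℝ)
    (P P' Q Q' : Fin (a + 1)) (hP : (P' : ℕ) = P + 1) (hQ : (Q' : ℕ) = Q + 1) :
    ((VVQ u hu a).F *ᵥ z) (P', Q') = pw u (-(2 * ((a : ℤ) - 2 * ((P : ℤ) + 1)))) * (qn u ((Q : ℤ) + 1) * z (P', Q)) +
      qn u ((P : ℤ) + 1) * z (P, Q') := by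
  rw [Matrix.mulVec, dotProduct, Fintype.sum_prod_type]
  change ∑ x, ∑ y, ((if P' = x then pw u (-(2 * vw a x)) * vF u a Q' y else 0) +
    if Q' = y then vF u a P' x else 0) * z (x, y) = _
  simp only [add_mul, Finset.sum_add_distrib]
  congr 1
  · rw [Finset.sum_eq_single P', Finset.sum_eq_single Q]
    · rw [if_pos rfl, vF, if_pos hQ.symm, vw, hP]
      push_cast
      ring
    · intro y _ hy
      rw [if_pos rfl, vF, if_neg, mul_zero, zero_mul]
      intro h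
      apply hy
      apply Fin.ext
      omega
    · intro h
      exact absurd (Finset.mem_univ _) h
    · intro x _ hx
      exact Finset.sum_eq_zero fun y _ => by rw [if_neg (fun h => hx h.symm), zero_mul]
    · intro h
      exact absurd (Finset.mem_univ _) h
  · rw [Finset.sum_eq_single P, Finset.sum_eq_single Q']
    · rw [if_pos rfl, vF, if_pos hP.symm]
    · intro y _ hy
      rw [if_neg (fun h => hy h.symm), zero_mul]
    · intro h
      exact absurd (Finset.mem_univ _) h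
    · intro x _ hx
      refine Finset.sum_eq_zero fun y _ => ?_
      have h1 : vF u a P' x = 0 := by
        rw [vF, if_neg]
        intro h
        apply hx
        apply Fin.ext
        omega
      rw [h1, ite_self, zero_mul]
    · intro h
      exact absurd (Finset.mem_univ _) h

private theorem z_coord (u : ℝˣ) (hu : 1 < (u : ℝ)) {a n : ℕ} (hn : n ≤ a)
    {z : Fin (a + 1) × Fin (a + 1) → ℝ} (hF : (VVQ u hu a).F *ᵥ z = 0) (l : ℕ) :
    ∀ P Q : Fin (a + 1), (P : ℕ) = n + l → (Q : ℕ) + l = a →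
      z (P, Q) = (-1) ^ l * hh u a n l * z (⟨n, Nat.lt_succ_of_le hn⟩, Fin.last a) := by
  induction l with
  | zero =>
    intro P Q hP hQ
    rw [hh, Finset.range_zero, Finset.prod_empty, pow_zero, one_mul, one_mul]
    congr 2
    · exact Fin.ext hP
    · exact Fin.ext hQ
  | succ l ih =>
    intro P Q hP hQ
    have hPa : (P : ℕ) < a + 1 := P.2
    obtain ⟨P0, hP0⟩ : ∃ P0 : Fin (a + 1), (P0 : ℕ) = n + l := ⟨⟨n + l, by omega⟩, rfl⟩
    obtain ⟨Q1, hQ1⟩ : ∃ Q1 : Fin (a + 1), (Q1 : ℕ) = Q + 1 := ⟨⟨Q + 1, by omega⟩, rfl⟩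
    have h1 := F_coord u hu z P0 P Q Q1 (by omega) hQ1
    rw [hF, Pi.zero_apply, ih P0 Q1 hP0 (by omega)] at h1
    have h2 : ((Q : ℕ) : ℤ) + 1 = (a : ℤ) - l := by omega
    have h3 : ((P0 : ℕ) : ℤ) = (n : ℤ) + l := by omega
    rw [h2, h3] at h1
    have h4 : qn u ((a : ℤ) - l) ≠ 0 := (qn_pos hu (by omega)).ne'
    have h5 : pw u (-(2 * ((a : ℤ) - 2 * ((n : ℤ) + l + 1)))) * pw u (2 * ((a : ℤ) - 2 * (n + l) - 2)) = 1 := by
      have h6 := pw_neg_mul (v := u) (2 * ((a : ℤ) - 2 * (n + l) - 2))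
      rw [← h6]
      congr 2
      ring
    rw [hh, Finset.prod_range_succ, ← hh, pow_succ]
    set y0 := z (⟨n, Nat.lt_succ_of_le hn⟩, Fin.last a)
    set A := pw u (-(2 * ((a : ℤ) - 2 * ((n : ℤ) + l + 1))))
    set B := pw u (2 * ((a : ℤ) - 2 * (n + l) - 2))
    set R := qn u ((a : ℤ) - l)
    set T := qn u ((n : ℤ) + l + 1)
    have h7 : z (P, Q) * R = -(B * T * ((-1) ^ l * hh u a n l * y0)) := by
      linear_combination (-B) * h1 + (-(z (P, Q) * R)) * h5
    have h8 : z (P, Q) = -(B * T * ((-1) ^ l * hh u a n l * y0)) / R := by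
      rw [eq_div_iff h4, h7]
    rw [h8]
    field_simp

private theorem z_norm (u : ℝˣ) (hu : 1 < (u : ℝ)) {a n : ℕ} (hn : n ≤ a)
    {z : Fin (a + 1) × Fin (a + 1) → ℝ} (hF : (VVQ u hu a).F *ᵥ z = 0)
    (hw : (VVQ u hu a).Wt (-(2 * (n : ℤ))) z) :
    (VVQ u hu a).ip z z = z (⟨n, Nat.lt_succ_of_le hn⟩, Fin.last a) ^ 2 *
      ∑ l ∈ Finset.range (a - n + 1), hh u a n l ^ 2 * (vN u a (n + l) * vN u a (a - l)) := by
  have h0 := sum_anti hn fun p q => z (⟨n, Nat.lt_succ_of_le hn⟩, Fin.last a) ^ 2 *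
    (hh u a n (a - q) ^ 2 * (vN u a p * vN u a q))
  have h1 : ∑ l ∈ Finset.range (a - n + 1), (z (⟨n, Nat.lt_succ_of_le hn⟩, Fin.last a) ^ 2 *
      (hh u a n (a - (a - l)) ^ 2 * (vN u a (n + l) * vN u a (a - l)))) =
      z (⟨n, Nat.lt_succ_of_le hn⟩, Fin.last a) ^ 2 *
      ∑ l ∈ Finset.range (a - n + 1), hh u a n l ^ 2 * (vN u a (n + l) * vN u a (a - l)) := by
    rw [Finset.mul_sum]
    refine Finset.sum_congr rfl fun l hl => ?_
    rw [Finset.mem_range] at hl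
    rw [show a - (a - l) = l by omega]
  rw [← h1, ← h0, QM.ip, Fintype.sum_prod_type]
  refine Finset.sum_congr rfl fun p _ => Finset.sum_congr rfl fun q _ => ?_
  change vN u a p * vN u a q * z (p, q) * z (p, q) = _
  by_cases hpq : (p : ℕ) + q = a + n
  · rw [if_pos hpq, z_coord u hu hn hF (a - q) p q (by omega) (by omega)]
    have h2 : (((-1 : ℝ)) ^ (a - (q : ℕ))) ^ 2 = 1 := by
      rw [← pow_mul, mul_comm, pow_mul, neg_one_sq, one_pow]
    linear_combination (vN u a p * vN u a q * hh u a n (a - q) ^ 2 *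
      z (⟨n, Nat.lt_succ_of_le hn⟩, Fin.last a) ^ 2) * h2
  · rw [if_neg hpq]
    have h2 : z (p, q) = 0 := by
      apply hw
      change (a : ℤ) - 2 * (p : ℕ) + ((a : ℤ) - 2 * (q : ℕ)) ≠ -(2 * (n : ℤ))
      omega
    rw [h2, mul_zero]

theorem gR_norm (u : ℝˣ) (hu : 1 < (u : ℝ)) {a m j : ℕ} (hm : m ≤ a) (hj : j ≤ a)
    (hj' : j + 2 * m ≤ 2 * a) :
    uip u a (gR u a m j) (gR u a m j) =
      (VVQ u hu a).ip (um u a m) (um u a m) * ∑ p ∈ Finset.range (j + 1),
        hc u a (2 * a - 2 * m) j p ^ 2 * (vN u a p * vN u (2 * a - 2 * m) (j - p)) := by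
  have hhw : (VVQ u hu a).HW ((2 * a - 2 * m : ℕ) : ℤ) (um u a m) := by
    have h1 := um_hw hu hm
    have h2 : ((2 * a - 2 * m : ℕ) : ℤ) = 2 * (a : ℤ) - 2 * m := by
      rw [Nat.cast_sub (by omega)]
      push_cast
      ring
    rw [h2]
    exact h1
  have hterm : ∀ p : ℕ, ∑ y : Fin (a + 1) × Fin (a + 1), vN u a p * (vN u a y.1 * vN u a y.2) *
      (if p ≤ j then hc u a (2 * a - 2 * m) j p * fd u (vvF u a) (j - p) (um u a m) (y.1, y.2) else 0) *
      (if p ≤ j then hc u a (2 * a - 2 * m) j p * fd u (vvF u a) (j - p) (um u a m) (y.1, y.2) else 0) =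
      if p < j + 1 then (VVQ u hu a).ip (um u a m) (um u a m) * (hc u a (2 * a - 2 * m) j p ^ 2 *
        (vN u a p * vN u (2 * a - 2 * m) (j - p))) else 0 := by
    intro p
    by_cases hp : p ≤ j
    · rw [if_pos (Nat.lt_succ_of_le hp)]
      simp only [if_pos hp]
      have h1 := fd_norm (VVQ u hu a) hu hhw (j - p)
      have h2 : ∑ y : Fin (a + 1) × Fin (a + 1), vN u a p * (vN u a y.1 * vN u a y.2) *
          (hc u a (2 * a - 2 * m) j p * fd u (vvF u a) (j - p) (um u a m) (y.1, y.2)) *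
          (hc u a (2 * a - 2 * m) j p * fd u (vvF u a) (j - p) (um u a m) (y.1, y.2)) =
          hc u a (2 * a - 2 * m) j p ^ 2 * vN u a p *
          (VVQ u hu a).ip (fd u (VVQ u hu a).F (j - p) (um u a m)) (fd u (VVQ u hu a).F (j - p) (um u a m)) := by
        rw [QM.ip, Finset.mul_sum]
        refine Finset.sum_congr rfl fun y _ => ?_
        change _ = hc u a (2 * a - 2 * m) j p ^ 2 * vN u a p * (vN u a y.1 * vN u a y.2 *
          fd u (vvF u a) (j - p) (um u a m) y * fd u (vvF u a) (j - p) (um u a m) y)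
        ring
      rw [h2, h1]
      ring
    · rw [if_neg (fun h => hp (Nat.lt_succ_iff.1 h))]
      exact Finset.sum_eq_zero fun y _ => by rw [if_neg hp, mul_zero]
  rw [uip, Fintype.sum_prod_type]
  have h1 : ∀ p : Fin (a + 1), ∑ y : Fin (a + 1) × Fin (a + 1),
      uN u a (p, y) * gR u a m j (p, y) * gR u a m j (p, y) =
      if (p : ℕ) < j + 1 then (VVQ u hu a).ip (um u a m) (um u a m) * (hc u a (2 * a - 2 * m) j p ^ 2 *
        (vN u a p * vN u (2 * a - 2 * m) (j - p))) else 0 :=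
    fun p => hterm p
  rw [Finset.sum_congr rfl fun p _ => h1 p, Fin.sum_univ_eq_sum_range (fun p : ℕ =>
    if p < j + 1 then (VVQ u hu a).ip (um u a m) (um u a m) * (hc u a (2 * a - 2 * m) j p ^ 2 *
        (vN u a p * vN u (2 * a - 2 * m) (j - p))) else 0) (a + 1), ← Finset.sum_filter]
  have h2 : (Finset.range (a + 1)).filter (fun q => q < j + 1) = Finset.range (j + 1) := by
    ext q
    simp only [Finset.mem_filter, Finset.mem_range]
    omega
  rw [h2, ← Finset.mul_sum]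

theorem share_g {a k : ℕ} (h : a < k) (h' : 2 * k ≤ 3 * a) (hk : k - a < a + 1) :
    Filter.Tendsto (fun v => shr (ru v) a (gR (ru v) a (2 * a - k) (2 * k - 2 * a))
      (0, ⟨k - a, hk⟩, Fin.last a)) Filter.atTop (nhds 1) := by
  obtain ⟨n, rfl⟩ := Nat.exists_eq_add_of_le h.le
  revert hk
  rw [show a + n - a = n by omega, show 2 * a - (a + n) = a - n by omega,
    show 2 * (a + n) - 2 * a = 2 * n by omega]
  intro hk
  have hn : n ≤ a := by omega
  have h1 := hh_sum hn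
  have h2 := dom_sum (b := a) (b' := 2 * n) (j := 2 * n) (by omega) le_rfl
  have h3 := (Asy_vN (b := a) (i := 0) (by omega)).mul
    ((Asy_vN (b := a) (i := n) hn).mul (Asy_vN (b := a) (i := a) le_rfl))
  have h4 := (h3.div h1).mul ((Asy_vN (b := 2 * n) (i := 2 * n) le_rfl).div h2)
  have h5 : -(2 * ((0 : ℕ) : ℤ)) + (-(2 * (n : ℤ)) + -(2 * (a : ℤ))) - -(2 * ((a : ℤ) + n)) +
      (-(2 * ((2 * n : ℕ) : ℤ)) - -(2 * ((2 * n : ℕ) : ℤ))) = 0 := by
    push_cast
    ring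
  rw [h5] at h4
  refine (h4.congr fun v hv => ?_).tendsto
  have hu := ru_gt hv
  set u := ru v with hudef
  set z := fd u (VVQ u hu a).F (2 * n) (um u a (a - n)) with hz
  have hc2 : ((2 * n : ℕ) : ℤ) = 2 * (a : ℤ) - 2 * ((a - n : ℕ) : ℤ) := by
    rw [Nat.cast_sub hn]
    push_cast
    ring
  have hhw : (VVQ u hu a).HW ((2 * n : ℕ) : ℤ) (um u a (a - n)) := by
    rw [hc2]
    exact um_hw hu (Nat.sub_le _ _)
  have hum : um u a (a - n) ≠ 0 := by
    intro h0
    have h6 := um_zero (u := u) a (a - n) (by omega)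
    rw [h0, Pi.zero_apply] at h6
    exact zero_ne_one h6
  have hzF : (VVQ u hu a).F *ᵥ z = 0 := by
    rw [hz, F_fd hu, fd_last (VVQ u hu a) hu hhw (Nat.lt_succ_self _), smul_zero]
  have hzw : (VVQ u hu a).Wt (-(2 * (n : ℤ))) z := by
    have h6 := fd_wt (VVQ u hu a) hhw.wt (2 * n)
    have h7 : ((2 * n : ℕ) : ℤ) - 2 * ((2 * n : ℕ) : ℤ) = -(2 * (n : ℤ)) := by
      push_cast
      ring
    rw [h7] at h6
    exact h6
  have hz0 : z ≠ 0 := fd_ne (VVQ u hu a) hu hhw hum le_rfl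
  have hzn := fd_norm (VVQ u hu a) hu hhw (2 * n)
  rw [← hz, z_norm u hu hn hzF hzw] at hzn
  have hzz : z (⟨n, Nat.lt_succ_of_le hn⟩, Fin.last a) ≠ 0 := by
    intro h0
    apply hz0
    rw [← QM.ip_self_eq_zero (VVQ u hu a), z_norm u hu hn hzF hzw, h0]
    ring
  have hg : gR u a (a - n) (2 * n) (0, ⟨n, hk⟩, Fin.last a) = z (⟨n, Nat.lt_succ_of_le hn⟩, Fin.last a) := by
    rw [gR]
    change (if 0 ≤ 2 * n then hc u a (2 * a - 2 * ((a - n : ℕ) : ℤ)) ((2 * n : ℕ) : ℤ) 0 *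
      fd u (vvF u a) (2 * n - 0) (um u a (a - n)) (⟨n, hk⟩, Fin.last a) else 0) = _
    rw [if_pos (Nat.zero_le _), hc, one_mul]
    rfl
  rw [shr, gR_norm u hu (m := a - n) (j := 2 * n) (Nat.sub_le _ _) (by omega) (by omega), hg]
  have hsub : 2 * a - 2 * (a - n) = 2 * n := by omega
  rw [hsub, ← hc2]
  have hvN : vN u (2 * n) (2 * n) ≠ 0 := (vN_pos hu le_rfl).ne'
  have hip : (VVQ u hu a).ip (um u a (a - n)) (um u a (a - n)) ≠ 0 := by
    intro h0
    exact hum ((QM.ip_self_eq_zero _ _).1 h0)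
  have huN : uN u a (0, ⟨n, hk⟩, Fin.last a) = vN u a 0 * (vN u a n * vN u a a) := rfl
  rw [huN]
  have hS : ∑ l ∈ Finset.range (a - n + 1), hh u a n l ^ 2 * (vN u a (n + l) * vN u a (a - l)) ≠ 0 := by
    intro h0
    rw [h0, mul_zero] at hzn
    exact mul_ne_zero hvN hip hzn.symm
  have hP : ∑ i ∈ Finset.range (2 * n + 1), hc u a ((2 * n : ℕ) : ℤ) ((2 * n : ℕ) : ℤ) i ^ 2 *
      (vN u a i * vN u (2 * n) (2 * n - i)) ≠ 0 := by
    refine (Finset.sum_pos' (fun i hi => ?_) ⟨0, Finset.mem_range.2 (Nat.succ_pos _), ?_⟩).ne'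
    · rw [Finset.mem_range] at hi
      exact mul_nonneg (sq_nonneg _) (mul_pos (vN_pos hu (by omega)) (vN_pos hu (by omega))).le
    · rw [hc, one_pow, one_mul]
      exact mul_pos (vN_pos hu (by omega)) (vN_pos hu (by omega))
  rw [div_mul_div_comm, div_eq_div_iff (mul_ne_zero hS hP) (mul_ne_zero hip hP)]
  linear_combination (vN u a 0 * (vN u a n * vN u a a) *
    ∑ i ∈ Finset.range (2 * n + 1), hc u a ((2 * n : ℕ) : ℤ) ((2 * n : ℕ) : ℤ) i ^ 2 *
      (vN u a i * vN u (2 * n) (2 * n - i))) * (-hzn)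

end Pool.Agent.KT
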