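import Pool.Agent.Work.MP_ab49bb_gt.Ov2
import Pool.Agent.Work.MP_ab49bb_gt.As1

/-!
# Ov3 (S-M): the overlap for `k ≤ a`, asymptotics

`wv i` is `Asy (-2k - 4i(a-k+1))` (`Asy_hc`² gives `-4i(a-k+1)`, `Asy_vN` gives `-2i - 2(k-i)`; `(-1)^i` squared is `1`), `rho i` is `Asy (-4ia)` (`-4ia - 2i + 2i`), `rho 0 = 1`.
`∑ wv` is `Asy (-2k)` (`Asy_sum`, dominated by `i = 0`). By `om_sq`: `(1 - om²) ∑ wv = ∑_{i ≤ k} wv i (1 - rho i)`, the term `i = 0` vanishes, for `i ≥ 1` the factor `1 - rho i` is `Asy 0` (`a ≥ 1`),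
so (for `k ≥ 1`) the sum over `1 ≤ i ≤ k` is `Asy (-2k - 4(a-k+1))` (dominated by `i = 1`). Divide. For `k = 0`: `om² = 1`.
-/

set_option autoImplicit false

open Matrix

namespace Pool.Agent.KT

private theorem wv_asy {a k i : ℕ} (h : k ≤ a) (hi : i ≤ k) :
    Asy (fun v => wv (ru v) a k i) (-(4 * i * ((a : ℤ) - k + 1)) - 2 * k) := by
  have h1 := (Asy_hc (b := a) (b' := a) (m := k) (i := i) h (hi.trans h)).pow 2
  have h2 := (Asy_vN (b := a) (i := i) (hi.trans h)).mul (Asy_vN (b := a) (i := k - i) (by omega))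
  have h4 := (h1.mul h2).congr (g := fun v => wv (ru v) a k i) (fun v _ => by
    unfold wv
    rw [mul_pow, ← pow_mul, mul_comm i 2, pow_mul, neg_one_sq, one_pow, one_mul])
  have h5 : ((2 : ℕ) : ℤ) * (-(2 * i * ((a : ℤ) - k + 1))) + (-(2 * (i : ℤ)) + -(2 * ((k - i : ℕ) : ℤ))) =
      -(4 * i * ((a : ℤ) - k + 1)) - 2 * k := by
    rw [Nat.cast_sub hi]
    push_cast
    ring
  rw [h5] at h4
  exact h4

private theorem rho_asy {a i : ℕ} (hi : i ≤ a) :
    Asy (fun v => rho (ru v) a i) (-(4 * i * a)) := by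
  have h1 := ((Asy_pw (-(4 * i * a))).mul (Asy_vN (b := a) (i := i) hi)).div
    (Asy_vN (b := 2 * a) (i := i) (by omega))
  have h5 : -(4 * (i : ℤ) * a) + -(2 * (i : ℤ)) - -(2 * (i : ℤ)) = -(4 * i * a) := by ring
  rw [h5] at h1
  exact h1

private theorem rho_zero {u : ℝˣ} {a : ℕ} : rho u a 0 = 1 := by
  unfold rho
  rw [vN_zero, vN_zero]
  simp [pw_zero]

private theorem W_asy {a k : ℕ} (h : k ≤ a) :
    Asy (fun v => ∑ i ∈ Finset.range (k + 1), wv (ru v) a k i) (-(2 * k)) := by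
  have h1 := Asy_sum (Finset.range (k + 1)) (fun i v => wv (ru v) a k i)
    (fun i => -(4 * i * ((a : ℤ) - k + 1)) - 2 * k) 0 (Finset.mem_range.2 (by omega))
    (fun j hj => wv_asy h (by have := Finset.mem_range.1 hj; omega))
    (fun j hj hj0 => by
      have h2 : 0 < (j : ℤ) * ((a : ℤ) - k + 1) := mul_pos (by omega) (by omega)
      push_cast
      nlinarith)
  have h5 : -(4 * ((0 : ℕ) : ℤ) * ((a : ℤ) - k + 1)) - 2 * k = -(2 * k) := by
    push_cast
    ring
  simp only [h5] at h1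
  exact h1

private theorem R_asy {a k : ℕ} (h : k ≤ a) :
    Asy (fun v => ∑ i ∈ Finset.range (k + 1), wv (ru v) a k i * rho (ru v) a i) (-(2 * k)) := by
  have h1 := Asy_sum (Finset.range (k + 1)) (fun i v => wv (ru v) a k i * rho (ru v) a i)
    (fun i => (-(4 * i * ((a : ℤ) - k + 1)) - 2 * k) + -(4 * i * a)) 0
    (Finset.mem_range.2 (by omega))
    (fun j hj => (wv_asy h (by have := Finset.mem_range.1 hj; omega)).mul
      (rho_asy (by have := Finset.mem_range.1 hj; omega)))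
    (fun j hj hj0 => by
      have h2 : 0 < (j : ℤ) * ((a : ℤ) - k + 1) := mul_pos (by omega) (by omega)
      have h3 : 0 ≤ (j : ℤ) * (a : ℤ) := by positivity
      push_cast
      nlinarith)
  have h5 : (-(4 * ((0 : ℕ) : ℤ) * ((a : ℤ) - k + 1)) - 2 * k) + -(4 * ((0 : ℕ) : ℤ) * a) =
      -(2 * k) := by
    push_cast
    ring
  simp only [h5] at h1
  exact h1

private theorem D_asy {a k : ℕ} (h1 : 1 ≤ k) (h : k ≤ a) :
    Asy (fun v => ∑ i ∈ Finset.range k, wv (ru v) a k (i + 1) * (1 - rho (ru v) a (i + 1)))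
      (-(4 * ((a : ℤ) - k + 1)) - 2 * k) := by
  have h1 := Asy_sum (Finset.range k)
    (fun i v => wv (ru v) a k (i + 1) * (1 - rho (ru v) a (i + 1)))
    (fun i => (-(4 * ((i + 1 : ℕ) : ℤ) * ((a : ℤ) - k + 1)) - 2 * k) + 0) 0
    (Finset.mem_range.2 (by omega))
    (fun j hj => (wv_asy h (by have := Finset.mem_range.1 hj; omega)).mul
      (Asy_one.sub_lt (rho_asy (i := j + 1) (by have := Finset.mem_range.1 hj; omega)) (by
        have h3 : 0 < ((j + 1 : ℕ) : ℤ) * (a : ℤ) := mul_pos (by omega) (by omega)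
        linarith)))
    (fun j hj hj0 => by
      have h2 : 0 < (j : ℤ) * ((a : ℤ) - k + 1) := mul_pos (by omega) (by omega)
      push_cast
      nlinarith)
  have h5 : (-(4 * ((0 + 1 : ℕ) : ℤ) * ((a : ℤ) - k + 1)) - 2 * k) + 0 =
      -(4 * ((a : ℤ) - k + 1)) - 2 * k := by
    push_cast
    ring
  simp only [h5] at h1
  exact h1

theorem om_asy {a k : ℕ} (h1 : 1 ≤ k) (h : k ≤ a) :
    Asy (fun v => 1 - om (ru v) a k 0 (Fin.last _) ^ 2) (-(4 * ((a : ℤ) - k + 1))) := by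
  have hD := (D_asy h1 h).div (W_asy h)
  have h5 : -(4 * ((a : ℤ) - k + 1)) - 2 * k - -(2 * (k : ℤ)) = -(4 * ((a : ℤ) - k + 1)) := by ring
  rw [h5] at hD
  refine Filter.Tendsto.congr' ?_ hD
  filter_upwards [(W_asy h).pos, Filter.eventually_gt_atTop 1] with v hW hv
  congr 1
  rw [div_eq_iff hW.ne', sub_mul, om_sq (ru_gt hv) h, one_mul, ← Finset.sum_sub_distrib,
    Finset.sum_range_succ' _ k, rho_zero, mul_one, sub_self, add_zero]
  refine Finset.sum_congr rfl fun i _ => ?_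
  ring

theorem om_lim {a k : ℕ} (h : k ≤ a) :
    Filter.Tendsto (fun v => om (ru v) a k 0 (Fin.last _) ^ 2) Filter.atTop (nhds 1) := by
  have hD := (R_asy h).div (W_asy h)
  rw [sub_self] at hD
  refine Filter.Tendsto.congr' ?_ hD.tendsto
  filter_upwards [(W_asy h).pos, Filter.eventually_gt_atTop 1] with v hW hv
  rw [div_eq_iff hW.ne', om_sq (ru_gt hv) h]

end Pool.Agent.KT
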