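import Pool.Agent.Work.MP_ab49bb_gt.Ob
import Pool.Agent.Work.MP_ab49bb_gt.Ov3

/-!
# Oc (S-M): the overlap tends to `1`

`om_le`: Cauchy-Schwarz (`QM.ip_sq_le`) for unit vectors (`onb_f.on`, `onb_g.on`).
`overlap_of_share` (a statement on unit vectors of a positive form): for nonzero `x`, `y` with shares `s`, `t` of the same coordinate: `ip x y = uN x0 y0 + rest`, `|rest|² ≤ (ip x x (1-s)) (ip y y (1-t))` (Cauchy-Schwarz for the
other coordinates), so `|ip x y| / √(ip x x ip y y) ≥ √(s t) - √((1-s)(1-t))`.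
`om_lim'`: for `k ≤ a` it is `om_lim`; for `k > a`: `om 0 last = ip f̂ ĝ`, `f̂, ĝ` normalised `fL (k-a) a` (`m0 = k-a`, `k - m0 = a`), `gR (2a-k) (2k-2a)` (`m1 = 2a-k`), and the shares tend to `1` (`share_f`, `share_g`).
-/

set_option autoImplicit false

open Matrix

namespace Pool.Agent.KT

private theorem uip_pos (u : ℝˣ) (hu : 1 < (u : ℝ)) (a : ℕ) {x : Ix a → ℝ} (hx : x ≠ 0) :
    0 < uip u a x x := by
  have h1 : 0 ≤ (UQ u hu a).ip x x := QM.ip_self_nonneg _ x
  have h2 : (UQ u hu a).ip x x ≠ 0 := fun h => hx ((QM.ip_self_eq_zero _ x).1 h)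
  exact lt_of_le_of_ne h1 (Ne.symm h2)

private theorem uN_pos (u : ℝˣ) (hu : 1 < (u : ℝ)) (a : ℕ) (z : Ix a) : 0 < uN u a z :=
  (UQ u hu a).pos z

theorem overlap_of_share (u : ℝˣ) (hu : 1 < (u : ℝ)) (a : ℕ) {x y : Ix a → ℝ} (hx : x ≠ 0)
    (hy : y ≠ 0) (z : Ix a) :
    Real.sqrt (shr u a x z * shr u a y z) - Real.sqrt ((1 - shr u a x z) * (1 - shr u a y z)) ≤
      |uip u a (nrm u a x) (nrm u a y)| := by
  have hX := uip_pos u hu a hx
  have hY := uip_pos u hu a hy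
  have hN := uN_pos u hu a z
  obtain ⟨X, hXd⟩ : ∃ X : ℝ, X = uip u a x x := ⟨_, rfl⟩
  obtain ⟨Y, hYd⟩ : ∃ Y : ℝ, Y = uip u a y y := ⟨_, rfl⟩
  obtain ⟨W, hWd⟩ : ∃ W : ℝ, W = uip u a x y := ⟨_, rfl⟩
  rw [← hXd] at hX
  rw [← hYd] at hY
  -- the other coordinates
  obtain ⟨P, hP⟩ : ∃ P : ℝ, P = ∑ i ∈ Finset.univ.erase z, uN u a i * x i * x i := ⟨_, rfl⟩
  obtain ⟨Q, hQ⟩ : ∃ Q : ℝ, Q = ∑ i ∈ Finset.univ.erase z, uN u a i * y i * y i := ⟨_, rfl⟩
  obtain ⟨R, hR⟩ : ∃ R : ℝ, R = ∑ i ∈ Finset.univ.erase z, uN u a i * x i * y i := ⟨_, rfl⟩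
  have eX : X = uN u a z * x z * x z + P := by
    rw [hXd, hP, uip]
    exact (Finset.add_sum_erase Finset.univ (fun i => uN u a i * x i * x i) (Finset.mem_univ z)).symm
  have eY : Y = uN u a z * y z * y z + Q := by
    rw [hYd, hQ, uip]
    exact (Finset.add_sum_erase Finset.univ (fun i => uN u a i * y i * y i) (Finset.mem_univ z)).symm
  have eW : W = uN u a z * x z * y z + R := by
    rw [hWd, hR, uip]
    exact (Finset.add_sum_erase Finset.univ (fun i => uN u a i * x i * y i) (Finset.mem_univ z)).symm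
  have hP0 : 0 ≤ P := by
    rw [hP]
    refine Finset.sum_nonneg fun i _ => ?_
    rw [mul_assoc]
    exact mul_nonneg (uN_pos u hu a i).le (mul_self_nonneg _)
  have hQ0 : 0 ≤ Q := by
    rw [hQ]
    refine Finset.sum_nonneg fun i _ => ?_
    rw [mul_assoc]
    exact mul_nonneg (uN_pos u hu a i).le (mul_self_nonneg _)
  have hRsq : R ^ 2 ≤ P * Q := by
    rw [hR, hP, hQ]
    refine Finset.sum_sq_le_sum_mul_sum_of_sq_eq_mul _ (fun i _ => ?_) (fun i _ => ?_)
      (fun i _ => by ring)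
    · rw [mul_assoc]
      exact mul_nonneg (uN_pos u hu a i).le (mul_self_nonneg _)
    · rw [mul_assoc]
      exact mul_nonneg (uN_pos u hu a i).le (mul_self_nonneg _)
  have hs : shr u a x z = uN u a z * x z * x z / X := by
    rw [shr, ← hXd]
    ring
  have ht : shr u a y z = uN u a z * y z * y z / Y := by
    rw [shr, ← hYd]
    ring
  have hs' : 1 - shr u a x z = P / X := by
    rw [hs, eq_div_iff hX.ne', sub_mul, div_mul_cancel₀ _ hX.ne', one_mul]
    linarith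
  have ht' : 1 - shr u a y z = Q / Y := by
    rw [ht, eq_div_iff hY.ne', sub_mul, div_mul_cancel₀ _ hY.ne', one_mul]
    linarith
  have hXY : 0 < √(X * Y) := Real.sqrt_pos.2 (mul_pos hX hY)
  have h1 : √(shr u a x z * shr u a y z) = |uN u a z * x z * y z| / √(X * Y) := by
    rw [hs, ht, div_mul_div_comm, Real.sqrt_div' _ (mul_pos hX hY).le]
    congr 1
    rw [← Real.sqrt_sq_eq_abs]
    congr 1
    ring
  have h2 : √((1 - shr u a x z) * (1 - shr u a y z)) = √(P * Q) / √(X * Y) := by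
    rw [hs', ht', div_mul_div_comm, Real.sqrt_div' _ (mul_pos hX hY).le]
  have h3 : |uip u a (nrm u a x) (nrm u a y)| = |W| / √(X * Y) := by
    have e1 : uip u a (nrm u a x) (nrm u a y) = (√X)⁻¹ * ((√Y)⁻¹ * W) := by
      have e2 := QM.ip_smul_left (UQ u hu a) (√(uip u a x x))⁻¹ x ((√(uip u a y y))⁻¹ • y)
      have e3 := QM.ip_smul_right (UQ u hu a) (√(uip u a y y))⁻¹ x y
      rw [e3] at e2
      rw [hXd, hYd, hWd]
      exact e2
    rw [e1, abs_mul, abs_mul, abs_of_nonneg (inv_nonneg.2 (Real.sqrt_nonneg X)),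
      abs_of_nonneg (inv_nonneg.2 (Real.sqrt_nonneg Y)), Real.sqrt_mul hX.le]
    have hX' := (Real.sqrt_pos.2 hX).ne'
    have hY' := (Real.sqrt_pos.2 hY).ne'
    field_simp
  rw [h1, h2, h3, ← sub_div]
  refine div_le_div_of_nonneg_right ?_ hXY.le
  have h4 : |R| ≤ √(P * Q) := Real.abs_le_sqrt hRsq
  have h5 : |uN u a z * x z * y z| ≤ |W| + |R| := by
    have e1 : uN u a z * x z * y z = W - R := by rw [eW]; ring
    rw [e1]
    exact abs_sub W R
  linarith

theorem om_le (u : ℝˣ) (hu : 1 < (u : ℝ)) {a k : ℕ} (h : 2 * k ≤ 3 * a)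
    (i j : Fin (dd a k + 1)) : om u a k i j ^ 2 ≤ 1 := by
  have h1 := QM.ip_sq_le (UQ u hu a) (fN u a k i) (gN u a k j)
  have h2 := (onb_f hu h).on i i
  have h3 := (onb_g hu h).on j j
  rw [if_pos rfl] at h2 h3
  rw [h2, h3, mul_one] at h1
  exact h1

private theorem nrm_ne {u : ℝˣ} {hu : 1 < (u : ℝ)} {a : ℕ} {x : Ix a → ℝ}
    (h : (UQ u hu a).ip (nrm u a x) (nrm u a x) = 1) : x ≠ 0 := by
  rintro rfl
  unfold nrm at h
  rw [smul_zero, (QM.ip_self_eq_zero _ _).2 rfl] at h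
  exact zero_ne_one h

theorem om_lim' {a k : ℕ} (h : 2 * k ≤ 3 * a) :
    Filter.Tendsto (fun v => om (ru v) a k 0 (Fin.last _) ^ 2) Filter.atTop (nhds 1) := by
  rcases le_or_gt k a with hk | hk
  · exact om_lim hk
  have hk' : k - a < a + 1 := by omega
  have hs := share_f hk h hk'
  have ht := share_g hk h hk'
  have hf : ∀ v : ℝ, fN (ru v) a k ((0 : Fin (dd a k + 1)) : ℕ) = nrm (ru v) a (fL (ru v) a (k - a) a) := by
    intro v
    unfold fN
    have e1 : m0 a k + ((0 : Fin (dd a k + 1)) : ℕ) = k - a := rfl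
    have e2 : k - (k - a) = a := by omega
    rw [e1, e2]
  have hg : ∀ v : ℝ, gN (ru v) a k ((Fin.last (dd a k) : Fin (dd a k + 1)) : ℕ) =
      nrm (ru v) a (gR (ru v) a (2 * a - k) (2 * k - 2 * a)) := by
    intro v
    unfold gN
    have e1 : m0 a k + ((Fin.last (dd a k) : Fin (dd a k + 1)) : ℕ) = 2 * a - k := by
      rw [Fin.val_last, chan_last h, m1]
      omega
    have e2 : k - (2 * a - k) = 2 * k - 2 * a := by omega
    rw [e1, e2]
  have hlow : Filter.Tendsto (fun v => √(shr (ru v) a (fL (ru v) a (k - a) a)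
      (0, ⟨k - a, hk'⟩, Fin.last a) * shr (ru v) a (gR (ru v) a (2 * a - k) (2 * k - 2 * a))
      (0, ⟨k - a, hk'⟩, Fin.last a)) - √((1 - shr (ru v) a (fL (ru v) a (k - a) a)
      (0, ⟨k - a, hk'⟩, Fin.last a)) * (1 - shr (ru v) a (gR (ru v) a (2 * a - k) (2 * k - 2 * a))
      (0, ⟨k - a, hk'⟩, Fin.last a)))) Filter.atTop (nhds 1) := by
    have h1 := ((hs.mul ht).sqrt).sub (((tendsto_const_nhds (x := (1 : ℝ))).sub hs).mul
      ((tendsto_const_nhds (x := (1 : ℝ))).sub ht)).sqrt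
    simpa using h1
  have habs : Filter.Tendsto (fun v => |om (ru v) a k 0 (Fin.last _)|) Filter.atTop (nhds 1) := by
    refine tendsto_of_tendsto_of_tendsto_of_le_of_le' hlow tendsto_const_nhds ?_ ?_
    · filter_upwards [Filter.eventually_gt_atTop 1] with v hv
      have hu := ru_gt hv
      have h2 := (onb_f hu h).on 0 0
      have h3 := (onb_g hu h).on (Fin.last _) (Fin.last _)
      rw [if_pos rfl] at h2 h3
      rw [hf v] at h2
      rw [hg v] at h3
      have h4 := overlap_of_share (ru v) hu a (nrm_ne h2) (nrm_ne h3)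
        (0, ⟨k - a, hk'⟩, Fin.last a)
      rw [← hf v, ← hg v] at h4
      exact h4
    · filter_upwards [Filter.eventually_gt_atTop 1] with v hv
      exact abs_le_one_iff_mul_self_le_one.2 (by
        have := om_le (ru v) (ru_gt hv) h 0 (Fin.last _)
        rwa [pow_two] at this)
  have h5 := habs.pow 2
  simpa using h5

end Pool.Agent.KT
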