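import Pool.Agent.Work.MP_ab49bb_gt.Hv
import Pool.Agent.Work.MP_ab49bb_gt.Gd

/-!
# Pl (M): spectral decomposition of `s1` and `s2`

`poly_S`: `X = ∏_{m ≤ a} (S - lam m)` (a polynomial in `S`, so `Com.aeval` applies) kills every highest weight vector `x` of weight `t` of `V ⊗ V`: if `t = 2a - 2m`, `m ≤ a`, then
`x = c um` (`hw_uniq`) and `S um = lam m um` (`S_um`; `aeval` of a product containing the factor `X - C (lam m)`: `Polynomial.aeval` on an eigenvector gives the value of the polynomial, which is `0`), otherwise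
`x = 0` (`hw_none`). So `X = 0` by `QM.Com.ext_hw`.
`s1_spec`: `l1` is an algebra homomorphism (`l1_mul`, `l1_add`, `l1_smul`, `l1_one`), so `aeval s1 p = l1 (aeval S p) = 0` for `p = ∏ (X - C (lam m))`. The Lagrange basis polynomials `L_m` of the distinct
(`lam_inj`) nodes satisfy `∑ L_m = 1` (`Lagrange.sum_basis`) and `(X - C (lam m)) L_m = c_m p` (`Lagrange.basis` is a product of `basisDivisor`s; or define
`L_m = C (∏_{m' ≠ m} (lam m - lam m')⁻¹) * ∏_{m' ≠ m} (X - C (lam m'))` by hand and prove `∑ L_m = 1` with `Lagrange.sum_basis`). Put `P m = aeval s1 L_m`; `Com.aeval` and `com_s1` give `Com`.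
The same for `s2` with `l2`.
-/

set_option autoImplicit false

open Matrix

namespace Pool.Agent.KT

variable {u : ℝˣ}

private theorem aeval_eigen {ι : Type} [Fintype ι] [DecidableEq ι] (M : Matrix ι ι ℝ) (c : ℝ)
    (x : ι → ℝ) (h : M *ᵥ x = c • x) (p : Polynomial ℝ) :
    Polynomial.aeval M p *ᵥ x = p.eval c • x := by
  induction p using Polynomial.induction_on' with
  | add p q hp hq => rw [map_add, add_mulVec, hp, hq, Polynomial.eval_add, add_smul]
  | monomial n r =>
    rw [Polynomial.aeval_monomial, Polynomial.eval_monomial, ← mulVec_mulVec]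
    have hpow : M ^ n *ᵥ x = c ^ n • x := by
      induction n with
      | zero => rw [pow_zero, one_mulVec, pow_zero, one_smul]
      | succ n ih => rw [pow_succ, ← mulVec_mulVec, h, mulVec_smul, ih, smul_smul, pow_succ,
          mul_comm]
    rw [hpow, Algebra.algebraMap_eq_smul_one, smul_mulVec, one_mulVec, smul_smul]

theorem poly_S (hu : 1 < (u : ℝ)) (a : ℕ) : Polynomial.aeval (S u a)
    (∏ m ∈ Finset.range (a + 1), (Polynomial.X - Polynomial.C (lam u a m))) = 0 := by
  refine ((com_S hu a).aeval _).ext_hw ?_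
  intro t x hx
  by_cases h : ∃ m ≤ a, t = 2 * (a : ℤ) - 2 * m
  · obtain ⟨m, hm, rfl⟩ := h
    have hm' : m < a + 1 := by omega
    have h1 := hw_uniq hu hm' hx
    rw [h1, mulVec_smul, aeval_eigen _ _ _ (S_um hu hm), Polynomial.eval_prod,
      Finset.prod_eq_zero (Finset.mem_range.2 hm'), zero_smul, smul_zero]
    simp
  · push Not at h
    rw [hw_none hu h hx, mulVec_zero]

private theorem spec_aux (hu : 1 < (u : ℝ)) (a : ℕ) {ι : Type} [Fintype ι] [DecidableEq ι]
    (M : QM u ι) (X : Matrix ι ι ℝ) (hX : M.Com X)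
    (h0 : Polynomial.aeval X (∏ m ∈ Finset.range (a + 1),
      (Polynomial.X - Polynomial.C (lam u a m))) = 0) :
    ∃ P : Fin (a + 1) → Matrix ι ι ℝ,
    (∀ m, M.Com (P m)) ∧ (∀ m, X * P m = lam u a (m : ℕ) • P m) ∧ ∑ m, P m = 1 := by
  have hinj : Set.InjOn (fun m : Fin (a + 1) => lam u a (m : ℕ)) (Finset.univ : Finset (Fin (a + 1))) := by
    intro x _ y _ hxy
    exact Fin.ext (lam_inj hu (by omega) (by omega) hxy)
  refine ⟨fun m => Polynomial.aeval X (Lagrange.basis Finset.univ (fun m : Fin (a + 1) => lam u a (m : ℕ)) m),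
    fun m => hX.aeval _, fun m => ?_, ?_⟩
  · have h1 : ∃ c : ℝ, (Polynomial.X - Polynomial.C (lam u a (m : ℕ))) *
        Lagrange.basis Finset.univ (fun m : Fin (a + 1) => lam u a (m : ℕ)) m =
        Polynomial.C c * ∏ m ∈ Finset.range (a + 1), (Polynomial.X - Polynomial.C (lam u a m)) := by
      refine ⟨∏ j ∈ Finset.univ.erase m, (lam u a (m : ℕ) - lam u a (j : ℕ))⁻¹, ?_⟩
      rw [Finset.prod_range fun m => (Polynomial.X - Polynomial.C (lam u a m))]
      rw [← Finset.mul_prod_erase Finset.univ _ (Finset.mem_univ m)]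
      unfold Lagrange.basis Lagrange.basisDivisor
      rw [Finset.prod_mul_distrib, map_prod]
      ring
    obtain ⟨c, hc⟩ := h1
    have h2 := congrArg (Polynomial.aeval X) hc
    rw [map_mul, map_mul, h0, mul_zero, map_sub, Polynomial.aeval_X, Polynomial.aeval_C,
      sub_mul, sub_eq_zero, Algebra.algebraMap_eq_smul_one, smul_mul_assoc, one_mul] at h2
    exact h2
  · rw [← map_sum, Lagrange.sum_basis hinj Finset.univ_nonempty, map_one]

private theorem l1_zero {a : ℕ} : l1 (0 : Matrix (Fin (a + 1) × Fin (a + 1)) (Fin (a + 1) × Fin (a + 1)) ℝ) = 0 := by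
  ext x y
  unfold l1
  simp

private theorem l2_zero {a : ℕ} : l2 (0 : Matrix (Fin (a + 1) × Fin (a + 1)) (Fin (a + 1) × Fin (a + 1)) ℝ) = 0 := by
  ext x y
  unfold l2
  simp

private noncomputable def l1h (a : ℕ) :
    Matrix (Fin (a + 1) × Fin (a + 1)) (Fin (a + 1) × Fin (a + 1)) ℝ →ₐ[ℝ] Matrix (Ix a) (Ix a) ℝ where
  toFun := l1
  map_one' := l1_one
  map_mul' := fun X Y => l1_mul X Y
  map_zero' := l1_zero
  map_add' := fun X Y => l1_add X Y
  commutes' := fun r => by
    rw [Algebra.algebraMap_eq_smul_one, Algebra.algebraMap_eq_smul_one, l1_smul, l1_one]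

private noncomputable def l2h (a : ℕ) :
    Matrix (Fin (a + 1) × Fin (a + 1)) (Fin (a + 1) × Fin (a + 1)) ℝ →ₐ[ℝ] Matrix (Ix a) (Ix a) ℝ where
  toFun := l2
  map_one' := l2_one
  map_mul' := fun X Y => l2_mul X Y
  map_zero' := l2_zero
  map_add' := fun X Y => l2_add X Y
  commutes' := fun r => by
    rw [Algebra.algebraMap_eq_smul_one, Algebra.algebraMap_eq_smul_one, l2_smul, l2_one]

theorem s1_spec (hu : 1 < (u : ℝ)) (a : ℕ) : ∃ P : Fin (a + 1) → Matrix (Ix a) (Ix a) ℝ,
    (∀ m, (UQ u hu a).Com (P m)) ∧ (∀ m, s1 u a * P m = lam u a (m : ℕ) • P m) ∧ ∑ m, P m = 1 := by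
  refine spec_aux hu a (UQ u hu a) (s1 u a) (com_s1 hu a) ?_
  have h1 : s1 u a = l1h a (S u a) := s1_eq u a
  rw [h1, Polynomial.aeval_algHom_apply, poly_S hu a, map_zero]

theorem s2_spec (hu : 1 < (u : ℝ)) (a : ℕ) : ∃ P : Fin (a + 1) → Matrix (Ix a) (Ix a) ℝ,
    (∀ m, (UQ u hu a).Com (P m)) ∧ (∀ m, s2 u a * P m = lam u a (m : ℕ) • P m) ∧ ∑ m, P m = 1 := by
  refine spec_aux hu a (UQ u hu a) (s2 u a) (com_s2 hu a) ?_
  have h1 : s2 u a = l2h a (S u a) := s2_eq u a
  rw [h1, Polynomial.aeval_algHom_apply, poly_S hu a, map_zero]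

end Pool.Agent.KT
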