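import Pool.Agent.Work.MP_ab49bb_gt.CL
import Pool.Agent.Work.MP_ab49bb_gt.CR
import Pool.Agent.Work.MP_ab49bb_gt.Pl

/-!
# On (M): two orthonormal bases of the highest weight vectors of weight `3a - 2k`, `2k ≤ 3a`

`chan`: for `i ≤ dd a k`, `m = m0 a k + i`: `m ≤ a`, `m ≤ k`, `k - m ≤ a`, `(k - m) + 2m ≤ 2a`; conversely these conditions give `m = m0 a k + i` with `i ≤ dd a k` (all by `omega` after
unfolding `m0`, `m1`, `dd`).
`uip = ip` of `UQ` by `rfl` (check: `uN u a x = (UQ u hu a).nm x` is `rfl`). `fN = (√ip f f)⁻¹ • fL` is HW (`fL_hw`, `HW.smul`; the weight `3a - 2(m + (k-m)) = 3a - 2k`), `s1 fN = lam m fN` (`s1_fL`), norm `1`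
(`fL_ne`, `ip_self_eq_zero`). Orthogonality: `s1` is self-adjoint (`sa_s1`, `QM.ip_mulVec`): `lam m ip f f' = ip (s1 f) f' = ip f (s1 f') = lam m' ip f f'` and `lam m ≠ lam m'` (`lam_inj`).
Span: let `x` be HW of weight `3a - 2k`; `x = ∑_m P m x` (`s1_spec`), each `P m x` is HW (`HW.com`) with `s1 (P m x) = lam m (P m x)`, so it is zero or a multiple of `fL m (k-m)` with `m` a channel
(`fL_uniq`), hence a multiple of some `fN i`. So `x = ∑_i c_i fN_i` and `c_i = ip (fN i) x` by orthonormality. The same for `gN` with `s2`.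
-/

set_option autoImplicit false

open Matrix

namespace Pool.Agent.KT

variable {u : ℝˣ}

theorem chan {a k : ℕ} (h : 2 * k ≤ 3 * a) {i : ℕ} (hi : i < dd a k + 1) :
    m0 a k + i ≤ a ∧ m0 a k + i ≤ k ∧ k - (m0 a k + i) ≤ a ∧
      k - (m0 a k + i) + 2 * (m0 a k + i) ≤ 2 * a := by
  unfold dd m1 m0 at *
  omega

theorem chan_last {a k : ℕ} (h : 2 * k ≤ 3 * a) : m0 a k + dd a k = m1 a k := by
  unfold dd m1 m0
  omega

private theorem chan_conv {a k m : ℕ} (h : 2 * k ≤ 3 * a) (h2 : m ≤ k)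
    (h3 : k - m ≤ a) (h4 : k - m + 2 * m ≤ 2 * a) :
    ∃ i : Fin (dd a k + 1), m = m0 a k + i := by
  refine ⟨⟨m - m0 a k, ?_⟩, ?_⟩
  · unfold dd m1 m0
    omega
  · show m = m0 a k + (m - m0 a k)
    unfold m0
    omega

private theorem onb_gen (hu : 1 < (u : ℝ)) {a k : ℕ} (h : 2 * k ≤ 3 * a)
    (s : Matrix (Ix a) (Ix a) ℝ)
    (hsa : ∀ x y, (UQ u hu a).nm x * s x y = (UQ u hu a).nm y * s y x)
    (F : ℕ → Ix a → ℝ)
    (hhw : ∀ i : Fin (dd a k + 1), (UQ u hu a).HW (3 * (a : ℤ) - 2 * k) (F (m0 a k + i)))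
    (hs : ∀ i : Fin (dd a k + 1), s *ᵥ F (m0 a k + i) = lam u a (m0 a k + i) • F (m0 a k + i))
    (hne : ∀ i : Fin (dd a k + 1), F (m0 a k + i) ≠ 0)
    (hun : ∀ m ≤ a, ∀ x : Ix a → ℝ, x ≠ 0 → (UQ u hu a).HW (3 * (a : ℤ) - 2 * k) x →
      s *ᵥ x = lam u a m • x → ∃ i : Fin (dd a k + 1), ∃ c : ℝ, x = c • F (m0 a k + i))
    (P : Fin (a + 1) → Matrix (Ix a) (Ix a) ℝ) (hP1 : ∀ m, (UQ u hu a).Com (P m))
    (hP2 : ∀ m, s * P m = lam u a (m : ℕ) • P m) (hP3 : ∑ m, P m = 1) :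
    (UQ u hu a).ONB (3 * (a : ℤ) - 2 * k)
      (fun i : Fin (dd a k + 1) => nrm u a (F (m0 a k + i))) := by
  have hpos : ∀ i : Fin (dd a k + 1), 0 < uip u a (F (m0 a k + i)) (F (m0 a k + i)) := by
    intro i
    have h1 := QM.ip_self_nonneg (UQ u hu a) (F (m0 a k + i))
    have h2 : (UQ u hu a).ip (F (m0 a k + i)) (F (m0 a k + i)) ≠ 0 :=
      fun h0 => hne i ((QM.ip_self_eq_zero (UQ u hu a) _).mp h0)
    exact lt_of_le_of_ne h1 (Ne.symm h2)
  have hon : ∀ i j : Fin (dd a k + 1),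
      (UQ u hu a).ip (nrm u a (F (m0 a k + i))) (nrm u a (F (m0 a k + j))) =
        if i = j then 1 else 0 := by
    intro i j
    unfold nrm
    rw [QM.ip_smul_left, QM.ip_smul_right]
    by_cases hij : i = j
    · subst hij
      rw [if_pos rfl]
      have h1 := hpos i
      have h2 : (UQ u hu a).ip (F (m0 a k + i)) (F (m0 a k + i)) =
        Real.sqrt (uip u a (F (m0 a k + i)) (F (m0 a k + i))) *
        Real.sqrt (uip u a (F (m0 a k + i)) (F (m0 a k + i))) :=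
        (Real.mul_self_sqrt h1.le).symm
      rw [h2]
      have h3 : Real.sqrt (uip u a (F (m0 a k + i)) (F (m0 a k + i))) ≠ 0 :=
        (Real.sqrt_pos.mpr h1).ne'
      field_simp
    · rw [if_neg hij]
      have h1 : (UQ u hu a).ip (s *ᵥ F (m0 a k + i)) (F (m0 a k + j)) =
          (UQ u hu a).ip (F (m0 a k + i)) (s *ᵥ F (m0 a k + j)) := QM.ip_mulVec hsa _ _
      rw [hs i, hs j, QM.ip_smul_left, QM.ip_smul_right] at h1
      have h2 : (lam u a (m0 a k + i) - lam u a (m0 a k + j)) *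
          (UQ u hu a).ip (F (m0 a k + i)) (F (m0 a k + j)) = 0 := by
        rw [sub_mul, h1, sub_self]
      rcases mul_eq_zero.mp h2 with h3 | h3
      · exfalso
        apply hij
        have h4 := lam_inj hu (chan h i.2).1 (chan h j.2).1 (sub_eq_zero.mp h3)
        apply Fin.ext
        omega
      · rw [h3, mul_zero, mul_zero]
  refine ⟨fun i => (hhw i).smul _, hon, ?_⟩
  intro x hx
  -- the property
  have hQ0 : ∀ y : Ix a → ℝ, (y = 0 ∨ ∃ i : Fin (dd a k + 1), ∃ c : ℝ, y = c • F (m0 a k + i)) →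
      y = ∑ i : Fin (dd a k + 1), (UQ u hu a).ip (nrm u a (F (m0 a k + i))) y •
        nrm u a (F (m0 a k + i)) := by
    rintro y (rfl | ⟨i, c, rfl⟩)
    · symm
      apply Finset.sum_eq_zero
      intro i _
      have : (UQ u hu a).ip (nrm u a (F (m0 a k + i))) 0 = 0 := by
        simp [QM.ip]
      rw [this, zero_smul]
    · have h3 : Real.sqrt (uip u a (F (m0 a k + i)) (F (m0 a k + i))) ≠ 0 :=
        (Real.sqrt_pos.mpr (hpos i)).ne'
      have h4 : c • F (m0 a k + i) =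
          (c * Real.sqrt (uip u a (F (m0 a k + i)) (F (m0 a k + i)))) •
            nrm u a (F (m0 a k + i)) := by
        unfold nrm
        rw [smul_smul, mul_assoc, mul_inv_cancel₀ h3, mul_one]
      rw [h4, Finset.sum_eq_single i]
      · rw [QM.ip_smul_right, hon i i, if_pos rfl, mul_one]
      · intro j _ hj
        rw [QM.ip_smul_right, hon j i, if_neg hj, mul_zero, zero_smul]
      · intro h
        exact absurd (Finset.mem_univ i) h
  have hx1 : x = ∑ m, P m *ᵥ x := by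
    rw [← Matrix.sum_mulVec, hP3, Matrix.one_mulVec]
  have hx2 : ∀ m, P m *ᵥ x = ∑ i : Fin (dd a k + 1),
      (UQ u hu a).ip (nrm u a (F (m0 a k + i))) (P m *ᵥ x) • nrm u a (F (m0 a k + i)) := by
    intro m
    apply hQ0
    by_cases h0 : P m *ᵥ x = 0
    · exact Or.inl h0
    · right
      apply hun m (by omega) _ h0 (hx.com (hP1 m))
      rw [Matrix.mulVec_mulVec, hP2 m, Matrix.smul_mulVec]
  have hx3 : (∑ m, P m *ᵥ x) = ∑ i : Fin (dd a k + 1),
      (UQ u hu a).ip (nrm u a (F (m0 a k + i))) (∑ m, P m *ᵥ x) •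
        nrm u a (F (m0 a k + i)) := by
    conv_lhs => rw [Finset.sum_congr rfl fun m _ => hx2 m]
    rw [Finset.sum_comm]
    apply Finset.sum_congr rfl
    intro i _
    rw [QM.ip_sum_right, Finset.sum_smul]
  rw [← hx1] at hx3
  exact hx3

theorem onb_f (hu : 1 < (u : ℝ)) {a k : ℕ} (h : 2 * k ≤ 3 * a) :
    (UQ u hu a).ONB (3 * (a : ℤ) - 2 * k) (fun i : Fin (dd a k + 1) => fN u a k i) := by
  obtain ⟨P, hP1, hP2, hP3⟩ := s1_spec hu a
  refine onb_gen hu h (s1 u a) (sa_s1 hu a) (fun m => fL u a m (k - m)) ?_ ?_ ?_ ?_ P hP1 hP2 hP3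
  · intro i
    obtain ⟨c1, c2, c3, c4⟩ := chan h i.2
    have h1 := fL_hw hu c1 c3 c4
    have h2 : (m0 a k + i) + (k - (m0 a k + i)) = k := by omega
    rw [h2] at h1
    exact h1
  · intro i
    exact s1_fL hu (chan h i.2).1 _
  · intro i
    obtain ⟨c1, c2, c3, c4⟩ := chan h i.2
    exact fL_ne c1 c3
  · intro m hm x h0 hx hs
    obtain ⟨d1, d2, d3, c, hc⟩ := fL_uniq hu hm h0 hx hs
    obtain ⟨i, hi⟩ := chan_conv h d1 d2 d3
    exact ⟨i, c, by rw [hc, hi]⟩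

theorem onb_g (hu : 1 < (u : ℝ)) {a k : ℕ} (h : 2 * k ≤ 3 * a) :
    (UQ u hu a).ONB (3 * (a : ℤ) - 2 * k) (fun i : Fin (dd a k + 1) => gN u a k i) := by
  obtain ⟨P, hP1, hP2, hP3⟩ := s2_spec hu a
  refine onb_gen hu h (s2 u a) (sa_s2 hu a) (fun m => gR u a m (k - m)) ?_ ?_ ?_ ?_ P hP1 hP2 hP3
  · intro i
    obtain ⟨c1, c2, c3, c4⟩ := chan h i.2
    have h1 := gR_hw hu c1 c3 c4
    have h2 : (m0 a k + i) + (k - (m0 a k + i)) = k := by omega
    rw [h2] at h1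
    exact h1
  · intro i
    exact s2_gR hu (chan h i.2).1 _
  · intro i
    obtain ⟨c1, c2, c3, c4⟩ := chan h i.2
    exact gR_ne hu c1 c3 c4
  · intro m hm x h0 hx hs
    obtain ⟨d1, d2, d3, c, hc⟩ := gR_uniq hu hm h0 hx hs
    obtain ⟨i, hi⟩ := chan_conv h d1 d2 d3
    exact ⟨i, c, by rw [hc, hi]⟩

theorem s1_fN (hu : 1 < (u : ℝ)) {a k : ℕ} (h : 2 * k ≤ 3 * a) (i : Fin (dd a k + 1)) :
    s1 u a *ᵥ fN u a k i = la u a k i • fN u a k i := by
  unfold fN nrm la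
  rw [Matrix.mulVec_smul, s1_fL hu (chan h i.2).1, smul_comm]

theorem s2_gN (hu : 1 < (u : ℝ)) {a k : ℕ} (h : 2 * k ≤ 3 * a) (i : Fin (dd a k + 1)) :
    s2 u a *ᵥ gN u a k i = la u a k i • gN u a k i := by
  unfold gN nrm la
  rw [Matrix.mulVec_smul, s2_gR hu (chan h i.2).1, smul_comm]

end Pool.Agent.KT
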