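import Pool.Agent.Work.MP_ab49bb_gt.On

/-!
# Ov2 (M): the overlap for `k ≤ a`, exact formula

For `k ≤ a`: `m0 = 0`, `dd = m1 = k`, so `fN 0` is `f = fL 0 k` normalised and `gN (last)` is `g = gR k 0` normalised. `N_i = vN u a i`, `N_0 = 1`.
`g (x1,x2,x3) = um k (x2,x3)` for `x1 = 0` and `0` otherwise, so `ip g g = ∑_{i ≤ k} hc a a k i ² N_i N_(k-i) = ∑ wv i`.
`f (x1,x2,x3) = hc (2a) a k (k-x3) (fd (k-x3) (um 0)) (x1,x2)` for `x3 ≤ k`, `um 0 = e_0 ⊗ e_0` (norm `1`, HW of weight `2a`), so by `fd_norm` (with `c = 2a`) slice by slice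
`ip f f = ∑_{i ≤ k} hc (2a) a k i ² vN (2a) i N_(k-i)`.
`fd_corner`: `(fd i (um 0)) (0,i) = v^(-2ia)` for `i ≤ a`: the coordinate `(0,i+1)` of `F x` is `v^(-2a) [i+1] x(0,i)` (only the summand `K⁻¹ ⊗ F'` of `tF`).
`hc_two`: `hc a a k i v^(-2ia) N_i = hc (2a) a k i vN (2a) i` for `i ≤ a`: induction; the quotients of successive terms: `hc a a k (i+1)/hc a a k i : hc (2a) a k (i+1)/hc (2a) a k i = [2a-i]/[a-i]`,
`vN (2a) (i+1)/vN (2a) i : N_(i+1)/N_i = ([2a-i]/[a-i]) v^(-2a)` (`vN_succ`).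
`ip f g = ∑_{i ≤ k} hc (2a) a k i v^(-2ia) hc a a k i N_i N_(k-i) = ∑ hc (2a) a k i ² vN (2a) i N_(k-i) = ip f f` (only the coordinates `(0,i,k-i)` contribute, `hc_two`). And
`hc (2a) a k i ² vN (2a) i = hc a a k i ² N_i rho i` (`hc_two` squared), so `ip f f = ∑ wv i rho i`. Hence `om(0,last)² = (ip f g)²/(ip f f ip g g) = ip f f/ip g g`.
-/

set_option autoImplicit false

open Matrix

namespace Pool.Agent.KT

variable {u : ℝˣ}

/-- weights. Do not change. -/
noncomputable def wv (u : ℝˣ) (a k i : ℕ) : ℝ := hc u a a k i ^ 2 * (vN u a i * vN u a (k - i))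

/-- shares. Do not change. -/
noncomputable def rho (u : ℝˣ) (a i : ℕ) : ℝ := pw u (-(4 * i * a)) * vN u a i / vN u (2 * a) i

theorem fd_corner (hu : 1 < (u : ℝ)) {a i : ℕ} (h : i < a + 1) :
    fd u (vvF u a) i (um u a 0) (0, ⟨i, h⟩) = pw u (-(2 * i * a)) := by
  induction i with
  | zero =>
    rw [fd_zero]
    have h1 := um_zero (u := u) a 0 h
    rw [h1]
    have e : (-(2 * ((0 : ℕ) : ℤ) * (a : ℤ))) = 0 := by simp
    rw [e, pw_zero]
  | succ i ih =>
    have hi : i < a + 1 := by omega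
    have ih1 := ih hi
    have h1 := congrFun (F_fd hu (vvF u a) i (um u a 0)) (0, ⟨i + 1, h⟩)
    rw [Pi.smul_apply, smul_eq_mul, Matrix.mulVec, dotProduct] at h1
    have h2 : ∀ y : Fin (a + 1) × Fin (a + 1), vvF u a (0, ⟨i + 1, h⟩) y =
        if y = (0, ⟨i, hi⟩) then pw u (-(2 * (a : ℤ))) * qn u (i + 1) else 0 := by
      rintro ⟨y1, y2⟩
      have h3 : vvF u a (0, ⟨i + 1, h⟩) (y1, y2) =
          (if (0 : Fin (a + 1)) = y1 then pw u (-(2 * vw a y1)) *
            (if (y2 : ℕ) + 1 = i + 1 then qn u ((y2 : ℕ) + 1 : ℤ) else 0) else 0) +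
          if (⟨i + 1, h⟩ : Fin (a + 1)) = y2 then
            (if (y1 : ℕ) + 1 = ((0 : Fin (a + 1)) : ℕ) then qn u ((y1 : ℕ) + 1 : ℤ) else 0) else 0 := rfl
      have h4 : ¬ ((y1 : ℕ) + 1 = ((0 : Fin (a + 1)) : ℕ)) := by simp
      rw [h3, if_neg h4, ite_self, add_zero]
      by_cases hy1 : (0 : Fin (a + 1)) = y1
      · subst hy1
        rw [if_pos rfl]
        by_cases hy2 : (y2 : ℕ) = i
        · have : y2 = ⟨i, hi⟩ := Fin.ext hy2
          subst this
          rw [if_pos rfl, if_pos rfl]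
          have e : vw a 0 = a := by simp [vw]
          rw [e]
        · rw [if_neg (by omega), if_neg, mul_zero]
          intro hc
          apply hy2
          exact congrArg (fun p : Fin (a + 1) × Fin (a + 1) => (p.2 : ℕ)) hc
      · rw [if_neg hy1, if_neg]
        intro hc
        apply hy1
        exact (congrArg (fun p : Fin (a + 1) × Fin (a + 1) => p.1) hc).symm
    simp only [h2, ite_mul, zero_mul] at h1
    rw [Finset.sum_ite_eq', if_pos (Finset.mem_univ _), ih1] at h1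
    have hq : qn u ((i : ℤ) + 1) ≠ 0 := qn_ne hu (by omega)
    have e : pw u (-(2 * ((i + 1 : ℕ) : ℤ) * (a : ℤ))) =
        pw u (-(2 * (a : ℤ))) * pw u (-(2 * (i : ℤ) * a)) := by
      rw [← pw_add]
      congr 1
      push_cast
      ring
    rw [e]
    apply mul_left_cancel₀ hq
    rw [← h1]
    ring

theorem hc_two (hu : 1 < (u : ℝ)) {a k i : ℕ} (hi : i ≤ a) :
    hc u a a k i * pw u (-(2 * i * a)) * vN u a i =
      hc u (2 * a) a k i * vN u (2 * a) i := by
  induction i with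
  | zero =>
    have e : (-(2 * ((0 : ℕ) : ℤ) * (a : ℤ))) = 0 := by simp
    rw [vN_zero, vN_zero, e, pw_zero, hc, hc]
    ring
  | succ i ih =>
    have ih1 := ih (by omega)
    have h1 := vN_succ hu a i
    have h2 := vN_succ hu (2 * a) i
    have hq1 : qn u ((i : ℤ) + 1) ≠ 0 := qn_ne hu (by omega)
    have hq2 : qn u ((a : ℤ) - i) ≠ 0 := qn_ne hu (by omega)
    have hq3 : qn u (2 * (a : ℤ) - i) ≠ 0 := qn_ne hu (by omega)
    have e1 : hc u a a k (i + 1) = -(hc u a a k i * pw u (-(2 * ((a : ℤ) - 2 * k + 2 * i + 2))) *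
        qn u ((a : ℤ) - k + i + 1) / qn u ((a : ℤ) - i)) := rfl
    have e2 : hc u (2 * a) a k (i + 1) = -(hc u (2 * a) a k i *
        pw u (-(2 * ((a : ℤ) - 2 * k + 2 * i + 2))) *
        qn u ((a : ℤ) - k + i + 1) / qn u (2 * (a : ℤ) - i)) := rfl
    have e3 : pw u (-(2 * ((i + 1 : ℕ) : ℤ) * (a : ℤ))) * pw u (-(2 * ((a : ℤ) - 2 * i))) =
        pw u (-(2 * (i : ℤ) * a)) * pw u (-(2 * (((2 * a : ℕ) : ℤ) - 2 * i))) := by
      rw [← pw_add, ← pw_add]
      congr 1
      push_cast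
      ring
    have e4 : ((2 * a : ℕ) : ℤ) = 2 * (a : ℤ) := by push_cast; ring
    rw [e4] at h2 e3
    rw [e1, e2]
    generalize pw u (-(2 * ((a : ℤ) - 2 * k + 2 * i + 2))) = P at *
    generalize qn u ((a : ℤ) - k + i + 1) = Q at *
    generalize qn u ((a : ℤ) - i) = q2 at *
    generalize qn u (2 * (a : ℤ) - i) = q3 at *
    generalize qn u ((i : ℤ) + 1) = q1 at *
    generalize pw u (-(2 * ((i + 1 : ℕ) : ℤ) * (a : ℤ))) = r1 at *
    generalize pw u (-(2 * ((a : ℤ) - 2 * i))) = r2 at *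
    generalize pw u (-(2 * (i : ℤ) * a)) = r3 at *
    generalize pw u (-(2 * (2 * (a : ℤ) - 2 * i))) = r4 at *
    generalize hc u a a k i = H at *
    generalize hc u (2 * a) a k i = H2 at *
    generalize vN u a i = N at *
    generalize vN u (2 * a) i = N2 at *
    generalize vN u a (i + 1) = N' at *
    generalize vN u (2 * a) (i + 1) = N2' at *
    have hN : N' = N * q2 * r2 / q1 := by rw [← h1]; field_simp
    have hN2 : N2' = N2 * q3 * r4 / q1 := by rw [← h2]; field_simp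
    rw [hN, hN2]
    field_simp
    linear_combination (-(H * P * Q * N)) * e3 + (-(P * Q * r4)) * ih1

private theorem sum_diag {a k : ℕ} (h : k ≤ a) (F : ℕ → ℕ → ℝ) :
    ∑ z : Fin (a + 1) × Fin (a + 1), (if (z.1 : ℕ) + z.2 = k then F z.1 z.2 else 0) =
      ∑ i ∈ Finset.range (k + 1), F i (k - i) := by
  rw [Fintype.sum_prod_type]
  have h1 : ∀ x : Fin (a + 1), (∑ y : Fin (a + 1), if (x : ℕ) + y = k then F x y else 0) =
      if (x : ℕ) < k + 1 then F x (k - x) else 0 := by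
    intro x
    by_cases hx : (x : ℕ) < k + 1
    · rw [if_pos hx, Finset.sum_eq_single (⟨k - x, by omega⟩ : Fin (a + 1))]
      · rw [if_pos]
        show (x : ℕ) + (k - x) = k
        omega
      · intro y _ hy
        rw [if_neg]
        intro hc
        apply hy
        apply Fin.ext
        show (y : ℕ) = k - x
        omega
      · intro hc
        exact absurd (Finset.mem_univ _) hc
    · rw [if_neg hx]
      refine Finset.sum_eq_zero fun y _ => ?_
      rw [if_neg (by omega)]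
  simp only [h1]
  rw [Fin.sum_univ_eq_sum_range (fun x => if x < k + 1 then F x (k - x) else 0) (a + 1)]
  rw [← Finset.sum_filter]
  apply Finset.sum_congr
  · ext x
    simp only [Finset.mem_filter, Finset.mem_range]
    omega
  · intro _ _
    rfl

private theorem gR_val (a k : ℕ) (x : Fin (a + 1)) (z : Fin (a + 1) × Fin (a + 1)) :
    gR u a k 0 (x, z) = if x = 0 then um u a k z else 0 := by
  have h1 : gR u a k 0 (x, z) = if (x : ℕ) ≤ 0 then hc u a (2 * a - 2 * k) 0 x *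
    fd u (vvF u a) (0 - x) (um u a k) (z.1, z.2) else 0 := rfl
  rw [h1]
  by_cases hx : x = 0
  · subst hx
    rw [if_pos rfl, if_pos (by simp)]
    have e1 : (0 : ℕ) - ((0 : Fin (a + 1)) : ℕ) = 0 := by simp
    have e2 : ((0 : Fin (a + 1)) : ℕ) = 0 := by simp
    rw [e1, e2, fd_zero, hc]
    ring
  · rw [if_neg hx, if_neg]
    intro hc
    apply hx
    apply Fin.ext
    simp only [Fin.val_zero]
    omega

private theorem fL_val {a k : ℕ} (x y r : Fin (a + 1)) :
    fL u a 0 k (x, y, r) = if (r : ℕ) ≤ k then hc u (2 * a) a k (k - r) *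
      fd u (vvF u a) (k - r) (um u a 0) (x, y) else 0 := by
  have h1 : fL u a 0 k (x, y, r) = if (r : ℕ) ≤ k then
      hc u (2 * (a : ℤ) - 2 * ((0 : ℕ) : ℤ)) a k (k - r) *
      fd u (vvF u a) (k - r) (um u a 0) (x, y) else 0 := rfl
  have e : 2 * (a : ℤ) - 2 * ((0 : ℕ) : ℤ) = 2 * a := by push_cast; ring
  rw [h1, e]

private theorem uip_gR {a k : ℕ} (h : Ix a → ℝ) :
    uip u a h (gR u a k 0) = ∑ z : Fin (a + 1) × Fin (a + 1), (vN u a z.1 * vN u a z.2) *
      h (0, z) * um u a k z := by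
  rw [uip, Fintype.sum_prod_type, Finset.sum_eq_single (0 : Fin (a + 1))]
  · refine Finset.sum_congr rfl fun z _ => ?_
    have e1 : uN u a (0, z) = vN u a ((0 : Fin (a + 1)) : ℕ) * (vN u a z.1 * vN u a z.2) := rfl
    rw [gR_val, if_pos rfl, e1, Fin.val_zero, vN_zero]
    ring
  · intro x _ hx
    refine Finset.sum_eq_zero fun z _ => ?_
    rw [gR_val, if_neg hx, mul_zero]
  · intro hc
    exact absurd (Finset.mem_univ _) hc

private theorem um_ip {a k : ℕ} (h : k ≤ a) :
    ∑ z : Fin (a + 1) × Fin (a + 1), (vN u a z.1 * vN u a z.2) * um u a k z * um u a k z =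
      ∑ i ∈ Finset.range (k + 1), wv u a k i := by
  have h1 := sum_diag h fun i j => hc u a a k i ^ 2 * (vN u a i * vN u a j)
  refine Eq.trans ?_ h1
  refine Finset.sum_congr rfl fun z _ => ?_
  rw [um]
  split_ifs with hz
  · ring
  · ring

private theorem gg {a k : ℕ} (h : k ≤ a) :
    uip u a (gR u a k 0) (gR u a k 0) = ∑ i ∈ Finset.range (k + 1), wv u a k i := by
  rw [uip_gR, ← um_ip h]
  refine Finset.sum_congr rfl fun z _ => ?_
  rw [gR_val, if_pos rfl]

private theorem fg (hu : 1 < (u : ℝ)) {a k : ℕ} (h : k ≤ a) :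
    uip u a (fL u a 0 k) (gR u a k 0) = ∑ i ∈ Finset.range (k + 1),
      hc u (2 * a) a k i ^ 2 * vN u (2 * a) i * vN u a (k - i) := by
  rw [uip_gR]
  have h1 := sum_diag h fun i j => hc u (2 * a) a k i ^ 2 * vN u (2 * a) i * vN u a j
  refine Eq.trans ?_ h1
  refine Finset.sum_congr rfl fun z _ => ?_
  obtain ⟨x, y⟩ := z
  rw [um]
  simp only
  split_ifs with hz
  · have e1 : k - (y : ℕ) = x := by omega
    rw [fL_val, if_pos (by omega), e1]
    have e2 := fd_corner hu x.2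
    have e3 : fd u (vvF u a) (x : ℕ) (um u a 0) (0, x) = pw u (-(2 * (x : ℕ) * a)) := e2
    have e4 := hc_two (k := k) hu (by omega : (x : ℕ) ≤ a)
    rw [e3]
    linear_combination hc u (2 * a) a k x * vN u a y * e4
  · ring

private theorem ff (hu : 1 < (u : ℝ)) {a k : ℕ} (h : k ≤ a) :
    uip u a (fL u a 0 k) (fL u a 0 k) = ∑ i ∈ Finset.range (k + 1),
      hc u (2 * a) a k i ^ 2 * vN u (2 * a) i * vN u a (k - i) := by
  have hum : (VVQ u hu a).HW ((2 * a : ℕ) : ℤ) (um u a 0) := by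
    have h1 := um_hw hu (Nat.zero_le a)
    have h2 : (2 * (a : ℤ) - 2 * ((0 : ℕ) : ℤ)) = ((2 * a : ℕ) : ℤ) := by push_cast; ring
    rwa [h2] at h1
  have hn : (VVQ u hu a).ip (um u a 0) (um u a 0) = 1 := by
    have h1 := um_ip (u := u) (Nat.zero_le a)
    have h2 : (VVQ u hu a).ip (um u a 0) (um u a 0) =
      ∑ z : Fin (a + 1) × Fin (a + 1), (vN u a z.1 * vN u a z.2) * um u a 0 z * um u a 0 z := rfl
    rw [h2, h1, Finset.sum_range_one, wv, vN_zero, hc]
    ring
  have h0 : uip u a (fL u a 0 k) (fL u a 0 k) = ∑ r : Fin (a + 1),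
      ∑ z : Fin (a + 1) × Fin (a + 1), uN u a (z.1, z.2, r) * fL u a 0 k (z.1, z.2, r) *
        fL u a 0 k (z.1, z.2, r) := by
    rw [uip, Finset.sum_comm]
    simp only [Fintype.sum_prod_type]
  have h1 : ∀ r : Fin (a + 1), (∑ z : Fin (a + 1) × Fin (a + 1),
      uN u a (z.1, z.2, r) * fL u a 0 k (z.1, z.2, r) * fL u a 0 k (z.1, z.2, r)) =
      if (r : ℕ) < k + 1 then hc u (2 * a) a k (k - r) ^ 2 * vN u (2 * a) (k - r) * vN u a r
      else 0 := by
    intro r
    by_cases hr : (r : ℕ) < k + 1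
    · rw [if_pos hr]
      have h2 := fd_norm (VVQ u hu a) hu hum (k - (r : ℕ))
      rw [hn, mul_one] at h2
      rw [← h2, QM.ip, Finset.mul_sum, Finset.sum_mul]
      refine Finset.sum_congr rfl fun z _ => ?_
      rw [fL_val, if_pos (by omega)]
      have e1 : uN u a (z.1, z.2, r) = vN u a z.1 * (vN u a z.2 * vN u a r) := rfl
      have e2 : (VVQ u hu a).nm z = vN u a z.1 * vN u a z.2 := rfl
      have e3 : fd u (VVQ u hu a).F (k - (r : ℕ)) (um u a 0) z =
        fd u (vvF u a) (k - (r : ℕ)) (um u a 0) (z.1, z.2) := rfl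
      rw [e1, e2, e3]
      ring
    · rw [if_neg hr]
      refine Finset.sum_eq_zero fun z _ => ?_
      rw [fL_val, if_neg (by omega), mul_zero]
  rw [h0]
  simp only [h1]
  rw [Fin.sum_univ_eq_sum_range (fun r => if r < k + 1 then
    hc u (2 * a) a k (k - r) ^ 2 * vN u (2 * a) (k - r) * vN u a r else 0) (a + 1)]
  rw [← Finset.sum_filter]
  have h2 : (Finset.range (a + 1)).filter (fun x => x < k + 1) = Finset.range (k + 1) := by
    ext x
    simp only [Finset.mem_filter, Finset.mem_range]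
    omega
  rw [h2, ← Finset.sum_range_reflect]
  refine Finset.sum_congr rfl fun i hi => ?_
  have hi' := Finset.mem_range.mp hi
  have e1 : k + 1 - 1 - i = k - i := by omega
  have e2 : k - (k - i) = i := by omega
  rw [e1, e2]

private theorem term (hu : 1 < (u : ℝ)) {a k i : ℕ} (h : i ≤ a) :
    wv u a k i * rho u a i = hc u (2 * a) a k i ^ 2 * vN u (2 * a) i * vN u a (k - i) := by
  have e1 := hc_two (k := k) hu h
  have e2 : pw u (-(4 * (i : ℤ) * a)) = pw u (-(2 * (i : ℤ) * a)) ^ 2 := by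
    rw [pow_two, ← pw_add]
    congr 1
    ring
  have e3 : vN u (2 * a) i ≠ 0 := (vN_pos hu (by omega)).ne'
  rw [wv, rho, e2]
  field_simp
  linear_combination vN u a (k - i) * (hc u a a k i * pw u (-(2 * (i : ℤ) * a)) * vN u a i +
    hc u (2 * a) a k i * vN u (2 * a) i) * e1

theorem om_sq (hu : 1 < (u : ℝ)) {a k : ℕ} (h : k ≤ a) :
    om u a k 0 (Fin.last _) ^ 2 * ∑ i ∈ Finset.range (k + 1), wv u a k i =
      ∑ i ∈ Finset.range (k + 1), wv u a k i * rho u a i := by
  have hm0 : m0 a k = 0 := by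
    unfold m0
    omega
  have hdd : dd a k = k := by
    unfold dd m1 m0
    omega
  have h1 : om u a k 0 (Fin.last _) = uip u a (nrm u a (fL u a 0 k)) (nrm u a (gR u a k 0)) := by
    have h2 : om u a k 0 (Fin.last _) = uip u a (fN u a k ((0 : Fin (dd a k + 1)) : ℕ))
      (gN u a k (dd a k)) := rfl
    rw [h2, Fin.val_zero, fN, gN, hm0, hdd]
    simp only [Nat.zero_add, Nat.sub_zero, Nat.sub_self]
  have hff := ff hu h
  have hfg := fg hu h
  have hgg := gg (u := u) h
  have hpos : 0 < uip u a (gR u a k 0) (gR u a k 0) := by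
    rw [hgg]
    refine Finset.sum_pos' (fun i hi => ?_) ⟨0, by simp, ?_⟩
    · have := Finset.mem_range.mp hi
      exact mul_nonneg (sq_nonneg _) (mul_nonneg (vN_pos hu (by omega)).le
        (vN_pos hu (by omega)).le)
    · rw [wv, hc]
      exact mul_pos (by norm_num) (mul_pos (vN_pos hu (by omega)) (vN_pos hu (by omega)))
  have hpos2 : 0 < uip u a (fL u a 0 k) (fL u a 0 k) := by
    rw [hff]
    refine Finset.sum_pos' (fun i hi => ?_) ⟨0, by simp, ?_⟩
    · have := Finset.mem_range.mp hi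
      exact mul_nonneg (mul_nonneg (sq_nonneg _) (vN_pos hu (by omega)).le)
        (vN_pos hu (by omega)).le
    · rw [hc]
      exact mul_pos (mul_pos (by norm_num) (vN_pos hu (by omega))) (vN_pos hu (by omega))
  have hC : uip u a (fL u a 0 k) (gR u a k 0) = uip u a (fL u a 0 k) (fL u a 0 k) := by
    rw [hff, hfg]
  have hR : ∑ i ∈ Finset.range (k + 1), wv u a k i * rho u a i =
      uip u a (fL u a 0 k) (fL u a 0 k) := by
    rw [hff]
    refine Finset.sum_congr rfl fun i hi => ?_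
    have := Finset.mem_range.mp hi
    exact term hu (by omega)
  rw [hR, ← hgg, h1]
  have h3 : uip u a (nrm u a (fL u a 0 k)) (nrm u a (gR u a k 0)) =
      (Real.sqrt (uip u a (fL u a 0 k) (fL u a 0 k)))⁻¹ *
      ((Real.sqrt (uip u a (gR u a k 0) (gR u a k 0)))⁻¹ *
        uip u a (fL u a 0 k) (gR u a k 0)) := by
    have e1 : ∀ x y : Ix a → ℝ, uip u a x y = (UQ u hu a).ip x y := fun _ _ => rfl
    rw [nrm, nrm, e1, QM.ip_smul_left, QM.ip_smul_right]
    rfl
  rw [h3, hC, mul_pow, mul_pow, inv_pow, inv_pow, Real.sq_sqrt hpos2.le, Real.sq_sqrt hpos.le]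
  field_simp

end Pool.Agent.KT
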