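import Pool.Agent.Work.MP_ab49bb_gt.Tf
import Pool.Agent.Work.MP_ab49bb_gt.Hv
import Pool.Agent.Work.MP_ab49bb_gt.Gt

/-!
# Pt (M): the partial trace of `S⁻¹`, and the words `σ_2⁻¹ σ_1^q`

`X = S⁻¹` commutes with `V ⊗ V` (`com_S`, `Com.inv`). `t x = ∑_z X (x,z) (x,z) v^(2 vw z)`.
(1) `t x = t (x+1)` for `x < a`: take the entry `((x,z),(x+1,z))` of `X E = E X` (`E = 1 ⊗ E' + E ⊗ K'`), sum over `z`:
`(X E) = [a-z+1] X (x,z) (x+1,z-1) + [a-x] v^(2 vw z) X (x,z) (x,z)` (first summand for `z ≥ 1`), `(E X) = [a-z] X (x,z+1) (x+1,z) + [a-x] v^(2 vw z) X (x+1,z) (x+1,z)` (first summand for `z < a`). The sums over `z` of the first summands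
agree after the shift `z ↦ z+1`. So `[a-x] (t x - t (x+1)) = 0`.
(2) `t a = v^(-a²-2a)`: let `z < a` and `y = X e_(a,z)` (column), so `S y = e_(a,z)`. Let `j` be the smallest second coordinate of the support of `y`, `(i,j)` the point (`i + j = a + z` on the support: weights). The coordinate `(j,i)` of `S y` is
`S (j,i) (i,j) y (i,j) ≠ 0` (`S (j,i) y'' ≠ 0` needs `i ≤ y''.1`, i.e. `y''.2 ≤ j`). So `(j,i) = (a,z)`, `j = a`: hence `y (a,z) = 0` as `z < a`. For `z = a`: `S (a,a) y ≠ 0` only for `y = (a,a)`, value `rc a a 0 = v^(a²)`; so `X (a,a) (a,a) = v^(-a²)`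
(the row `(a,a)` of `S X = 1`). So `t a = v^(-a²) v^(-2a)`.
(3) `X (x,z) (y,z) = 0` for `x ≠ y` (weights). Hence `∑_z X (x,z) (y,z) v^(2 vw z) = if x = y then v^(-a(a+2)) else 0`.
`jt_zero`: `gw 0 [(1,q)]` is the word `(1,false) :: (0,true)^q`, `wm = s2⁻¹ s1^q = l2 (S⁻¹) l1 (S^q)` (`l2_inv`, `l1_mul`), `ex = q - 1`. The trace of `wm * km` is
`∑_{x1,x2,y2} (S^q) (x1,y2) (x1,x2) v^(2(vw x1 + vw x2)) ∑_{x3} S⁻¹ (x2,x3) (y2,x3) v^(2 vw x3) = v^(-a(a+2)) ∑_{x} (S^q) x x v^(2 wt x)`. Then `tr_VV`, and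
`trw (S^q) (2a-2m) - trw (S^q) (2a-2m+2) = (lam m)^q`: `QM.trw_sub` with the orthonormal basis consisting of the normalised `um m` (`hw_uniq`: one vector, `d = 1`), `S^q um = (lam m)^q um` (`S_um`).
-/

set_option autoImplicit false

open Matrix

namespace Pool.Agent.KT

variable {u : ℝˣ}

private theorem comS (hu : 1 < (u : ℝ)) (a : ℕ) : (VVQ u hu a).Com (S u a) :=
  QM.Com.of_sa (S_wt hu a) (S_E hu a) (S_sa hu a)

private theorem VVE (hu : 1 < (u : ℝ)) (a : ℕ) (x y : Fin (a + 1) × Fin (a + 1)) :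
    (VVQ u hu a).E x y = (if x.1 = y.1 then vE u a x.2 y.2 else 0) +
      if x.2 = y.2 then vE u a x.1 y.1 * pw u (2 * vw a y.2) else 0 := rfl

/-- the partial trace does not depend on the vector: one step -/
private theorem pt_step (hu : 1 < (u : ℝ)) (a : ℕ)
    {X : Matrix (Fin (a + 1) × Fin (a + 1)) (Fin (a + 1) × Fin (a + 1)) ℝ}
    (hX : (VVQ u hu a).Com X) (x x' : Fin (a + 1)) (hxx : (x : ℕ) + 1 = x') :
    (∑ z, X (x, z) (x, z) * pw u (2 * vw a z)) = ∑ z, X (x', z) (x', z) * pw u (2 * vw a z) := by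
  have hq : qn u ((a : ℤ) - x) ≠ 0 := by
    apply qn_ne hu
    have := x'.2
    omega
  have hL : ∀ z, (X * (VVQ u hu a).E) (x, z) (x', z) =
      (∑ r, X (x, z) (x', r) * vE u a r z) +
        qn u ((a : ℤ) - x) * (X (x, z) (x, z) * pw u (2 * vw a z)) := by
    intro z
    rw [Matrix.mul_apply, Fintype.sum_prod_type]
    simp only [VVE, mul_add, Finset.sum_add_distrib]
    congr 1
    · rw [Finset.sum_eq_single x']
      · simp only [if_true]
      · intro p _ hp
        exact Finset.sum_eq_zero fun r _ => by rw [if_neg hp, mul_zero]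
      · intro h
        exact absurd (Finset.mem_univ _) h
    · rw [Finset.sum_eq_single x]
      · rw [Finset.sum_eq_single z]
        · rw [if_pos rfl]
          unfold vE
          rw [if_pos hxx]
          ring
        · intro r _ hr
          rw [if_neg hr, mul_zero]
        · intro h
          exact absurd (Finset.mem_univ _) h
      · intro p _ hp
        refine Finset.sum_eq_zero fun r _ => ?_
        have h0 : vE u a p x' = 0 := if_neg (fun h => hp (Fin.ext (by omega)))
        rw [h0, zero_mul, ite_self, mul_zero]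
      · intro h
        exact absurd (Finset.mem_univ _) h
  have hR : ∀ z, ((VVQ u hu a).E * X) (x, z) (x', z) =
      (∑ r, vE u a z r * X (x, r) (x', z)) +
        qn u ((a : ℤ) - x) * (X (x', z) (x', z) * pw u (2 * vw a z)) := by
    intro z
    rw [Matrix.mul_apply, Fintype.sum_prod_type]
    simp only [VVE, add_mul, Finset.sum_add_distrib]
    congr 1
    · rw [Finset.sum_eq_single x]
      · simp only [if_true]
      · intro p _ hp
        exact Finset.sum_eq_zero fun r _ => by rw [if_neg (Ne.symm hp), zero_mul]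
      · intro h
        exact absurd (Finset.mem_univ _) h
    · rw [Finset.sum_eq_single x']
      · rw [Finset.sum_eq_single z]
        · rw [if_pos rfl]
          unfold vE
          rw [if_pos hxx]
          ring
        · intro r _ hr
          rw [if_neg (Ne.symm hr), zero_mul]
        · intro h
          exact absurd (Finset.mem_univ _) h
      · intro p _ hp
        refine Finset.sum_eq_zero fun r _ => ?_
        have h0 : vE u a x p = 0 := if_neg (fun h => hp (Fin.ext (by omega)))
        rw [h0, zero_mul, ite_self, zero_mul]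
      · intro h
        exact absurd (Finset.mem_univ _) h
  have hsum : (∑ z, ∑ r, X (x, z) (x', r) * vE u a r z) =
      ∑ z, ∑ r, vE u a z r * X (x, r) (x', z) := by
    rw [Finset.sum_comm]
    exact Finset.sum_congr rfl fun z _ => Finset.sum_congr rfl fun r _ => mul_comm _ _
  have htot : (∑ z, (X * (VVQ u hu a).E) (x, z) (x', z)) =
      ∑ z, ((VVQ u hu a).E * X) (x, z) (x', z) := by rw [hX.E]
  simp only [hL, hR, Finset.sum_add_distrib, ← Finset.mul_sum] at htot
  rw [hsum] at htot
  exact mul_left_cancel₀ hq (add_left_cancel htot)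

private theorem S_anti (a : ℕ) (i j : Fin (a + 1)) :
    S u a (j, i) (i, j) = pw u (((a : ℤ) - 2 * (i : ℕ)) * (a - 2 * (j : ℕ))) := by
  have h1 : S u a (j, i) (i, j) = rc u a i j ((i : ℕ) - i) := by
    unfold S
    exact if_pos ⟨by simp [add_comm], le_rfl⟩
  rw [h1, Nat.sub_self, rc, gb_zero_right]
  simp only [Nat.cast_zero, Finset.range_zero, Finset.prod_empty, mul_one, mul_zero, add_zero,
    sub_zero, zero_mul]

private theorem inv_low (hu : 1 < (u : ℝ)) (a : ℕ) (z : Fin (a + 1)) :
    ∀ (j : ℕ), j < a → ∀ (i : Fin (a + 1)) (hj : j < a + 1),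
      (S u a)⁻¹ (i, ⟨j, hj⟩) (Fin.last a, z) = 0 := by
  intro j
  induction j using Nat.strong_induction_on with
  | _ j ih =>
    intro hja i hj
    have hdet : IsUnit (S u a).det := (Matrix.isUnit_iff_isUnit_det _).1 (isUnit_S u a)
    have h1 := congrFun (congrFun (Matrix.mul_nonsing_inv (S u a) hdet) (⟨j, hj⟩, i))
      (Fin.last a, z)
    have hne : ((⟨j, hj⟩, i) : Fin (a + 1) × Fin (a + 1)) ≠ (Fin.last a, z) := by
      intro h2
      have h3 := congrArg (fun p => ((p.1 : Fin (a + 1)) : ℕ)) h2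
      simp only [Fin.val_last] at h3
      omega
    rw [Matrix.one_apply_ne hne, Matrix.mul_apply, Finset.sum_eq_single (i, ⟨j, hj⟩)] at h1
    · rw [S_anti] at h1
      exact (mul_eq_zero.1 h1).resolve_left (pw_isUnit u _).ne_zero
    · intro y _ hy
      by_cases hS : S u a (⟨j, hj⟩, i) y = 0
      · rw [hS, zero_mul]
      · unfold S at hS
        split_ifs at hS with hc
        · obtain ⟨hc1, hc2⟩ := hc
          simp only at hc1 hc2
          have h2 : (y.2 : ℕ) < j := by
            rcases Nat.lt_or_ge (y.2 : ℕ) j with h3 | h3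
            · exact h3
            · exfalso
              apply hy
              have h4 : (y.2 : ℕ) = j := by omega
              have h5 : (y.1 : ℕ) = i := by omega
              exact Prod.ext (Fin.ext h5) (Fin.ext h4)
          have h3 := ih y.2 h2 (by omega) y.1 y.2.2
          have h4 : y = (y.1, ⟨(y.2 : ℕ), y.2.2⟩) := rfl
          rw [h4, h3, mul_zero]
        · exact absurd rfl hS
    · intro h
      exact absurd (Finset.mem_univ _) h

private theorem inv_top (hu : 1 < (u : ℝ)) (a : ℕ) :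
    (S u a)⁻¹ (Fin.last a, Fin.last a) (Fin.last a, Fin.last a) = pw u (-((a : ℤ) * a)) := by
  have hdet : IsUnit (S u a).det := (Matrix.isUnit_iff_isUnit_det _).1 (isUnit_S u a)
  have h1 := congrFun (congrFun (Matrix.mul_nonsing_inv (S u a) hdet) (Fin.last a, Fin.last a))
    (Fin.last a, Fin.last a)
  rw [Matrix.one_apply_eq, Matrix.mul_apply,
    Finset.sum_eq_single (Fin.last a, Fin.last a)] at h1
  · rw [S_anti] at h1
    have h2 : ((a : ℤ) - 2 * ((Fin.last a : Fin (a + 1)) : ℕ)) *
        (a - 2 * ((Fin.last a : Fin (a + 1)) : ℕ)) = (a : ℤ) * a := by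
      rw [Fin.val_last]
      ring
    rw [h2] at h1
    have h3 := pw_neg_mul u ((a : ℤ) * a)
    have h4 : pw u ((a : ℤ) * a) ≠ 0 := (pw_isUnit u _).ne_zero
    apply mul_left_cancel₀ h4
    rw [h1, mul_comm, h3]
  · intro y _ hy
    by_cases h2 : (y.2 : ℕ) < a
    · have h3 := inv_low hu a (Fin.last a) y.2 h2 y.1 y.2.2
      have h4 : y = (y.1, ⟨(y.2 : ℕ), y.2.2⟩) := rfl
      rw [h4, h3, mul_zero]
    · have h3 : (y.2 : ℕ) = a := by
        have := y.2.2
        omega
      by_cases hS : S u a (Fin.last a, Fin.last a) y = 0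
      · rw [hS, zero_mul]
      · unfold S at hS
        split_ifs at hS with hc
        · obtain ⟨hc1, hc2⟩ := hc
          simp only [Fin.val_last] at hc1 hc2
          exfalso
          apply hy
          have h5 : (y.1 : ℕ) = a := by omega
          exact Prod.ext (Fin.ext (by rw [h5, Fin.val_last])) (Fin.ext (by rw [h3, Fin.val_last]))
        · exact absurd rfl hS
  · intro h
    exact absurd (Finset.mem_univ _) h

private theorem pt_last (hu : 1 < (u : ℝ)) (a : ℕ) :
    (∑ z, (S u a)⁻¹ (Fin.last a, z) (Fin.last a, z) * pw u (2 * vw a z)) =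
      pw u (-(a * (a + 2))) := by
  rw [Finset.sum_eq_single (Fin.last a), inv_top hu, ← pw_add]
  · congr 1
    unfold vw
    rw [Fin.val_last]
    ring
  · intro z _ hz
    have h1 : (z : ℕ) < a := by
      have h2 := z.2
      rcases Nat.lt_or_ge (z : ℕ) a with h3 | h3
      · exact h3
      · exact absurd (Fin.ext (by rw [Fin.val_last]; omega)) hz
    have h3 := inv_low hu a z z h1 (Fin.last a) z.2
    have h4 : ((Fin.last a, z) : Fin (a + 1) × Fin (a + 1)) = (Fin.last a, ⟨(z : ℕ), z.2⟩) := rfl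
    rw [show (S u a)⁻¹ (Fin.last a, z) (Fin.last a, z) = 0 from h3, zero_mul]
  · intro h
    exact absurd (Finset.mem_univ _) h

theorem partial_tr (hu : 1 < (u : ℝ)) (a : ℕ) (x y : Fin (a + 1)) :
    (∑ z : Fin (a + 1), (S u a)⁻¹ (x, z) (y, z) * pw u (2 * vw a z)) =
      if x = y then pw u (-(a * (a + 2))) else 0 := by
  have hX : (VVQ u hu a).Com (S u a)⁻¹ := (comS hu a).inv
  by_cases hxy : x = y
  · subst hxy
    rw [if_pos rfl]
    have key : ∀ (n : ℕ) (x : Fin (a + 1)), (x : ℕ) + n = a →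
        (∑ z : Fin (a + 1), (S u a)⁻¹ (x, z) (x, z) * pw u (2 * vw a z)) =
          pw u (-(a * (a + 2))) := by
      intro n
      induction n with
      | zero =>
        intro x hx
        have h1 : x = Fin.last a := Fin.ext (by rw [Fin.val_last]; omega)
        rw [h1]
        exact pt_last hu a
      | succ n ih =>
        intro x hx
        rw [pt_step hu a hX x ⟨x + 1, by omega⟩ rfl]
        exact ih _ (by simp only; omega)
    exact key (a - x) x (by have := x.2; omega)
  · rw [if_neg hxy]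
    refine Finset.sum_eq_zero fun z _ => ?_
    by_cases h : (S u a)⁻¹ (x, z) (y, z) = 0
    · rw [h, zero_mul]
    · exfalso
      have h1 := hX.wt _ _ h
      change vw a x + vw a z = vw a y + vw a z at h1
      unfold vw at h1
      apply hxy
      apply Fin.ext
      omega

theorem trw_S (hu : 1 < (u : ℝ)) {a m : ℕ} (h : m ≤ a) (q : ℕ) :
    (VVQ u hu a).trw (S u a ^ q) (2 * (a : ℤ) - 2 * m) -
      (VVQ u hu a).trw (S u a ^ q) (2 * (a : ℤ) - 2 * m + 2) = lam u a m ^ q := by
  obtain ⟨N, hN⟩ : ∃ N, N = (VVQ u hu a).ip (um u a m) (um u a m) := ⟨_, rfl⟩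
  have hm1 : m < a + 1 := by omega
  have hne : um u a m ≠ 0 := by
    intro h0
    have h1 := um_zero (u := u) a m hm1
    rw [h0] at h1
    exact zero_ne_one h1
  have hNpos : 0 < N := by
    rw [hN]
    rcases ((VVQ u hu a).ip_self_nonneg (um u a m)).lt_or_eq with h1 | h1
    · exact h1
    · exact absurd (((VVQ u hu a).ip_self_eq_zero _).1 h1.symm) hne
  have hsq : Real.sqrt N * Real.sqrt N = N := Real.mul_self_sqrt hNpos.le
  have hs0 : Real.sqrt N ≠ 0 := (Real.sqrt_pos.2 hNpos).ne'
  obtain ⟨f, hf⟩ : ∃ f : Fin 1 → Fin (a + 1) × Fin (a + 1) → ℝ,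
      f = fun _ => (Real.sqrt N)⁻¹ • um u a m := ⟨_, rfl⟩
  have hff : ∀ i j, (VVQ u hu a).ip (f i) (f j) = 1 := by
    intro i j
    rw [hf]
    simp only
    rw [QM.ip_smul_left, QM.ip_smul_right, ← hN]
    field_simp
    rw [pow_two, hsq]
  have hB : (VVQ u hu a).ONB (2 * (a : ℤ) - 2 * m) f := by
    refine ⟨fun i => ?_, fun i j => ?_, fun x hx => ?_⟩
    · rw [hf]
      exact (um_hw hu h).smul _
    · rw [hff, if_pos (Subsingleton.elim i j)]
    · rw [Fin.sum_univ_one]
      have h1 := hw_uniq hu hm1 hx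
      have h2 : x = (x (0, ⟨m, hm1⟩) * Real.sqrt N) • f 0 := by
        rw [hf]
        simp only
        rw [smul_smul, mul_assoc, mul_inv_cancel₀ hs0, mul_one]
        exact h1
      have h3 : (VVQ u hu a).ip (f 0) x = x (0, ⟨m, hm1⟩) * Real.sqrt N := by
        conv_lhs => rw [h2]
        rw [QM.ip_smul_right, hff, mul_one]
      rw [h3]
      exact h2
  have hw : (0 : ℤ) ≤ 2 * (a : ℤ) - 2 * m := by omega
  rw [QM.trw_sub _ hu hw hB ((comS hu a).pow q), Fin.sum_univ_one]
  have hpow : ∀ q : ℕ, S u a ^ q *ᵥ um u a m = lam u a m ^ q • um u a m := by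
    intro q
    induction q with
    | zero => rw [pow_zero, pow_zero, Matrix.one_mulVec, one_smul]
    | succ q ih =>
      rw [pow_succ, ← Matrix.mulVec_mulVec, S_um hu h, Matrix.mulVec_smul, ih, smul_smul, pow_succ,
        mul_comm]
  have h4 : S u a ^ q *ᵥ f 0 = lam u a m ^ q • f 0 := by
    rw [hf]
    simp only
    rw [Matrix.mulVec_smul, hpow, smul_comm]
  rw [h4, QM.ip_smul_right, hff, mul_one]

private theorem l1_pow {a : ℕ} (X : Matrix (Fin (a + 1) × Fin (a + 1)) (Fin (a + 1) × Fin (a + 1)) ℝ)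
    (q : ℕ) : l1 X ^ q = l1 (X ^ q) := by
  induction q with
  | zero => rw [pow_zero, pow_zero, l1_one]
  | succ q ih => rw [pow_succ, pow_succ, ih, l1_mul]

private theorem wm_rep (a q : ℕ) : wm u a (List.replicate q ((0 : Fin 2), true)) = s1 u a ^ q := by
  rw [wm, List.map_replicate, List.prod_replicate]
  rfl

private theorem tr_lr {a : ℕ}
    (X Y : Matrix (Fin (a + 1) × Fin (a + 1)) (Fin (a + 1) × Fin (a + 1)) ℝ) :
    (l2 X * l1 Y * km u a).trace = ∑ p : Fin (a + 1), ∑ r : Fin (a + 1), ∑ r' : Fin (a + 1),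
      Y (p, r') (p, r) * (pw u (2 * vw a p) * pw u (2 * vw a r)) *
        ∑ z : Fin (a + 1), X (r, z) (r', z) * pw u (2 * vw a z) := by
  rw [Matrix.trace, Fintype.sum_prod_type]
  refine Finset.sum_congr rfl fun p _ => ?_
  rw [Fintype.sum_prod_type]
  refine Finset.sum_congr rfl fun r _ => ?_
  have h1 : ∀ z : Fin (a + 1), (l2 X * l1 Y * km u a).diag (p, r, z) =
      ∑ r' : Fin (a + 1), X (r, z) (r', z) * Y (p, r') (p, r) *
        (pw u (2 * vw a p) * pw u (2 * vw a r) * pw u (2 * vw a z)) := by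
    intro z
    rw [Matrix.diag_apply]
    unfold km
    rw [Matrix.mul_diagonal, Matrix.mul_apply, Fintype.sum_prod_type,
      Finset.sum_eq_single p, Fintype.sum_prod_type, Finset.sum_mul]
    · refine Finset.sum_congr rfl fun r' _ => ?_
      rw [Finset.sum_eq_single z]
      · have h2 : l2 X (p, r, z) (p, r', z) = X (r, z) (r', z) := if_pos rfl
        have h3 : l1 Y (p, r', z) (p, r, z) = Y (p, r') (p, r) := if_pos rfl
        rw [h2, h3, ← pw_add, ← pw_add]
        congr 2
        unfold vw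
        simp only
        ring
      · intro z' _ hz'
        have h3 : l1 Y (p, r', z') (p, r, z) = 0 := if_neg hz'
        rw [h3, mul_zero]
      · intro h
        exact absurd (Finset.mem_univ _) h
    · intro p' _ hp'
      refine Finset.sum_eq_zero fun w _ => ?_
      have h2 : l2 X (p, r, z) (p', w) = 0 := if_neg (Ne.symm hp')
      rw [h2, zero_mul]
    · intro h
      exact absurd (Finset.mem_univ _) h
  simp only [h1]
  rw [Finset.sum_comm]
  refine Finset.sum_congr rfl fun r' _ => ?_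
  rw [Finset.mul_sum]
  exact Finset.sum_congr rfl fun z _ => by ring

theorem jt_zero (hu : 1 < (u : ℝ)) (a q : ℕ) :
    jt u a (gw 0 [(1, q)]) = pw u (-(q * (a * (a + 2)))) *
      ∑ m ∈ Finset.range (a + 1), qn u (2 * (a : ℤ) - 2 * m + 1) * lam u a m ^ q := by
  have hgw : gw 0 [(1, q)] = [((1 : Fin 2), false)] ++ List.replicate q ((0 : Fin 2), true) := by
    simp [gw, tw, blk, pwr]
  have hex : ex (gw 0 [(1, q)]) = (q : ℤ) - 1 := by
    rw [hgw, ex, List.map_append, List.sum_append, List.map_replicate, List.sum_replicate]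
    simp
    ring
  have hwm : wm u a (gw 0 [(1, q)]) = l2 (S u a)⁻¹ * l1 (S u a ^ q) := by
    rw [hgw, wm, List.map_append, List.prod_append]
    have h1 := wm_rep (u := u) a q
    rw [wm] at h1
    rw [h1, s1_eq, l1_pow, ← l2_inv _ (isUnit_S u a), ← s2_eq]
    simp [lm]
  unfold jt
  rw [hex, hwm, tr_lr]
  have h2 : ∀ p r : Fin (a + 1), (∑ r' : Fin (a + 1),
      (S u a ^ q) (p, r') (p, r) * (pw u (2 * vw a p) * pw u (2 * vw a r)) *
        ∑ z : Fin (a + 1), (S u a)⁻¹ (r, z) (r', z) * pw u (2 * vw a z)) =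
      pw u (-(a * (a + 2))) * ((S u a ^ q) (p, r) (p, r) * pw u (2 * (VVQ u hu a).wt (p, r))) := by
    intro p r
    simp only [partial_tr hu]
    rw [Finset.sum_eq_single r]
    · rw [if_pos rfl, ← pw_add]
      have h3 : 2 * (VVQ u hu a).wt (p, r) = 2 * vw a p + 2 * vw a r := by
        change 2 * (vw a p + vw a r) = _
        ring
      rw [h3]
      ring
    · intro r' _ hr'
      rw [if_neg (Ne.symm hr'), mul_zero]
    · intro h
      exact absurd (Finset.mem_univ _) h
  simp only [h2, ← Finset.mul_sum]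
  have h4 := tr_VV hu a q
  rw [Fintype.sum_prod_type] at h4
  rw [h4, ← mul_assoc, ← pw_add]
  congr 1
  · congr 1
    ring
  · refine Finset.sum_congr rfl fun m hm => ?_
    rw [trw_S hu (Nat.lt_succ_iff.1 (Finset.mem_range.1 hm))]

end Pool.Agent.KT
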