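import Pool.Agent.Work.MP_ab49bb_gt.RDefs

/-!
# Qn (S): powers and quantum integers

`pw v m = v^m` in a commutative ring, `br v m = {m} = v^(2m) - v^(-2m)`, `qn u m = {m}/{1}` (real).

Proofs. `pw_*`: `Units` zpow lemmas (`zpow_add`, `Units.val_mul`, `zpow_natCast`, ...). `br_id`: unfold `br`,
multiply out; write every `pw v (linear form)` as a product of `a = pw v (2 A)`, `a' = pw v (-(2 A))`,
`b = pw v (2 j)`, `b'`, `c = pw v (2 l)`, `c'` with `a a' = 1` etc. (use `pw_add` after `show` of the exponent) and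
close with `linear_combination`. For the real statements `pw u m = (u:ℝ)^m` and `zpow` monotonicity;
`qn_ne`: `qn u (-m) = -qn u m`. `qn_add`: clear the denominator `br u 1 ≠ 0` (positive), then multiply out
`{m+n} = {m} v^(2n) + v^(-2m) {n}` (true in the ring). `qn_id` is `br_id` divided by `br u 1 ^ 2`.
-/

set_option autoImplicit false

namespace Pool.Agent.KT

section Ring

variable {A : Type*} [CommRing A] (v : Aˣ)

theorem pw_zero : pw v 0 = 1 := by
  rw [pw, zpow_zero, Units.val_one]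

theorem pw_add (m n : ℤ) : pw v (m + n) = pw v m * pw v n := by
  rw [pw, pw, pw, zpow_add, Units.val_mul]

theorem pw_neg_mul (m : ℤ) : pw v (-m) * pw v m = 1 := by
  rw [← pw_add, neg_add_cancel, pw_zero]

theorem pw_pow (m : ℤ) (k : ℕ) : pw v m ^ k = pw v (m * k) := by
  rw [pw, pw, zpow_mul, zpow_natCast, Units.val_pow_eq_pow_val]

theorem pw_isUnit (m : ℤ) : IsUnit (pw v m) := ⟨v ^ m, rfl⟩

theorem br_zero : br v 0 = 0 := by
  rw [br, mul_zero, neg_zero, sub_self]

theorem br_neg (m : ℤ) : br v (-m) = -br v m := by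
  rw [br, br, show 2 * -m = -(2 * m) by ring, neg_neg]
  ring

theorem br_add (m n : ℤ) : br v (m + n) = br v m * pw v (2 * n) + pw v (-(2 * m)) * br v n := by
  rw [br, br, br, show 2 * (m + n) = 2 * m + 2 * n by ring,
    show -(2 * m + 2 * n) = -(2 * m) + -(2 * n) by ring, pw_add, pw_add]
  ring

theorem br_add' (m n : ℤ) : br v (m + n) = br v m * pw v (-(2 * n)) + pw v (2 * m) * br v n := by
  rw [br, br, br, show 2 * (m + n) = 2 * m + 2 * n by ring,
    show -(2 * m + 2 * n) = -(2 * m) + -(2 * n) by ring, pw_add, pw_add]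
  ring

theorem br_id (b j l : ℤ) :
    br v b * br v j - br v (b - l) * br v (j + l) = -(br v (b - j - l) * br v l) := by
  have h2 : pw v (-(2 * j)) * pw v (2 * j) = 1 := pw_neg_mul v _
  have h3 : pw v (-(2 * l)) * pw v (2 * l) = 1 := pw_neg_mul v _
  have e1 : pw v (2 * (b - l)) = pw v (2 * b) * pw v (-(2 * l)) := by
    rw [← pw_add]; congr 1; ring
  have e2 : pw v (-(2 * (b - l))) = pw v (-(2 * b)) * pw v (2 * l) := by
    rw [← pw_add]; congr 1; ring
  have e3 : pw v (2 * (j + l)) = pw v (2 * j) * pw v (2 * l) := by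
    rw [← pw_add]; congr 1; ring
  have e4 : pw v (-(2 * (j + l))) = pw v (-(2 * j)) * pw v (-(2 * l)) := by
    rw [← pw_add]; congr 1; ring
  have e5 : pw v (2 * (b - j - l)) = pw v (2 * b) * pw v (-(2 * j)) * pw v (-(2 * l)) := by
    rw [← pw_add, ← pw_add]; congr 1; ring
  have e6 : pw v (-(2 * (b - j - l))) = pw v (-(2 * b)) * pw v (2 * j) * pw v (2 * l) := by
    rw [← pw_add, ← pw_add]; congr 1; ring
  simp only [br]
  rw [e1, e2, e3, e4, e5, e6]
  linear_combination (-(pw v (2 * b) * pw v (2 * j)) + pw v (2 * b) * pw v (-(2 * j)) -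
    pw v (-(2 * b)) * pw v (-(2 * j)) + pw v (-(2 * b)) * pw v (2 * j)) * h3

end Ring

variable {u : ℝˣ}

theorem pw_real (u : ℝˣ) (m : ℤ) : pw u m = (u : ℝ) ^ m := by
  rw [pw, Units.val_zpow_eq_zpow_val]

theorem pw_pos (hu : 1 < (u : ℝ)) (m : ℤ) : 0 < pw u m := by
  rw [pw_real]
  exact zpow_pos (by linarith) m

theorem pw_lt (hu : 1 < (u : ℝ)) {m n : ℤ} (h : m < n) : pw u m < pw u n := by
  rw [pw_real, pw_real]
  exact zpow_lt_zpow_right₀ hu h

theorem pw_le (hu : 1 < (u : ℝ)) {m n : ℤ} (h : m ≤ n) : pw u m ≤ pw u n := by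
  rw [pw_real, pw_real]
  exact zpow_le_zpow_right₀ hu.le h

theorem pw_inj (hu : 1 < (u : ℝ)) {m n : ℤ} (h : pw u m = pw u n) : m = n := by
  rcases lt_trichotomy m n with h1 | h1 | h1
  · exact absurd h (pw_lt hu h1).ne
  · exact h1
  · exact absurd h (pw_lt hu h1).ne'

theorem br_pos (hu : 1 < (u : ℝ)) {m : ℤ} (h : 0 < m) : 0 < br u m := by
  rw [br, sub_pos]
  exact pw_lt hu (by omega)

theorem qn_zero : qn u 0 = 0 := by
  rw [qn, br_zero, zero_div]

theorem qn_one (hu : 1 < (u : ℝ)) : qn u 1 = 1 := by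
  rw [qn]
  exact div_self (br_pos hu one_pos).ne'

theorem qn_neg (m : ℤ) : qn u (-m) = -qn u m := by
  rw [qn, qn, br_neg, neg_div]

theorem qn_pos (hu : 1 < (u : ℝ)) {m : ℤ} (h : 0 < m) : 0 < qn u m := by
  rw [qn]
  exact div_pos (br_pos hu h) (br_pos hu one_pos)

theorem qn_ne (hu : 1 < (u : ℝ)) {m : ℤ} (h : m ≠ 0) : qn u m ≠ 0 := by
  rcases lt_or_gt_of_ne h with h1 | h1
  · have h2 := qn_pos hu (m := -m) (by omega)
    rw [qn_neg] at h2
    intro h3
    rw [h3] at h2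
    simp at h2
  · exact (qn_pos hu h1).ne'

theorem qn_add (m n : ℤ) : qn u (m + n) = qn u m * pw u (2 * n) + pw u (-(2 * m)) * qn u n := by
  rw [qn, qn, qn, br_add]
  ring

theorem qn_add' (m n : ℤ) : qn u (m + n) = qn u m * pw u (-(2 * n)) + pw u (2 * m) * qn u n := by
  rw [qn, qn, qn, br_add']
  ring

theorem qn_id (b j l : ℤ) :
    qn u b * qn u j - qn u (b - l) * qn u (j + l) = -(qn u (b - j - l) * qn u l) := by
  have h := br_id u b j l
  simp only [qn]
  rw [div_mul_div_comm, div_mul_div_comm, div_mul_div_comm, ← sub_div, h, neg_div]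

/-- `[m] = v^(2m-2) (1 - x^m) / (1 - x)`, `x = v^(-4)`. -/
theorem qn_x (hu : 1 < (u : ℝ)) (m : ℤ) :
    qn u m = pw u (2 * m - 2) * (1 - pw u (-(4 * m))) / (1 - pw u (-4)) := by
  have h1 : (1 : ℝ) - pw u (-4) ≠ 0 := by
    have h2 := pw_lt hu (m := -4) (n := 0) (by norm_num)
    rw [pw_zero] at h2
    linarith
  have h3 : br u 1 ≠ 0 := (br_pos hu one_pos).ne'
  rw [qn, div_eq_div_iff h3 h1, br, br]
  have e1 : pw u (2 * m) * pw u (-4) = pw u (2 * m - 4) := by
    rw [← pw_add]; congr 1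
  have e2 : pw u (-(2 * m)) * pw u (-4) = pw u (-(2 * m) - 4) := by
    rw [← pw_add]; congr 1
  have e3 : pw u (2 * m - 2) * pw u (2 * 1) = pw u (2 * m) := by
    rw [← pw_add]; congr 1; ring
  have e4 : pw u (2 * m - 2) * pw u (-(2 * 1)) = pw u (2 * m - 4) := by
    rw [← pw_add]; congr 1; ring
  have e5 : pw u (2 * m - 2) * pw u (-(4 * m)) * pw u (2 * 1) = pw u (-(2 * m)) := by
    rw [← pw_add, ← pw_add]; congr 1; ring
  have e6 : pw u (2 * m - 2) * pw u (-(4 * m)) * pw u (-(2 * 1)) = pw u (-(2 * m) - 4) := by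
    rw [← pw_add, ← pw_add]; congr 1; ring
  linear_combination (-e1) + e2 - e3 + e4 + e5 - e6

end Pool.Agent.KT
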