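import Pool.Agent.Work.MP_ab49bb_gt.Defs

/-!
# Definitions for the proof (real values of `v`). FIXED, do not change.

`u : ℝˣ` is the value of `v`, with `1 < u`; `pw u m = u^m`, `br u m = {m}`, `qn u m = [m]`.
`QM u ι` is a weight module of `U_q(sl_2)` with basis `ι` and a positive contravariant form.
The Laurent polynomial variable `x = v^(-4)` of the notes is `pw u (-4)`.
-/

set_option autoImplicit false

open Matrix

namespace Pool.Agent.KT

/-- `[m] = {m} / {1}` -/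
noncomputable def qn (u : ℝˣ) (m : ℤ) : ℝ := br u m / br u 1

/-- A weight module of `U_q(sl_2)` with a positive contravariant form: the basis vector `i` has weight
`wt i` and square norm `nm i`, `[E, F] = [wt]` and `E* = F K`. -/
structure QM (u : ℝˣ) (ι : Type) [Fintype ι] [DecidableEq ι] where
  wt : ι → ℤ
  E : Matrix ι ι ℝ
  F : Matrix ι ι ℝ
  nm : ι → ℝ
  pos : ∀ i, 0 < nm i
  hE : ∀ i j, E i j ≠ 0 → wt i = wt j + 2
  hF : ∀ i j, F i j ≠ 0 → wt i = wt j - 2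
  comm : E * F - F * E = diagonal fun i => qn u (wt i)
  adj : ∀ i j, nm i * E i j = nm j * F j i * pw u (2 * wt i)

namespace QM

variable {u : ℝˣ} {ι : Type} [Fintype ι] [DecidableEq ι]

/-- the contravariant form -/
def ip (M : QM u ι) (x y : ι → ℝ) : ℝ := ∑ i, M.nm i * x i * y i

/-- `x` has weight `t` -/
def Wt (M : QM u ι) (t : ℤ) (x : ι → ℝ) : Prop := ∀ i, M.wt i ≠ t → x i = 0

/-- `x` is a highest weight vector of weight `t` (or zero) -/
structure HW (M : QM u ι) (t : ℤ) (x : ι → ℝ) : Prop where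
  wt : M.Wt t x
  E : M.E *ᵥ x = 0

/-- `X` is an endomorphism of the module -/
structure Com (M : QM u ι) (X : Matrix ι ι ℝ) : Prop where
  wt : ∀ i j, X i j ≠ 0 → M.wt i = M.wt j
  E : X * M.E = M.E * X
  F : X * M.F = M.F * X

/-- the trace of `X` on the weight space of weight `w` -/
def trw (M : QM u ι) (X : Matrix ι ι ℝ) (w : ℤ) : ℝ := ∑ i, if M.wt i = w then X i i else 0

/-- an orthonormal basis of the space of highest weight vectors of weight `t` -/
structure ONB (M : QM u ι) (t : ℤ) {d : ℕ} (f : Fin d → ι → ℝ) : Prop where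
  hw : ∀ i, M.HW t (f i)
  on : ∀ i j, M.ip (f i) (f j) = if i = j then 1 else 0
  span : ∀ x, M.HW t x → x = ∑ i, M.ip (f i) x • f i

end QM

/-- `[i]!` -/
noncomputable def qf (u : ℝˣ) (i : ℕ) : ℝ := ∏ s ∈ Finset.range i, qn u (s + 1)

/-- `F^(i) y = F^i y / [i]!` -/
noncomputable def fd (u : ℝˣ) {ι : Type} [Fintype ι] [DecidableEq ι] (F : Matrix ι ι ℝ) (i : ℕ)
    (y : ι → ℝ) : ι → ℝ := (qf u i)⁻¹ • (F ^ i *ᵥ y)

/-- the weight of `e_i` in `V_b` -/
def vw (b : ℕ) (i : Fin (b + 1)) : ℤ := (b : ℤ) - 2 * (i : ℕ)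

/-- the matrix of `E` on `V_b`: `E e_(i+1) = [b - i] e_i` -/
noncomputable def vE (u : ℝˣ) (b : ℕ) : Matrix (Fin (b + 1)) (Fin (b + 1)) ℝ :=
  fun i j => if (i : ℕ) + 1 = j then qn u ((b : ℤ) - i) else 0

/-- the matrix of `F` on `V_b`: `F e_j = [j + 1] e_(j+1)` -/
noncomputable def vF (u : ℝˣ) (b : ℕ) : Matrix (Fin (b + 1)) (Fin (b + 1)) ℝ :=
  fun i j => if (j : ℕ) + 1 = i then qn u ((j : ℤ) + 1) else 0

/-- the square norm of `e_i` in `V_b` -/
noncomputable def vN (u : ℝˣ) (b i : ℕ) : ℝ :=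
  pw u (-(2 * i * ((b : ℤ) - i + 1))) * gb u b i

/-- `E` on a tensor product: `1 ⊗ E' + E ⊗ K'` -/
noncomputable def tE (u : ℝˣ) {ι κ : Type} [DecidableEq ι] [DecidableEq κ] (E : Matrix ι ι ℝ)
    (E' : Matrix κ κ ℝ) (w' : κ → ℤ) : Matrix (ι × κ) (ι × κ) ℝ :=
  fun x y => (if x.1 = y.1 then E' x.2 y.2 else 0) +
    if x.2 = y.2 then E x.1 y.1 * pw u (2 * w' y.2) else 0

/-- `F` on a tensor product: `K⁻¹ ⊗ F' + F ⊗ 1` -/
noncomputable def tF (u : ℝˣ) {ι κ : Type} [DecidableEq ι] [DecidableEq κ] (F : Matrix ι ι ℝ)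
    (F' : Matrix κ κ ℝ) (w : ι → ℤ) : Matrix (ι × κ) (ι × κ) ℝ :=
  fun x y => (if x.1 = y.1 then pw u (-(2 * w y.1)) * F' x.2 y.2 else 0) +
    if x.2 = y.2 then F x.1 y.1 else 0

/-- `F` on `V ⊗ V` -/
noncomputable def vvF (u : ℝˣ) (a : ℕ) :
    Matrix (Fin (a + 1) × Fin (a + 1)) (Fin (a + 1) × Fin (a + 1)) ℝ :=
  tF u (vF u a) (vF u a) (vw a)

/-- the coefficients of the highest weight vector `∑ c_i e_i ⊗ e_(m-i)` of `V_b ⊗ V_b'` -/
noncomputable def hc (u : ℝˣ) (b b' m : ℤ) : ℕ → ℝ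
  | 0 => 1
  | i + 1 => -(hc u b b' m i * pw u (-(2 * (b' - 2 * m + 2 * i + 2))) * qn u (b' - m + i + 1) /
      qn u (b - i))

/-- the highest weight vector `u_m` of `V ⊗ V`, of weight `2 a - 2 m` -/
noncomputable def um (u : ℝˣ) (a m : ℕ) : Fin (a + 1) × Fin (a + 1) → ℝ :=
  fun x => if (x.1 : ℕ) + x.2 = m then hc u a a m x.1 else 0

/-- The highest weight vector of `V_(2a-2m) ⊗ V ⊆ (V ⊗ V) ⊗ V` of weight `3 a - 2 (m + j)`. -/
noncomputable def fL (u : ℝˣ) (a m j : ℕ) : Ix a → ℝ :=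
  fun x => if (x.2.2 : ℕ) ≤ j then hc u (2 * a - 2 * m) a j (j - x.2.2) *
    fd u (vvF u a) (j - x.2.2) (um u a m) (x.1, x.2.1) else 0

/-- The highest weight vector of `V ⊗ V_(2a-2m) ⊆ V ⊗ (V ⊗ V)` of weight `3 a - 2 (m + j)`. -/
noncomputable def gR (u : ℝˣ) (a m j : ℕ) : Ix a → ℝ :=
  fun x => if (x.1 : ℕ) ≤ j then hc u a (2 * a - 2 * m) j x.1 *
    fd u (vvF u a) (j - x.1) (um u a m) (x.2.1, x.2.2) else 0

/-- the eigenvalue of the braiding on `V_(2a-2m) ⊆ V ⊗ V` -/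
noncomputable def lam (u : ℝˣ) (a m : ℕ) : ℝ :=
  (-1) ^ m * pw u ((a : ℤ) ^ 2 - 4 * a * m + 2 * (m : ℤ) ^ 2 - 2 * m)

/-- the scalar by which the full twist acts on the highest weight vectors of weight `3 a - 2 k` -/
noncomputable def eta (u : ℝˣ) (a k : ℕ) : ℝ :=
  pw u ((3 * (a : ℤ) - 2 * k) * (3 * a - 2 * k + 2) - 3 * a * (a + 2))

/-- The channels are `m = m0, …, m1` for the weight `3 a - 2 k`. -/
def m0 (a k : ℕ) : ℕ := k - a

/-- The channels are `m = m0, …, m1` for the weight `3 a - 2 k`. -/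
def m1 (a k : ℕ) : ℕ := min k (2 * a - k)

/-- the number of channels is `dd a k + 1` -/
def dd (a k : ℕ) : ℕ := m1 a k - m0 a k

/-- `X ⊗ 1` -/
def l1 {A : Type*} [Zero A] {a : ℕ}
    (X : Matrix (Fin (a + 1) × Fin (a + 1)) (Fin (a + 1) × Fin (a + 1)) A) :
    Matrix (Ix a) (Ix a) A :=
  fun x y => if x.2.2 = y.2.2 then X (x.1, x.2.1) (y.1, y.2.1) else 0

/-- `1 ⊗ X` -/
def l2 {A : Type*} [Zero A] {a : ℕ}
    (X : Matrix (Fin (a + 1) × Fin (a + 1)) (Fin (a + 1) × Fin (a + 1)) A) :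
    Matrix (Ix a) (Ix a) A :=
  fun x y => if x.1 = y.1 then X (x.2.1, x.2.2) (y.2.1, y.2.2) else 0

/-- The real unit with the value `v` (used for `1 < v`). -/
noncomputable def ru (v : ℝ) : ℝˣ := if h : v ≠ 0 then Units.mk0 v h else 1

/-- `f(v) ~ v^k` for `v → ∞` -/
def Asy (f : ℝ → ℝ) (k : ℤ) : Prop :=
  Filter.Tendsto (fun v => f v * v ^ (-k)) Filter.atTop (nhds 1)

/-- evaluation of a braid word at two matrices -/
noncomputable def ev {d : ℕ} (A B : Matrix (Fin d) (Fin d) ℝ) (w : List Letter) :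
    Matrix (Fin d) (Fin d) ℝ :=
  (w.map fun l => if l.2 then (if l.1 = 0 then A else B)
    else (if l.1 = 0 then A⁻¹ else B⁻¹)).prod

/-- `σ_i^n` as a word -/
def pwr (i : Fin 2) (b : Bool) (n : ℕ) : List Letter := List.replicate n (i, b)

/-- the full twist `(σ_1 σ_2)^3` (`b = true`), its inverse (`b = false`) -/
def ft (b : Bool) : List Letter :=
  if b then [(0, true), (1, true), (0, true), (1, true), (0, true), (1, true)]
  else [(1, false), (0, false), (1, false), (0, false), (1, false), (0, false)]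

/-- `h^(-d)` -/
def tw (d : ℤ) : List Letter :=
  if 0 ≤ d then (List.replicate d.toNat (ft false)).flatten
  else (List.replicate (-d).toNat (ft true)).flatten

/-- `∏ σ_2^(-p_r) σ_1^(q_r)` -/
def blk (L : List (ℕ × ℕ)) : List Letter :=
  (L.map fun x => pwr 1 false x.1 ++ pwr 0 true x.2).flatten

/-- a generic word `h^(-d) ∏ σ_2^(-p_r) σ_1^(q_r)` -/
def gw (d : ℤ) (L : List (ℕ × ℕ)) : List Letter := tw d ++ blk L

/-- the list of exponents of a generic word: not empty, positive entries -/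
structure GenL (L : List (ℕ × ℕ)) : Prop where
  ne : L ≠ []
  pos : ∀ x ∈ L, 0 < x.1 ∧ 0 < x.2

/-- the number of negative letters of `blk L` -/
def sp (L : List (ℕ × ℕ)) : ℕ := (L.map Prod.fst).sum

/-- the number of positive letters of `blk L` -/
def sq (L : List (ℕ × ℕ)) : ℕ := (L.map Prod.snd).sum

/-- the torus word `(σ_1 σ_2)^m` -/
def tor (m : ℤ) : List Letter :=
  if 0 ≤ m then (List.replicate m.toNat [((0 : Fin 2), true), (1, true)]).flatten
  else (List.replicate (-m).toNat [((1 : Fin 2), false), (0, false)]).flatten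

/-- the square norm of a basis vector of `V ⊗ V ⊗ V` -/
noncomputable def uN (u : ℝˣ) (a : ℕ) (x : Ix a) : ℝ := vN u a x.1 * (vN u a x.2.1 * vN u a x.2.2)

/-- the contravariant form of `V ⊗ V ⊗ V` -/
noncomputable def uip (u : ℝˣ) (a : ℕ) (x y : Ix a → ℝ) : ℝ := ∑ i, uN u a i * x i * y i

/-- normalisation -/
noncomputable def nrm (u : ℝˣ) (a : ℕ) (x : Ix a → ℝ) : Ix a → ℝ := (Real.sqrt (uip u a x x))⁻¹ • x

/-- the normalised vector `fL`, channel `m0 a k + i` -/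
noncomputable def fN (u : ℝˣ) (a k i : ℕ) : Ix a → ℝ :=
  nrm u a (fL u a (m0 a k + i) (k - (m0 a k + i)))

/-- the normalised vector `gR`, channel `m0 a k + i` -/
noncomputable def gN (u : ℝˣ) (a k i : ℕ) : Ix a → ℝ :=
  nrm u a (gR u a (m0 a k + i) (k - (m0 a k + i)))

/-- the matrix of the inner products of the two orthonormal bases -/
noncomputable def om (u : ℝˣ) (a k : ℕ) : Matrix (Fin (dd a k + 1)) (Fin (dd a k + 1)) ℝ :=
  fun i j => uip u a (fN u a k i) (gN u a k j)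

/-- the eigenvalues on the highest weight vectors of weight `3 a - 2 k` -/
noncomputable def la (u : ℝˣ) (a k : ℕ) : Fin (dd a k + 1) → ℝ := fun i => lam u a (m0 a k + i)

/-- the normalised diagonal of `σ_1^q` -/
noncomputable def dA (u : ℝˣ) (a k q : ℕ) : Fin (dd a k + 1) → ℝ :=
  fun i => (lam u a (m0 a k + i) / lam u a (m0 a k)) ^ q

/-- the normalised diagonal of `σ_2^(-p)` -/
noncomputable def dB (u : ℝˣ) (a k p : ℕ) : Fin (dd a k + 1) → ℝ :=
  fun i => (lam u a (m1 a k) / lam u a (m0 a k + i)) ^ p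

/-- the normalised trace of `∏ σ_2^(-p_r) σ_1^(q_r)` on the highest weight vectors of weight
`3 a - 2 k` -/
noncomputable def TT (u : ℝˣ) (a k : ℕ) (L : List (ℕ × ℕ)) : ℝ :=
  (L.map fun x => om u a k * diagonal (dB u a k x.1) * (om u a k)ᵀ *
    diagonal (dA u a k x.2)).prod.trace

/-- the exponent of the term `k = a - s` -/
def FB (a p q : ℕ) (d s : ℤ) : ℤ :=
  (2 * p + 8 * d) * (a * (a + 2)) - 2 * (q - 1) * a - 2 * p * (s * (s + 1)) -
    4 * d * (s * (s + a + 1)) + 4 * s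

/-- the exponent of the term `k = a + h` -/
def FA (a p q : ℕ) (d h : ℤ) : ℤ :=
  (2 * p + 8 * d) * (a * (a + 2)) - 2 * (q - 1) * a - 2 * p * (h * (h + 1)) -
    2 * q * (h * (2 * a - h + 1)) + 4 * d * (h * (a + 1 - h)) - 4 * h

/-- The quantum trace of `w` (colour `a + 1`) has order `v^D` for `v → ∞`. -/
def RDeg (w : List Letter) (a : ℕ) (D : ℤ) : Prop :=
  ∃ c C : ℝ, 0 < c ∧ ∀ᶠ v : ℝ in Filter.atTop,
    c * v ^ D ≤ |jt (ru v) a w| ∧ |jt (ru v) a w| ≤ C * v ^ D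

/-- a quasi-quadratic degree with `b_j ≤ 0` -/
def DegNeg (w : List Letter) : Prop :=
  ∃ (p : ℕ) (a b c : ℕ → ℚ), (0 < p ∧ ∃ N : ℕ, ∀ n ≥ N, ∃ D : ℤ, RDeg w (n - 1) D ∧
    (D : ℚ) = a (n % p) * n ^ 2 + 2 * b (n % p) * n + c (n % p)) ∧ ∀ j < p, b j ≤ 0

/-- the positive half twist `σ_1 σ_2 σ_1` in `B3` -/
def gA : B3 := sg 0 * sg 1 * sg 0

/-- `σ_2 σ_1` in `B3` -/
def gB : B3 := sg 1 * sg 0

/-- the full twist in `B3` -/
def gH : B3 := (sg 0 * sg 1) ^ 3

end Pool.Agent.KT
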