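import Pool.Agent.Work.MP_ab49bb_gt.Tn

/-!
# SE (M): the braiding commutes with `E`

Write `r(i,j,l) = rc u a i j l = v^(X Y + l(l-1)) [j+l choose l] ∏_{s=1}^{l} {a-i+s}`, `X = a-2i+2l`, `Y = a-2j-2l`; `S (e_i ⊗ e_j) = ∑_{l ≤ i} r(i,j,l) e_(j+l) ⊗ e_(i-l)`
(only indices `j + l ≤ a` exist), `E (e_i ⊗ e_j) = [a-j+1] e_i ⊗ e_(j-1) + v^(2(a-2j)) [a-i+1] e_(i-1) ⊗ e_j`.
Compare the entries of `S E` and `E S` in the column `(i,j)` and the row `(p,q)`; both vanish unless `p + q + 1 = i + j`. Let `p = j+l-1`, `q = i-l` (`0 ≤ l ≤ i` if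
`q ≤ i`; if `q > i` both are `0`; here `l = i - q`, `j + l = p + 1`). The entries are
`(S E) = [a-j+1] r(i,j-1,l) + v^(2(a-2j)) [a-i+1] r(i-1,j,l-1)` (first summand only if `j ≥ 1`, second only if `i ≥ 1`, `l ≥ 1`),
`(E S) = [a-i+l] r(i,j,l-1) + v^(2(a-2i+2l)) [a-j-l+1] r(i,j,l)` (first only if `l ≥ 1`; second only if `j + l ≤ a`, but it is `0` anyway for
`j + l = a + 1` because of `[0]`).
For `l = 0` (then `j = p + 1 ≥ 1`): `[a-j+1] r(i,j-1,0) = v^(2(a-2i)) [a-j+1] r(i,j,0)`: exponents `(a-2i)(a-2j+2) = 2(a-2i) + (a-2i)(a-2j)`. ok.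
For `l ≥ 1`: with `Π = ∏_{s=1}^{l} {a-i+s}`: `[a-i+1] ∏_{s=1}^{l-1} {a-i+1+s} = Π/{1}` and `[a-i+l] ∏_{s=1}^{l-1} {a-i+s} = Π/{1}`. The exponents relative to
`e = 2X + XY + l(l-1)`: `r(i,j-1,l)`: `X(Y+2) + l(l-1) = e`; `2(a-2j) + [exponent of r(i-1,j,l-1)] = e + 2(a-2j-l+1)`; exponent of `r(i,j,l-1)`:
`(X-2)(Y+2) + (l-1)(l-2) = e - 2(a-2j-l+1)`; `2X + XY + l(l-1) = e`. So after division by `v^e Π / {1}` the claim is
`{a-j+1} [j+l-1 choose l] + v^(2(a-2j-l+1)) [j+l-1 choose l-1] = v^(-2(a-2j-l+1)) [j+l-1 choose l-1] + {a-j-l+1} [j+l choose l]`, i.e.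
(★) `{a-j+1} gb (j+l-1) l + {a-2j-l+1} gb (j+l-1) (l-1) = {a-j-l+1} gb (j+l) l`.
Multiply by `{l}` (nonzero): `gb (j+l-1) l {l} = gb (j+l-1) (l-1) {j}` (`gb_step`), `gb (j+l) l {l} = gb (j+l-1) (l-1) {j+l}` (`gb_succ_mul`), so it is
`{a-j+1}{j} + {a-2j-l+1}{l} = {a-j-l+1}{j+l}`, which is `br_id` with `b = a-j+1`. For `j = 0` the first summand of (★) is `0` (`gb (l-1) l = 0`), as it must be.
In Lean: prove the identity for natural `i j l` first (`l ≥ 1`, `l ≤ i`, as an equation of real numbers, with `j-1` replaced by writing the first summand as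
`[a-j+1] v^e gb (j+l-1) l Π`), then unfold `S`, `VVQ`, `tn`, `tE`, `vE` and evaluate the sums with `Finset.sum_eq_single`/`Fintype.sum_prod_type`.
-/

set_option autoImplicit false

open Matrix

namespace Pool.Agent.KT

variable {u : ℝˣ}

private theorem star (hu : 1 < (u : ℝ)) (a : ℤ) (j m : ℕ) :
    br u (a - j + 1) * gb u (j + m) (m + 1) + br u (a - 2 * j - m) * gb u (j + m) m =
      br u (a - j - m) * gb u (j + m + 1) (m + 1) := by
  have h0 : br u ((m : ℤ) + 1) ≠ 0 := (br_pos hu (by positivity)).ne'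
  have h1 := gb_step u (j + m) m
  have h2 := gb_succ_mul u (j + m) m
  have h3 := br_id u (a - j + 1) j ((m : ℤ) + 1)
  have e1 : ((j + m : ℕ) : ℤ) - m = j := by push_cast; ring
  have e2 : ((j + m : ℕ) : ℤ) + 1 = j + ((m : ℤ) + 1) := by push_cast; ring
  have e3 : a - j + 1 - ((m : ℤ) + 1) = a - j - m := by ring
  have e4 : a - j + 1 - j - ((m : ℤ) + 1) = a - 2 * j - m := by ring
  rw [e1] at h1
  rw [e2] at h2
  rw [e3, e4] at h3
  apply mul_right_cancel₀ h0
  linear_combination (br u (a - j + 1)) * h1 - br u (a - j - m) * h2 + gb u (j + m) m * h3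

private theorem core (hu : 1 < (u : ℝ)) (a i j m : ℕ) :
    pw u (((a : ℤ) - 2 * (i + 1) + 2 * (m + 1)) * (a - 2 * j - 2 * m) + (m + 1) * m) *
        gb u (j + m) (m + 1) * (∏ s ∈ Finset.range (m + 1), br u ((a : ℤ) - (i + 1) + (s + 1))) *
        qn u ((a : ℤ) - j + 1) +
      rc u a i j m * (qn u ((a : ℤ) - i) * pw u (2 * ((a : ℤ) - 2 * j))) =
      qn u ((a : ℤ) - i + m) * rc u a (i + 1) j m +
        qn u ((a : ℤ) - j - m) * pw u (2 * ((a : ℤ) - 2 * i + 2 * m)) * rc u a (i + 1) j (m + 1) := by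
  obtain ⟨e, he⟩ : ∃ e : ℤ, e = ((a : ℤ) - 2 * (i + 1) + 2 * (m + 1)) * (a - 2 * j - 2 * m) +
    (m + 1) * m := ⟨_, rfl⟩
  obtain ⟨D, hD⟩ : ∃ D : ℤ, D = (a : ℤ) - 2 * j - m := ⟨_, rfl⟩
  have hst := star hu a j m
  have hbr : br u D = pw u (2 * D) - pw u (-(2 * D)) := rfl
  rw [← hD, hbr] at hst
  obtain ⟨T, hT⟩ : ∃ T : ℝ, T = ∏ s ∈ Finset.range (m + 1), br u ((a : ℤ) - (i + 1) + (s + 1)) :=
    ⟨_, rfl⟩
  have hP : T = br u ((a : ℤ) - i) * ∏ s ∈ Finset.range m, br u ((a : ℤ) - i + (s + 1)) := by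
    rw [hT, Finset.prod_range_succ', mul_comm]
    congr 1
    · congr 1
      push_cast
      ring
    · refine Finset.prod_congr rfl fun s _ => ?_
      congr 1
      push_cast
      ring
  have hQ : T = (∏ s ∈ Finset.range m, br u ((a : ℤ) - (i + 1) + (s + 1))) *
      br u ((a : ℤ) - i + m) := by
    rw [hT, Finset.prod_range_succ]
    congr 2
    ring
  have p2 : pw u (((a : ℤ) - 2 * i + 2 * m) * (a - 2 * j - 2 * m) + m * (m - 1)) *
      pw u (2 * ((a : ℤ) - 2 * j)) = pw u e * pw u (2 * D) := by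
    rw [← pw_add, ← pw_add, he, hD]
    congr 1
    ring
  have p3 : pw u (((a : ℤ) - 2 * (i + 1) + 2 * m) * (a - 2 * j - 2 * m) + m * (m - 1)) =
      pw u e * pw u (-(2 * D)) := by
    rw [← pw_add, he, hD]
    congr 1
    ring
  have p4 : pw u (2 * ((a : ℤ) - 2 * i + 2 * m)) *
      pw u (((a : ℤ) - 2 * (i + 1) + 2 * (m + 1)) * (a - 2 * j - 2 * (m + 1)) +
        (m + 1) * (m + 1 - 1)) = pw u e := by
    rw [← pw_add, he]
    congr 1
    ring
  have hr1 : rc u a i j m = pw u (((a : ℤ) - 2 * i + 2 * m) * (a - 2 * j - 2 * m) + m * (m - 1)) *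
      gb u (j + m) m * ∏ s ∈ Finset.range m, br u ((a : ℤ) - i + (s + 1)) := rfl
  have hr2 : rc u a (i + 1) j m =
      pw u (((a : ℤ) - 2 * (i + 1) + 2 * m) * (a - 2 * j - 2 * m) + m * (m - 1)) *
      gb u (j + m) m * ∏ s ∈ Finset.range m, br u ((a : ℤ) - (i + 1) + (s + 1)) := by
    unfold rc
    push_cast
    rfl
  have hr3 : rc u a (i + 1) j (m + 1) =
      pw u (((a : ℤ) - 2 * (i + 1) + 2 * (m + 1)) * (a - 2 * j - 2 * (m + 1)) +
        (m + 1) * (m + 1 - 1)) * gb u (j + m + 1) (m + 1) * T := by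
    rw [hT]
    unfold rc
    push_cast
    rfl
  rw [hr1, hr2, hr3, ← he, ← hT]
  obtain ⟨x2, hx2⟩ : ∃ x : ℝ, x = pw u (((a : ℤ) - 2 * i + 2 * m) * (a - 2 * j - 2 * m) +
    m * (m - 1)) := ⟨_, rfl⟩
  obtain ⟨x4, hx4⟩ : ∃ x : ℝ, x = pw u (((a : ℤ) - 2 * (i + 1) + 2 * (m + 1)) *
    (a - 2 * j - 2 * (m + 1)) + (m + 1) * (m + 1 - 1)) := ⟨_, rfl⟩
  rw [p3, ← hx2, ← hx4]
  rw [← hx2] at p2
  rw [← hx4] at p4
  obtain ⟨Pm, hPm⟩ : ∃ x : ℝ, x = ∏ s ∈ Finset.range m, br u ((a : ℤ) - i + (s + 1)) := ⟨_, rfl⟩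
  obtain ⟨Qm, hQm⟩ : ∃ x : ℝ, x = ∏ s ∈ Finset.range m, br u ((a : ℤ) - (i + 1) + (s + 1)) :=
    ⟨_, rfl⟩
  rw [← hPm, ← hQm]
  rw [← hPm] at hP
  rw [← hQm] at hQ
  simp only [qn, div_eq_mul_inv]
  obtain ⟨c, hc⟩ : ∃ c : ℝ, c = (br u 1)⁻¹ := ⟨_, rfl⟩
  rw [← hc]
  linear_combination (pw u e * c * T) * hst - (pw u e * pw u (2 * D) * gb u (j + m) m * c) * hP +
    (pw u e * pw u (-(2 * D)) * gb u (j + m) m * c) * hQ +
    (gb u (j + m) m * Pm * br u ((a : ℤ) - i) * c) * p2 -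
    (br u ((a : ℤ) - j - m) * c * gb u (j + m + 1) (m + 1) * T) * p4

/-- the entries of `S` for natural numbers -/
private noncomputable def sN (u : ℝˣ) (a p q i j : ℕ) : ℝ :=
  if p + q = i + j ∧ q ≤ i then rc u a i j (i - q) else 0

private theorem nat_id (hu : 1 < (u : ℝ)) (a p q i j : ℕ) :
    (if j = 0 then 0 else sN u a p q i (j - 1) * qn u ((a : ℤ) - j + 1)) +
      (if i = 0 then 0 else sN u a p q (i - 1) j * (qn u ((a : ℤ) - i + 1) *
        pw u (2 * ((a : ℤ) - 2 * j)))) =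
      qn u ((a : ℤ) - q) * sN u a p (q + 1) i j +
        qn u ((a : ℤ) - p) * pw u (2 * ((a : ℤ) - 2 * q)) * sN u a (p + 1) q i j := by
  by_cases hw : p + q + 1 = i + j ∧ q ≤ i
  swap
  · have z1 : (if j = 0 then 0 else sN u a p q i (j - 1) * qn u ((a : ℤ) - j + 1)) = 0 := by
      split
      · rfl
      · rw [sN, if_neg, zero_mul]
        omega
    have z2 : (if i = 0 then 0 else sN u a p q (i - 1) j * (qn u ((a : ℤ) - i + 1) *
        pw u (2 * ((a : ℤ) - 2 * j)))) = 0 := by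
      split
      · rfl
      · rw [sN, if_neg, zero_mul]
        omega
    have z3 : sN u a p (q + 1) i j = 0 := by
      rw [sN, if_neg]
      omega
    have z4 : sN u a (p + 1) q i j = 0 := by
      rw [sN, if_neg]
      omega
    rw [z1, z2, z3, z4, mul_zero, mul_zero]
  obtain ⟨hw1, hw2⟩ := hw
  obtain ⟨l, rfl⟩ : ∃ l, i = q + l := ⟨i - q, by omega⟩
  rcases Nat.eq_zero_or_pos l with hl | hl
  · subst hl
    have hj : j = p + 1 := by omega
    subst hj
    simp only [Nat.add_zero]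
    have z2 : (if q = 0 then 0 else sN u a p q (q - 1) (p + 1) * (qn u ((a : ℤ) - q + 1) *
        pw u (2 * ((a : ℤ) - 2 * ((p + 1 : ℕ) : ℤ))))) = 0 := by
      split
      · rfl
      · rw [sN, if_neg, zero_mul]
        omega
    have z3 : sN u a p (q + 1) q (p + 1) = 0 := by
      rw [sN, if_neg]
      omega
    rw [z2, z3, mul_zero, if_neg (Nat.succ_ne_zero p), add_zero, zero_add, Nat.add_sub_cancel,
      sN, if_pos ⟨by omega, le_refl q⟩, sN, if_pos ⟨by omega, le_refl q⟩, Nat.sub_self]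
    unfold rc
    simp only [Finset.prod_range_zero, gb_zero_right]
    have e1 : pw u (((a : ℤ) - 2 * q + 2 * ((0 : ℕ) : ℤ)) * (a - 2 * p - 2 * ((0 : ℕ) : ℤ)) +
        ((0 : ℕ) : ℤ) * (((0 : ℕ) : ℤ) - 1)) = pw u (2 * ((a : ℤ) - 2 * q)) *
        pw u (((a : ℤ) - 2 * q + 2 * ((0 : ℕ) : ℤ)) * (a - 2 * ((p + 1 : ℕ) : ℤ) -
          2 * ((0 : ℕ) : ℤ)) + ((0 : ℕ) : ℤ) * (((0 : ℕ) : ℤ) - 1)) := by
      rw [← pw_add]
      congr 1
      push_cast
      ring
    have e2 : (a : ℤ) - ((p + 1 : ℕ) : ℤ) + 1 = a - p := by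
      push_cast
      ring
    rw [e1, e2]
    ring
  · obtain ⟨m, rfl⟩ : ∃ m, l = m + 1 := ⟨l - 1, by omega⟩
    have hp : p = j + m := by omega
    subst hp
    have hc := core hu a (q + m) j m
    have hi : q + (m + 1) ≠ 0 := by omega
    have hi1 : q + (m + 1) - 1 = q + m := by omega
    have s2 : sN u a (j + m) q (q + (m + 1) - 1) j = rc u a (q + m) j m := by
      rw [hi1, sN, if_pos ⟨by omega, by omega⟩]
      congr 1
      omega
    have s3 : sN u a (j + m) (q + 1) (q + (m + 1)) j = rc u a (q + m + 1) j m := by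
      rw [sN, if_pos ⟨by omega, by omega⟩]
      congr 1
      omega
    have s4 : sN u a (j + m + 1) q (q + (m + 1)) j = rc u a (q + m + 1) j (m + 1) := by
      rw [sN, if_pos ⟨by omega, by omega⟩]
      congr 1
      omega
    have s1 : (if j = 0 then 0 else sN u a (j + m) q (q + (m + 1)) (j - 1) *
        qn u ((a : ℤ) - j + 1)) =
        pw u (((a : ℤ) - 2 * (((q + m : ℕ) : ℤ) + 1) + 2 * (m + 1)) * (a - 2 * j - 2 * m) +
          (m + 1) * m) * gb u (j + m) (m + 1) *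
          (∏ s ∈ Finset.range (m + 1), br u ((a : ℤ) - (((q + m : ℕ) : ℤ) + 1) + (s + 1))) *
          qn u ((a : ℤ) - j + 1) := by
      by_cases hj : j = 0
      · subst hj
        rw [if_pos rfl, Nat.zero_add, gb_of_lt u (Nat.lt_succ_self m)]
        ring
      · obtain ⟨j', rfl⟩ : ∃ j', j = j' + 1 := ⟨j - 1, by omega⟩
        rw [if_neg hj, Nat.add_sub_cancel, sN, if_pos ⟨by omega, by omega⟩]
        have e0 : q + (m + 1) - q = m + 1 := by omega
        rw [e0]
        unfold rc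
        have e1 : ((a : ℤ) - 2 * ((q + (m + 1) : ℕ) : ℤ) + 2 * ((m + 1 : ℕ) : ℤ)) *
            (a - 2 * j' - 2 * ((m + 1 : ℕ) : ℤ)) + ((m + 1 : ℕ) : ℤ) * (((m + 1 : ℕ) : ℤ) - 1) =
            ((a : ℤ) - 2 * (((q + m : ℕ) : ℤ) + 1) + 2 * (m + 1)) *
              (a - 2 * ((j' + 1 : ℕ) : ℤ) - 2 * m) + (m + 1) * m := by
          push_cast
          ring
        have e2 : j' + (m + 1) = j' + 1 + m := by omega
        have e3 : ((q + (m + 1) : ℕ) : ℤ) = ((q + m : ℕ) : ℤ) + 1 := by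
          push_cast
          ring
        rw [e1, e2, e3]
    rw [if_neg hi, s1, s2, s3, s4]
    have e4 : (a : ℤ) - ((q + (m + 1) : ℕ) : ℤ) + 1 = a - ((q + m : ℕ) : ℤ) := by
      push_cast
      ring
    have e5 : (a : ℤ) - ((q + m : ℕ) : ℤ) + m = a - q := by
      push_cast
      ring
    have e6 : (a : ℤ) - 2 * ((q + m : ℕ) : ℤ) + 2 * m = a - 2 * q := by
      push_cast
      ring
    have e7 : (a : ℤ) - j - m = a - ((j + m : ℕ) : ℤ) := by
      push_cast
      ring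
    rw [e5, e6, e7] at hc
    rw [e4]
    exact hc

private theorem sum_right (a : ℕ) (g : ℕ → ℝ) (j : Fin (a + 1)) :
    ∑ z : Fin (a + 1), g z * vE u a z j =
      if (j : ℕ) = 0 then 0 else g ((j : ℕ) - 1) * qn u ((a : ℤ) - j + 1) := by
  by_cases hj : (j : ℕ) = 0
  · rw [if_pos hj]
    refine Finset.sum_eq_zero fun z _ => ?_
    rw [vE, if_neg (by omega), mul_zero]
  · rw [if_neg hj, Finset.sum_eq_single ⟨(j : ℕ) - 1, by omega⟩]
    · rw [vE, if_pos (by show (j : ℕ) - 1 + 1 = j; omega)]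
      congr 2
      show (a : ℤ) - (((j : ℕ) - 1 : ℕ) : ℤ) = _
      push_cast [Nat.one_le_iff_ne_zero.2 hj]
      ring
    · intro z _ hz
      rw [vE, if_neg, mul_zero]
      intro h
      apply hz
      ext
      show (z : ℕ) = (j : ℕ) - 1
      omega
    · intro h
      exact absurd (Finset.mem_univ _) h

private theorem sum_left (a : ℕ) (g : ℕ → ℝ) (p : Fin (a + 1)) :
    ∑ z : Fin (a + 1), vE u a p z * g z = qn u ((a : ℤ) - p) * g ((p : ℕ) + 1) := by
  by_cases hp : (p : ℕ) + 1 ≤ a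
  · rw [Finset.sum_eq_single ⟨(p : ℕ) + 1, by omega⟩]
    · rw [vE, if_pos rfl]
    · intro z _ hz
      rw [vE, if_neg, zero_mul]
      intro h
      apply hz
      ext
      exact h.symm
    · intro h
      exact absurd (Finset.mem_univ _) h
  · have hpa : (p : ℕ) = a := by omega
    rw [hpa, sub_self, qn_zero, zero_mul]
    refine Finset.sum_eq_zero fun z _ => ?_
    rw [vE, if_neg (by omega), zero_mul]

theorem S_E (hu : 1 < (u : ℝ)) (a : ℕ) : S u a * (VVQ u hu a).E = (VVQ u hu a).E * S u a := by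
  ext ⟨p, q⟩ ⟨i, j⟩
  rw [Matrix.mul_apply, Matrix.mul_apply, Fintype.sum_prod_type, Fintype.sum_prod_type]
  have hE : ∀ x y : Fin (a + 1) × Fin (a + 1), (VVQ u hu a).E x y =
      (if x.1 = y.1 then vE u a x.2 y.2 else 0) +
        if x.2 = y.2 then vE u a x.1 y.1 * pw u (2 * vw a y.2) else 0 := fun x y => rfl
  have hS : ∀ x y : Fin (a + 1) × Fin (a + 1), S u a x y = sN u a x.1 x.2 y.1 y.2 := fun x y => rfl
  have hL : ∑ x : Fin (a + 1), ∑ y : Fin (a + 1), S u a (p, q) (x, y) * (VVQ u hu a).E (x, y) (i, j) =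
      (if (j : ℕ) = 0 then 0 else sN u a p q i ((j : ℕ) - 1) * qn u ((a : ℤ) - (j : ℕ) + 1)) +
      (if (i : ℕ) = 0 then 0 else sN u a p q ((i : ℕ) - 1) j * (qn u ((a : ℤ) - (i : ℕ) + 1) *
        pw u (2 * ((a : ℤ) - 2 * (j : ℕ))))) := by
    simp only [hE, hS, mul_add, Finset.sum_add_distrib]
    congr 1
    · rw [Finset.sum_eq_single i]
      · simp only [if_true]
        exact sum_right a (fun z => sN u a p q i z) j
      · intro x _ hx
        simp only [if_neg hx, mul_zero, Finset.sum_const_zero]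
      · intro h
        exact absurd (Finset.mem_univ _) h
    · rw [Finset.sum_comm, Finset.sum_eq_single j]
      · simp only [if_true]
        have h1 := sum_right (u := u) a (fun z => sN u a p q z j * pw u (2 * vw a j)) i
        have h2 : ∀ z : Fin (a + 1), sN u a p q z j * (vE u a z i * pw u (2 * vw a j)) =
            sN u a p q z j * pw u (2 * vw a j) * vE u a z i := fun z => by ring
        simp only [h2]
        rw [h1]
        split
        · rfl
        · rw [vw]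
          ring
      · intro x _ hx
        simp only [if_neg hx, mul_zero, Finset.sum_const_zero]
      · intro h
        exact absurd (Finset.mem_univ _) h
  have hR : ∑ x : Fin (a + 1), ∑ y : Fin (a + 1), (VVQ u hu a).E (p, q) (x, y) * S u a (x, y) (i, j) =
      qn u ((a : ℤ) - (q : ℕ)) * sN u a p ((q : ℕ) + 1) i j +
        qn u ((a : ℤ) - (p : ℕ)) * pw u (2 * ((a : ℤ) - 2 * (q : ℕ))) *
          sN u a ((p : ℕ) + 1) q i j := by
    simp only [hE, hS, add_mul, Finset.sum_add_distrib]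
    congr 1
    · rw [Finset.sum_eq_single p]
      · simp only [if_true]
        exact sum_left a (fun z => sN u a p z i j) q
      · intro x _ hx
        simp only [if_neg (Ne.symm hx), zero_mul, Finset.sum_const_zero]
      · intro h
        exact absurd (Finset.mem_univ _) h
    · rw [Finset.sum_comm, Finset.sum_eq_single q]
      · simp only [if_true]
        have h1 := sum_left (u := u) a (fun z => pw u (2 * vw a q) * sN u a z q i j) p
        have h2 : ∀ z : Fin (a + 1), vE u a p z * pw u (2 * vw a q) * sN u a z q i j =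
            vE u a p z * (pw u (2 * vw a q) * sN u a z q i j) := fun z => by ring
        simp only [h2]
        rw [h1, vw]
        ring
      · intro x _ hx
        simp only [if_neg (Ne.symm hx), zero_mul, Finset.sum_const_zero]
      · intro h
        exact absurd (Finset.mem_univ _) h
  rw [hL, hR]
  exact nat_id hu a p q i j

end Pool.Agent.KT
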