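import Pool.Agent.Work.MP_ab49bb_gt.Vb

/-!
# Tn (M): tensor products of modules

`Δ(E) = 1 ⊗ E' + E ⊗ K'`, `Δ(F) = K⁻¹ ⊗ F' + F ⊗ 1`, norm `nm x.1 * nm x.2`, weight `wt x.1 + wt x.2`.

Proofs. `tn_comm`: it is convenient to write `tE` and `tF` as sums of Kronecker products
(`Matrix.kroneckerMap`, `1 ⊗ₖ E'`, `E ⊗ₖ diagonal (pw u (2 w'))`, `diagonal (pw u (-(2 w))) ⊗ₖ F'`, `F ⊗ₖ 1`) and to use
`Matrix.mul_kronecker_mul`. The mixed terms cancel: `(1⊗E')(F⊗1) = (F⊗1)(1⊗E')`, and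
`(E⊗K')(K⁻¹⊗F') = E K⁻¹ ⊗ K' F'`, `(K⁻¹⊗F')(E⊗K') = K⁻¹ E ⊗ F' K'` are equal since `E i j ≠ 0 → wt i = wt j + 2`
(so `K⁻¹ E = v^(-4) E K⁻¹`) and `F' i j ≠ 0 → wt i = wt j - 2` (so `F' K' = v^4 K' F'`). The rest is
`K⁻¹ ⊗ [E',F'] + [E,F] ⊗ K' = diagonal (v^(-2 m) [n] + [m] v^(2n)) = diagonal [m+n]` (`qn_add`), `m = wt x.1`, `n = wt' x.2`.
`tn_adj`: entrywise; for `x.1 = y.1` the first summand of `E x y` is `E' x.2 y.2`, and
`nm' x.2 E' x.2 y.2 = nm' y.2 F' y.2 x.2 v^(2 wt' x.2)`, while the first summand of `F y x` is `v^(-2 wt x.1) F' y.2 x.2`; for `x.2 = y.2`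
similarly (`v^(2 wt' y.2)` on the left, and `v^(2(wt x.1 + wt' x.2))` on the right).
`UQ_E'`, `UQ_F'` (coassociativity): unfold both sides; `E` on `V⊗(V⊗V)` is `1⊗1⊗E + 1⊗E⊗K + E⊗K⊗K`: the three terms are
selected by `x.1 = y.1 ∧ x.2.1 = y.2.1`, `x.1 = y.1 ∧ x.2.2 = y.2.2`, `x.2.1 = y.2.1 ∧ x.2.2 = y.2.2` (split the `if`s; use `pw_add`).
-/

set_option autoImplicit false

open Matrix

namespace Pool.Agent.KT

variable {u : ℝˣ} {ι κ : Type} [Fintype ι] [DecidableEq ι] [Fintype κ] [DecidableEq κ]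

theorem tn_hE (M : QM u ι) (N : QM u κ) (x y : ι × κ) (h : tE u M.E N.E N.wt x y ≠ 0) :
    M.wt x.1 + N.wt x.2 = M.wt y.1 + N.wt y.2 + 2 := by
  unfold tE at h
  by_cases h1 : x.1 = y.1 ∧ N.E x.2 y.2 ≠ 0
  · rw [h1.1, N.hE _ _ h1.2]
    ring
  · by_cases h2 : x.2 = y.2 ∧ M.E x.1 y.1 ≠ 0
    · rw [h2.1, M.hE _ _ h2.2]
      ring
    · exfalso
      apply h
      have e1 : (if x.1 = y.1 then N.E x.2 y.2 else 0) = 0 := by
        by_cases h3 : x.1 = y.1
        · rw [if_pos h3]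
          by_contra h4
          exact h1 ⟨h3, h4⟩
        · rw [if_neg h3]
      have e2 : (if x.2 = y.2 then M.E x.1 y.1 * pw u (2 * N.wt y.2) else 0) = 0 := by
        by_cases h3 : x.2 = y.2
        · rw [if_pos h3]
          by_cases h4 : M.E x.1 y.1 = 0
          · rw [h4, zero_mul]
          · exact absurd ⟨h3, h4⟩ h2
        · rw [if_neg h3]
      rw [e1, e2, add_zero]

theorem tn_hF (M : QM u ι) (N : QM u κ) (x y : ι × κ) (h : tF u M.F N.F M.wt x y ≠ 0) :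
    M.wt x.1 + N.wt x.2 = M.wt y.1 + N.wt y.2 - 2 := by
  unfold tF at h
  by_cases h1 : x.1 = y.1 ∧ N.F x.2 y.2 ≠ 0
  · rw [h1.1, N.hF _ _ h1.2]
    ring
  · by_cases h2 : x.2 = y.2 ∧ M.F x.1 y.1 ≠ 0
    · rw [h2.1, M.hF _ _ h2.2]
      ring
    · exfalso
      apply h
      have e1 : (if x.1 = y.1 then pw u (-(2 * M.wt y.1)) * N.F x.2 y.2 else 0) = 0 := by
        by_cases h3 : x.1 = y.1
        · rw [if_pos h3]
          by_cases h4 : N.F x.2 y.2 = 0
          · rw [h4, mul_zero]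
          · exact absurd ⟨h3, h4⟩ h1
        · rw [if_neg h3]
      have e2 : (if x.2 = y.2 then M.F x.1 y.1 else 0) = 0 := by
        by_cases h3 : x.2 = y.2
        · rw [if_pos h3]
          by_contra h4
          exact h2 ⟨h3, h4⟩
        · rw [if_neg h3]
      rw [e1, e2, add_zero]

open scoped Kronecker in
private theorem tn_tE (E : Matrix ι ι ℝ) (E' : Matrix κ κ ℝ) (w' : κ → ℤ) :
    tE u E E' w' = (1 : Matrix ι ι ℝ) ⊗ₖ E' + E ⊗ₖ diagonal fun k => pw u (2 * w' k) := by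
  ext x y
  rw [Matrix.add_apply, kroneckerMap_apply, kroneckerMap_apply, one_apply, diagonal_apply]
  unfold tE
  by_cases h1 : x.1 = y.1 <;> by_cases h2 : x.2 = y.2 <;> simp [h1, h2]

open scoped Kronecker in
private theorem tn_tF (F : Matrix ι ι ℝ) (F' : Matrix κ κ ℝ) (w : ι → ℤ) :
    tF u F F' w = (diagonal fun k => pw u (-(2 * w k))) ⊗ₖ F' + F ⊗ₖ (1 : Matrix κ κ ℝ) := by
  ext x y
  rw [Matrix.add_apply, kroneckerMap_apply, kroneckerMap_apply, one_apply, diagonal_apply]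
  unfold tF
  by_cases h1 : x.1 = y.1 <;> by_cases h2 : x.2 = y.2 <;> simp [h1, h2]

theorem tn_comm (M : QM u ι) (N : QM u κ) :
    tE u M.E N.E N.wt * tF u M.F N.F M.wt - tF u M.F N.F M.wt * tE u M.E N.E N.wt =
      diagonal fun x : ι × κ => qn u (M.wt x.1 + N.wt x.2) := by
  open scoped Kronecker in
  have hmix : (M.E * (diagonal fun k => pw u (-(2 * M.wt k)))) ⊗ₖ
      ((diagonal fun k => pw u (2 * N.wt k)) * N.F) =
      ((diagonal fun k => pw u (-(2 * M.wt k))) * M.E) ⊗ₖ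
      (N.F * (diagonal fun k => pw u (2 * N.wt k))) := by
    ext x y
    rw [kroneckerMap_apply, kroneckerMap_apply, mul_diagonal, diagonal_mul, mul_diagonal,
      diagonal_mul]
    by_cases h1 : M.E x.1 y.1 = 0
    · rw [h1]
      ring
    by_cases h2 : N.F x.2 y.2 = 0
    · rw [h2]
      ring
    rw [M.hE _ _ h1, N.hF _ _ h2]
    have e1 : pw u (-(2 * M.wt y.1)) * pw u (2 * (N.wt y.2 - 2)) =
        pw u (-(2 * (M.wt y.1 + 2))) * pw u (2 * N.wt y.2) := by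
      rw [← pw_add, ← pw_add]
      congr 1
      ring
    linear_combination (M.E x.1 y.1 * N.F x.2 y.2) * e1
  rw [tn_tE, tn_tF, add_mul, mul_add, mul_add, add_mul, mul_add, mul_add,
    ← mul_kronecker_mul, ← mul_kronecker_mul, ← mul_kronecker_mul, ← mul_kronecker_mul,
    ← mul_kronecker_mul, ← mul_kronecker_mul, ← mul_kronecker_mul, ← mul_kronecker_mul, hmix,
    Matrix.one_mul, Matrix.mul_one, Matrix.one_mul, Matrix.one_mul, Matrix.mul_one,
    Matrix.mul_one, Matrix.mul_one, Matrix.one_mul]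
  have h1 : M.E * M.F = M.F * M.E + diagonal fun i => qn u (M.wt i) := by
    rw [← M.comm]
    abel
  have h2 : N.E * N.F = N.F * N.E + diagonal fun i => qn u (N.wt i) := by
    rw [← N.comm]
    abel
  rw [h1, h2, kronecker_add, add_kronecker, diagonal_kronecker_diagonal,
    diagonal_kronecker_diagonal]
  have h3 : (diagonal fun x : ι × κ => qn u (M.wt x.1 + N.wt x.2)) =
      (diagonal fun mn : ι × κ => pw u (-(2 * M.wt mn.1)) * qn u (N.wt mn.2)) +
      diagonal fun mn : ι × κ => qn u (M.wt mn.1) * pw u (2 * N.wt mn.2) := by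
    rw [diagonal_add]
    congr 1
    funext x
    rw [qn_add]
    ring
  rw [h3]
  abel

theorem tn_adj (M : QM u ι) (N : QM u κ) (x y : ι × κ) :
    M.nm x.1 * N.nm x.2 * tE u M.E N.E N.wt x y =
      M.nm y.1 * N.nm y.2 * tF u M.F N.F M.wt y x * pw u (2 * (M.wt x.1 + N.wt x.2)) := by
  have a1 := N.adj x.2 y.2
  have a2 := M.adj x.1 y.1
  have e1 : pw u (2 * (M.wt x.1 + N.wt x.2)) = pw u (2 * M.wt x.1) * pw u (2 * N.wt x.2) := by
    rw [← pw_add]
    congr 1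
    ring
  have e2 := pw_neg_mul u (2 * M.wt x.1)
  unfold tE tF
  rw [e1]
  by_cases h1 : x.1 = y.1
  · by_cases h2 : x.2 = y.2
    · rw [if_pos h1, if_pos h2, if_pos h1.symm, if_pos h2.symm]
      rw [← h1] at a2 ⊢
      rw [← h2] at a1 ⊢
      linear_combination M.nm x.1 * a1 + N.nm x.2 * pw u (2 * N.wt x.2) * a2 -
        M.nm x.1 * N.nm x.2 * N.F x.2 x.2 * pw u (2 * N.wt x.2) * e2
    · rw [if_pos h1, if_neg h2, if_pos h1.symm, if_neg (fun h => h2 h.symm)]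
      rw [← h1]
      linear_combination M.nm x.1 * a1 -
        M.nm x.1 * N.nm y.2 * N.F y.2 x.2 * pw u (2 * N.wt x.2) * e2
  · by_cases h2 : x.2 = y.2
    · rw [if_neg h1, if_pos h2, if_neg (fun h => h1 h.symm), if_pos h2.symm]
      rw [← h2]
      linear_combination N.nm x.2 * pw u (2 * N.wt x.2) * a2
    · rw [if_neg h1, if_neg h2, if_neg (fun h => h1 h.symm), if_neg (fun h => h2 h.symm)]
      ring

/-- The tensor product. Do not change. -/
noncomputable def tn (M : QM u ι) (N : QM u κ) : QM u (ι × κ) where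
  wt := fun x => M.wt x.1 + N.wt x.2
  E := tE u M.E N.E N.wt
  F := tF u M.F N.F M.wt
  nm := fun x => M.nm x.1 * N.nm x.2
  pos := fun x => mul_pos (M.pos x.1) (N.pos x.2)
  hE := tn_hE M N
  hF := tn_hF M N
  comm := tn_comm M N
  adj := tn_adj M N

/-- The module `V ⊗ V`. Do not change. -/
noncomputable def VVQ (u : ℝˣ) (hu : 1 < (u : ℝ)) (a : ℕ) : QM u (Fin (a + 1) × Fin (a + 1)) :=
  tn (VQ u hu a) (VQ u hu a)

/-- The module `V ⊗ (V ⊗ V)`. Do not change. -/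
noncomputable def UQ (u : ℝˣ) (hu : 1 < (u : ℝ)) (a : ℕ) : QM u (Ix a) := tn (VQ u hu a) (VVQ u hu a)

/-- `E` with the other bracketing. -/
theorem UQ_E' (hu : 1 < (u : ℝ)) (a : ℕ) (x y : Ix a) :
    (UQ u hu a).E x y =
      (if x.2.2 = y.2.2 then
        (VVQ u hu a).E (x.1, x.2.1) (y.1, y.2.1) * pw u (2 * vw a y.2.2) else 0) +
      if (x.1, x.2.1) = (y.1, y.2.1) then vE u a x.2.2 y.2.2 else 0 := by
  have hL : (UQ u hu a).E x y = (if x.1 = y.1 then ((if x.2.1 = y.2.1 then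
      vE u a x.2.2 y.2.2 else 0) + if x.2.2 = y.2.2 then
      vE u a x.2.1 y.2.1 * pw u (2 * vw a y.2.2) else 0) else 0) +
      if x.2 = y.2 then vE u a x.1 y.1 * pw u (2 * (vw a y.2.1 + vw a y.2.2)) else 0 := rfl
  have hR : (VVQ u hu a).E (x.1, x.2.1) (y.1, y.2.1) = (if x.1 = y.1 then
      vE u a x.2.1 y.2.1 else 0) + if x.2.1 = y.2.1 then
      vE u a x.1 y.1 * pw u (2 * vw a y.2.1) else 0 := rfl
  have e1 : pw u (2 * (vw a y.2.1 + vw a y.2.2)) = pw u (2 * vw a y.2.1) * pw u (2 * vw a y.2.2) := by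
    rw [← pw_add]
    congr 1
    ring
  rw [hL, hR, e1]
  simp only [Prod.ext_iff]
  by_cases h1 : x.1 = y.1 <;> by_cases h2 : x.2.1 = y.2.1 <;> by_cases h3 : x.2.2 = y.2.2 <;>
    simp only [h1, h2, h3, and_true, true_and, and_false, false_and, if_true, if_false,
      and_self] <;> ring

/-- `F` with the other bracketing. -/
theorem UQ_F' (hu : 1 < (u : ℝ)) (a : ℕ) (x y : Ix a) :
    (UQ u hu a).F x y =
      (if x.2.2 = y.2.2 then (VVQ u hu a).F (x.1, x.2.1) (y.1, y.2.1) else 0) +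
      if (x.1, x.2.1) = (y.1, y.2.1) then
        pw u (-(2 * (vw a y.1 + vw a y.2.1))) * vF u a x.2.2 y.2.2 else 0 := by
  have hL : (UQ u hu a).F x y = (if x.1 = y.1 then pw u (-(2 * vw a y.1)) *
      ((if x.2.1 = y.2.1 then pw u (-(2 * vw a y.2.1)) * vF u a x.2.2 y.2.2 else 0) +
      if x.2.2 = y.2.2 then vF u a x.2.1 y.2.1 else 0) else 0) +
      if x.2 = y.2 then vF u a x.1 y.1 else 0 := rfl
  have hR : (VVQ u hu a).F (x.1, x.2.1) (y.1, y.2.1) = (if x.1 = y.1 then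
      pw u (-(2 * vw a y.1)) * vF u a x.2.1 y.2.1 else 0) + if x.2.1 = y.2.1 then
      vF u a x.1 y.1 else 0 := rfl
  have e1 : pw u (-(2 * (vw a y.1 + vw a y.2.1))) =
      pw u (-(2 * vw a y.1)) * pw u (-(2 * vw a y.2.1)) := by
    rw [← pw_add]
    congr 1
    ring
  rw [hL, hR, e1]
  simp only [Prod.ext_iff]
  by_cases h1 : x.1 = y.1 <;> by_cases h2 : x.2.1 = y.2.1 <;> by_cases h3 : x.2.2 = y.2.2 <;>
    simp only [h1, h2, h3, and_true, true_and, and_false, false_and, if_true, if_false,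
      and_self] <;> ring

end Pool.Agent.KT
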