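import Pool.Agent.Work.MP_ab49bb_gt.Rp

/-!
# Sy (M): the symmetry of the weights

`S_tau`: with `τ x = (a - x.2, a - x.1)` (`Fin.rev`): `S (τ x) (τ y) = S x y`. Both sides: the condition `x.1 + x.2 = y.1 + y.2` is preserved; `(τ x).2 ≤ (τ y).1` is
`a - x.1 ≤ a - y.2`, i.e. `y.2 ≤ x.1`, equivalent to `x.2 ≤ y.1`. With `y = (i,j)`, `x = (j+l, i-l)`: `S x y = rc i j l = v^((a-2i+2l)(a-2j-2l)+l(l-1)) gb (j+l) l ∏_{s=1}^{l} {a-i+s}`,
`S (τ x) (τ y) = rc (a-j) (a-i) l = v^((-a+2j+2l)(-a+2i-2l)+l(l-1)) gb (a-i+l) l ∏_{s=1}^{l} {j+s}`; the exponents agree, and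
`gb (j+l) l ∏ {a-i+s} = gb (a-i+l) l ∏ {j+s}`: both are `∏_{s=1}^l {j+s} ∏_{s=1}^l {a-i+s} / {l}!` (`gb_fact`, `bf_prod`, `bf_pos`).
`trw_symm_VV`: the bijection `τ` conjugates `S^q` to itself and negates the weights (`wt (τ x) = -wt x`).
`trw_symm`: `ρ (i,j,k) = (a-k, a-j, a-i)`: `s1 (ρ x) (ρ y) = s2 x y` (`S_tau`), `s2 (ρ x) (ρ y) = s1 x y` and the same for the inverses (`Matrix.submatrix` by an equivalence,
`Matrix.inv_submatrix_equiv`), so `wm w (ρ x) (ρ y) = wm (sw w) x y`, where `sw` exchanges the two generators. Hence `trw (wm w) (-t) = trw (wm (sw w)) t`. With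
`D = sg 0 * sg 1 * sg 0`: `D * sg 0 = sg 1 * D`, `D * sg 1 = sg 0 * D` (the relation), so `bd (sw w) = D * bd w * D⁻¹` (induction) and `trw_conj` applies.
-/

set_option autoImplicit false

open Matrix

namespace Pool.Agent.KT

variable {u : ℝˣ}

private theorem gb_bf (hu : 1 < (u : ℝ)) (m l : ℕ) :
    gb u (m + l) l * bf u l = ∏ s ∈ Finset.range l, br u (m + (s + 1)) := by
  have h1 : gb u (m + l) l * bf u l * bf u (m + l - l) = bf u (m + l) :=
    gb_fact u (Nat.le_add_left l m)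
  rw [Nat.add_sub_cancel, ← bf_prod u m l, mul_comm (bf u m)] at h1
  exact mul_right_cancel₀ (bf_pos hu m).ne' h1

private theorem rc_tau (hu : 1 < (u : ℝ)) {a i j i' j' : ℕ} (l : ℕ) (hi : i' + i = a)
    (hj : j' + j = a) : rc u a j' i' l = rc u a i j l := by
  have ci : (a : ℤ) - i = i' := by omega
  have cj : (a : ℤ) - j' = j := by omega
  have h1 := gb_bf hu i' l
  have h2 := gb_bf hu j l
  have h3 : ((a : ℤ) - 2 * j' + 2 * l) * (a - 2 * i' - 2 * l) + l * (l - 1) =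
      ((a : ℤ) - 2 * i + 2 * l) * (a - 2 * j - 2 * l) + l * (l - 1) := by
    have e1 : (a : ℤ) = i' + i := by omega
    have e2 : (j' : ℤ) = i' + i - j := by omega
    rw [e1, e2]
    ring
  rw [rc, rc, h3, ci, cj, ← h1, ← h2]
  ring

theorem S_tau (hu : 1 < (u : ℝ)) (a : ℕ) (x y : Fin (a + 1) × Fin (a + 1)) :
    S u a (Fin.rev x.2, Fin.rev x.1) (Fin.rev y.2, Fin.rev y.1) = S u a x y := by
  obtain ⟨x1, x2⟩ := x
  obtain ⟨y1, y2⟩ := y
  have hx1 : ((Fin.rev x1 : Fin (a + 1)) : ℕ) + x1 = a := by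
    rw [Fin.val_rev]; omega
  have hx2 : ((Fin.rev x2 : Fin (a + 1)) : ℕ) + x2 = a := by
    rw [Fin.val_rev]; omega
  have hy1 : ((Fin.rev y1 : Fin (a + 1)) : ℕ) + y1 = a := by
    rw [Fin.val_rev]; omega
  have hy2 : ((Fin.rev y2 : Fin (a + 1)) : ℕ) + y2 = a := by
    rw [Fin.val_rev]; omega
  simp only [S]
  by_cases h : (x1 : ℕ) + x2 = y1 + y2 ∧ (x2 : ℕ) ≤ y1
  · rw [if_pos h, if_pos (by omega)]
    have h1 : ((Fin.rev y2 : Fin (a + 1)) : ℕ) - (Fin.rev x1 : Fin (a + 1)) = y1 - x2 := by omega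
    rw [h1]
    exact rc_tau hu _ hy1 hy2
  · rw [if_neg h, if_neg (by omega)]

private def tau (a : ℕ) : (Fin (a + 1) × Fin (a + 1)) ≃ (Fin (a + 1) × Fin (a + 1)) where
  toFun := fun x => (Fin.rev x.2, Fin.rev x.1)
  invFun := fun x => (Fin.rev x.2, Fin.rev x.1)
  left_inv := fun x => by simp
  right_inv := fun x => by simp

private def rho (a : ℕ) : Ix a ≃ Ix a where
  toFun := fun x => (Fin.rev x.2.2, Fin.rev x.2.1, Fin.rev x.1)
  invFun := fun x => (Fin.rev x.2.2, Fin.rev x.2.1, Fin.rev x.1)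
  left_inv := fun x => by simp
  right_inv := fun x => by simp

private theorem vw_rev (a : ℕ) (i : Fin (a + 1)) : vw a (Fin.rev i) = -vw a i := by
  have h : ((Fin.rev i : Fin (a + 1)) : ℕ) + i = a := by
    rw [Fin.val_rev]; omega
  rw [vw, vw]
  omega

private theorem trw_reindex {ι : Type} [Fintype ι] [DecidableEq ι] (M : QM u ι) (e : ι ≃ ι)
    (he : ∀ x, M.wt (e x) = -M.wt x) (X Y : Matrix ι ι ℝ) (hXY : X.submatrix e e = Y) (t : ℤ) :
    M.trw X (-t) = M.trw Y t := by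
  unfold QM.trw
  rw [← Equiv.sum_comp e]
  refine Finset.sum_congr rfl fun x _ => ?_
  rw [he, ← hXY, Matrix.submatrix_apply]
  exact if_congr neg_inj rfl rfl

theorem trw_symm_VV (hu : 1 < (u : ℝ)) (a q : ℕ) (t : ℤ) :
    (VVQ u hu a).trw (S u a ^ q) (-t) = (VVQ u hu a).trw (S u a ^ q) t := by
  have h1 : (S u a).submatrix (tau a) (tau a) = S u a := by
    ext x y
    exact S_tau hu a x y
  refine trw_reindex (VVQ u hu a) (tau a) ?_ _ _ ?_ t
  · intro x
    show vw a (Fin.rev x.2) + vw a (Fin.rev x.1) = -(vw a x.1 + vw a x.2)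
    rw [vw_rev, vw_rev]
    ring
  · induction q with
    | zero =>
      rw [pow_zero]
      exact Matrix.submatrix_one_equiv (tau a)
    | succ q ih =>
      rw [pow_succ, ← Matrix.submatrix_mul_equiv _ _ (tau a) (tau a) (tau a), ih, h1]

private theorem s1_rho (hu : 1 < (u : ℝ)) (a : ℕ) :
    (s1 u a).submatrix (rho a) (rho a) = s2 u a := by
  ext x y
  show (if Fin.rev x.1 = Fin.rev y.1 then S u a (Fin.rev x.2.2, Fin.rev x.2.1)
    (Fin.rev y.2.2, Fin.rev y.2.1) else 0) = if x.1 = y.1 then S u a (x.2.1, x.2.2) (y.2.1, y.2.2) else 0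
  refine if_congr Fin.rev_inj ?_ rfl
  exact S_tau hu a (x.2.1, x.2.2) (y.2.1, y.2.2)

private theorem s2_rho (hu : 1 < (u : ℝ)) (a : ℕ) :
    (s2 u a).submatrix (rho a) (rho a) = s1 u a := by
  ext x y
  show (if Fin.rev x.2.2 = Fin.rev y.2.2 then S u a (Fin.rev x.2.1, Fin.rev x.1)
    (Fin.rev y.2.1, Fin.rev y.1) else 0) = if x.2.2 = y.2.2 then S u a (x.1, x.2.1) (y.1, y.2.1) else 0
  refine if_congr Fin.rev_inj ?_ rfl
  exact S_tau hu a (x.1, x.2.1) (y.1, y.2.1)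

private def swl (l : Letter) : Letter := (if l.1 = 0 then 1 else 0, l.2)

private theorem lm_rho (hu : 1 < (u : ℝ)) (a : ℕ) (l : Letter) :
    (lm u a l).submatrix (rho a) (rho a) = lm u a (swl l) := by
  obtain ⟨i, b⟩ := l
  fin_cases i <;> cases b
  · show ((s1 u a)⁻¹).submatrix (rho a) (rho a) = (s2 u a)⁻¹
    rw [← Matrix.inv_submatrix_equiv, s1_rho hu a]
  · exact s1_rho hu a
  · show ((s2 u a)⁻¹).submatrix (rho a) (rho a) = (s1 u a)⁻¹
    rw [← Matrix.inv_submatrix_equiv, s2_rho hu a]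
  · exact s2_rho hu a

private theorem wm_rho (hu : 1 < (u : ℝ)) (a : ℕ) (w : List Letter) :
    (wm u a w).submatrix (rho a) (rho a) = wm u a (w.map swl) := by
  induction w with
  | nil => exact Matrix.submatrix_one_equiv (rho a)
  | cons l w ih =>
    have h1 : wm u a (l :: w) = lm u a l * wm u a w := by
      rw [wm, wm, List.map_cons, List.prod_cons]
    have h2 : wm u a ((l :: w).map swl) = lm u a (swl l) * wm u a (w.map swl) := by
      rw [wm, wm, List.map_cons, List.map_cons, List.prod_cons]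
    rw [h1, h2, ← Matrix.submatrix_mul_equiv _ _ (rho a) (rho a) (rho a), ih, lm_rho hu a]

private theorem braid_rel : sg 0 * sg 1 * sg 0 = sg 1 * sg 0 * sg 1 := by
  have h1 : PresentedGroup.mk rels (FreeGroup.of 0 * FreeGroup.of 1 * FreeGroup.of 0 *
      (FreeGroup.of 1 * FreeGroup.of 0 * FreeGroup.of 1)⁻¹) = 1 :=
    PresentedGroup.one_of_mem (Set.mem_singleton _)
  rw [map_mul, map_inv, map_mul, map_mul, map_mul, map_mul, mul_inv_eq_one] at h1
  exact h1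

private theorem bd_swl (w : List Letter) :
    sg 0 * sg 1 * sg 0 * bd w * (sg 0 * sg 1 * sg 0)⁻¹ = bd (w.map swl) := by
  have hD0 : sg 0 * sg 1 * sg 0 * sg 0 = sg 1 * (sg 0 * sg 1 * sg 0) := by
    nth_rewrite 1 [braid_rel]
    simp only [mul_assoc]
  have hD1 : sg 0 * sg 1 * sg 0 * sg 1 = sg 0 * (sg 0 * sg 1 * sg 0) := by
    nth_rewrite 2 [braid_rel]
    simp only [mul_assoc]
  generalize sg 0 * sg 1 * sg 0 = D at hD0 hD1
  have h0 : D * sg 0 * D⁻¹ = sg 1 := by rw [hD0, mul_inv_cancel_right]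
  have h1 : D * sg 1 * D⁻¹ = sg 0 := by rw [hD1, mul_inv_cancel_right]
  have h0' : D * (sg 0)⁻¹ * D⁻¹ = (sg 1)⁻¹ := by rw [← h0]; group
  have h1' : D * (sg 1)⁻¹ * D⁻¹ = (sg 0)⁻¹ := by rw [← h1]; group
  have hl : ∀ l : Letter, D * (if l.2 then sg l.1 else (sg l.1)⁻¹) * D⁻¹ =
      if (swl l).2 then sg (swl l).1 else (sg (swl l).1)⁻¹ := by
    rintro ⟨i, b⟩
    fin_cases i <;> cases b
    · exact h0'
    · exact h0
    · exact h1'
    · exact h1
  induction w with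
  | nil =>
    rw [List.map_nil, bd, List.map_nil, List.prod_nil, mul_one, mul_inv_cancel]
  | cons l w ih =>
    have h2 : bd (l :: w) = (if l.2 then sg l.1 else (sg l.1)⁻¹) * bd w := by
      rw [bd, bd, List.map_cons, List.prod_cons]
    have h3 : bd ((l :: w).map swl) =
        (if (swl l).2 then sg (swl l).1 else (sg (swl l).1)⁻¹) * bd (w.map swl) := by
      rw [bd, bd, List.map_cons, List.map_cons, List.prod_cons]
    rw [h2, h3, ← ih, ← hl l]
    group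

theorem trw_symm (hu : 1 < (u : ℝ)) (a : ℕ) (w : List Letter) (t : ℤ) :
    (UQ u hu a).trw (wm u a w) (-t) = (UQ u hu a).trw (wm u a w) t := by
  have h1 : (UQ u hu a).trw (wm u a w) (-t) = (UQ u hu a).trw (wm u a (w.map swl)) t := by
    refine trw_reindex (UQ u hu a) (rho a) ?_ _ _ (wm_rho hu a w) t
    intro x
    show vw a (Fin.rev x.2.2) + (vw a (Fin.rev x.2.1) + vw a (Fin.rev x.1)) =
      -(vw a x.1 + (vw a x.2.1 + vw a x.2.2))
    rw [vw_rev, vw_rev, vw_rev]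
    ring
  rw [h1]
  refine (trw_conj hu a ?_ t).symm
  exact isConj_iff.2 ⟨_, bd_swl w⟩

end Pool.Agent.KT
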