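import Pool.Agent.Work.MP_ab49bb_gt.AbT
import Pool.Agent.Work.MP_ab49bb_gt.Oc
import Pool.Agent.Work.MP_ab49bb_gt.Al

/-!
# TT1 (M): the normalised traces tend to `1`

`|lam (m')| / |lam m| = v^(-4 ∑_{m ≤ l < m'} (a - l))` for `m ≤ m' ≤ a` (exact: the exponent of `lam` drops by `4(a-l)` from `l` to `l+1`).
`dA_bound`: for `i ≠ 0` and `q ≥ 1`: `|dA i| ≤ v^(-4 (a - m0))`; `dB_bound`: for `i ≠ last`, `p ≥ 1`: `|dB i| ≤ v^(-4(a - m1 + 1))` (at least one step `l = m1 - 1`; powers of a number in `[0,1]`). `dA 0 = 1`, `dB last = 1` (`chan_last`).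
`tt_bound`: `trace_bound` with `O = om` (`om_tr`), `ρ = v^(-4e)`, provided `e ≤ a - m0` and `e ≤ a - m1 + 1` (`e ≥ 0`), or there is only one channel.
`tt_lim`: if `dd a k = 0` then `om` is a `1 × 1` orthogonal matrix and `TT = 1` (`tt_one`); if `dd a k ≥ 1` then `m0 < m1 ≤ a`, so `e = 1` is allowed: `|TT - (om²)^s| ≤ C (v^(-4) + v^(-8)) → 0` and `om² → 1` (`om_lim'`), `0 ≤ 1 - om² ≤ 1`.
`tt_asy`: `1 ≤ k ≤ a`: `m0 = 0`, `m1 = k`, `e = a - k + 1 ≤ a`: `|TT - (om²)^s| ≤ C (v^(-4e)(1 - om²) + v^(-8e))`, and `(1 - om²) v^(4e) → 1` (`om_asy`), so `(TT - (om²)^s) v^(4e) → 0`; with `δ = 1 - om²`: `1 - (1-δ)^s = δ (1 + (1-δ) + .. + (1-δ)^(s-1))`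
so `(1 - (om²)^s) v^(4e) → s`. (`geom_sum`.)
-/

set_option autoImplicit false

open Matrix

namespace Pool.Agent.KT

private theorem pw_abs (u : ℝˣ) (hu : 1 < (u : ℝ)) (m : ℤ) : |pw u m| = pw u m :=
  abs_of_pos (pw_pos hu m)

private theorem lam_abs (u : ℝˣ) (hu : 1 < (u : ℝ)) (a m : ℕ) :
    |lam u a m| = pw u ((a : ℤ) ^ 2 - 4 * a * m + 2 * (m : ℤ) ^ 2 - 2 * m) := by
  unfold lam
  rw [abs_mul, abs_pow, abs_neg, abs_one, one_pow, one_mul, pw_abs u hu]

private theorem lam_ratio (u : ℝˣ) (hu : 1 < (u : ℝ)) (a m m' q : ℕ) (e : ℤ) (hq : 0 < q)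
    (he : ((a : ℤ) ^ 2 - 4 * a * m' + 2 * (m' : ℤ) ^ 2 - 2 * m') -
      ((a : ℤ) ^ 2 - 4 * a * m + 2 * (m : ℤ) ^ 2 - 2 * m) ≤ e) (he0 : e ≤ 0) :
    |(lam u a m' / lam u a m) ^ q| ≤ pw u e := by
  rw [abs_pow, abs_div, lam_abs u hu, lam_abs u hu]
  set x : ℤ := (a : ℤ) ^ 2 - 4 * a * m' + 2 * (m' : ℤ) ^ 2 - 2 * m'
  set y : ℤ := (a : ℤ) ^ 2 - 4 * a * m + 2 * (m : ℤ) ^ 2 - 2 * m
  have h1 : pw u x / pw u y = pw u (x - y) := by
    rw [div_eq_iff (pw_pos hu y).ne', ← pw_add]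
    congr 1
    ring
  rw [h1, pw_pow]
  apply pw_le hu
  have : (1 : ℤ) ≤ q := by exact_mod_cast hq
  nlinarith

private theorem m1_le {a k : ℕ} : m1 a k ≤ a := by
  unfold m1
  omega

theorem dA_bound (u : ℝˣ) (hu : 1 < (u : ℝ)) {a k q : ℕ} (h : 2 * k ≤ 3 * a) (hq : 0 < q) :
    dA u a k q 0 = 1 ∧ ∀ i, i ≠ 0 → |dA u a k q i| ≤ pw u (-(4 * ((a : ℤ) - m0 a k))) := by
  constructor
  · unfold dA
    rw [Fin.val_zero, Nat.add_zero, div_self (lam_ne hu _ _), one_pow]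
  · intro i hi
    have hi0 : 0 < (i : ℕ) := Nat.pos_of_ne_zero fun h => hi (Fin.ext (by rw [h, Fin.val_zero]))
    have h1 := (chan h i.2).1
    have h2 : ((m0 a k : ℕ) : ℤ) + (i : ℕ) ≤ a := by exact_mod_cast h1
    have h3 : (1 : ℤ) ≤ (i : ℕ) := by exact_mod_cast hi0
    refine lam_ratio u hu a (m0 a k) (m0 a k + i) q _ hq ?_ (by linarith)
    push_cast
    nlinarith [mul_nonneg (sub_nonneg.2 h3) (sub_nonneg.2 h2)]

theorem dB_bound (u : ℝˣ) (hu : 1 < (u : ℝ)) {a k p : ℕ} (h : 2 * k ≤ 3 * a) (hp : 0 < p) :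
    dB u a k p (Fin.last _) = 1 ∧
      ∀ i, i ≠ Fin.last _ → |dB u a k p i| ≤ pw u (-(4 * ((a : ℤ) - m1 a k + 1))) := by
  constructor
  · unfold dB
    rw [Fin.val_last, chan_last h, div_self (lam_ne hu _ _), one_pow]
  · intro i hi
    have h0 : (i : ℕ) < dd a k := by
      have h1 := i.2
      have h2 : (i : ℕ) ≠ dd a k := fun h => hi (Fin.ext (by rw [h, Fin.val_last]))
      omega
    have h1 : m0 a k + i + 1 ≤ m1 a k := by
      rw [← chan_last h]
      omega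
    have h1' : ((m0 a k : ℕ) : ℤ) + (i : ℕ) + 1 ≤ m1 a k := by exact_mod_cast h1
    have h2 : ((m1 a k : ℕ) : ℤ) ≤ a := by exact_mod_cast m1_le
    refine lam_ratio u hu a (m0 a k + i) (m1 a k) p _ hp ?_ (by linarith)
    push_cast
    nlinarith [mul_nonneg (sub_nonneg.2 h1') (sub_nonneg.2 h2),
      mul_nonneg (sub_nonneg.2 h1') (sub_nonneg.2 h1')]

private theorem TT_eq (u : ℝˣ) (a k : ℕ) (L : List (ℕ × ℕ)) :
    TT u a k L = ((L.map fun x => (dB u a k x.1, dA u a k x.2)).map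
      fun x : (Fin (dd a k + 1) → ℝ) × (Fin (dd a k + 1) → ℝ) =>
        om u a k * diagonal x.1 * (om u a k)ᵀ * diagonal x.2).prod.trace := by
  unfold TT
  rw [List.map_map]
  rfl

theorem tt_one (u : ℝˣ) (hu : 1 < (u : ℝ)) {a k : ℕ} (h : 2 * k ≤ 3 * a) (hd : dd a k = 0)
    (L : List (ℕ × ℕ)) : TT u a k L = 1 := by
  have h0 : ∀ i : Fin (dd a k + 1), (i : ℕ) = 0 := fun i => by
    have := i.2
    omega
  have hm : m1 a k = m0 a k := by
    rw [← chan_last h, hd, Nat.add_zero]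
  have hA : ∀ q, diagonal (dA u a k q) = (1 : Matrix (Fin (dd a k + 1)) (Fin (dd a k + 1)) ℝ) := by
    intro q
    rw [← diagonal_one]
    congr 1
    funext i
    unfold dA
    rw [h0 i, Nat.add_zero, div_self (lam_ne hu _ _), one_pow]
  have hB : ∀ q, diagonal (dB u a k q) = (1 : Matrix (Fin (dd a k + 1)) (Fin (dd a k + 1)) ℝ) := by
    intro q
    rw [← diagonal_one]
    congr 1
    funext i
    unfold dB
    rw [h0 i, Nat.add_zero, hm, div_self (lam_ne hu _ _), one_pow]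
  unfold TT
  have h1 : (L.map fun x => om u a k * diagonal (dB u a k x.1) * (om u a k)ᵀ *
    diagonal (dA u a k x.2)).prod = 1 := by
    apply List.prod_eq_one
    intro y hy
    obtain ⟨x, _, rfl⟩ := List.mem_map.1 hy
    rw [hA, hB, Matrix.mul_one, Matrix.mul_one, om_tr' hu h]
  rw [h1, trace_one, Fintype.card_fin, hd]
  norm_num

private theorem tt_bound {a k : ℕ} (h : 2 * k ≤ 3 * a) (e : ℤ) (he : 0 ≤ e)
    (he0 : e ≤ (a : ℤ) - m0 a k) (he1 : e ≤ (a : ℤ) - m1 a k + 1)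
    {L : List (ℕ × ℕ)} (hL : GenL L) : ∃ C : ℝ, 0 ≤ C ∧ ∀ v : ℝ, 1 < v →
      |TT (ru v) a k L - (om (ru v) a k 0 (Fin.last _) ^ 2) ^ L.length| ≤
        C * (v ^ (-(4 * e)) * (1 - om (ru v) a k 0 (Fin.last _) ^ 2) + (v ^ (-(4 * e))) ^ 2) := by
  obtain ⟨C, hC, hb⟩ := trace_bound (dd a k) L.length (List.length_pos_of_ne_nil hL.ne)
  refine ⟨C, hC, fun v hv => ?_⟩
  have hu := ru_gt hv
  rw [TT_eq, ← pw_ru hv]
  refine hb (om (ru v) a k) (pw (ru v) (-(4 * e)))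
    (L.map fun x => (dB (ru v) a k x.1, dA (ru v) a k x.2)) (om_tr hu h) (pw_pos hu _).le ?_ ?_ ?_ ?_
  · rw [← pw_zero (ru v)]
    exact pw_le hu (by linarith)
  · rw [List.length_map]
  · intro y hy
    obtain ⟨x, hx, rfl⟩ := List.mem_map.1 hy
    have h1 := dB_bound (ru v) hu h (hL.pos x hx).1
    exact ⟨h1.1, fun j hj => le_trans (h1.2 j hj) (pw_le hu (by linarith))⟩
  · intro y hy
    obtain ⟨x, hx, rfl⟩ := List.mem_map.1 hy
    have h1 := dA_bound (ru v) hu h (hL.pos x hx).2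
    exact ⟨h1.1, fun j hj => le_trans (h1.2 j hj) (pw_le hu (by linarith))⟩

private theorem tendsto_zpow_neg {e : ℤ} (he : 0 < e) :
    Filter.Tendsto (fun v : ℝ => v ^ (-(4 * e))) Filter.atTop (nhds 0) := by
  apply tendsto_zpow_atTop_zero
  omega

theorem tt_lim {a k : ℕ} (h : 2 * k ≤ 3 * a) {L : List (ℕ × ℕ)} (hL : GenL L) :
    Filter.Tendsto (fun v => TT (ru v) a k L) Filter.atTop (nhds 1) := by
  by_cases hd : dd a k = 0
  · refine Filter.Tendsto.congr' ?_ tendsto_const_nhds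
    filter_upwards [Filter.eventually_gt_atTop (1 : ℝ)] with v hv
    exact (tt_one (ru v) (ru_gt hv) h hd L).symm
  · have h1 : ((m1 a k : ℕ) : ℤ) ≤ a := by exact_mod_cast m1_le
    have h2 : ((m0 a k : ℕ) : ℤ) + 1 ≤ m1 a k := by
      have := chan_last h
      have h3 : m0 a k + 1 ≤ m1 a k := by omega
      exact_mod_cast h3
    obtain ⟨C, hC, hb⟩ := tt_bound h 1 (by norm_num) (by linarith) (by linarith) hL
    have hx := om_lim' h
    have hxs := hx.pow L.length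
    rw [one_pow] at hxs
    have h0 : Filter.Tendsto (fun v => TT (ru v) a k L -
        (om (ru v) a k 0 (Fin.last _) ^ 2) ^ L.length) Filter.atTop (nhds 0) := by
      have hr := tendsto_zpow_neg (e := 1) (by norm_num)
      have hlim : Filter.Tendsto (fun v : ℝ => C * (v ^ (-(4 * (1 : ℤ))) *
          (1 - om (ru v) a k 0 (Fin.last _) ^ 2) + (v ^ (-(4 * (1 : ℤ)))) ^ 2))
          Filter.atTop (nhds 0) := by
        have := ((hr.mul (hx.const_sub 1)).add (hr.pow 2)).const_mul C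
        simpa using this
      refine squeeze_zero_norm' ?_ hlim
      filter_upwards [Filter.eventually_gt_atTop (1 : ℝ)] with v hv
      rw [Real.norm_eq_abs]
      exact hb v hv
    have := h0.add hxs
    simpa using this

theorem tt_asy {a k : ℕ} (h1 : 1 ≤ k) (h : k ≤ a) {L : List (ℕ × ℕ)} (hL : GenL L) :
    Filter.Tendsto (fun v => (1 - TT (ru v) a k L) * v ^ (4 * ((a : ℤ) - k + 1))) Filter.atTop
      (nhds L.length) := by
  have h' : 2 * k ≤ 3 * a := by omega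
  have hm0 : m0 a k = 0 := by
    unfold m0
    omega
  have hm1 : m1 a k = k := by
    unfold m1
    omega
  have hk : (k : ℤ) ≤ a := by exact_mod_cast h
  have hk1 : (1 : ℤ) ≤ k := by exact_mod_cast h1
  have he : (0 : ℤ) < (a : ℤ) - k + 1 := by omega
  obtain ⟨C, hC, hb⟩ := tt_bound h' ((a : ℤ) - k + 1) he.le (by rw [hm0]; push_cast; omega)
    (by rw [hm1]) hL
  have hx := om_lim h
  have hasy : Filter.Tendsto (fun v : ℝ => (1 - om (ru v) a k 0 (Fin.last _) ^ 2) *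
      v ^ (4 * ((a : ℤ) - k + 1))) Filter.atTop (nhds 1) := by
    have := om_asy h1 h
    unfold Asy at this
    simpa only [neg_neg] using this
  have hr := tendsto_zpow_neg he
  -- first part
  have p1 : Filter.Tendsto (fun v : ℝ => (TT (ru v) a k L -
      (om (ru v) a k 0 (Fin.last _) ^ 2) ^ L.length) * v ^ (4 * ((a : ℤ) - k + 1)))
      Filter.atTop (nhds 0) := by
    have hlim : Filter.Tendsto (fun v : ℝ => C * ((1 - om (ru v) a k 0 (Fin.last _) ^ 2) +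
        v ^ (-(4 * ((a : ℤ) - k + 1))))) Filter.atTop (nhds 0) := by
      have := ((hx.const_sub 1).add hr).const_mul C
      simpa using this
    refine squeeze_zero_norm' ?_ hlim
    filter_upwards [Filter.eventually_gt_atTop (1 : ℝ)] with v hv
    have hv0 : (0 : ℝ) < v := by linarith
    have hpos : (0 : ℝ) < v ^ (4 * ((a : ℤ) - k + 1)) := zpow_pos hv0 _
    have hmul : v ^ (-(4 * ((a : ℤ) - k + 1))) * v ^ (4 * ((a : ℤ) - k + 1)) = 1 := by
      rw [_root_.zpow_neg, inv_mul_cancel₀ hpos.ne']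
    rw [Real.norm_eq_abs, abs_mul, abs_of_pos hpos]
    calc _ ≤ C * (v ^ (-(4 * ((a : ℤ) - k + 1))) * (1 - om (ru v) a k 0 (Fin.last _) ^ 2) +
          (v ^ (-(4 * ((a : ℤ) - k + 1)))) ^ 2) * v ^ (4 * ((a : ℤ) - k + 1)) := by
          gcongr
          exact hb v hv
      _ = C * ((1 - om (ru v) a k 0 (Fin.last _) ^ 2) + v ^ (-(4 * ((a : ℤ) - k + 1)))) := by
          linear_combination (C * ((1 - om (ru v) a k 0 (Fin.last _) ^ 2) +
            v ^ (-(4 * ((a : ℤ) - k + 1))))) * hmul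
  have p2 : Filter.Tendsto (fun v : ℝ => (1 - (om (ru v) a k 0 (Fin.last _) ^ 2) ^ L.length) *
      v ^ (4 * ((a : ℤ) - k + 1))) Filter.atTop (nhds (L.length : ℝ)) := by
    have hsum : Filter.Tendsto (fun v : ℝ => ∑ i ∈ Finset.range L.length,
        (om (ru v) a k 0 (Fin.last _) ^ 2) ^ i) Filter.atTop (nhds (L.length : ℝ)) := by
      have : Filter.Tendsto (fun v : ℝ => ∑ i ∈ Finset.range L.length,
        (om (ru v) a k 0 (Fin.last _) ^ 2) ^ i) Filter.atTop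
          (nhds (∑ i ∈ Finset.range L.length, (1 : ℝ) ^ i)) :=
        tendsto_finsetSum _ fun i _ => hx.pow i
      simpa using this
    have := hsum.mul hasy
    rw [mul_one] at this
    refine this.congr fun v => ?_
    rw [← mul_assoc]
    congr 1
    have := geom_sum_mul_neg (om (ru v) a k 0 (Fin.last _) ^ 2) L.length
    exact this
  have := p2.sub p1
  rw [sub_zero] at this
  refine this.congr fun v => ?_
  ring

end Pool.Agent.KT
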