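import Pool.Agent.Work.MP_ab49bb_gt.RDefs

/-!
# Tie1 (S-M): the exponents for an odd tie (integers only)

`e ≥ 1`, `p > 3e`, `r = p - 2e > e` (so `r ≥ 2`), `q ≥ 1`, `r s0 = e a + 1`, `d = -e`. `FB s = FB 0 - 2 r s² + 2 s (2(ea+1) - r)`, so with `r s0 = ea+1`: `FB s = FB 0 + 2r(2 s s0 - s - s²)`, i.e.
`FB s = FB s0 - 2r (s - s0)(s - s0 + 1)`, and `FB s0 = FB 0 + 2r s0(s0-1)`.
(i) `s0 ≤ a` for `a ≥ 2`: `r s0 = ea + 1`, `r ≥ e+1`, so `(e+1) s0 ≤ ea + 1`; if `s0 ≥ a+1` then `(e+1)(a+1) ≤ ea+1`, false. `1 ≤ s0`.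
(ii) `FB (2 s0 - 1 - s) = FB s`.
(iii) `0 ≤ s ≤ a`, `2s0 - 1 < s` or `s + a < 2 s0 - 1`: `FB s < FB s0 - 4 s0`: in the first case `s - s0 ≥ s0`: `2r s0(s0+1) > 4 s0`. In the second case `s0 - s ≥ a - s0 + 2`, `(s-s0)(s-s0+1) = (s0-s)(s0-s-1) ≥ (a-s0+2)(a-s0+1)`
and `2r(a-s0+1)(a-s0+2) > 4 s0` for large `a`: `a - s0 ≥ a - (ea+1)/(e+1) = (a-1)/(e+1)`, so the left side grows quadratically: `2r(a-s0+1)(a-s0+2) ≥ 2(a-1)²/(e+1)² · r` and `4 s0 ≤ 4a`; take `a ≥ 4(e+1)² + 4`.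
(iv) `0 ≤ s ≤ a`, `s ≠ s0 - 1`: `FB s - 4(s+1) < FB s0 - 4 s0`: put `j = s - s0`: `-2r j(j+1) - 4(j+1) < 0`: true for `j ≥ 0`; for `j ≤ -2`, `i = -1-j ≥ 1`: `-2r i(i+1) + 4i = -2i(r(i+1) - 2) < 0` (`r ≥ 2`).
(v) `FA h < FB s0 - 4 s0` for `1 ≤ h`, `2h ≤ a`: `FA h < FB 0 - 4h...`: `FA h - FB 0 = 2h(-h(p-2e) + hq - 2(e+q)a - p - q - 2e - 2) ≤ -2h·(2(e+q)a - qh) ≤ -2(2e+q)a ≤ -6a`, and `FB s0 - 4 s0 - FB 0 = 2r s0(s0-1) - 4 s0 ≥ -4 s0 ≥ -4a` (`s0 ≥ 1`).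
-/

set_option autoImplicit false

namespace Pool.Agent.KT

private theorem tie_fb (a p q e : ℕ) {s0 : ℤ} (hs : ((p : ℤ) - 2 * e) * s0 = e * a + 1) (s : ℤ) :
    FB a p q (-e) s = FB a p q (-e) s0 - 2 * ((p : ℤ) - 2 * e) * ((s - s0) * (s - s0 + 1)) := by
  unfold FB
  linear_combination (4 * s0 - 4 * s) * hs

theorem tie_ineq {p q e : ℕ} (he : 1 ≤ e) (hq : 1 ≤ q) (hp : 3 * e < p) {a : ℕ}
    (ha : 4 * (e + 1) ^ 2 + 4 ≤ a) {s0 : ℤ} (hs : ((p : ℤ) - 2 * e) * s0 = e * a + 1) :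
    1 ≤ s0 ∧ s0 ≤ a ∧ (∀ s, FB a p q (-e) (2 * s0 - 1 - s) = FB a p q (-e) s) ∧
      (∀ s : ℤ, 0 ≤ s → s ≤ a → (2 * s0 - 1 < s ∨ s + a < 2 * s0 - 1) →
        FB a p q (-e) s < FB a p q (-e) s0 - 4 * s0) ∧
      (∀ s : ℤ, 0 ≤ s → s ≤ a → s ≠ s0 - 1 →
        FB a p q (-e) s - 4 * (s + 1) < FB a p q (-e) s0 - 4 * s0) ∧
      (∀ h : ℤ, 1 ≤ h → 2 * h ≤ a → FA a p q (-e) h < FB a p q (-e) s0 - 4 * s0) ∧
      FB a p q (-e) (s0 - 1) = FB a p q (-e) s0 := by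
  have he' : (1 : ℤ) ≤ e := by exact_mod_cast he
  have hq' : (1 : ℤ) ≤ q := by exact_mod_cast hq
  have hp' : (3 : ℤ) * e + 1 ≤ p := by exact_mod_cast hp
  have ha' : (0 : ℤ) ≤ a := Int.natCast_nonneg a
  obtain ⟨R, hR⟩ : ∃ R : ℤ, R = (p : ℤ) - 2 * e := ⟨_, rfl⟩
  have hRe : (e : ℤ) + 1 ≤ R := by
    rw [hR]
    linarith
  have hR2 : 2 ≤ R := by linarith
  have hfb := tie_fb a p q e hs
  rw [← hR] at hs
  have h1 : 1 ≤ s0 := by
    by_contra hcon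
    push Not at hcon
    have h2 : s0 ≤ 0 := by omega
    have h3 : R * s0 ≤ 0 := mul_nonpos_of_nonneg_of_nonpos (by linarith) h2
    have h4 : (0 : ℤ) ≤ e * a := mul_nonneg (by linarith) ha'
    linarith
  have h2 : s0 ≤ a := by
    by_contra hcon
    push Not at hcon
    have h3 : (a : ℤ) + 1 ≤ s0 := by omega
    have h4 : ((e : ℤ) + 1) * (a + 1) ≤ R * s0 := mul_le_mul hRe h3 (by linarith) (by linarith)
    nlinarith
  refine ⟨h1, h2, fun s => ?_, fun s hs0 hsa hor => ?_, fun s hs0 hsa hne => ?_,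
    fun h hh1 hha => ?_, ?_⟩
  · rw [hfb (2 * s0 - 1 - s), hfb s]
    ring
  · rw [hfb s, ← hR]
    have key : 4 * s0 < 2 * R * ((s - s0) * (s - s0 + 1)) := by
      rcases hor with h3 | h3
      · obtain ⟨u, hu⟩ : ∃ u, u = s - s0 := ⟨_, rfl⟩
        rw [← hu]
        have hu1 : s0 ≤ u := by omega
        have h4 : s0 * (s0 + 1) ≤ u * (u + 1) := mul_le_mul hu1 (by linarith) (by linarith)
          (by linarith)
        have h5 : 0 ≤ s0 * (s0 + 1) := by positivity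
        have h6 : 2 * (s0 * (s0 + 1)) ≤ R * (u * (u + 1)) :=
          mul_le_mul hR2 h4 h5 (by linarith)
        nlinarith
      · obtain ⟨u, hu⟩ : ∃ u, u = s0 - s := ⟨_, rfl⟩
        obtain ⟨k, hk⟩ : ∃ k, k = (a : ℤ) - s0 := ⟨_, rfl⟩
        have hk0 : 0 ≤ k := by rw [hk]; linarith
        have hu1 : k + 2 ≤ u := by omega
        have e1 : (s - s0) * (s - s0 + 1) = u * (u - 1) := by
          rw [hu]
          ring
        rw [e1]
        have h4 : (k + 2) * (k + 1) ≤ u * (u - 1) := mul_le_mul hu1 (by linarith) (by linarith)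
          (by linarith)
        have h5 : R * ((k + 2) * (k + 1)) ≤ R * (u * (u - 1)) :=
          mul_le_mul_of_nonneg_left h4 (by linarith)
        -- `a ≤ R k + 1`
        have h6 : (a : ℤ) ≤ R * k + 1 := by
          have h7 : R * s0 = R * a - R * k := by
            rw [hk]
            ring
          have h8 : (a : ℤ) * 1 ≤ a * (R - e) := mul_le_mul_of_nonneg_left (by linarith) ha'
          nlinarith
        have h9 : 0 ≤ R * (k * k) := mul_nonneg (by linarith) (mul_self_nonneg k)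
        have h10 : 0 ≤ R * k := mul_nonneg (by linarith) hk0
        nlinarith
    linarith
  · rw [hfb s, ← hR]
    obtain ⟨j, hj⟩ : ∃ j, j = s - s0 := ⟨_, rfl⟩
    have hs' : s = s0 + j := by rw [hj]; ring
    rw [← hj, hs']
    have key : 0 < (j + 1) * (R * j + 2) := by
      rcases lt_or_ge j 0 with h3 | h3
      · have h4 : j ≤ -2 := by
          have : j ≠ -1 := by
            rintro rfl
            exact hne (by omega)
          omega
        have h5 : R * j + 2 < 0 := by nlinarith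
        exact mul_pos_of_neg_of_neg (by linarith) h5
      · have h5 : 0 ≤ R * j := mul_nonneg (by linarith) h3
        exact mul_pos (by linarith) (by linarith)
    nlinarith
  · have e1 : FB a p q (-e) s0 = (2 * p + 8 * (-(e : ℤ))) * ((a : ℤ) * (a + 2)) -
        2 * ((q : ℤ) - 1) * a + 2 * R * (s0 * (s0 - 1)) := by
      unfold FB
      rw [hR]
      rw [hR] at hs
      linear_combination (-4 * s0) * hs
    rw [e1]
    unfold FA
    have h3 : -4 ≤ 2 * R * (s0 * (s0 - 1)) - 4 * s0 := by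
      rcases eq_or_lt_of_le h1 with h4 | h4
      · rw [← h4]
        norm_num
      · have h5 : 2 * (s0 * (s0 - 1)) ≤ R * (s0 * (s0 - 1)) :=
          mul_le_mul_of_nonneg_right hR2 (mul_nonneg (by linarith) (by linarith))
        nlinarith
    have h4 : (2 : ℤ) ≤ h * (h + 1) := by nlinarith
    have h5 : (4 : ℤ) * 2 ≤ p * (h * (h + 1)) :=
      mul_le_mul (by linarith) h4 (by norm_num) (by linarith)
    have h6 : 0 ≤ (q : ℤ) * (h * (2 * a - h + 1)) :=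
      mul_nonneg (by linarith) (mul_nonneg (by linarith) (by linarith))
    have h7 : 0 ≤ (e : ℤ) * (h * (a + 1 - h)) :=
      mul_nonneg (by linarith) (mul_nonneg (by linarith) (by linarith))
    nlinarith
  · rw [hfb (s0 - 1)]
    ring

end Pool.Agent.KT
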