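import Pool.Agent.Work.MP_ab49bb_gt.Gm
import Pool.Agent.Work.MP_ab49bb_gt.Tie1

/-!
# Tie2 (M-L): the degree for an odd tie

`p = sp L` odd, `d = -e`, `p > 3e`, `r s0 = ea + 1`, `D = FB s0 - 4 s0`, `a` large. By `term`, with `x = v^(-4)`:
`(1-x) jt = ∑_{s=0}^{a} (-1)^((a-s)p) v^(FB s) f_s + (FA part)`, `f_s = (1 - v^(-4(a+2s+1))) TT (a-s)`, and `(-1)^((a-s)p) = (-1)^(a-s)` (`p` odd).
Multiply by `v^(-D)`. The `FA` part tends to `0` (`FA h < D`, `TT → 1`). Write `f_s = 1 - g_s`.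
(1) `∑_s (-1)^(a-s) v^(FB s - D) → 0`: the involution `s ↦ 2 s0 - 1 - s` of the indices `s` with `0 ≤ 2s0-1-s ≤ a` preserves `FB` and changes the sign of `(-1)^(a-s)` (the sum `s + s' = 2s0 - 1` is odd), so these terms cancel
(`Finset.sum_involution`); the others have `FB s < D` (`tie_ineq`).
(2) `g_s v^(4(s+1))` is convergent for every `0 ≤ s ≤ a`: for `s ≤ a - 1`, `k = a - s ≥ 1`: `(1 - TT(a-s)) v^(4(s+1)) → s_L := L.length` (`tt_asy`: `a - k + 1 = s + 1`) and
`v^(-4(a+2s+1)) v^(4(s+1)) → 0` (`a ≥ 1`), so the limit is `L.length`; for `s = a`: `TT 0 = 1` (`tt_one`, `dd a 0 = 0`), `g_a = v^(-4(3a+1))`, limit `0`.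
(3) So `∑_s (-1)^(a-s) v^(FB s - D) g_s = ∑_s (-1)^(a-s) v^(FB s - 4(s+1) - D) (g_s v^(4(s+1)))`: by `tie_ineq` every term with `s ≠ s0 - 1` tends to `0`; for `s = s0 - 1` (`0 ≤ s0-1 ≤ a-1`) the exponent is
`FB s0 - 4 s0 - D = 0` and the term tends to `± L.length ≠ 0`.
Hence `(1-x) jt v^(-D) → ∓ L.length`, and `1 - x → 1`: `RDeg` with `c = L.length/2`, `C = L.length + 1`.
-/

set_option autoImplicit false

namespace Pool.Agent.KT

open Filter Topology in
private theorem rdeg_of {w : List Letter} {a : ℕ} {D : ℤ} {l : ℝ} (hl : l ≠ 0)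
    (h : Tendsto (fun v : ℝ => (1 - v ^ (-4 : ℤ)) * jt (ru v) a w * v ^ (-D)) atTop (𝓝 l)) :
    RDeg w a D := by
  have hl' : 0 < |l| := abs_pos.2 hl
  refine ⟨|l| / 2, 2 * (|l| + 1), by positivity, ?_⟩
  have e1 := h.abs.eventually (eventually_gt_nhds (by linarith : |l| / 2 < |l|))
  have e2 := h.abs.eventually (eventually_lt_nhds (by linarith : |l| < |l| + 1))
  filter_upwards [e1, e2, eventually_ge_atTop 2] with v h1 h2 hv
  have hv0 : 0 < v := by linarith
  have hx0 : 0 < v ^ (-4 : ℤ) := zpow_pos hv0 _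
  have hx1 : v ^ (-4 : ℤ) ≤ 1 / 2 := by
    have e3 : v ^ (-4 : ℤ) = (v ^ 4)⁻¹ := by
      rw [zpow_neg]; norm_cast
    have e4 : (2 : ℝ) ≤ v ^ 4 := by
      have : (2 : ℝ) ^ 4 ≤ v ^ 4 := by gcongr
      linarith
    rw [e3, inv_eq_one_div]
    exact one_div_le_one_div_of_le (by norm_num) e4
  have hD0 : 0 < v ^ (-D) := zpow_pos hv0 _
  have hDD : v ^ (-D) * v ^ D = 1 := by
    rw [← zpow_add₀ hv0.ne']; simp
  rw [abs_mul, abs_mul, abs_of_pos (by linarith : 0 < 1 - v ^ (-4 : ℤ)), abs_of_pos hD0] at h1 h2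
  have hJ : 0 ≤ |jt (ru v) a w| := abs_nonneg _
  have hJD : 0 ≤ |jt (ru v) a w| * v ^ (-D) := by positivity
  have hvD : 0 < v ^ D := zpow_pos hv0 _
  have key : |jt (ru v) a w| = (|jt (ru v) a w| * v ^ (-D)) * v ^ D := by
    rw [mul_assoc, hDD, mul_one]
  have k1 : |l| / 2 ≤ |jt (ru v) a w| * v ^ (-D) := by nlinarith
  have k2 : |jt (ru v) a w| * v ^ (-D) ≤ 2 * (|l| + 1) := by nlinarith
  constructor
  · rw [key]
    exact mul_le_mul_of_nonneg_right k1 hvD.le
  · rw [key]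
    exact mul_le_mul_of_nonneg_right k2 hvD.le

private theorem sign_flip {a s t p : ℕ} (hp : Odd p) (hs : s ≤ a) (ht : t ≤ a)
    (h : Odd (s + t)) : (-1 : ℝ) ^ ((a - s) * p) = -(-1 : ℝ) ^ ((a - t) * p) := by
  obtain ⟨m, hm⟩ := hp
  have e : ∀ k : ℕ, (-1 : ℝ) ^ (k * p) = (-1) ^ k := by
    intro k
    rw [mul_comm, pow_mul, hm, pow_succ, pow_mul]
    norm_num
  rw [e, e]
  obtain ⟨n, hn⟩ := h
  rcases Nat.even_or_odd (a - s) with h1 | h1
  · have h2 : Odd (a - t) := by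
      obtain ⟨c, hc⟩ := h1
      rcases Nat.even_or_odd (a - t) with h3 | h3
      · obtain ⟨c', hc'⟩ := h3
        exfalso; omega
      · exact h3
    rw [h1.neg_one_pow, h2.neg_one_pow]; norm_num
  · have h2 : Even (a - t) := by
      obtain ⟨c, hc⟩ := h1
      rcases Nat.even_or_odd (a - t) with h3 | h3
      · exact h3
      · obtain ⟨c', hc'⟩ := h3
        exfalso; omega
    rw [h1.neg_one_pow, h2.neg_one_pow]

private theorem cancel1 {x S F y T z : ℝ} (hx : 1 - x ≠ 0) :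
    (1 - x) * (S * F * ((1 - y) / (1 - x)) * T) * z = S * (F * z) * ((1 - y) * T) := by
  field_simp

open Filter Topology in
theorem tie_deg {L : List (ℕ × ℕ)} (hL : GenL L) {e : ℕ} (he : 1 ≤ e) (hp : 3 * e < sp L)
    (ho : Odd (sp L)) {a : ℕ} (ha : 4 * (e + 1) ^ 2 + 4 ≤ a) {s0 : ℤ}
    (hs : ((sp L : ℤ) - 2 * e) * s0 = e * a + 1) :
    RDeg (gw (-(e : ℤ)) L) a (FB a (sp L) (sq L) (-e) s0 - 4 * s0) := by
  have hq : 1 ≤ sq L := by
    obtain ⟨x, hx⟩ := List.exists_mem_of_ne_nil L hL.ne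
    have h1 := (hL.pos x hx).2
    have h2 : x.2 ≤ sq L := List.single_le_sum (by simp) x.2 (List.mem_map_of_mem hx)
    omega
  obtain ⟨t1, t2, t3, t4, t5, t6, t7⟩ := tie_ineq he hq hp ha hs
  set D := FB a (sp L) (sq L) (-e) s0 - 4 * s0 with hD
  have ha1 : 1 ≤ a := by nlinarith
  have hlen : (L.length : ℝ) ≠ 0 := by
    have : L.length ≠ 0 := fun h => hL.ne (List.length_eq_zero_iff.1 h)
    exact_mod_cast this
  obtain ⟨n0, hn0⟩ : ∃ n0 : ℕ, (n0 : ℤ) = s0 - 1 := ⟨(s0 - 1).toNat, by omega⟩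
  have hn0a : n0 < a + 1 := by omega
  -- the limits of `g`
  have hg : ∀ s ∈ Finset.range (a + 1), ∃ l : ℝ, (s = n0 → l = L.length) ∧
      Tendsto (fun v : ℝ => (1 - (1 - v ^ (-(4 * ((a : ℤ) + 2 * s + 1)))) *
        TT (ru v) a (a - s) L) * v ^ (4 * ((s : ℤ) + 1))) atTop (𝓝 l) := by
    intro s hs'
    have hsa : s ≤ a := by simpa [Nat.lt_succ_iff] using hs'
    rcases Nat.lt_or_ge s a with hlt | hge
    · refine ⟨L.length, fun _ => rfl, ?_⟩
      have h1 := tt_asy (a := a) (k := a - s) (by omega) (by omega) hL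
      have h2 := tt_lim (a := a) (k := a - s) (by omega) hL
      have h3 : Tendsto (fun v : ℝ => v ^ (-(4 * ((a : ℤ) + s)))) atTop (𝓝 0) :=
        tendsto_zpow_atTop_zero (by omega)
      have h4 := h1.add (h3.mul h2)
      rw [zero_mul, add_zero] at h4
      refine h4.congr' ?_
      filter_upwards [eventually_gt_atTop 0] with v hv
      have e1 : (4 * ((a : ℤ) - ((a - s : ℕ) : ℤ) + 1)) = 4 * ((s : ℤ) + 1) := by
        push_cast [hsa]; ring
      have e2 : v ^ (-(4 * ((a : ℤ) + s))) = v ^ (-(4 * ((a : ℤ) + 2 * s + 1))) *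
          v ^ (4 * ((s : ℤ) + 1)) := by
        rw [← zpow_add₀ hv.ne']; congr 1; ring
      rw [e1, e2]
      ring
    · have hsa' : s = a := le_antisymm hsa hge
      subst hsa'
      refine ⟨0, fun h => by omega, ?_⟩
      have h3 : Tendsto (fun v : ℝ => v ^ (-(8 * (s : ℤ)))) atTop (𝓝 0) :=
        tendsto_zpow_atTop_zero (by omega)
      refine h3.congr' ?_
      filter_upwards [eventually_gt_atTop 1] with v hv
      have hv0 : 0 < v := by linarith
      have h5 : TT (ru v) s (s - s) L = 1 :=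
        tt_one (ru v) (ru_gt hv) (by omega) (by simp [dd, m0, m1]) L
      have e2 : v ^ (-(8 * (s : ℤ))) = v ^ (-(4 * ((s : ℤ) + 2 * s + 1))) *
          v ^ (4 * ((s : ℤ) + 1)) := by
        rw [← zpow_add₀ hv0.ne']; congr 1; ring
      rw [h5, e2]
      ring
  choose! lg hlg1 hlg2 using hg
  -- part one
  have p1 : Tendsto (fun v : ℝ => ∑ s ∈ Finset.range (a + 1), (-1 : ℝ) ^ ((a - s) * sp L) *
      v ^ (FB a (sp L) (sq L) (-e) s - D)) atTop (𝓝 0) := by
    classical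
    have hsplit : ∀ v : ℝ, ∑ s ∈ Finset.range (a + 1), (-1 : ℝ) ^ ((a - s) * sp L) *
        v ^ (FB a (sp L) (sq L) (-e) s - D) = ∑ s ∈ Finset.range (a + 1),
          if (2 * s0 - 1 < s ∨ (s : ℤ) + a < 2 * s0 - 1) then (-1 : ℝ) ^ ((a - s) * sp L) *
            v ^ (FB a (sp L) (sq L) (-e) s - D) else 0 := by
      intro v
      rw [← Finset.sum_filter, ← Finset.sum_filter_add_sum_filter_not (Finset.range (a + 1))
        (fun s : ℕ => 2 * s0 - 1 < s ∨ (s : ℤ) + a < 2 * s0 - 1)]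
      convert add_zero _
      refine Finset.sum_involution (fun s _ => (2 * s0 - 1 - s).toNat) ?_ ?_ ?_ ?_
      · intro s hs'
        simp only [Finset.mem_filter, Finset.mem_range, not_or, not_lt] at hs'
        have e1 : (((2 * s0 - 1 - s).toNat : ℕ) : ℤ) = 2 * s0 - 1 - s := by omega
        have e2 : FB a (sp L) (sq L) (-e) ((2 * s0 - 1 - s).toNat : ℕ) =
            FB a (sp L) (sq L) (-e) s := by rw [e1, t3]
        rw [e2, sign_flip (s := s) (t := (2 * s0 - 1 - s).toNat) ho (by omega) (by omega)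
          ⟨n0, by omega⟩]
        ring
      · intro s hs' _
        simp only [Finset.mem_filter, Finset.mem_range, not_or, not_lt] at hs'
        omega
      · intro s hs'
        simp only [Finset.mem_filter, Finset.mem_range, not_or, not_lt] at hs' ⊢
        omega
      · intro s hs'
        simp only [Finset.mem_filter, Finset.mem_range, not_or, not_lt] at hs'
        omega
    have : (0 : ℝ) = ∑ s ∈ Finset.range (a + 1), (0 : ℝ) := by simp
    rw [this]
    refine (tendsto_finsetSum (Finset.range (a + 1)) fun s hs' => ?_).congr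
      fun v => (hsplit v).symm
    have hsa : s ≤ a := by simpa [Nat.lt_succ_iff] using hs'
    by_cases hc : (2 * s0 - 1 < s ∨ (s : ℤ) + a < 2 * s0 - 1)
    · simp only [if_pos hc]
      have := t4 s (by omega) (by omega) hc
      have h0 : Tendsto (fun v : ℝ => v ^ (FB a (sp L) (sq L) (-e) s - D)) atTop (𝓝 0) :=
        tendsto_zpow_atTop_zero (by omega)
      simpa using h0.const_mul ((-1 : ℝ) ^ ((a - s) * sp L))
    · simp only [if_neg hc]
      exact tendsto_const_nhds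
  -- part two
  have p2 : Tendsto (fun v : ℝ => ∑ s ∈ Finset.range (a + 1), (-1 : ℝ) ^ ((a - s) * sp L) *
      (v ^ (FB a (sp L) (sq L) (-e) s - 4 * ((s : ℤ) + 1) - D) *
      ((1 - (1 - v ^ (-(4 * ((a : ℤ) + 2 * s + 1)))) *
        TT (ru v) a (a - s) L) * v ^ (4 * ((s : ℤ) + 1))))) atTop
      (𝓝 ((-1 : ℝ) ^ ((a - n0) * sp L) * L.length)) := by
    have hlim : ∑ s ∈ Finset.range (a + 1), (if s = n0 then
        (-1 : ℝ) ^ ((a - n0) * sp L) * L.length else 0) =
        (-1 : ℝ) ^ ((a - n0) * sp L) * L.length := by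
      rw [Finset.sum_ite_eq' , if_pos (Finset.mem_range.2 hn0a)]
    rw [← hlim]
    refine tendsto_finsetSum _ fun s hs' => ?_
    have hsa : s ≤ a := by simpa [Nat.lt_succ_iff] using hs'
    by_cases hsn : s = n0
    · rw [if_pos hsn]
      have e1 : FB a (sp L) (sq L) (-e) s - 4 * ((s : ℤ) + 1) - D = 0 := by
        have : (s : ℤ) = s0 - 1 := by rw [hsn]; exact hn0
        rw [this, t7, hD]; ring
      simp only [e1, zpow_zero, one_mul]
      have := (hlg2 s hs').const_mul ((-1 : ℝ) ^ ((a - s) * sp L))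
      rw [hlg1 s hs' hsn] at this
      rw [← hsn]
      exact this
    · rw [if_neg hsn]
      have h5 := t5 s (by omega) (by omega) (by omega)
      have h0 : Tendsto (fun v : ℝ => v ^ (FB a (sp L) (sq L) (-e) s - 4 * ((s : ℤ) + 1) - D))
          atTop (𝓝 0) := tendsto_zpow_atTop_zero (by omega)
      have := (h0.mul (hlg2 s hs')).const_mul ((-1 : ℝ) ^ ((a - s) * sp L))
      simpa using this
  -- part three
  have p3 : Tendsto (fun v : ℝ => ∑ h ∈ Finset.Icc 1 (a / 2), (-1 : ℝ) ^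
      ((a - h) * sp L + h * sq L) * (v ^ (FA a (sp L) (sq L) (-e) h - D) *
        ((1 - v ^ (-(4 * ((a : ℤ) - 2 * h + 1)))) * TT (ru v) a (a + h) L))) atTop (𝓝 0) := by
    have : (0 : ℝ) = ∑ h ∈ Finset.Icc 1 (a / 2), (0 : ℝ) := by simp
    rw [this]
    refine tendsto_finsetSum _ fun h hh => ?_
    rw [Finset.mem_Icc] at hh
    have h6 := t6 h (by omega) (by omega)
    have h0 : Tendsto (fun v : ℝ => v ^ (FA a (sp L) (sq L) (-e) h - D)) atTop (𝓝 0) :=
      tendsto_zpow_atTop_zero (by omega)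
    have h1 : Tendsto (fun v : ℝ => v ^ (-(4 * ((a : ℤ) - 2 * h + 1)))) atTop (𝓝 0) :=
      tendsto_zpow_atTop_zero (by omega)
    have h2 := tt_lim (a := a) (k := a + h) (by omega) hL
    have := (h0.mul ((h1.const_sub 1).mul h2)).const_mul
      ((-1 : ℝ) ^ ((a - h) * sp L + h * sq L))
    simpa using this
  have hfin := (p1.sub p2).add p3
  refine rdeg_of (l := 0 - (-1 : ℝ) ^ ((a - n0) * sp L) * L.length + 0) ?_ (hfin.congr' ?_)
  · rw [add_zero, zero_sub]
    exact neg_ne_zero.2 (mul_ne_zero (pow_ne_zero _ (by norm_num)) hlen)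
  · filter_upwards [eventually_gt_atTop 1] with v hv
    have hv0 : 0 < v := by linarith
    have hx : 1 - v ^ (-4 : ℤ) ≠ 0 := by
      have : v ^ (-4 : ℤ) < 1 := zpow_lt_one_of_neg₀ hv (by norm_num)
      linarith
    rw [term (ru_gt hv)]
    simp only [pw_ru hv]
    rw [mul_add, add_mul, Finset.mul_sum, Finset.mul_sum, Finset.sum_mul, Finset.sum_mul,
      ← Finset.sum_sub_distrib]
    congr 1
    · refine Finset.sum_congr rfl fun s hs' => ?_
      have e1 : v ^ (FB a (sp L) (sq L) (-e) s - 4 * ((s : ℤ) + 1) - D) * v ^ (4 * ((s : ℤ) + 1)) =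
          v ^ (FB a (sp L) (sq L) (-e) s - D) := by
        rw [← zpow_add₀ hv0.ne']; congr 1; ring
      have e2 : v ^ (FB a (sp L) (sq L) (-e) s - D) =
          v ^ (FB a (sp L) (sq L) (-e) s) * v ^ (-D) := by
        rw [← zpow_add₀ hv0.ne']; congr 1
      have e3 : v ^ (FB a (sp L) (sq L) (-e) s - 4 * ((s : ℤ) + 1) - D) *
          ((1 - (1 - v ^ (-(4 * ((a : ℤ) + 2 * s + 1)))) *
            TT (ru v) a (a - s) L) * v ^ (4 * ((s : ℤ) + 1))) =
          v ^ (FB a (sp L) (sq L) (-e) s - D) * (1 - (1 - v ^ (-(4 * ((a : ℤ) + 2 * s + 1)))) *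
            TT (ru v) a (a - s) L) := by
        rw [← e1]; ring
      rw [e3, e2, cancel1 hx]
      ring
    · refine Finset.sum_congr rfl fun h hh => ?_
      have e2 : v ^ (FA a (sp L) (sq L) (-e) h - D) =
          v ^ (FA a (sp L) (sq L) (-e) h) * v ^ (-D) := by
        rw [← zpow_add₀ hv0.ne']; congr 1
      rw [e2, cancel1 hx]
      ring

end Pool.Agent.KT
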