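import Pool.Agent.Work.MP_ab49bb_gt.Z3
import Pool.Agent.Work.MP_ab49bb_gt.Al
import Pool.Agent.Work.MP_ab49bb_gt.Tf

/-!
# TorA (S-M): the quantum trace of `(σ_1 σ_2)^m`

`ex (tor m) = 2m`. `ev (eA) (eB) (tor m) = (eA eB)^m` (integer power; for `m < 0`: `(eB⁻¹ eA⁻¹)^|m|`). Put `Z k = ev (eA u a k) (eB u a k) (tor m)`; `Z³ = (eta u a k)^m` (`ev_twist`: `(eA eB)^3 = eta`, so `(eB⁻¹eA⁻¹)^3 = eta⁻¹`).
`tor_jt`: `jt_eq` and `tr_ev`.
-/

set_option autoImplicit false

open Matrix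

namespace Pool.Agent.KT

variable {u : ℝˣ}

/-- Do not change. -/
noncomputable def tz (u : ℝˣ) (a k : ℕ) (m : ℤ) : Matrix (Fin (dd a k + 1)) (Fin (dd a k + 1)) ℝ :=
  ev (eA u a k) (eB u a k) (tor m)

private theorem flat_prod {α M : Type} [Monoid M] (f : α → M) (L : List α) (n : ℕ) :
    ((List.replicate n L).flatten.map f).prod = (L.map f).prod ^ n := by
  induction n with
  | zero => simp
  | succ n ih =>
    rw [List.replicate_succ, List.flatten_cons, List.map_append, List.prod_append, ih, pow_succ']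

private theorem flat_sum (f : Letter → ℤ) (L : List Letter) (n : ℕ) :
    ((List.replicate n L).flatten.map f).sum = n * (L.map f).sum := by
  induction n with
  | zero => simp
  | succ n ih =>
    rw [List.replicate_succ, List.flatten_cons, List.map_append, List.sum_append, ih]
    push_cast
    ring

private theorem ex_tor (m : ℤ) : ex (tor m) = 2 * m := by
  unfold ex tor
  by_cases h : 0 ≤ m
  · rw [if_pos h, flat_sum]
    have : ((m.toNat : ℕ) : ℤ) = m := Int.toNat_of_nonneg h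
    rw [this]
    simp
    ring
  · rw [if_neg h, flat_sum]
    have : (((-m).toNat : ℕ) : ℤ) = -m := Int.toNat_of_nonneg (by omega)
    rw [this]
    simp
    ring

private theorem ev_tor_pos {d : ℕ} (A B : Matrix (Fin d) (Fin d) ℝ) {m : ℤ} (h : 0 ≤ m) :
    ev A B (tor m) = (A * B) ^ m.toNat := by
  unfold ev tor
  rw [if_pos h, flat_prod]
  simp

private theorem ev_tor_neg {d : ℕ} (A B : Matrix (Fin d) (Fin d) ℝ) {m : ℤ} (h : ¬ 0 ≤ m) :
    ev A B (tor m) = ((A * B) ^ (-m).toNat)⁻¹ := by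
  unfold ev tor
  rw [if_neg h, flat_prod, ← Matrix.inv_pow', Matrix.mul_inv_rev]
  simp

theorem tz_cube (hu : 1 < (u : ℝ)) {a k : ℕ} (h : 2 * k ≤ 3 * a) (m : ℤ) :
    tz u a k m ^ 3 = (eta u a k ^ m) • (1 : Matrix (Fin (dd a k + 1)) (Fin (dd a k + 1)) ℝ) := by
  have h1 := ev_twist hu h
  have hp : ∀ n : ℕ, ((eA u a k * eB u a k) ^ n) ^ 3 =
      (eta u a k ^ n) • (1 : Matrix (Fin (dd a k + 1)) (Fin (dd a k + 1)) ℝ) := by
    intro n
    rw [← pow_mul, mul_comm n 3, pow_mul, h1, smul_pow, one_pow]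
  have he : eta u a k ≠ 0 := (pw_pos hu _).ne'
  unfold tz
  by_cases hm : 0 ≤ m
  · rw [ev_tor_pos _ _ hm, hp]
    congr 1
    conv_rhs => rw [← Int.toNat_of_nonneg hm]
    rw [zpow_natCast]
  · rw [ev_tor_neg _ _ hm, Matrix.inv_pow', hp]
    apply Matrix.inv_eq_right_inv
    rw [smul_mul_smul_comm, mul_one]
    have h2 : eta u a k ^ (-m).toNat * eta u a k ^ m = 1 := by
      rw [← zpow_natCast, Int.toNat_of_nonneg (by omega), ← zpow_add₀ he, neg_add_cancel, zpow_zero]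
    rw [h2, one_smul]

theorem tor_jt (hu : 1 < (u : ℝ)) (a : ℕ) (m : ℤ) :
    jt u a (tor m) = pw u (-(2 * m * (a * (a + 2)))) * ∑ k ∈ Finset.range (3 * a / 2 + 1),
      qn u (3 * (a : ℤ) - 2 * k + 1) * (tz u a k m).trace := by
  rw [jt_eq hu, ex_tor]
  congr 1
  refine Finset.sum_congr rfl fun k hk => ?_
  rw [Finset.mem_range] at hk
  rw [tr_ev hu (by omega)]
  rfl

end Pool.Agent.KT
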