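import Pool.Agent.Work.MP_ab49bb_gt.Co
import Pool.Agent.Work.MP_ab49bb_gt.Gd

/-!
# Yb (M): the Yang-Baxter equation

`s1_zero`: `(s1 z)(0,p,q) = ∑_y S (0,p) y z(y.1,y.2,q)`, and `S (0,p) y ≠ 0` needs `y.1 + y.2 = p ≤ y.1`, so `y = (p,0)`, `l = 0`, and `rc p 0 0 = v^((a-2p) a)`.
`s2_zero`: the same with the last two coordinates.
`hw_zero`: if `x` is a highest weight vector (of any weight; only `E x = 0` is used) with `x (0, y) = 0` for all `y` then `x = 0`: the coordinate `(i, y)` of `E x = 0` is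
`∑_{y'} E' y y' x(i,y') + [a-i] v^(2 wt y) x(i+1,y) = 0` for `i < a` (`UQ = tn V (V⊗V)`, `tE`), so the slice `i+1` vanishes if the slice `i` does
(`[a-i] ≠ 0`). Induction on `i`.
`ybe`: `X = s1 s2 s1 - s2 s1 s2` commutes with the module (`Com.mul`, `Com.sub`). By `QM.Com.ext_hw` it suffices that `X z = 0` for every highest weight
vector `z`; `X z` is HW, so by `hw_zero` it suffices that `(X z)(0,p,q) = 0`. For EVERY `z`:
`(s1 s2 s1 z)(0,p,q) = v^(a(a-2p)) (s2 s1 z)(p,0,q) = v^(a(a-2p)) v^(a(a-2q)) (s1 z)(p,q,0)` and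
`(s2 s1 s2 z)(0,p,q) = ∑_y S (p,q) y (s1 s2 z)(0,y.1,y.2) = ∑_y S (p,q) y v^(a(a-2 y.1)) v^(a(a-2 y.2)) z(y.1,y.2,0)`
(`s1_zero`, `s2_zero`), where `y.1 + y.2 = p + q` (otherwise `S (p,q) y = 0`), so it is `v^(2a^2-2a(p+q)) ∑_y S (p,q) y z(y.1,y.2,0) = v^(2a^2-2a(p+q)) (s1 z)(p,q,0)`. Equal.
-/

set_option autoImplicit false

open Matrix

namespace Pool.Agent.KT

variable {u : ℝˣ}

private theorem S_zero_left (a : ℕ) (p : Fin (a + 1)) (y1 y2 : Fin (a + 1)) :
    S u a (0, p) (y1, y2) =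
      if y1 = p ∧ y2 = 0 then pw u (a * ((a : ℤ) - 2 * (p : ℕ))) else 0 := by
  unfold S
  by_cases h : y1 = p ∧ y2 = 0
  · rw [if_pos h]
    obtain ⟨rfl, rfl⟩ := h
    have h0 : ((((0 : Fin (a + 1)), y1) : Fin (a + 1) × Fin (a + 1)).1 : ℕ) +
        (((0 : Fin (a + 1)), y1) : Fin (a + 1) × Fin (a + 1)).2 =
        ((y1, (0 : Fin (a + 1))) : Fin (a + 1) × Fin (a + 1)).1 +
        ((y1, (0 : Fin (a + 1))) : Fin (a + 1) × Fin (a + 1)).2 ∧
        ((((0 : Fin (a + 1)), y1) : Fin (a + 1) × Fin (a + 1)).2 : ℕ) ≤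
        ((y1, (0 : Fin (a + 1))) : Fin (a + 1) × Fin (a + 1)).1 := by
      refine ⟨?_, le_refl _⟩
      simp only [Fin.val_zero]
      omega
    rw [if_pos h0]
    unfold rc
    simp only [Fin.val_zero, Nat.sub_self, Finset.range_zero, Finset.prod_empty, mul_one]
    have : gb u (0 + 0) 0 = 1 := by simp [gb]
    rw [this, mul_one]
    congr 1
    push_cast
    ring
  · rw [if_neg h, if_neg]
    rintro ⟨h1, h2⟩
    apply h
    simp only [Fin.val_zero, zero_add] at h1 h2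
    exact ⟨Fin.ext (by omega), Fin.ext (by rw [Fin.val_zero]; omega)⟩

theorem s1_zero (a : ℕ) (z : Ix a → ℝ) (p q : Fin (a + 1)) :
    (s1 u a *ᵥ z) (0, p, q) = pw u (a * ((a : ℤ) - 2 * (p : ℕ))) * z (p, 0, q) := by
  rw [mulVec, dotProduct]
  rw [Finset.sum_eq_single (p, (0 : Fin (a + 1)), q)]
  · unfold s1
    simp only [if_true]
    rw [S_zero_left, if_pos ⟨rfl, rfl⟩]
  · rintro ⟨y1, y2, y3⟩ _ hy
    unfold s1
    by_cases h3 : q = y3
    · simp only [h3, if_true]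
      rw [S_zero_left, if_neg, zero_mul]
      rintro ⟨rfl, rfl⟩
      exact hy (by rw [h3])
    · simp only [if_neg h3, zero_mul]
  · intro h
    exact absurd (Finset.mem_univ _) h

theorem s2_zero (a : ℕ) (z : Ix a → ℝ) (p q : Fin (a + 1)) :
    (s2 u a *ᵥ z) (p, 0, q) = pw u (a * ((a : ℤ) - 2 * (q : ℕ))) * z (p, q, 0) := by
  rw [mulVec, dotProduct]
  rw [Finset.sum_eq_single (p, q, (0 : Fin (a + 1)))]
  · unfold s2
    simp only [if_true]
    rw [S_zero_left, if_pos ⟨rfl, rfl⟩]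
  · rintro ⟨y1, y2, y3⟩ _ hy
    unfold s2
    by_cases h3 : p = y1
    · simp only [h3, if_true]
      rw [S_zero_left, if_neg, zero_mul]
      rintro ⟨rfl, rfl⟩
      exact hy (by rw [h3])
    · simp only [if_neg h3, zero_mul]
  · intro h
    exact absurd (Finset.mem_univ _) h

theorem hw_zero (hu : 1 < (u : ℝ)) (a : ℕ) (x : Ix a → ℝ) (hE : (UQ u hu a).E *ᵥ x = 0)
    (h0 : ∀ y, x (0, y) = 0) : x = 0 := by
  have key : ∀ i : ℕ, ∀ hi : i < a + 1, ∀ y, x (⟨i, hi⟩, y) = 0 := by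
    intro i
    induction i with
    | zero => intro hi y; exact h0 y
    | succ i ih =>
      intro hi y
      have hi' : i < a + 1 := by omega
      have h1 := congrFun hE (⟨i, hi'⟩, y)
      have h2 : (UQ u hu a).E = tE u (vE u a) (VVQ u hu a).E (VVQ u hu a).wt := rfl
      rw [h2, mulVec, dotProduct, Fintype.sum_prod_type] at h1
      simp only [Pi.zero_apply] at h1
      have h3 : ∀ j : Fin (a + 1), (∑ y', tE u (vE u a) (VVQ u hu a).E (VVQ u hu a).wt (⟨i, hi'⟩, y) (j, y') * x (j, y')) =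
          (if (⟨i, hi'⟩ : Fin (a + 1)) = j then ∑ y', (VVQ u hu a).E y y' * x (j, y') else 0) +
          vE u a ⟨i, hi'⟩ j * pw u (2 * (VVQ u hu a).wt y) * x (j, y) := by
        intro j
        have h4 : ∀ y', tE u (vE u a) (VVQ u hu a).E (VVQ u hu a).wt (⟨i, hi'⟩, y) (j, y') * x (j, y') =
            (if (⟨i, hi'⟩ : Fin (a + 1)) = j then (VVQ u hu a).E y y' * x (j, y') else 0) +
            (if y = y' then vE u a ⟨i, hi'⟩ j * pw u (2 * (VVQ u hu a).wt y') * x (j, y') else 0) := by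
          intro y'
          unfold tE
          simp only []
          by_cases h5 : (⟨i, hi'⟩ : Fin (a + 1)) = j <;> by_cases h6 : y = y' <;>
            simp only [h5, h6, if_true, if_false] <;> ring
        rw [Finset.sum_congr rfl fun y' _ => h4 y', Finset.sum_add_distrib, Finset.sum_ite_eq,
          if_pos (Finset.mem_univ _)]
        congr 1
        by_cases h5 : (⟨i, hi'⟩ : Fin (a + 1)) = j
        · simp only [if_pos h5]
        · simp only [if_neg h5, Finset.sum_const_zero]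
      rw [Finset.sum_congr rfl fun j _ => h3 j, Finset.sum_add_distrib, Finset.sum_ite_eq,
        if_pos (Finset.mem_univ _)] at h1
      have h7 : ∑ y', (VVQ u hu a).E y y' * x (⟨i, hi'⟩, y') = 0 := by
        apply Finset.sum_eq_zero
        intro y' _
        rw [ih hi' y', mul_zero]
      rw [h7, zero_add, Finset.sum_eq_single (⟨i + 1, hi⟩ : Fin (a + 1))] at h1
      · have h8 : vE u a ⟨i, hi'⟩ ⟨i + 1, hi⟩ = qn u ((a : ℤ) - i) := by
          unfold vE
          rw [if_pos rfl]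
        rw [h8] at h1
        have h9 : qn u ((a : ℤ) - i) ≠ 0 := qn_ne hu (by omega)
        have h10 : pw u (2 * (VVQ u hu a).wt y) ≠ 0 := (pw_pos hu _).ne'
        rcases mul_eq_zero.1 h1 with h11 | h11
        · rcases mul_eq_zero.1 h11 with h12 | h12
          · exact absurd h12 h9
          · exact absurd h12 h10
        · exact h11
      · intro j _ hj
        have h8 : vE u a ⟨i, hi'⟩ j = 0 := by
          unfold vE
          rw [if_neg]
          intro h9
          exact hj (Fin.ext h9.symm)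
        rw [h8, zero_mul, zero_mul]
      · intro h
        exact absurd (Finset.mem_univ _) h
  funext ⟨i, y⟩
  exact key i.1 i.2 y

private theorem s2_apply (a : ℕ) (z : Ix a → ℝ) (i p q : Fin (a + 1)) :
    (s2 u a *ᵥ z) (i, p, q) = ∑ y : Fin (a + 1) × Fin (a + 1), S u a (p, q) y * z (i, y) := by
  rw [mulVec, dotProduct, Fintype.sum_prod_type, Finset.sum_eq_single i]
  · unfold s2
    simp only [if_true]
  · intro j _ hj
    unfold s2
    simp only [if_neg hj.symm, zero_mul, Finset.sum_const_zero]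
  · intro h
    exact absurd (Finset.mem_univ _) h

private theorem s1_apply (a : ℕ) (z : Ix a → ℝ) (i p q : Fin (a + 1)) :
    (s1 u a *ᵥ z) (p, q, i) =
      ∑ y : Fin (a + 1) × Fin (a + 1), S u a (p, q) y * z (y.1, y.2, i) := by
  rw [mulVec, dotProduct, Fintype.sum_prod_type, Fintype.sum_prod_type]
  refine Finset.sum_congr rfl fun y1 _ => ?_
  rw [Fintype.sum_prod_type]
  refine Finset.sum_congr rfl fun y2 _ => ?_
  rw [Finset.sum_eq_single i]
  · unfold s1
    simp only [if_true]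
  · intro j _ hj
    unfold s1
    simp only [if_neg hj.symm, zero_mul]
  · intro h
    exact absurd (Finset.mem_univ _) h

private theorem ybe_zero (a : ℕ) (z : Ix a → ℝ) (p q : Fin (a + 1)) :
    ((s1 u a * s2 u a * s1 u a) *ᵥ z) (0, p, q) = ((s2 u a * s1 u a * s2 u a) *ᵥ z) (0, p, q) := by
  have e1 : (s1 u a * s2 u a * s1 u a) *ᵥ z = s1 u a *ᵥ (s2 u a *ᵥ (s1 u a *ᵥ z)) := by
    rw [mulVec_mulVec, mulVec_mulVec, Matrix.mul_assoc]
  have e2 : (s2 u a * s1 u a * s2 u a) *ᵥ z = s2 u a *ᵥ (s1 u a *ᵥ (s2 u a *ᵥ z)) := by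
    rw [mulVec_mulVec, mulVec_mulVec, Matrix.mul_assoc]
  rw [e1, e2, s1_zero, s2_zero, s1_apply, s2_apply, ← mul_assoc, ← pw_add, Finset.mul_sum]
  refine Finset.sum_congr rfl fun y _ => ?_
  have e3 : (s1 u a *ᵥ (s2 u a *ᵥ z)) (0, y) =
      pw u (a * ((a : ℤ) - 2 * (y.1 : ℕ))) * (pw u (a * ((a : ℤ) - 2 * (y.2 : ℕ))) *
        z (y.1, y.2, 0)) := by
    obtain ⟨y1, y2⟩ := y
    rw [s1_zero, s2_zero]
  rw [e3]
  by_cases h : (p : ℕ) + q = y.1 + y.2
  · have e4 : pw u (a * ((a : ℤ) - 2 * (p : ℕ)) + a * ((a : ℤ) - 2 * (q : ℕ))) =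
        pw u (a * ((a : ℤ) - 2 * (y.1 : ℕ))) * pw u (a * ((a : ℤ) - 2 * (y.2 : ℕ))) := by
      rw [← pw_add]
      congr 1
      have h' : ((p : ℕ) : ℤ) + (q : ℕ) = (y.1 : ℕ) + (y.2 : ℕ) := by exact_mod_cast h
      linear_combination (-2 * (a : ℤ)) * h'
    rw [e4]
    ring
  · have e5 : S u a (p, q) y = 0 := by
      unfold S
      rw [if_neg]
      rintro ⟨h1, _⟩
      exact h h1
    rw [e5]
    ring

theorem ybe (hu : 1 < (u : ℝ)) (a : ℕ) :
    s1 u a * s2 u a * s1 u a = s2 u a * s1 u a * s2 u a := by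
  have c1 := com_s1 hu a
  have c2 := com_s2 hu a
  have c3 : (UQ u hu a).Com (s1 u a * s2 u a * s1 u a - s2 u a * s1 u a * s2 u a) :=
    ((c1.mul c2).mul c1).sub ((c2.mul c1).mul c2)
  refine sub_eq_zero.1 (c3.ext_hw ?_)
  intro t x hx
  refine hw_zero hu a _ (QM.HW.com c3 hx).E ?_
  rintro ⟨p, q⟩
  rw [sub_mulVec, Pi.sub_apply, ybe_zero, sub_self]

end Pool.Agent.KT
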