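import Pool.Agent.Work.MP_ab49bb_gt.On
import Pool.Agent.Work.MP_ab49bb_gt.Yb

/-!
# Tws (M-L): the full twist on highest weight vectors

`C = 2a - 2m`, `j = k - m`, `m ≤ a`, `j ≤ a`, `j ≤ C`; `lam = lam u a m`; put `f = fL m j`, `g = gR m j`.
`s21_top`: for `z` with `z (p, ·, ·) = 0` for `p > j`: `(s2 s1 z)(y1, y2, j) = v^((a-2j)(2a-2(y1+y2))) z (j, y1, y2)`. Proof: `(s2 s1 z)(y1,y2,j) = ∑_r S (y2,j) r (s1 z)(y1, r.1, r.2)`, where `S (y2,j) r ≠ 0` needs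
`r.1 + r.2 = y2 + j` and `j ≤ r.1`; `(s1 z)(y1, r.1, r.2) = ∑_t S (y1, r.1) t z (t.1, t.2, r.2)` with `t.1 + t.2 = y1 + r.1`, `r.1 ≤ t.1`; so `j ≤ r.1 ≤ t.1`, and `z ≠ 0` forces `t.1 ≤ j`: `r.1 = t.1 = j`,
`r.2 = y2`, `t.2 = y1`; both coefficients are `rc` with `l = 0`: `S (y2,j) (j,y2) = v^((a-2j)(a-2y2))`, `S (y1,j) (j,y1) = v^((a-2j)(a-2y1))`.
(1) `s2 s1 g = α f`, `α = v^((a-2j) C) hc a C j j`: `s1 (s2 s1) = (s2 s1) s2` (`ybe`), so `x = s2 s1 g` is HW with `s1 x = lam x` (`s2_gR`), hence `x = c f` (`fL_uniq`, or `x = 0`); compare the coordinate `(0, m, j)`: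
`f (0,m,j) = 1`, `x (0,m,j) = v^((a-2j)(2a-2m)) g (j,0,m) = v^((a-2j) C) hc a C j j um(0,m)`. (`x = 0` would contradict this.)
(2) `s1 s2 f = β g`, `β = v^(a(2a-2k)) hc C a j j`: `s2 (s1 s2) = (s1 s2) s1`, so `x = s1 s2 f` is HW with `s2 x = lam x`, `x = c g` (`gR_uniq`); for the coordinates `(0,p,q)`: `x (0,p,q) = v^(a(a-2p)) v^(a(a-2q)) f (p,q,0)`
(`s1_zero`, `s2_zero`), `f (p,q,0) = hc C a j j (fd j um)(p,q)`, `g (0,p,q) = hc a C j 0 (fd j um)(p,q) = (fd j um)(p,q)`, where `p + q = k` if it is nonzero, and `fd j um ≠ 0` (`fd_ne`). So `c = β`.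
(3) `(s1 s2)^3 = (s2 s1)(s2)(s1 s2)(s1)` by `ybe` [`s1 s2 s1 s2 s1 s2 = s2 s1 s2 s2 s1 s2 = s2 s1 s2 (s1 s2 s1)`: check: `s2 s1 s2 = s1 s2 s1`], so
`(s1 s2)^3 f = (s2 s1) s2 (s1 s2) (lam f) = lam β (s2 s1) (s2 g) = lam² β α f`, and `lam² α β = eta u a k`: exponent
`2(a²-4am+2m²-2m) + (a-2j)C + a(2a-2k) + [-2j(a+C)+4j²-4j]` (`hc_full` with `b = a, b' = C, m = j`) `= 6a²-12ak+4k²-4k = (3a-2k)(3a-2k+2) - 3a(a+2)` for `C = 2a-2m`, `k = m+j` (`ring` after casting). The sign `(-1)^(2m) = 1`.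
`twist_hw`: by `onb_f` (`span`) every HW vector of weight `3a-2k` is a combination of the `fN i`, multiples of `fL m (k-m)`.
-/

set_option autoImplicit false

open Matrix

namespace Pool.Agent.KT

variable {u : ℝˣ}

open QM

private theorem sum_ixL {a : ℕ} (f : Ix a → ℝ) :
    ∑ w, f w = ∑ z : Fin (a + 1) × Fin (a + 1), ∑ r : Fin (a + 1), f (z.1, z.2, r) := by
  simp only [Fintype.sum_prod_type]

private theorem sum_ixR {a : ℕ} (f : Ix a → ℝ) :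
    ∑ w, f w = ∑ z : Fin (a + 1) × Fin (a + 1), ∑ r : Fin (a + 1), f (r, z.1, z.2) := by
  simp only [Fintype.sum_prod_type]
  rw [Finset.sum_comm]
  exact Finset.sum_congr rfl fun _ _ => Finset.sum_comm

private theorem s1_slice (a : ℕ) (x : Ix a → ℝ) (y : Fin (a + 1) × Fin (a + 1))
    (q : Fin (a + 1)) :
    (s1 u a *ᵥ x) (y.1, y.2, q) = (S u a *ᵥ fun z => x (z.1, z.2, q)) y := by
  rw [Matrix.mulVec, dotProduct, sum_ixL, Matrix.mulVec, dotProduct]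
  refine Finset.sum_congr rfl fun z _ => ?_
  have h1 : ∀ r : Fin (a + 1), s1 u a (y.1, y.2, q) (z.1, z.2, r) * x (z.1, z.2, r) =
      if q = r then S u a y z * x (z.1, z.2, r) else 0 := by
    intro r
    rw [s1, ite_mul, zero_mul]
  simp only [h1]
  rw [Finset.sum_ite_eq, if_pos (Finset.mem_univ _)]

private theorem s2_slice (a : ℕ) (x : Ix a → ℝ) (y : Fin (a + 1) × Fin (a + 1))
    (q : Fin (a + 1)) :
    (s2 u a *ᵥ x) (q, y.1, y.2) = (S u a *ᵥ fun z => x (q, z.1, z.2)) y := by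
  rw [Matrix.mulVec, dotProduct, sum_ixR, Matrix.mulVec, dotProduct]
  refine Finset.sum_congr rfl fun z _ => ?_
  have h1 : ∀ r : Fin (a + 1), s2 u a (q, y.1, y.2) (r, z.1, z.2) * x (r, z.1, z.2) =
      if q = r then S u a y z * x (r, z.1, z.2) else 0 := by
    intro r
    rw [s2, ite_mul, zero_mul]
  simp only [h1]
  rw [Finset.sum_ite_eq, if_pos (Finset.mem_univ _)]

private theorem S_diag (a : ℕ) (p q : Fin (a + 1)) :
    S u a (q, p) (p, q) = pw u (((a : ℤ) - 2 * (p : ℕ)) * (a - 2 * (q : ℕ))) := by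
  rw [S, if_pos ⟨add_comm _ _, le_rfl⟩, Nat.sub_self, rc]
  simp [gb_zero_right]

private theorem s1_top (a j : ℕ) (hj : j < a + 1) (z : Ix a → ℝ)
    (hz : ∀ p : Fin (a + 1), j < (p : ℕ) → ∀ y, z (p, y) = 0) (y1 r1 r2 : Fin (a + 1))
    (hr : j ≤ (r1 : ℕ)) :
    (s1 u a *ᵥ z) (y1, r1, r2) = if (r1 : ℕ) = j then
      pw u (((a : ℤ) - 2 * j) * (a - 2 * (y1 : ℕ))) * z (⟨j, hj⟩, y1, r2) else 0 := by
  have h0 := s1_slice (u := u) a z (y1, r1) r2
  refine h0.trans ?_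
  rw [Matrix.mulVec, dotProduct]
  split_ifs with h
  · have hr1 : r1 = ⟨j, hj⟩ := Fin.ext h
    subst hr1
    rw [Finset.sum_eq_single ((⟨j, hj⟩ : Fin (a + 1)), y1)]
    · rw [S_diag]
    · rintro ⟨t1, t2⟩ _ ht
      by_cases hS : (y1 : ℕ) + j = t1 + t2 ∧ j ≤ (t1 : ℕ)
      · have : j < (t1 : ℕ) := by
          rcases Nat.lt_or_ge j t1 with h1 | h1
          · exact h1
          · exfalso
            apply ht
            have h2 : (t1 : ℕ) = j := by omega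
            have h3 : (t2 : ℕ) = y1 := by omega
            exact Prod.ext (Fin.ext h2) (Fin.ext h3)
        simp only
        rw [hz t1 this, mul_zero]
      · have : S u a (y1, (⟨j, hj⟩ : Fin (a + 1))) (t1, t2) = 0 := by
          rw [S, if_neg hS]
        rw [this, zero_mul]
    · intro hh
      exact absurd (Finset.mem_univ _) hh
  · refine Finset.sum_eq_zero ?_
    rintro ⟨t1, t2⟩ _
    by_cases hS : (y1 : ℕ) + (r1 : ℕ) = t1 + t2 ∧ (r1 : ℕ) ≤ t1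
    · simp only
      rw [hz t1 (by omega), mul_zero]
    · have : S u a (y1, r1) (t1, t2) = 0 := by
        rw [S, if_neg hS]
      rw [this, zero_mul]

theorem s21_top (a j : ℕ) (hj : j < a + 1) (z : Ix a → ℝ)
    (hz : ∀ p : Fin (a + 1), j < (p : ℕ) → ∀ y, z (p, y) = 0) (y1 y2 : Fin (a + 1)) :
    ((s2 u a * s1 u a) *ᵥ z) (y1, y2, ⟨j, hj⟩) =
      pw u (((a : ℤ) - 2 * j) * (2 * a - 2 * ((y1 : ℕ) + (y2 : ℕ)))) * z (⟨j, hj⟩, y1, y2) := by
  rw [← Matrix.mulVec_mulVec]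
  have h0 := s2_slice (u := u) a (s1 u a *ᵥ z) (y2, ⟨j, hj⟩) y1
  refine h0.trans ?_
  rw [Matrix.mulVec, dotProduct, Finset.sum_eq_single ((⟨j, hj⟩ : Fin (a + 1)), y2)]
  · rw [S_diag]
    simp only
    rw [s1_top a j hj z hz y1 ⟨j, hj⟩ y2 le_rfl, if_pos rfl, ← mul_assoc, ← pw_add]
    congr 2
    ring
  · rintro ⟨t1, t2⟩ _ ht
    by_cases hS : (y2 : ℕ) + j = t1 + t2 ∧ j ≤ (t1 : ℕ)
    · have h1 : (t1 : ℕ) ≠ j := by
        intro h2
        apply ht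
        have h3 : (t2 : ℕ) = y2 := by omega
        exact Prod.ext (Fin.ext h2) (Fin.ext h3)
      simp only
      rw [s1_top a j hj z hz y1 t1 t2 hS.2, if_neg h1, mul_zero]
    · have : S u a (y2, (⟨j, hj⟩ : Fin (a + 1))) (t1, t2) = 0 := by
        rw [S, if_neg hS]
      rw [this, zero_mul]
  · intro hh
    exact absurd (Finset.mem_univ _) hh

private theorem HW_mul (hu : 1 < (u : ℝ)) {a : ℕ} {X Y : Matrix (Ix a) (Ix a) ℝ}
    (hX : (UQ u hu a).Com X) (hY : (UQ u hu a).Com Y) {t : ℤ} {x : Ix a → ℝ}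
    (hx : (UQ u hu a).HW t x) : (UQ u hu a).HW t ((X * Y) *ᵥ x) := hx.com (hX.mul hY)

/-- `s1 s2 f = β g` -/
private theorem s12_fL (hu : 1 < (u : ℝ)) {a m j : ℕ} (hm : m ≤ a) (hj : j ≤ a)
    (hj' : j + 2 * m ≤ 2 * a) :
    (s1 u a * s2 u a) *ᵥ fL u a m j =
      (pw u ((a : ℤ) * (2 * a - 2 * (m + j : ℕ))) * hc u (2 * a - 2 * m) a j j) •
        gR u a m j := by
  set β := pw u ((a : ℤ) * (2 * a - 2 * (m + j : ℕ))) * hc u (2 * a - 2 * m) a j j with hβ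
  have hC : (((2 * a - 2 * m : ℕ) : ℤ)) = 2 * (a : ℤ) - 2 * m := by
    push_cast [Nat.cast_sub (by omega : 2 * m ≤ 2 * a)]
    ring
  have hum : (VVQ u hu a).HW ((2 * a - 2 * m : ℕ) : ℤ) (um u a m) := by
    have h := um_hw hu hm
    rwa [← hC] at h
  have hf := HW_mul hu (com_s1 hu a) (com_s2 hu a) (fL_hw hu hm hj hj')
  have hg := gR_hw hu hm hj hj'
  have hd := hf.add (hg.smul (-β))
  have h0 := hw_zero hu a _ hd.E ?_
  · have : (s1 u a * s2 u a) *ᵥ fL u a m j =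
        ((s1 u a * s2 u a) *ᵥ fL u a m j + (-β) • gR u a m j) + β • gR u a m j := by
      rw [neg_smul]
      abel
    rw [this, h0, zero_add]
  · rintro ⟨p, q⟩
    rw [Pi.add_apply, Pi.smul_apply, ← Matrix.mulVec_mulVec, s1_zero, s2_zero]
    have e1 : fL u a m j (p, q, 0) = hc u (2 * a - 2 * m) a j j *
        fd u (vvF u a) j (um u a m) (p, q) := by
      show (if (((0 : Fin (a + 1)) : ℕ)) ≤ j then hc u (2 * a - 2 * m) a j
        (j - ((0 : Fin (a + 1)) : ℕ)) * fd u (vvF u a) (j - ((0 : Fin (a + 1)) : ℕ))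
          (um u a m) (p, q) else 0) = _
      rw [Fin.val_zero, if_pos (Nat.zero_le _), Nat.sub_zero]
    have e2 : gR u a m j (0, p, q) = fd u (vvF u a) j (um u a m) (p, q) := by
      show (if (((0 : Fin (a + 1)) : ℕ)) ≤ j then hc u a (2 * a - 2 * m) j
        ((0 : Fin (a + 1)) : ℕ) * fd u (vvF u a) (j - ((0 : Fin (a + 1)) : ℕ))
          (um u a m) (p, q) else 0) = _
      rw [Fin.val_zero, if_pos (Nat.zero_le _), Nat.sub_zero]
      exact one_mul _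
    rw [e1, e2]
    by_cases h : (p : ℕ) + q = m + j
    · have e3 : (a : ℤ) * ((a : ℤ) - 2 * (p : ℕ)) + (a : ℤ) * ((a : ℤ) - 2 * (q : ℕ)) =
          (a : ℤ) * (2 * a - 2 * (m + j : ℕ)) := by
        rw [← h]
        push_cast
        ring
      rw [hβ, ← e3, pw_add]
      simp only [smul_eq_mul]
      ring
    · have h3 : fd u (vvF u a) j (um u a m) (p, q) = 0 := by
        refine fd_wt (VVQ u hu a) hum.wt j (p, q) ?_
        intro he
        apply h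
        have h4 : (VVQ u hu a).wt (p, q) = ((a : ℤ) - 2 * (p : ℕ)) + ((a : ℤ) - 2 * (q : ℕ)) :=
          rfl
        rw [h4, hC] at he
        have h5 : ((p : ℕ) : ℤ) + (q : ℕ) = m + j := by linarith
        exact_mod_cast h5
      rw [h3]
      simp

/-- `s2 s1 g = α f` -/
private theorem s21_gR (hu : 1 < (u : ℝ)) {a m j : ℕ} (hm : m ≤ a) (hj : j ≤ a)
    (hj' : j + 2 * m ≤ 2 * a) :
    (s2 u a * s1 u a) *ᵥ gR u a m j =
      (pw u (((a : ℤ) - 2 * j) * (2 * a - 2 * m)) * hc u a (2 * a - 2 * m) j j) •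
        fL u a m j := by
  set α := pw u (((a : ℤ) - 2 * j) * (2 * a - 2 * m)) * hc u a (2 * a - 2 * m) j j with hα
  have hC : (((2 * a - 2 * m : ℕ) : ℤ)) = 2 * (a : ℤ) - 2 * m := by
    push_cast [Nat.cast_sub (by omega : 2 * m ≤ 2 * a)]
    ring
  have hg := HW_mul hu (com_s2 hu a) (com_s1 hu a) (gR_hw hu hm hj hj')
  have hcj : hc u a (2 * a - 2 * m) j j ≠ 0 := by
    have h := hc_ne hu (b := a) (b' := 2 * a - 2 * m) (m := j) (i := j) (by omega) hj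
    rwa [hC] at h
  have hα0 : α ≠ 0 := mul_ne_zero (pw_pos hu _).ne' hcj
  have hco : ((s2 u a * s1 u a) *ᵥ gR u a m j) (0, ⟨m, by omega⟩, ⟨j, by omega⟩) = α := by
    rw [s21_top a j (by omega) (gR u a m j) ?_ 0 ⟨m, by omega⟩]
    · have e1 : gR u a m j (⟨j, by omega⟩, 0, ⟨m, by omega⟩) =
          hc u a (2 * a - 2 * m) j j := by
        show (if j ≤ j then hc u a (2 * a - 2 * m) j j *
          fd u (vvF u a) (j - j) (um u a m) (0, ⟨m, by omega⟩) else 0) = _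
        rw [if_pos le_rfl, Nat.sub_self, fd_zero, um_zero a m (by omega), mul_one]
      rw [e1, hα]
      congr 2
      simp
    · intro p hp y
      show (if (p : ℕ) ≤ j then _ else (0 : ℝ)) = 0
      rw [if_neg (by omega)]
  have hx0 : (s2 u a * s1 u a) *ᵥ gR u a m j ≠ 0 := by
    intro h
    rw [h] at hco
    exact hα0 hco.symm
  have hmul : s1 u a *ᵥ ((s2 u a * s1 u a) *ᵥ gR u a m j) =
      lam u a m • ((s2 u a * s1 u a) *ᵥ gR u a m j) := by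
    rw [Matrix.mulVec_mulVec, ← Matrix.mul_assoc, ybe hu a, ← Matrix.mulVec_mulVec,
      s2_gR hu hm, Matrix.mulVec_smul]
  obtain ⟨-, -, -, c, hc'⟩ := fL_uniq hu hm (k := m + j) hx0 hg hmul
  rw [Nat.add_sub_cancel_left] at hc'
  rw [hc'] at hco ⊢
  have e2 : fL u a m j (0, ⟨m, by omega⟩, ⟨j, by omega⟩) = 1 := by
    show (if j ≤ j then hc u (2 * a - 2 * m) a j (j - j) *
      fd u (vvF u a) (j - j) (um u a m) (0, ⟨m, by omega⟩) else 0) = _
    rw [if_pos le_rfl, Nat.sub_self, fd_zero, um_zero a m (by omega), mul_one]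
    rfl
  rw [Pi.smul_apply, e2, smul_eq_mul, mul_one] at hco
  rw [hco]

theorem twist_fL (hu : 1 < (u : ℝ)) {a m j : ℕ} (hm : m ≤ a) (hj : j ≤ a)
    (hj' : j + 2 * m ≤ 2 * a) :
    (s1 u a * s2 u a) ^ 3 *ᵥ fL u a m j = eta u a (m + j) • fL u a m j := by
  have hC : (((2 * a - 2 * m : ℕ) : ℤ)) = 2 * (a : ℤ) - 2 * m := by
    push_cast [Nat.cast_sub (by omega : 2 * m ≤ 2 * a)]
    ring
  have h1 : (s1 u a * s2 u a) ^ 3 =
      (s2 u a * s1 u a) * (s2 u a * ((s1 u a * s2 u a) * s1 u a)) := by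
    have hy := ybe hu a
    calc (s1 u a * s2 u a) ^ 3
        = (s1 u a * s2 u a * s1 u a) * (s2 u a * s1 u a * s2 u a) := by
          simp only [pow_succ, pow_zero, one_mul, Matrix.mul_assoc]
      _ = (s2 u a * s1 u a * s2 u a) * (s1 u a * s2 u a * s1 u a) := by rw [hy]
      _ = _ := by simp only [Matrix.mul_assoc]
  have h1' : (s1 u a * s2 u a) ^ 3 *ᵥ fL u a m j = (s2 u a * s1 u a) *ᵥ
      (s2 u a *ᵥ ((s1 u a * s2 u a) *ᵥ (s1 u a *ᵥ fL u a m j))) := by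
    rw [h1]
    simp only [Matrix.mulVec_mulVec, Matrix.mul_assoc]
  rw [h1', s1_fL hu hm, Matrix.mulVec_smul, s12_fL hu hm hj hj']
  simp only [Matrix.mulVec_smul]
  rw [s2_gR hu hm]
  simp only [Matrix.mulVec_smul]
  rw [s21_gR hu hm hj hj']
  simp only [smul_smul]
  congr 1
  have h2 := hc_full hu (b := a) (b' := 2 * a - 2 * m) (m := j) hj (by omega)
  rw [hC] at h2
  have h3 : lam u a m * lam u a m =
      pw u (2 * ((a : ℤ) ^ 2 - 4 * a * m + 2 * (m : ℤ) ^ 2 - 2 * m)) := by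
    rw [lam, two_mul ((a : ℤ) ^ 2 - 4 * a * m + 2 * (m : ℤ) ^ 2 - 2 * m), pw_add]
    have : ((-1 : ℝ) ^ m) * ((-1 : ℝ) ^ m) = 1 := by
      rw [← mul_pow]
      norm_num
    calc ((-1 : ℝ) ^ m * pw u ((a : ℤ) ^ 2 - 4 * a * m + 2 * (m : ℤ) ^ 2 - 2 * m)) *
          ((-1 : ℝ) ^ m * pw u ((a : ℤ) ^ 2 - 4 * a * m + 2 * (m : ℤ) ^ 2 - 2 * m)) =
          (((-1 : ℝ) ^ m) * ((-1 : ℝ) ^ m)) *
          (pw u ((a : ℤ) ^ 2 - 4 * a * m + 2 * (m : ℤ) ^ 2 - 2 * m) *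
          pw u ((a : ℤ) ^ 2 - 4 * a * m + 2 * (m : ℤ) ^ 2 - 2 * m)) := by ring
      _ = _ := by rw [this, one_mul]
  have h4 : lam u a m * (pw u ((a : ℤ) * (2 * a - 2 * (m + j : ℕ))) *
      hc u (2 * a - 2 * m) a j j * (lam u a m *
      (pw u (((a : ℤ) - 2 * j) * (2 * a - 2 * m)) * hc u a (2 * a - 2 * m) j j))) =
      (lam u a m * lam u a m) * (pw u ((a : ℤ) * (2 * a - 2 * (m + j : ℕ))) *
        pw u (((a : ℤ) - 2 * j) * (2 * a - 2 * m))) *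
        (hc u a (2 * a - 2 * m) j j * hc u (2 * a - 2 * m) a j j) := by ring
  refine Eq.trans ?_ (h4.trans ?_)
  · ring
  rw [h3, h2, ← pw_add, ← pw_add, ← pw_add, eta]
  congr 1
  push_cast
  ring

theorem twist_hw (hu : 1 < (u : ℝ)) {a k : ℕ} (h : 2 * k ≤ 3 * a) {x : Ix a → ℝ}
    (hx : (UQ u hu a).HW (3 * (a : ℤ) - 2 * k) x) :
    (s1 u a * s2 u a) ^ 3 *ᵥ x = eta u a k • x := by
  have hon := onb_f hu h
  rw [hon.span x hx, Matrix.mulVec_sum, Finset.smul_sum]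
  refine Finset.sum_congr rfl fun i _ => ?_
  obtain ⟨c1, c2, c3, c4⟩ := chan h i.2
  have h1 : (s1 u a * s2 u a) ^ 3 *ᵥ fN u a k i = eta u a k • fN u a k i := by
    rw [fN, nrm, Matrix.mulVec_smul, twist_fL hu c1 c3 c4]
    have : m0 a k + (i : ℕ) + (k - (m0 a k + (i : ℕ))) = k := by omega
    rw [this, smul_comm]
  rw [Matrix.mulVec_smul, h1, smul_comm]

end Pool.Agent.KT
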