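import Pool.Agent.Work.MP_ab49bb_gt.Lau
import Pool.Agent.Work.MP_ab49bb_gt.Rp

/-!
# Uq (S-M): from `DegNeg` to the statement on all quasi-polynomials

`degneg_conj`: `RDeg_conj` for every `n`. `degneg_ex`: `cj_degree`.
`degneg_all`: let `DegNeg w` with period `P` and coefficients `A, B, C`, and `DegQ w p a b c`, `j < p`. For all large `n ≡ j mod pP` (put `n = j + pP t`, `n % p = j`, `n % P = j % P =: i`): the degree of `cj w n` is one integer `D`, so
`a j n² + 2 b j n + c j = A i n² + 2 B i n + C i`. Two quadratic polynomials which agree at infinitely many (three) points have equal coefficients, so `b j = B i ≤ 0` (`i < P`).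
(Take three values of `t` and use `nlinarith`/`linear_combination`, or compare `Polynomial`s with infinitely many common values: `Polynomial.eq_of_infinite_eval_eq`.)
-/

set_option autoImplicit false

namespace Pool.Agent.KT

theorem degneg_conj {w w' : List Letter} (h : IsConj (bd w) (bd w')) (hD : DegNeg w) :
    DegNeg w' := by
  obtain ⟨p, a, b, c, ⟨hp, N, hN⟩, hb⟩ := hD
  refine ⟨p, a, b, c, ⟨hp, N, fun n hn => ?_⟩, hb⟩
  obtain ⟨D, h1, h2⟩ := hN n hn
  exact ⟨D, RDeg_conj h h1, h2⟩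

theorem degneg_ex {w : List Letter} (hD : DegNeg w) : ∃ p a b c, DegQ w p a b c := by
  obtain ⟨p, a, b, c, ⟨hp, N, hN⟩, hb⟩ := hD
  refine ⟨p, a, b, c, hp, N, fun n hn => ?_⟩
  obtain ⟨D, h1, h2⟩ := hN n hn
  exact ⟨D, cj_degree h1, h2⟩

theorem degneg_all {w : List Letter} (hD : DegNeg w) {p : ℕ} {a b c : ℕ → ℚ}
    (h : DegQ w p a b c) : ∀ j < p, b j ≤ 0 := by
  intro j hj
  obtain ⟨P, A, B, C, ⟨hP, N, hN⟩, hB⟩ := hD
  obtain ⟨hp, N', hN'⟩ := h
  have hm : 0 < p * P := Nat.mul_pos hp hP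
  have key : ∀ k : ℕ, (a j - A (j % P)) * ((j + p * P * (N + N' + k) : ℕ) : ℚ) ^ 2 +
      2 * (b j - B (j % P)) * ((j + p * P * (N + N' + k) : ℕ) : ℚ) + (c j - C (j % P)) = 0 := by
    intro k
    have hn : N + N' + k ≤ j + p * P * (N + N' + k) :=
      (Nat.le_mul_of_pos_left _ hm).trans (Nat.le_add_left _ _)
    obtain ⟨D, h1, h2⟩ := hN (j + p * P * (N + N' + k)) (by omega)
    obtain ⟨D', h3, h4⟩ := hN' (j + p * P * (N + N' + k)) (by omega)
    have e1 : (j + p * P * (N + N' + k)) % p = j := by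
      rw [mul_assoc, Nat.add_mul_mod_self_left, Nat.mod_eq_of_lt hj]
    have e2 : (j + p * P * (N + N' + k)) % P = j % P := by
      rw [mul_comm p P, mul_assoc, Nat.add_mul_mod_self_left]
    rw [cj_degree h1] at h3
    have e3 : D = D' := by exact_mod_cast h3
    rw [e2] at h2
    rw [e1] at h4
    rw [← e3, h2] at h4
    linear_combination -h4
  have hm' : (0 : ℚ) < (p * P : ℕ) := by exact_mod_cast hm
  have k0 := key 0
  have k1 := key 1
  have k2 := key 2
  set m : ℚ := ((p * P : ℕ) : ℚ) with hmdef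
  set n : ℚ := ((j + p * P * (N + N') : ℕ) : ℚ) with hndef
  have c0 : ((j + p * P * (N + N' + 0) : ℕ) : ℚ) = n := by rw [hndef]; simp
  have c1 : ((j + p * P * (N + N' + 1) : ℕ) : ℚ) = n + m := by
    rw [hndef, hmdef]; push_cast; ring
  have c2 : ((j + p * P * (N + N' + 2) : ℕ) : ℚ) = n + 2 * m := by
    rw [hndef, hmdef]; push_cast; ring
  rw [c0] at k0
  rw [c1] at k1
  rw [c2] at k2
  have hα : a j - A (j % P) = 0 := by
    have h1 : (a j - A (j % P)) * (2 * m ^ 2) = 0 := by
      linear_combination k2 - 2 * k1 + k0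
    exact (mul_eq_zero.1 h1).resolve_right (by positivity)
  rw [hα] at k0 k1
  have hβ : b j - B (j % P) = 0 := by
    have h1 : (b j - B (j % P)) * (2 * m) = 0 := by
      linear_combination k1 - k0
    exact (mul_eq_zero.1 h1).resolve_right (by positivity)
  have h5 := hB (j % P) (Nat.mod_lt _ hP)
  linarith

end Pool.Agent.KT
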