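import Pool.Agent.Work.MP_ab49bb_gt.RDefs

/-!
# Z3 (S-M): real matrices with `Z³ = c`

`z3_le`: over `ℂ` the characteristic polynomial splits and the trace is the sum of its roots (`Matrix.trace_eq_sum_roots_charpoly`); every root `μ` is an eigenvalue and satisfies `μ³ = c` (`Z³ = c`), so `|μ| = c^(1/3)` and
`|tr Z| ≤ n c^(1/3)`, where `n` is the size. Cube it. (Map `Z` to `ℂ` with `Complex.ofRealHom`.)
`z3_one`: size `1`: `tr Z ^ 3 = c`. `z3_two` (size `2`, `c > 0`): `Z² = τ Z - δ` (Cayley-Hamilton, explicit: `τ = tr Z`, `δ = det Z`), `Z³ = (τ² - δ) Z - τ δ = c`. If `τ² ≠ δ` then `Z` is a scalar `z` with `z³ = c`, `τ = 2z`, `|τ|³ = 8 c ≥ c`. If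
`τ² = δ` then `-τ³ = c`, `|τ|³ = c`. (Compare the entries of `Z³ = c`.)
-/

set_option autoImplicit false

namespace Pool.Agent.KT

private theorem z3_root {n : ℕ} (Z : Matrix (Fin n) (Fin n) ℂ) {c : ℂ}
    (h : Z ^ 3 = c • (1 : Matrix (Fin n) (Fin n) ℂ)) {μ : ℂ} (hμ : μ ∈ Z.charpoly.roots) :
    μ ^ 3 = c := by
  have h1 : Z.charpoly.eval μ = 0 := Polynomial.isRoot_of_mem_roots hμ
  rw [Matrix.eval_charpoly] at h1
  obtain ⟨v, hv, hv0⟩ := Matrix.exists_mulVec_eq_zero_iff.2 h1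
  have h2 : Z.mulVec v = μ • v := by
    rw [Matrix.sub_mulVec] at hv0
    have h3 : (Matrix.scalar (Fin n) μ).mulVec v = μ • v := by
      rw [Matrix.scalar_apply, ← Matrix.smul_one_eq_diagonal, Matrix.smul_mulVec, Matrix.one_mulVec]
    rw [h3] at hv0
    exact (sub_eq_zero.1 hv0).symm
  have h3 : (Z ^ 3).mulVec v = μ ^ 3 • v := by
    have e1 : Z ^ 3 = Z * (Z * Z) := by
      rw [pow_succ, pow_two, mul_assoc]
    rw [e1, ← Matrix.mulVec_mulVec, ← Matrix.mulVec_mulVec, h2, Matrix.mulVec_smul, h2,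
      Matrix.mulVec_smul, Matrix.mulVec_smul, h2, smul_smul, smul_smul]
    congr 1
    ring
  rw [h, Matrix.smul_mulVec, Matrix.one_mulVec] at h3
  have h4 : (c - μ ^ 3) • v = 0 := by
    rw [sub_smul, h3, sub_self]
  rcases smul_eq_zero.1 h4 with h5 | h5
  · exact (sub_eq_zero.1 h5).symm
  · exact absurd h5 hv

theorem z3_le {n : ℕ} (Z : Matrix (Fin n) (Fin n) ℝ) {c : ℝ} (hc : 0 < c)
    (h : Z ^ 3 = c • (1 : Matrix (Fin n) (Fin n) ℝ)) : |Z.trace| ^ 3 ≤ (n : ℝ) ^ 3 * c := by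
  obtain ⟨W, hW⟩ : ∃ W : Matrix (Fin n) (Fin n) ℂ, W = Complex.ofRealHom.mapMatrix Z := ⟨_, rfl⟩
  have hW3 : W ^ 3 = (c : ℂ) • (1 : Matrix (Fin n) (Fin n) ℂ) := by
    rw [hW, ← map_pow, h]
    ext i j
    by_cases hij : i = j
    · simp [Matrix.one_apply, hij]
    · simp [Matrix.one_apply, hij]
  have htr : W.trace = (Z.trace : ℂ) := by
    rw [hW]
    simp [Matrix.trace]
  obtain ⟨r, hr⟩ : ∃ r : ℝ, r = c ^ ((1 : ℝ) / 3) := ⟨_, rfl⟩
  have hr0 : 0 ≤ r := by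
    rw [hr]
    positivity
  have hr3 : r ^ 3 = c := by
    rw [hr, ← Real.rpow_natCast, ← Real.rpow_mul hc.le]
    norm_num
  have h1 : ∀ μ ∈ W.charpoly.roots, ‖μ‖ ≤ r := by
    intro μ hμ
    have h2 := z3_root W hW3 hμ
    have h3 : ‖μ‖ ^ 3 = r ^ 3 := by
      rw [← norm_pow, h2, hr3, Complex.norm_real, Real.norm_eq_abs, abs_of_pos hc]
    exact le_of_eq ((pow_left_inj₀ (norm_nonneg _) hr0 (by norm_num)).1 h3)
  have h2 : ‖W.trace‖ ≤ n * r := by
    rw [Matrix.trace_eq_sum_roots_charpoly]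
    refine (norm_multiset_sum_le _).trans ?_
    have h3 : ∀ x ∈ (W.charpoly.roots.map fun x => ‖x‖), x ≤ r := by
      intro x hx
      obtain ⟨μ, hμ, rfl⟩ := Multiset.mem_map.1 hx
      exact h1 μ hμ
    refine (Multiset.sum_le_card_nsmul _ _ h3).trans ?_
    rw [Multiset.card_map, nsmul_eq_mul]
    refine mul_le_mul_of_nonneg_right ?_ hr0
    have h4 : Multiset.card W.charpoly.roots ≤ n := by
      refine (Polynomial.card_roots' _).trans (le_of_eq ?_)
      rw [Matrix.charpoly_natDegree_eq_dim, Fintype.card_fin]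
    exact_mod_cast h4
  rw [htr, Complex.norm_real, Real.norm_eq_abs] at h2
  calc |Z.trace| ^ 3 ≤ (n * r) ^ 3 := pow_le_pow_left₀ (abs_nonneg _) h2 3
    _ = (n : ℝ) ^ 3 * c := by rw [mul_pow, hr3]

theorem z3_one (Z : Matrix (Fin 1) (Fin 1) ℝ) {c : ℝ}
    (h : Z ^ 3 = c • (1 : Matrix (Fin 1) (Fin 1) ℝ)) : Z.trace ^ 3 = c := by
  have h1 := congrFun (congrFun h 0) 0
  rw [pow_succ, pow_two] at h1
  simp only [Matrix.mul_apply, Fin.sum_univ_one, Matrix.smul_apply, Matrix.one_apply_eq,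
    smul_eq_mul, mul_one] at h1
  rw [Matrix.trace_fin_one, ← h1]
  ring

theorem z3_two (Z : Matrix (Fin 2) (Fin 2) ℝ) {c : ℝ} (hc : 0 < c)
    (h : Z ^ 3 = c • (1 : Matrix (Fin 2) (Fin 2) ℝ)) : c ≤ |Z.trace| ^ 3 := by
  rw [pow_succ, pow_two] at h
  have h00 := congrFun (congrFun h 0) 0
  have h01 := congrFun (congrFun h 0) 1
  have h10 := congrFun (congrFun h 1) 0
  have h11 := congrFun (congrFun h 1) 1
  simp only [Matrix.mul_apply, Fin.sum_univ_two, Matrix.smul_apply, Matrix.one_apply,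
    smul_eq_mul] at h00 h01 h10 h11
  simp only [if_true, Fin.isValue, zero_ne_one, one_ne_zero, if_false, mul_one, mul_zero]
    at h00 h01 h10 h11
  rw [Matrix.trace_fin_two]
  obtain ⟨a, ha⟩ : ∃ a, a = Z 0 0 := ⟨_, rfl⟩
  obtain ⟨b, hb⟩ : ∃ b, b = Z 0 1 := ⟨_, rfl⟩
  obtain ⟨g, hg⟩ : ∃ g, g = Z 1 0 := ⟨_, rfl⟩
  obtain ⟨e, he⟩ : ∃ e, e = Z 1 1 := ⟨_, rfl⟩
  rw [← ha, ← hb, ← hg, ← he] at h00 h01 h10 h11
  rw [← ha, ← he]
  by_cases hz : a ^ 2 + a * e + e ^ 2 + b * g = 0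
  · have h1 : c = (-(a + e)) ^ 3 := by linear_combination (2 * a + e) * hz - h00
    have h2 : (-(a + e)) ^ 3 ≤ |a + e| ^ 3 := by
      calc (-(a + e)) ^ 3 ≤ |(-(a + e)) ^ 3| := le_abs_self _
        _ = |a + e| ^ 3 := by rw [abs_pow, abs_neg]
    linarith
  · have hb0 : b = 0 := by
      have h1 : b * (a ^ 2 + a * e + e ^ 2 + b * g) = 0 := by linear_combination h01
      rcases mul_eq_zero.1 h1 with h2 | h2
      · exact h2
      · exact absurd h2 hz
    rw [hb0] at h00 h11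
    have ha3 : a ^ 3 = c := by linear_combination h00
    have he3 : e ^ 3 = c := by linear_combination h11
    have ha0 : 0 < a := by
      by_contra hcon
      push Not at hcon
      have : a ^ 3 ≤ 0 := by
        have h1 : a ^ 3 = a * a ^ 2 := by ring
        rw [h1]
        exact mul_nonpos_of_nonpos_of_nonneg hcon (sq_nonneg a)
      linarith
    have he0 : 0 < e := by
      by_contra hcon
      push Not at hcon
      have : e ^ 3 ≤ 0 := by
        have h1 : e ^ 3 = e * e ^ 2 := by ring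
        rw [h1]
        exact mul_nonpos_of_nonpos_of_nonneg hcon (sq_nonneg e)
      linarith
    rw [abs_of_pos (by linarith), ← ha3]
    exact pow_le_pow_left₀ ha0.le (by linarith) 3

end Pool.Agent.KT
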